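import Pool.Agent.Lib.MP_ac5134_an.KX.Defs

/-!
# KX-JCond: conditional form of `RJ`, and elementary facts on `RJ`

PROOF.  The same as in `KH/Cond.lean` (`RI.cond`, `RI.mono`, `RI_two`, `RI_triv`), only simpler: there is no `k` in `RJ`,
omit the part on `kap`.  (`cond_sum`, `kap_sum_nonneg`, `H_sum_nonneg` are in `KH/Cond.lean`.)
-/

open RFold Finset

namespace Pool.Agent.MPac5134.KX

open Pool.Agent.MPac5134.KH

theorem RJ.cond {d N : ℕ} {α C : ℝ} {F : Finset ℕ} (h : RJ d N α C F) {I Ω : Type} [Fintype I]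
    [Fintype Ω] {w : I → ℝ} (hw : ∀ i, 0 ≤ w i) (hw1 : ∑ i, w i = 1) (S : I → LS d Ω)
    (hB : ∀ i ω j, |((S i).B ω j : ℝ)| ≤ N) {γ : Type*} (Cf : I → Ω → γ) {s : ℝ}
    (hs : ∀ t ∈ F, ∑ i, w i * cent (S i).p ((S i).P ((t : ℝ) / N)) (Cf i) ≤ s) :
    ∑ i, w i * cent (S i).p (S i).B (Cf i) ≤ α * s + C := by
  obtain ⟨_, H⟩ := h
  have hp : ∀ i, IsPr (S i).p := fun i => (S i).hp
  rw [← cond_sum (w := w) hp (fun i => (S i).B) Cf]
  refine H (I × Ω) Ω (fun x => w x.1 * (S x.1).p x.2)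
    (fun x => ⟨SD.fib (S x.1).p (Cf x.1) x.2, (S x.1).A, (S x.1).B,
      SD.isPr_fib (hp x.1) (Cf x.1) x.2⟩) s
    (fun x => mul_nonneg (hw x.1) ((hp x.1).nonneg x.2)) ?_ (fun x ω j => hB x.1 ω j) ?_
  · rw [Fintype.sum_prod_type, ← hw1]
    refine sum_congr rfl fun i _ => ?_
    change ∑ y, w i * (S i).p y = w i
    rw [← mul_sum, (hp i).sum_eq, mul_one]
  · intro t ht
    refine le_trans (le_of_eq ?_) (hs t ht)
    exact cond_sum (w := w) hp (fun i => (S i).P ((t : ℝ) / N)) Cf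

theorem RJ.mono {d N : ℕ} {α α' C C' : ℝ} {F : Finset ℕ} (h : RJ d N α C F) (hα : α ≤ α')
    (hC : C ≤ C') : RJ d N α' C' F := by
  obtain ⟨⟨t, ht⟩, H⟩ := h
  refine ⟨⟨t, ht⟩, fun I Ω _ _ w S s hw hw1 hB hs => ?_⟩
  have h1 := H I Ω w S s hw hw1 hB hs
  have s0 : 0 ≤ s := (H_sum_nonneg hw S _).trans (hs t ht)
  have h2 : α * s ≤ α' * s := mul_le_mul_of_nonneg_right hα s0
  linarith

/-- two heights -/
theorem RJ_two {d N : ℕ} (hN : 1 ≤ N) {t u : ℕ} {η : ℝ} (hη : 0 < η) (h1 : η ≤ 1)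
    (ht : sep N η t u) : RJ d N 2 (cst d η) {t, u} := by
  have hN0 : (0 : ℝ) < N := by exact_mod_cast hN
  refine ⟨⟨t, by simp⟩, fun I Ω _ _ w S s hw hw1 hB hs => ?_⟩
  have e1 := hs t (by simp)
  have e2 := hs u (by simp)
  have key : ∀ i, ent (S i).p (S i).B ≤
      (S i).H ((t : ℝ) / N) + (S i).H ((u : ℝ) / N) + cst d η := by
    intro i
    have hp := (S i).hp
    have a1 := ent_le_add hp (fun ω => ((S i).P ((t : ℝ) / N) ω, (S i).P ((u : ℝ) / N) ω)) (S i).B
    have a2 := ent_pair_le hp ((S i).P ((t : ℝ) / N)) ((S i).P ((u : ℝ) / N))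
    have a3 : cent (S i).p (S i).B
        (fun ω => ((S i).P ((t : ℝ) / N) ω, (S i).P ((u : ℝ) / N) ω)) ≤ cst d η := by
      refine cent_near_cst hp _ _ hη ?_
      intro ω ω' _ _ e j
      simp only [Prod.mk.injEq] at e
      have b1 := fl_eq e.1 j
      have b2 := fl_eq e.2 j
      have c1 : (((t : ℝ) - u) / N) * (((S i).B ω j : ℝ) - (S i).B ω' j) =
          (pt ((S i).A ω) ((S i).B ω) ((t : ℝ) / N) j -
            pt ((S i).A ω') ((S i).B ω') ((t : ℝ) / N) j) -
          (pt ((S i).A ω) ((S i).B ω) ((u : ℝ) / N) j -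
            pt ((S i).A ω') ((S i).B ω') ((u : ℝ) / N) j) := by
        unfold pt
        field_simp
        ring
      have c2 : |(((t : ℝ) - u) / N) * (((S i).B ω j : ℝ) - (S i).B ω' j)| ≤ 2 := by
        rw [c1]
        refine (abs_sub _ _).trans ?_
        linarith
      rw [abs_mul, abs_div, abs_of_pos hN0] at c2
      have c3 : η ≤ |(t : ℝ) - u| / N := by
        rw [le_div_iff₀ hN0]
        exact ht
      have c4 : η * |((S i).B ω j : ℝ) - (S i).B ω' j| ≤ 2 :=
        (mul_le_mul_of_nonneg_right c3 (abs_nonneg _)).trans c2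
      rw [le_div_iff₀ (by positivity)]
      have c5 : |((S i).B ω j : ℝ) - (S i).B ω' j| * η ^ 2 =
          η * (η * |((S i).B ω j : ℝ) - (S i).B ω' j|) := by ring
      rw [c5]
      calc η * (η * |((S i).B ω j : ℝ) - (S i).B ω' j|) ≤ 1 * 2 :=
            mul_le_mul h1 c4 (by positivity) zero_le_one
        _ ≤ 10 := by norm_num
    have a4 : (S i).H ((t : ℝ) / N) = ent (S i).p ((S i).P ((t : ℝ) / N)) := rfl
    have a5 : (S i).H ((u : ℝ) / N) = ent (S i).p ((S i).P ((u : ℝ) / N)) := rfl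
    rw [a4, a5]
    linarith
  have key2 : ∑ i, w i * ent (S i).p (S i).B ≤
      ∑ i, w i * (S i).H ((t : ℝ) / N) + ∑ i, w i * (S i).H ((u : ℝ) / N) + cst d η := by
    calc ∑ i, w i * ent (S i).p (S i).B
        ≤ ∑ i, (w i * (S i).H ((t : ℝ) / N) + w i * (S i).H ((u : ℝ) / N) + w i * cst d η) := by
          refine sum_le_sum fun i _ => ?_
          have := mul_le_mul_of_nonneg_left (key i) (hw i)
          linarith
      _ = _ := by
          rw [sum_add_distrib, sum_add_distrib, ← sum_mul, hw1, one_mul]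
  linarith

/-- the trivial inequality -/
theorem RJ_triv {d N : ℕ} {α C : ℝ} (hα : 0 ≤ α) (hC : d * Real.log (2 * N + 1) ≤ C)
    {F : Finset ℕ} (hF : F.Nonempty) : RJ d N α C F := by
  refine ⟨hF, fun I Ω _ _ w S s hw hw1 hB hs => ?_⟩
  obtain ⟨t, ht⟩ := hF
  have s0 : 0 ≤ s := (H_sum_nonneg hw S _).trans (hs t ht)
  have key : ∀ i, ent (S i).p (S i).B ≤ d * Real.log (2 * N + 1) := by
    intro i
    refine (ent_le_log_card (S i).hp _
      (Fintype.piFinset fun _ : Fin d => Icc (-(N : ℤ)) N) ?_).trans (le_of_eq ?_)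
    · intro ω _
      rw [Fintype.mem_piFinset]
      intro j
      rw [mem_Icc]
      have := abs_le.mp (hB i ω j)
      constructor
      · have h1 : ((-(N : ℤ) : ℤ) : ℝ) ≤ ((S i).B ω j : ℝ) := by push_cast; exact this.1
        exact_mod_cast h1
      · have h1 : ((S i).B ω j : ℝ) ≤ ((N : ℤ) : ℝ) := by push_cast; exact this.2
        exact_mod_cast h1
    · have c1 : (Fintype.piFinset fun _ : Fin d => Icc (-(N : ℤ)) N).card = (2 * N + 1) ^ d := by
        rw [Fintype.card_piFinset, prod_const, card_univ, Fintype.card_fin, Int.card_Icc]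
        congr 1
        omega
      rw [c1]
      push_cast
      rw [Real.log_pow]
  calc ∑ i, w i * ent (S i).p (S i).B ≤ ∑ i, w i * (d * Real.log (2 * N + 1)) :=
        sum_le_sum fun i _ => mul_le_mul_of_nonneg_left (key i) (hw i)
    _ = d * Real.log (2 * N + 1) := by rw [← sum_mul, hw1, one_mul]
    _ ≤ C := hC
    _ ≤ α * s + C := by
        have := mul_nonneg hα s0
        linarith

end Pool.Agent.MPac5134.KX
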