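import Pool.Agent.Lib.MP_ac5134_an.KX.CntB

/-!
# KX-Pop: popular parameters `c`, heights `z`, and root triples

PROOF of `pop_cX`: `popular` (KH/Seq) with `S = cr N η`, `K = 5 N / η ^ 2` (`card_cr`), `a = η ^ 3 lam N / 12` (`many_c`);
`a / K = η ^ 5 lam / 60`.
PROOF of `pop_zX`: as `pop_z` in `KH/SelZ.lean`: `Z` = all `z < N` with `sep N η z t₁` and `Rel η t₀ u t₁ c p q z`, at most
`3 / η ^ 3` elements (`mult_z`); `popular` with `a = 1`.
PROOF of `pop_root`: for every `i` the triples `(t₀, u, t₁) ∈ (A i)³` with `sep t₀ t₁`, `sep t₀ u` are at least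
`(81/100) |A i|³ ≥ lam ^ 3 N ^ 3 / 2` many (`nc_sep` for `t = t₀`; `sep` is symmetric); `popular` over `(range N)³` with
`a = lam ^ 3 N ^ 3 / 2`, `K = N ^ 3`.
PROOF of `pop_one`: `popular` over `range N`, `a = lam N`, `K = N`.
-/

open RFold Finset

namespace Pool.Agent.MPac5134.KX

open Pool.Agent.MPac5134.KH

theorem sep_comm {N : ℕ} {η : ℝ} {a b : ℕ} (h : sep N η a b) : sep N η b a := by
  unfold sep at *
  rw [abs_sub_comm]
  exact h

private theorem Pop_pop {ι Y : Type} (I : Finset ι) (hI : I.Nonempty) (S : Finset Y)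
    (r : ι → Y → Prop) {a K : ℝ} (ha : 0 < a) (hK : 0 < K) (hS : (S.card : ℝ) ≤ K)
    (h : ∀ i ∈ I, ∃ T : Finset Y, (∀ y ∈ T, y ∈ S ∧ r i y) ∧ a ≤ (T.card : ℝ)) :
    ∃ y ∈ S, ∃ J : Finset ι, J ⊆ I ∧ (∀ i ∈ J, r i y) ∧ J.Nonempty ∧ a / K * I.card ≤ (J.card : ℝ) := by
  classical
  obtain ⟨y, hy, hcard⟩ := popular I hI S r ha hK hS (fun i hi => by
    obtain ⟨T, hT, hTa⟩ := h i hi
    refine hTa.trans ?_
    have h1 : T.card ≤ (S.filter fun y => r i y).card := by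
      apply Finset.card_le_card
      intro y hy
      rw [Finset.mem_filter]
      exact hT y hy
    have h2 : (T.card : ℝ) ≤ ((S.filter fun y => r i y).card : ℝ) := by exact_mod_cast h1
    convert h2)
  have hIc : (0 : ℝ) < I.card := by
    have : 0 < I.card := Finset.card_pos.2 hI
    exact_mod_cast this
  have hcard' : a / K * I.card ≤ ((I.filter fun i => r i y).card : ℝ) := by convert hcard
  have hpos : (0 : ℝ) < ((I.filter fun i => r i y).card : ℝ) := lt_of_lt_of_le (by positivity) hcard'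
  refine ⟨y, hy, I.filter fun i => r i y, Finset.filter_subset _ _,
    fun i hi => (Finset.mem_filter.1 hi).2, ?_, hcard'⟩
  rw [← Finset.card_pos]
  exact_mod_cast hpos

theorem pop_cX {ι : Type} {N : ℕ} {η lam : ℝ} (h0 : 0 < η) (h1 : η ≤ 1 / 4) (hN : 2 / η ^ 3 ≤ N)
    (hl : 0 < lam) (I : Finset ι) (hI : I.Nonempty) (A : ι → Finset ℕ)
    (hA : ∀ i ∈ I, A i ⊆ range N) (hc : ∀ i ∈ I, lam * N ≤ (A i).card)
    (hNC : ∀ i ∈ I, NC N η (A i)) {t₀ u t₁ : ℕ} (a0 : t₀ < N) (a1 : u < N) (a2 : t₁ < N)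
    (b1 : sep N η t₀ t₁) :
    ∃ (c : ℤ) (J : Finset ι), J ⊆ I ∧ η ^ 5 * lam / 60 * I.card ≤ J.card ∧
      ∀ i ∈ J, XC N η (η ^ 5 * lam ^ 2 / 120) (A i) t₀ u t₁ c := by
  classical
  have hNpos : 0 < N := by omega
  have hNr : (0 : ℝ) < N := by exact_mod_cast hNpos
  have hK : (0 : ℝ) < 5 * N / η ^ 2 := by positivity
  have ha : (0 : ℝ) < η ^ 3 * lam / 12 * N := by positivity
  obtain ⟨c, -, J, hJ, hX, -, hcard⟩ := Pop_pop I hI (cr N η)
    (fun i c => XC N η (η ^ 5 * lam ^ 2 / 120) (A i) t₀ u t₁ c) ha hK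
    (card_cr h0 (by linarith) hNpos)
    (fun i hi => ⟨_, fun y hy => Finset.mem_filter.1 hy,
      many_c h0 h1 hN (hA i hi) (hNC i hi) hl (hc i hi) a0 a1 a2 b1⟩)
  refine ⟨c, J, hJ, ?_, hX⟩
  refine le_trans (le_of_eq ?_) hcard
  field_simp
  ring

theorem pop_zX {ι : Type} {N : ℕ} {η : ℝ} (h0 : 0 < η) (h1 : η ≤ 1) (J : Finset ι)
    (hJ : J.Nonempty) (A : ι → Finset ℕ) (hA : ∀ i ∈ J, A i ⊆ range N) {t₀ u t₁ : ℕ}
    (a2 : t₁ < N) (b2 : sep N η t₀ t₁) {c : ℤ} {p q : ℕ}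
    (h : ∀ i ∈ J, XQ N η (A i) t₀ u t₁ c p q) :
    ∃ (z : ℕ) (J' : Finset ι), J' ⊆ J ∧ η ^ 3 / 3 * J.card ≤ J'.card ∧ sep N η z t₁ ∧
      sep N η z t₀ ∧ Rel η t₀ u t₁ (c : ℝ) p q z ∧ ∀ i ∈ J', z ∈ A i := by
  classical
  obtain ⟨i0, hi0⟩ := hJ
  have b1 : sep N η q t₁ := (h i0 hi0).1
  obtain ⟨S, hS⟩ : ∃ S : Finset ℕ, S = (range N).filter fun z : ℕ =>
      sep N η z t₁ ∧ Rel η t₀ u t₁ (c : ℝ) p q z := ⟨_, rfl⟩
  have hScard : (S.card : ℝ) ≤ 3 / η ^ 3 := by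
    refine mult_z (c := (c : ℝ)) (u := u) (p := p) h0 h1 a2 b1 b2 S fun z hz => ?_
    rw [hS, Finset.mem_filter, Finset.mem_range] at hz
    exact hz
  have hK : (0 : ℝ) < 3 / η ^ 3 := by positivity
  obtain ⟨z, -, J', hJ', hX, ⟨i1, hi1⟩, hcard⟩ := Pop_pop J ⟨i0, hi0⟩ S
    (fun i z => z ∈ A i ∧ sep N η z t₁ ∧ sep N η z t₀ ∧ Rel η t₀ u t₁ (c : ℝ) p q z) one_pos hK hScard
    (fun i hi => by
      obtain ⟨-, z, hz, k1, k2, k3⟩ := h i hi
      refine ⟨{z}, ?_, by simp⟩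
      intro y hy
      rw [Finset.mem_singleton] at hy
      subst hy
      rw [hS, Finset.mem_filter]
      exact ⟨⟨hA i hi hz, k1, k3⟩, hz, k1, k2, k3⟩)
  obtain ⟨-, k1, k2, k3⟩ := hX i1 hi1
  refine ⟨z, J', hJ', ?_, k1, k2, k3, fun i hi => (hX i hi).1⟩
  refine le_trans (le_of_eq ?_) hcard
  rw [one_div_div]

theorem pop_root {ι : Type} {N : ℕ} {η lam : ℝ} (hN : 1 ≤ N) (hl : 0 < lam) (I : Finset ι)
    (hI : I.Nonempty) (A : ι → Finset ℕ) (hA : ∀ i ∈ I, A i ⊆ range N)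
    (hc : ∀ i ∈ I, lam * N ≤ (A i).card) (hNC : ∀ i ∈ I, NC N η (A i)) :
    ∃ (t₀ u t₁ : ℕ) (J : Finset ι), J ⊆ I ∧ lam ^ 3 / 2 * I.card ≤ J.card ∧ sep N η t₀ t₁ ∧
      sep N η t₀ u ∧ ∀ i ∈ J, t₀ ∈ A i ∧ u ∈ A i ∧ t₁ ∈ A i := by
  classical
  have hNr : (0 : ℝ) < N := by exact_mod_cast hN
  have hK : (0 : ℝ) < (N : ℝ) ^ 3 := by positivity
  have ha : (0 : ℝ) < lam ^ 3 * N ^ 3 / 2 := by positivity
  obtain ⟨⟨t₀, u, t₁⟩, -, J, hJ, hX, ⟨i1, hi1⟩, hcard⟩ := Pop_pop I hI (range N ×ˢ range N ×ˢ range N)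
    (fun i (x : ℕ × ℕ × ℕ) => (x.1 ∈ A i ∧ x.2.1 ∈ A i ∧ x.2.2 ∈ A i) ∧ sep N η x.1 x.2.2 ∧
      sep N η x.1 x.2.1) ha hK
    (by
      rw [Finset.card_product, Finset.card_product, Finset.card_range]
      push_cast
      exact le_of_eq (by ring))
    (fun i hi => by
      have hn : ∀ t : ℕ, ∃ T : Finset ℕ, (∀ x ∈ T, x ∈ A i ∧ sep N η x t) ∧
          9 / 10 * ((A i).card : ℝ) ≤ (T.card : ℝ) := fun t =>
        ⟨_, fun x hx => Finset.mem_filter.1 hx, nc_sep (hNC i hi) t⟩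
      choose T hT hTc using hn
      refine ⟨((A i).sigma fun t => T t ×ˢ T t).image fun x : (Σ _ : ℕ, ℕ × ℕ) => (x.1, x.2.1, x.2.2),
        ?_, ?_⟩
      · intro y hy
        obtain ⟨⟨t, x, y⟩, hx, rfl⟩ := Finset.mem_image.1 hy
        rw [Finset.mem_sigma, Finset.mem_product] at hx
        obtain ⟨k1, k2, k3⟩ := hx
        obtain ⟨k4, k5⟩ := hT t x k2
        obtain ⟨k6, k7⟩ := hT t y k3
        refine ⟨?_, ⟨k1, k4, k6⟩, sep_comm k7, sep_comm k5⟩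
        rw [Finset.mem_product, Finset.mem_product]
        exact ⟨hA i hi k1, hA i hi k4, hA i hi k6⟩
      · rw [Finset.card_image_of_injective]
        swap
        · rintro ⟨t, x, y⟩ ⟨t', x', y'⟩ hxy
          simp only [Prod.mk.injEq] at hxy
          obtain ⟨rfl, rfl, rfl⟩ := hxy
          rfl
        rw [Finset.card_sigma]
        push_cast
        have h3 : ∀ t ∈ A i, (9 / 10 * ((A i).card : ℝ)) ^ 2 ≤ ((T t ×ˢ T t).card : ℝ) := by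
          intro t _
          rw [Finset.card_product]
          push_cast
          rw [← sq]
          exact pow_le_pow_left₀ (by positivity) (hTc t) 2
        refine le_trans ?_ (Finset.sum_le_sum h3)
        rw [Finset.sum_const, nsmul_eq_mul]
        have h4 : (lam * N) ^ 3 ≤ ((A i).card : ℝ) ^ 3 := pow_le_pow_left₀ (by positivity) (hc i hi) 3
        have h5 : (0 : ℝ) ≤ ((A i).card : ℝ) ^ 3 := by positivity
        have h6 : lam ^ 3 * (N : ℝ) ^ 3 = (lam * N) ^ 3 := by ring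
        have h7 : ((A i).card : ℝ) * (9 / 10 * ((A i).card : ℝ)) ^ 2 = 81 / 100 * ((A i).card : ℝ) ^ 3 := by ring
        rw [h6, h7]
        linarith)
  obtain ⟨-, k1, k2⟩ := hX i1 hi1
  refine ⟨t₀, u, t₁, J, hJ, ?_, k1, k2, fun i hi => (hX i hi).1⟩
  refine le_trans (le_of_eq ?_) hcard
  field_simp

theorem pop_one {ι : Type} {N : ℕ} {lam : ℝ} (hN : 1 ≤ N) (hl : 0 < lam) (I : Finset ι)
    (hI : I.Nonempty) (A : ι → Finset ℕ) (hA : ∀ i ∈ I, A i ⊆ range N)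
    (hc : ∀ i ∈ I, lam * N ≤ (A i).card) :
    ∃ (t : ℕ) (J : Finset ι), J ⊆ I ∧ lam * I.card ≤ J.card ∧ ∀ i ∈ J, t ∈ A i := by
  classical
  have hNr : (0 : ℝ) < N := by exact_mod_cast hN
  obtain ⟨t, -, J, hJ, hX, -, hcard⟩ := Pop_pop I hI (range N) (fun i t => t ∈ A i)
    (show (0 : ℝ) < lam * N by positivity) hNr (by rw [Finset.card_range])
    (fun i hi => ⟨A i, fun y hy => ⟨hA i hi hy, hy⟩, hc i hi⟩)
  refine ⟨t, J, hJ, ?_, hX⟩
  refine le_trans (le_of_eq ?_) hcard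
  field_simp

end Pool.Agent.MPac5134.KX
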