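import Pool.Agent.Lib.MP_ac5134_an.KX.Loss
import Pool.Agent.Lib.MP_ac5134_an.KX.Pop
import Pool.Agent.Lib.MP_ac5134_an.KX.JCond

/-!
# KX-Base: `Sel2` for `α = 2`

PROOF.  `k = 2`, `C = 3` (any).  For `d`: `Γ = 6 d + 2`.  `pop_root` gives `t₀, t₁` with `sep N η t₀ t₁`, `η = et q`, in `A i` for
`i ∈ J`, loss `lam ^ 3 / 2 ≥ ls 2 m q 3 lam`; `F = {t₀, t₁}`, `RJ_two`, `cst_et` with `j = 1`; `L d log (1 / lam) ≥ 0`.
`sel2_mono`: `RJ.mono`.
-/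

open RFold Finset

namespace Pool.Agent.MPac5134.KX

open Pool.Agent.MPac5134.KH

theorem base {L : ℝ} (hL : 0 ≤ L) : ∃ k C : ℕ, Sel2 2 L k C := by
  refine ⟨2, 3, fun d => ⟨6 * d + 2, by omega, ?_⟩⟩
  intro N m q lam ι I A hN hq _ hl hl1 hI hA hc hNC
  obtain ⟨t₀, u, t₁, J, hJ, hcard, h01, -, hmem⟩ := pop_root hN hl I hI A hA hc hNC
  have hq1 : 1 ≤ q := by omega
  refine ⟨{t₀, t₁}, J, hJ, ?_, Finset.card_le_two, fun i hi x hx => ?_, ?_⟩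
  · refine le_trans (mul_le_mul_of_nonneg_right ?_ (Nat.cast_nonneg _)) hcard
    unfold ls
    have h1 : (2 : ℝ) ≤ ((6 * d + 2 : ℕ) : ℝ) := by
      push_cast
      linarith [Nat.cast_nonneg (α := ℝ) d]
    have h2 : (1 : ℝ) ≤ q := by exact_mod_cast hq1
    have h3 : (2 : ℝ) ≤ ((6 * d + 2 : ℕ) : ℝ) ^ (m + 1) := by
      rw [pow_succ]
      have h4 : (1 : ℝ) ≤ ((6 * d + 2 : ℕ) : ℝ) ^ m := one_le_pow₀ (by linarith)
      nlinarith
    have h5 : (1 : ℝ) ≤ (q : ℝ) ^ (6 * d + 2) := one_le_pow₀ h2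
    refine div_le_div_of_nonneg_left (pow_nonneg hl.le _) two_pos ?_
    nlinarith
  · rw [Finset.mem_insert, Finset.mem_singleton] at hx
    obtain ⟨k1, -, k2⟩ := hmem i hi
    rcases hx with rfl | rfl
    · exact k1
    · exact k2
  · have h1 := RJ_two (d := d) hN (et_pos hq1) ((et_le hq).trans (by norm_num)) h01
    refine h1.mono le_rfl ?_
    have h2 := cst_et (m := m) d hq 1
    rw [pow_one] at h2
    have h3 : er (d * (4 + 2 * 1)) m q ≤ er (6 * d + 2) m q := er_mono hq1 (by omega)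
    have h4 : 0 ≤ Real.log (1 / lam) := Real.log_nonneg (by rw [le_div_iff₀ hl]; linarith)
    have h5 : 0 ≤ L * d * Real.log (1 / lam) := by positivity
    linarith

theorem sel2_mono {α β L : ℝ} {k C : ℕ} (h : Sel2 α L k C) (hαβ : α ≤ β) : Sel2 β L k C := by
  intro d
  obtain ⟨Γ, hΓ, H⟩ := h d
  refine ⟨Γ, hΓ, ?_⟩
  intro N m q lam ι I A hN hq hm hl hl1 hI hA hc hNC
  obtain ⟨F, J, k1, k2, k3, k4, k5⟩ := H N m q lam ι I A hN hq hm hl hl1 hI hA hc hNC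
  exact ⟨F, J, k1, k2, k3, k4, k5.mono hαβ le_rfl⟩

end Pool.Agent.MPac5134.KX
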