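import Pool.Agent.Lib.MP_ac5134_an.KX.Defs
import Pool.Agent.Lib.MP_ac5134_an.KH.GStA

/-!
# KX-CntA: sets which are not concentrated have many good triples `(c, p, q)`

PROOF of `nc_sep`: the elements of `A` near `t` are at most `|A| / 10` (`NC`), take the complement (and for two heights
the union of the two exceptional sets).

PROOF of `many_triples`.  `η ≤ 1/4`.  `P₀ = {p ∈ A | sep p t₀, sep p u}`, `Z₀ = {z ∈ A | sep z t₁, sep z t₀}`,
`Q₀ = {q ∈ A | sep q t₁}` have at least `(8/10) |A|`, `(8/10) |A|`, `(9/10) |A|` elements, so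
`P₀ × Z₀ × Q₀` has at least `|A|³ / 2` elements.  For each `(p, z, q)` there is `c ∈ cr N η` with
`η ^ 3 / 2 * N ≤ |c|` and `Rel η t₀ u t₁ c p q z` (`exists_c`, as `2 / η ^ 3 ≤ N`), and
`η ^ 4 ≤ η ^ 3 / 2`.  The map `(p, z, q) ↦ (c, p, q)` has fibres of at most `3 / η ^ 3` elements (`mult_z`), so
the set `X` of all `(c, p, q)` with `c ∈ cr N η`, `η ^ 4 * N ≤ |c|`, `p ∈ P₀`, `q ∈ A`, `XQ N η A t₀ u t₁ c p q` has
at least `η ^ 3 |A|³ / 6` elements.  (Compare `KH/GStA.lean`, where the same is done.)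
-/

open RFold Finset

namespace Pool.Agent.MPac5134.KX

open Pool.Agent.MPac5134.KH

open Classical in
theorem nc_sep {N : ℕ} {η : ℝ} {A : Finset ℕ} (h : NC N η A) (t : ℕ) :
    9 / 10 * (A.card : ℝ) ≤ ((A.filter fun x : ℕ => sep N η x t).card : ℝ) := by
  have h1 := h t (A.filter fun x : ℕ => ¬ sep N η x t) (filter_subset _ _)
    (fun b hb => (mem_filter.1 hb).2)
  have h2 : (A.filter fun x : ℕ => sep N η x t).card +
      (A.filter fun x : ℕ => ¬ sep N η x t).card = A.card :=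
    card_filter_add_card_filter_not _
  have h3 : ((A.filter fun x : ℕ => sep N η x t).card : ℝ) +
      ((A.filter fun x : ℕ => ¬ sep N η x t).card : ℝ) = A.card := by exact_mod_cast h2
  linarith

open Classical in
theorem nc_sep2 {N : ℕ} {η : ℝ} {A : Finset ℕ} (h : NC N η A) (t u : ℕ) :
    8 / 10 * (A.card : ℝ) ≤ ((A.filter fun x : ℕ => sep N η x t ∧ sep N η x u).card : ℝ) := by
  have c1 := h t (A.filter fun x : ℕ => ¬ sep N η x t) (filter_subset _ _)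
    (fun b hb => (mem_filter.1 hb).2)
  have c2 := h u (A.filter fun x : ℕ => ¬ sep N η x u) (filter_subset _ _)
    (fun b hb => (mem_filter.1 hb).2)
  have hsub : A ⊆ ((A.filter fun p => sep N η p t ∧ sep N η p u) ∪
      (A.filter fun p => ¬ sep N η p t)) ∪ (A.filter fun p => ¬ sep N η p u) := by
    intro x hx
    simp only [mem_union, mem_filter]
    tauto
  have h3 := (card_le_card hsub).trans ((card_union_le _ _).trans
    (Nat.add_le_add_right (card_union_le _ _) _))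
  have h4 : (A.card : ℝ) ≤ ((A.filter fun p => sep N η p t ∧ sep N η p u).card : ℝ) +
      ((A.filter fun p => ¬ sep N η p t).card : ℝ) +
      ((A.filter fun p => ¬ sep N η p u).card : ℝ) := by exact_mod_cast h3
  linarith

open Classical in
theorem many_triples {N : ℕ} {η : ℝ} (h0 : 0 < η) (h1 : η ≤ 1 / 4) (hN : 2 / η ^ 3 ≤ N)
    {A : Finset ℕ} (hA : A ⊆ range N) (hNC : NC N η A) {t₀ u t₁ : ℕ} (a0 : t₀ < N) (a1 : u < N)
    (a2 : t₁ < N) (b1 : sep N η t₀ t₁) :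
    η ^ 3 * (A.card : ℝ) ^ 3 / 6 ≤ (((cr N η ×ˢ A ×ˢ A).filter fun x : ℤ × ℕ × ℕ =>
      η ^ 4 * N ≤ |(x.1 : ℝ)| ∧ sep N η x.2.1 t₀ ∧ sep N η x.2.1 u ∧
        XQ N η A t₀ u t₁ x.1 x.2.1 x.2.2).card : ℝ) := by
  have hNlt : ∀ {x : ℕ}, x ∈ A → x < N := fun h => mem_range.1 (hA h)
  have hη1 : η ≤ 1 := by linarith
  have hP := nc_sep2 hNC t₀ u
  have hZ := nc_sep2 hNC t₁ t₀
  have hQ := nc_sep hNC t₁
  set P := A.filter (fun p => sep N η p t₀ ∧ sep N η p u) with hPdef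
  set Z := A.filter (fun z => sep N η z t₁ ∧ sep N η z t₀) with hZdef
  set Q := A.filter (fun q => sep N η q t₁) with hQdef
  set W := Z ×ˢ Q with hWdef
  have memP : ∀ x : ℕ, x ∈ P → x ∈ A ∧ sep N η x t₀ ∧ sep N η x u := by
    intro x hx
    rw [hPdef, mem_filter] at hx
    exact hx
  have memW : ∀ x : ℕ × ℕ, x ∈ W → (x.1 ∈ A ∧ sep N η x.1 t₁ ∧ sep N η x.1 t₀) ∧
      (x.2 ∈ A ∧ sep N η x.2 t₁) := by
    intro x hx
    rw [hWdef, mem_product, hZdef, hQdef, mem_filter, mem_filter] at hx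
    exact hx
  have hex : ∀ x ∈ P ×ˢ W, ∃ c : ℤ, (c ∈ cr N η ∧ η ^ 4 * N ≤ |(c : ℝ)|) ∧
      Rel η t₀ u t₁ (c : ℝ) x.1 x.2.2 x.2.1 := by
    intro x hx
    rw [mem_product] at hx
    obtain ⟨p1, p2, p3⟩ := memP _ hx.1
    obtain ⟨⟨w1, w2, w3⟩, w4, w5⟩ := memW _ hx.2
    obtain ⟨c, hc, hc2, hc3⟩ := exists_c h0 hη1 hN a0 a1 a2 (hNlt p1) (hNlt w4) (hNlt w1)
      w3 w2 w5 p2 p3
    refine ⟨c, ⟨hc, le_trans ?_ hc2⟩, hc3⟩
    have e1 : η ^ 4 ≤ η ^ 3 / 2 := by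
      have h3 : 0 < η ^ 3 := by positivity
      have e : η ^ 4 = η ^ 3 * η := by ring
      rw [e]
      nlinarith
    have hN0 : (0 : ℝ) ≤ N := Nat.cast_nonneg N
    gcongr
  choose! cc hcc hcr using hex
  let F : ℕ × (ℕ × ℕ) → ℤ × (ℕ × ℕ) := fun x => (cc x, (x.1, x.2.2))
  set R := (cr N η ×ˢ A ×ˢ A).filter fun x : ℤ × ℕ × ℕ =>
      η ^ 4 * N ≤ |(x.1 : ℝ)| ∧ sep N η x.2.1 t₀ ∧ sep N η x.2.1 u ∧
        XQ N η A t₀ u t₁ x.1 x.2.1 x.2.2 with hRdef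
  have hFR : (P ×ˢ W).image F ⊆ R := by
    intro y hy
    obtain ⟨x, hx, rfl⟩ := mem_image.1 hy
    have hx' := hx
    obtain ⟨hxP, hxW⟩ := mem_product.1 hx
    obtain ⟨p1, p2, p3⟩ := memP _ hxP
    obtain ⟨⟨w1, w2, w3⟩, w4, w5⟩ := memW _ hxW
    rw [hRdef, mem_filter]
    refine ⟨mem_product.2 ⟨(hcc x hx').1, mem_product.2 ⟨p1, w4⟩⟩, (hcc x hx').2, p2, p3, ?_⟩
    exact ⟨w5, x.2.1, w1, w2, w3, hcr x hx'⟩
  have hfib : ∀ y ∈ (P ×ˢ W).image F, ((P ×ˢ W).filter fun x => F x = y).card ≤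
      ⌊3 / η ^ 3⌋₊ := by
    intro y hy
    obtain ⟨x₀, hx₀, rfl⟩ := mem_image.1 hy
    have hw₀ := memW _ (mem_product.1 hx₀).2
    apply Nat.le_floor
    set Y := ((P ×ˢ W).filter fun x => F x = F x₀).image (fun x => x.2.1) with hY
    have hinj : Set.InjOn (fun x : ℕ × (ℕ × ℕ) => x.2.1)
        (((P ×ˢ W).filter fun x => F x = F x₀) : Finset (ℕ × (ℕ × ℕ))) := by
      intro a ha b hb hab
      rw [mem_coe, mem_filter] at ha hb
      have e : F a = F b := ha.2.trans hb.2.symm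
      simp only [F, Prod.mk.injEq] at e
      have hab' : a.2.1 = b.2.1 := hab
      exact Prod.ext e.2.1 (Prod.ext hab' e.2.2)
    rw [← card_image_of_injOn hinj, ← hY]
    refine mult_z (u := u) (p := x₀.1) (q := x₀.2.2) (c := (cc x₀ : ℝ)) h0 hη1 a2
      hw₀.2.2 b1 Y ?_
    intro z hz
    rw [hY, mem_image] at hz
    obtain ⟨x, hx, rfl⟩ := hz
    rw [mem_filter] at hx
    obtain ⟨hx1, hx2⟩ := hx
    have hr := hcr x hx1
    simp only [F, Prod.mk.injEq] at hx2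
    rw [hx2.1, hx2.2.1, hx2.2.2] at hr
    have hw := memW _ (mem_product.1 hx1).2
    exact ⟨hNlt hw.1.1, hw.1.2.1, hr⟩
  have hcount := card_le_mul_card_image (P ×ˢ W) _ hfib
  have hcount2 : ((P ×ˢ W).card : ℝ) ≤ 3 / η ^ 3 * (R.card : ℝ) := by
    have e1 : ((P ×ˢ W).card : ℝ) ≤ (⌊3 / η ^ 3⌋₊ : ℝ) * ((P ×ˢ W).image F).card := by
      exact_mod_cast hcount
    have e2 : (⌊3 / η ^ 3⌋₊ : ℝ) ≤ 3 / η ^ 3 := Nat.floor_le (by positivity)
    have e3 : (((P ×ˢ W).image F).card : ℝ) ≤ R.card := by exact_mod_cast card_le_card hFR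
    calc _ ≤ _ := e1
      _ ≤ _ := by gcongr
  rw [card_product, hWdef, card_product] at hcount2
  push_cast at hcount2
  have hA0 : (0 : ℝ) ≤ A.card := Nat.cast_nonneg _
  have hPW : 8 / 10 * (A.card : ℝ) * (8 / 10 * (A.card : ℝ) * (9 / 10 * (A.card : ℝ))) ≤
      (P.card : ℝ) * (Z.card * Q.card) := by gcongr
  have h15 : 0 < η ^ 3 := by positivity
  have e4 := hPW.trans hcount2
  rw [show 3 / η ^ 3 * (R.card : ℝ) = (3 * (R.card : ℝ)) / η ^ 3 by ring, le_div_iff₀ h15] at e4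
  have e5 : 0 ≤ (A.card : ℝ) ^ 3 * η ^ 3 := by positivity
  nlinarith

end Pool.Agent.MPac5134.KX
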