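import Pool.Agent.Lib.MP_ac5134_an.KX.CntA

/-!
# KX-CntB: sets which are not concentrated have many good parameters `c`

PROOF.  Let `X` be the set of `many_triples`, `|X| ≥ a = η ^ 3 |A|³ / 6`.  `f c` = number of pairs `(p, q)` with
`(c, p, q) ∈ X`, `f c ≤ |A|²`, the number of `c ∈ cr N η` is at most `5 N / η ^ 2` (`card_cr`).  `pig` (KH/RelA) with
`B = |A|²`, `K = 5 N / η ^ 2`: at least `a / (2 B) = η ^ 3 |A| / 12` of the `c ∈ cr N η` have
`f c ≥ a / (2 K) = η ^ 5 |A|³ / (60 N)` (this is positive, so `η ^ 4 * N ≤ |c|` for them).  For such a `c` let `g p` =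
number of `q` with `(c, p, q) ∈ X`, `p ∈ A`: `g p ≤ |A|`, `∑ g = f c`; `pig` with `B = K = |A|`: at least
`f c / (2 |A|) ≥ η ^ 5 |A|² / (120 N) ≥ θ N` of the `p ∈ A` have `g p ≥ f c / (2 |A|) ≥ θ N`, with
`θ = η ^ 5 lam ^ 2 / 120` (as `|A| ≥ lam N`); `g p > 0` gives `sep p t₀`, `sep p u`, and `g p` is at most the number of `q`
in `XP`.
-/

open RFold Finset

namespace Pool.Agent.MPac5134.KX

open Pool.Agent.MPac5134.KH

private theorem cfp {α β : Type} (s : Finset α) (t : Finset β) (P : α × β → Prop)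
    [DecidablePred P] [∀ a, DecidablePred fun b => P (a, b)] :
    (((s ×ˢ t).filter P).card : ℝ) = ∑ a ∈ s, ((t.filter fun b => P (a, b)).card : ℝ) := by
  rw [← Nat.cast_sum]
  congr 1
  rw [Finset.card_filter, Finset.sum_product]
  refine Finset.sum_congr rfl fun c _ => ?_
  rw [Finset.card_filter]

open Classical in
theorem many_c {N : ℕ} {η lam : ℝ} (h0 : 0 < η) (h1 : η ≤ 1 / 4) (hN : 2 / η ^ 3 ≤ N)
    {A : Finset ℕ} (hA : A ⊆ range N) (hNC : NC N η A) (hl : 0 < lam) (hc : lam * N ≤ A.card)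
    {t₀ u t₁ : ℕ} (a0 : t₀ < N) (a1 : u < N) (a2 : t₁ < N) (b1 : sep N η t₀ t₁) :
    η ^ 3 * lam / 12 * N ≤ (((cr N η).filter fun c : ℤ =>
      XC N η (η ^ 5 * lam ^ 2 / 120) A t₀ u t₁ c).card : ℝ) := by
  have hN0 : 0 < N := lt_of_le_of_lt (Nat.zero_le _) a0
  have hNr : (0 : ℝ) < N := by exact_mod_cast hN0
  have hA0 : (0 : ℝ) < A.card := lt_of_lt_of_le (mul_pos hl hNr) hc
  have mt := many_triples h0 h1 hN hA hNC a0 a1 a2 b1
  set P : ℤ × ℕ × ℕ → Prop := fun x => η ^ 4 * N ≤ |(x.1 : ℝ)| ∧ sep N η x.2.1 t₀ ∧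
    sep N η x.2.1 u ∧ XQ N η A t₀ u t₁ x.1 x.2.1 x.2.2 with hP
  have e1 : (((cr N η ×ˢ A ×ˢ A).filter P).card : ℝ) =
      ∑ c ∈ cr N η, (((A ×ˢ A).filter fun y => P (c, y)).card : ℝ) := cfp _ _ P
  rw [e1] at mt
  have hK : (0 : ℝ) < 5 * N / η ^ 2 := by positivity
  have hB : (0 : ℝ) < (A.card : ℝ) ^ 2 := by positivity
  have ha : (0 : ℝ) < η ^ 3 * (A.card : ℝ) ^ 3 / 6 := by positivity
  have hfB : ∀ c ∈ cr N η, (((A ×ˢ A).filter fun y => P (c, y)).card : ℝ) ≤ (A.card : ℝ) ^ 2 := by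
    intro c _
    have h2 : ((A ×ˢ A).filter fun y => P (c, y)).card ≤ (A ×ˢ A).card :=
      Finset.card_filter_le _ _
    rw [Finset.card_product] at h2
    have h3 : (((A ×ˢ A).filter fun y => P (c, y)).card : ℝ) ≤ ((A.card * A.card : ℕ) : ℝ) := by
      exact_mod_cast h2
    rw [Nat.cast_mul] at h3
    rw [sq]
    exact h3
  have hcr := card_cr h0 (by linarith) (by omega : 1 ≤ N)
  have pg := pig (cr N η) (fun c => (((A ×ˢ A).filter fun y => P (c, y)).card : ℝ)) hB hK ha.le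
    hfB hcr mt
  have hgoal : η ^ 3 * lam / 12 * N ≤ η ^ 3 * (A.card : ℝ) ^ 3 / 6 / (2 * (A.card : ℝ) ^ 2) := by
    have e : η ^ 3 * (A.card : ℝ) ^ 3 / 6 / (2 * (A.card : ℝ) ^ 2) = η ^ 3 / 12 * A.card := by
      field_simp
      ring
    rw [e]
    have : η ^ 3 / 12 * (lam * N) ≤ η ^ 3 / 12 * A.card := by gcongr
    linarith
  refine hgoal.trans (pg.trans ?_)
  rw [Nat.cast_le]
  apply Finset.card_le_card
  intro c hcm
  rw [Finset.mem_filter] at hcm ⊢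
  obtain ⟨hcr1, hcf⟩ := hcm
  refine ⟨hcr1, ?_⟩
  have eK : η ^ 3 * (A.card : ℝ) ^ 3 / 6 / (2 * (5 * N / η ^ 2)) =
      η ^ 5 * (A.card : ℝ) ^ 3 / (60 * N) := by
    field_simp
    ring
  rw [eK] at hcf
  have ha2 : (0 : ℝ) < η ^ 5 * (A.card : ℝ) ^ 3 / (60 * N) := by positivity
  refine ⟨?_, ?_⟩
  · have hpos : 0 < ((A ×ˢ A).filter fun y => P (c, y)).card := by
      exact_mod_cast lt_of_lt_of_le ha2 hcf
    obtain ⟨y, hy⟩ := Finset.card_pos.mp hpos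
    exact ((Finset.mem_filter.mp hy).2).1
  have e2 : (((A ×ˢ A).filter fun y => P (c, y)).card : ℝ) =
      ∑ a ∈ A, ((A.filter fun b => P (c, (a, b))).card : ℝ) := cfp A A fun y => P (c, y)
  rw [e2] at hcf
  have hgB : ∀ a ∈ A, ((A.filter fun b => P (c, (a, b))).card : ℝ) ≤ A.card := by
    intro a _
    exact_mod_cast Finset.card_filter_le _ _
  have pg2 := pig A (fun a => ((A.filter fun b => P (c, (a, b))).card : ℝ)) hA0 hA0 ha2.le
    hgB le_rfl hcf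
  have hθ : η ^ 5 * lam ^ 2 / 120 * N ≤ η ^ 5 * (A.card : ℝ) ^ 3 / (60 * N) / (2 * A.card) := by
    have e : η ^ 5 * (A.card : ℝ) ^ 3 / (60 * N) / (2 * A.card) =
        η ^ 5 / (120 * N) * (A.card : ℝ) ^ 2 := by
      field_simp
      ring
    rw [e]
    have h3 : η ^ 5 / (120 * N) * (lam * N) ^ 2 ≤ η ^ 5 / (120 * N) * (A.card : ℝ) ^ 2 := by
      gcongr
    have e3 : η ^ 5 / (120 * N) * (lam * N) ^ 2 = η ^ 5 * lam ^ 2 / 120 * N := by
      field_simp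
    linarith
  refine hθ.trans (pg2.trans ?_)
  rw [Nat.cast_le]
  apply Finset.card_le_card
  intro a ham
  rw [Finset.mem_filter] at ham ⊢
  obtain ⟨haA, hag⟩ := ham
  refine ⟨haA, ?_⟩
  have ha3 : (0 : ℝ) < η ^ 5 * (A.card : ℝ) ^ 3 / (60 * N) / (2 * A.card) := by positivity
  have hpos : 0 < (A.filter fun b => P (c, (a, b))).card := by
    exact_mod_cast lt_of_lt_of_le ha3 hag
  obtain ⟨b, hb⟩ := Finset.card_pos.mp hpos
  have hb2 := (Finset.mem_filter.mp hb).2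
  refine ⟨hb2.2.1, hb2.2.2.1, hθ.trans (hag.trans ?_)⟩
  rw [Nat.cast_le]
  apply Finset.card_le_card
  intro b' hb'
  rw [Finset.mem_filter] at hb' ⊢
  exact ⟨hb'.1, hb'.2.2.2.2⟩

end Pool.Agent.MPac5134.KX
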