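import Pool.Agent.Lib.MP_ac5134_an.KH.Cond
import Pool.Agent.Lib.MP_ac5134_an.KH.Seq
import Pool.Agent.Lib.MP_ac5134_an.KH.RelA
import Pool.Agent.Lib.MP_ac5134_an.Defs

/-!
# KX: the Kakeya maximal function in high dimensions (definitions)

The trees of heights of `KH` with an exact count of the losses.  `RJ` is the inequality
`H(B) ≤ α s + C`; `Sel1`, `Sel2` say that every family of sets of heights has a large subfamily with a
common set of heights for which `RJ` holds; the loss in the number of lines is `lam ^ C₀ / (Γ ^ (m + 1) q ^ Γ)` with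
`C₀` independent of the dimension `d`, the constant in `RJ` is `d log (1 / lam)` (any set of density
`lam`) or `L d log (1 / lam)` (sets which are not concentrated in an interval of length `N / q`), up to
`Γ (1 + m + log q)`.  (`q ^ m ≥ N`; at the end `q` is a small power of `N` and `m` a constant.)
-/

open RFold Finset MeasureTheory
open scoped ENNReal

namespace Pool.Agent.MPac5134.KX

open Pool.Agent.MPac5134.KH

/-- The inequality `H(B) ≤ α s + C` for all (families of) random lines whose slices at the heights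
`j / N`, `j ∈ F`, have (average) entropy at most `s`. -/
def RJ (d N : ℕ) (α C : ℝ) (F : Finset ℕ) : Prop :=
  F.Nonempty ∧ ∀ (I Ω : Type) [Fintype I] [Fintype Ω] (w : I → ℝ) (S : I → LS d Ω) (s : ℝ),
    (∀ i, 0 ≤ w i) → ∑ i, w i = 1 → (∀ i ω j, |((S i).B ω j : ℝ)| ≤ N) →
    (∀ t ∈ F, ∑ i, w i * (S i).H ((t : ℝ) / N) ≤ s) →
    ∑ i, w i * ent (S i).p (S i).B ≤ α * s + C

/-- Trees of heights. -/
def TreeJ (d N : ℕ) (α C η : ℝ) (H : Finset ℕ) : ℕ → ℕ → ℕ → ℕ → Prop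
  | 0, t₀, u, t₁ => t₀ ∈ H ∧ u ∈ H ∧ t₁ ∈ H
  | n + 1, t₀, u, t₁ => (t₀ ∈ H ∧ u ∈ H ∧ t₁ ∈ H) ∧ sep N η t₀ t₁ ∧ sep N η t₀ u ∧
      ∃ (c : ℝ) (P : Finset ℕ), η * N ≤ |c| ∧ P ⊆ H ∧ RJ d N α C P ∧
        ∀ p ∈ P, sep N η p t₀ ∧ sep N η p u ∧
          ∃ Q : Finset ℕ, Q ⊆ H ∧ RJ d N α C Q ∧
            ∀ q ∈ Q, ∃ z ∈ H, sep N η q t₁ ∧ sep N η z t₁ ∧ sep N η z t₀ ∧
              Rel η t₀ u t₁ c p q z ∧ TreeJ d N α C η H n t₁ z q

/-- At most a tenth of `A` is near any given height. -/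
def NC (N : ℕ) (η : ℝ) (A : Finset ℕ) : Prop :=
  ∀ (t : ℕ) (B : Finset ℕ), B ⊆ A → (∀ b ∈ B, ¬ sep N η b t) → 10 * (B.card : ℝ) ≤ A.card

/-- the separation parameter -/
noncomputable def et (q : ℕ) : ℝ := 1 / (2 * q)

/-- the loss in the number of lines -/
noncomputable def ls (Γ m q C : ℕ) (lam : ℝ) : ℝ := lam ^ C / ((Γ : ℝ) ^ (m + 1) * (q : ℝ) ^ Γ)

/-- the error terms of the entropies -/
noncomputable def er (Γ m q : ℕ) : ℝ := Γ * (1 + m + Real.log q)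

/-- Every family of sets of heights of density `lam` has a large subfamily with a common set `F` of
heights with `RJ`, constant `d log (1 / lam)`. -/
def Sel1 (α : ℝ) (k C₀ : ℕ) : Prop :=
  ∀ d : ℕ, ∃ Γ : ℕ, 1 ≤ Γ ∧ ∀ (N m q : ℕ) (lam : ℝ) (ι : Type) (I : Finset ι) (A : ι → Finset ℕ),
    1 ≤ N → 2 ≤ q → N ≤ q ^ m → 0 < lam → lam ≤ 1 → I.Nonempty → (∀ i ∈ I, A i ⊆ range N) →
    (∀ i ∈ I, lam * N ≤ (A i).card) →
    ∃ (F : Finset ℕ) (J : Finset ι), J ⊆ I ∧ ls Γ m q C₀ lam * I.card ≤ J.card ∧ F.card ≤ k ∧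
      (∀ i ∈ J, F ⊆ A i) ∧ RJ d N α (d * Real.log (1 / lam) + er Γ m q) F

/-- The same for sets which are not concentrated, constant `L d log (1 / lam)`. -/
def Sel2 (α L : ℝ) (k C₀ : ℕ) : Prop :=
  ∀ d : ℕ, ∃ Γ : ℕ, 1 ≤ Γ ∧ ∀ (N m q : ℕ) (lam : ℝ) (ι : Type) (I : Finset ι) (A : ι → Finset ℕ),
    1 ≤ N → 2 ≤ q → N ≤ q ^ m → 0 < lam → lam ≤ 1 → I.Nonempty → (∀ i ∈ I, A i ⊆ range N) →
    (∀ i ∈ I, lam * N ≤ (A i).card) → (∀ i ∈ I, NC N (et q) (A i)) →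
    ∃ (F : Finset ℕ) (J : Finset ι), J ⊆ I ∧ ls Γ m q C₀ lam * I.card ≤ J.card ∧ F.card ≤ k ∧
      (∀ i ∈ J, F ⊆ A i) ∧ RJ d N α (L * d * Real.log (1 / lam) + er Γ m q) F

/-- the hypotheses on a family of sets of heights -/
structure Fam (N m q : ℕ) (lam : ℝ) {ι : Type} (I : Finset ι) (A : ι → Finset ℕ) : Prop where
  hN : 1 ≤ N
  hq : 2 ≤ q
  hm : N ≤ q ^ m
  l0 : 0 < lam
  l1 : lam ≤ 1
  big : 2 / et q ^ 3 ≤ N
  ne : I.Nonempty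
  sub : ∀ i ∈ I, A i ⊆ range N
  dens : ∀ i ∈ I, lam * N ≤ (A i).card
  nc : ∀ i ∈ I, NC N (et q) (A i)

/-- selection of trees of depth `n` -/
def TS (d : ℕ) (α : ℝ) (n k C Γ : ℕ) : Prop :=
  ∀ (N m q : ℕ) (lam : ℝ) (ι : Type) (I : Finset ι) (A : ι → Finset ℕ) (t₀ u t₁ : ℕ),
    Fam N m q lam I A → (∀ i ∈ I, t₀ ∈ A i ∧ u ∈ A i ∧ t₁ ∈ A i) → sep N (et q) t₀ t₁ →
    sep N (et q) t₀ u →
    ∃ (H : Finset ℕ) (J : Finset ι), J ⊆ I ∧ ls Γ m q C lam * I.card ≤ J.card ∧ H.card ≤ k ∧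
      (∀ i ∈ J, H ⊆ A i) ∧
      TreeJ d N α (2 * d * Real.log (1 / lam) + er Γ m q) (et q ^ 4) H n t₀ u t₁

/-- the density of the good heights -/
noncomputable def th (q : ℕ) (lam : ℝ) : ℝ := et q ^ 5 * lam ^ 2 / 120

/-- the good heights `q'` for the parameter `c` and the height `p` -/
def XQ (N : ℕ) (η : ℝ) (A : Finset ℕ) (t₀ u t₁ : ℕ) (c : ℤ) (p q' : ℕ) : Prop :=
  sep N η q' t₁ ∧ ∃ z ∈ A, sep N η z t₁ ∧ sep N η z t₀ ∧ Rel η t₀ u t₁ (c : ℝ) p q' z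

open Classical in
/-- the good heights `p` for the parameter `c` -/
def XP (N : ℕ) (η θ : ℝ) (A : Finset ℕ) (t₀ u t₁ : ℕ) (c : ℤ) (p : ℕ) : Prop :=
  sep N η p t₀ ∧ sep N η p u ∧ θ * N ≤ ((A.filter fun x : ℕ => XQ N η A t₀ u t₁ c p x).card : ℝ)

open Classical in
/-- the good parameters `c` -/
def XC (N : ℕ) (η θ : ℝ) (A : Finset ℕ) (t₀ u t₁ : ℕ) (c : ℤ) : Prop :=
  η ^ 4 * N ≤ |(c : ℝ)| ∧ θ * N ≤ ((A.filter fun x : ℕ => XP N η θ A t₀ u t₁ c x).card : ℝ)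

/-- the length of the windows of level `j` -/
def ell (N q j : ℕ) : ℕ := (N + (q ^ j - 1)) / q ^ j

/-- the window number `a` of level `j` -/
def win (N q j a : ℕ) (A : Finset ℕ) : Finset ℕ := A.filter fun x => x / ell N q j = a

/-- the number of cells at the height `j / N` of the lines `i` with `j ∈ A i` -/
noncomputable def cells {d : ℕ} (N : ℕ) {ι : Type} [Fintype ι] (a b : ι → Fin d → ℤ)
    (A : ι → Finset ℕ) (j : ℕ) : ℕ :=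
  ((univ.filter fun i => j ∈ A i).image fun i => fl (pt (a i) (b i) ((j : ℝ) / N))).card

/-- The discrete theorem, with loss `N ^ ε` and the exponent `e` (`≥ d`) of `lam`. -/
def DTp (d e : ℕ) (α : ℝ) : Prop :=
  ∀ (K : ℕ) (ε : ℝ), 0 < ε → ∃ C : ℝ, 1 ≤ C ∧ ∀ (N : ℕ) (lam : ℝ) (ι : Type) [Fintype ι]
    (a b : ι → Fin d → ℤ) (A : ι → Finset ℕ), 1 ≤ N → 0 < lam → lam ≤ 1 →
    (∀ i k, |(b i k : ℝ)| ≤ N) →
    (∀ v : Fin d → ℤ, ∀ s : Finset ι, (∀ i ∈ s, b i = v) → s.card ≤ K) →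
    (∀ i, A i ⊆ range N) → (∀ i, lam * N ≤ (A i).card) →
    lam * N * (lam ^ e * Fintype.card ι) ^ (1 / α) ≤
      C * (N : ℝ) ^ ε * ∑ j ∈ range N, (cells N a b A j : ℝ)

/-- The sharp shading theorem, with loss `N ^ ε` and the exponent `e` (`≥ d`) of `lam`. -/
def Shp (d e : ℕ) (α : ℝ) : Prop :=
  ∀ (K : ℕ) (ε : ℝ), 0 < ε → ∃ C : ℝ, 1 ≤ C ∧ ∀ (N lam : ℝ), 1 ≤ N → 0 < lam → lam ≤ 1 →
    ∀ (ι : Type) [Fintype ι] (θ : ι → Cap d) (c : ι → Sp d) (E : Set (Sp d)), MeasurableSet E →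
      (∀ z : Fin d → ℤ, ∀ s : Finset ι, (∀ i ∈ s, cell N (θ i) = z) → s.card ≤ K) →
      (∀ i, ENNReal.ofReal lam * volume (tube N (θ i) (c i)) ≤ volume (tube N (θ i) (c i) ∩ E)) →
      ENNReal.ofReal (lam * (lam ^ e * Fintype.card ι) ^ (1 / α) * N ^ (d + 2)) ≤
        ENNReal.ofReal (C * N ^ ε) * volume (E ∩ ⋃ i, tube N (θ i) (c i))

end Pool.Agent.MPac5134.KX
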