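import Pool.Agent.Lib.MP_ac5134_an.KX.DtW

/-!
# KX-Dt: the discrete theorem

PROOF.  `D₀` from `dt_win`; `D = (2 * 40 ^ (d + 1) * D₀ * 3 ^ d)` or larger.  `ι` empty: the left side is `0`.
(`K ≥ 1`, all `A i` nonempty, so `∑ cells ≥ 1`.)
If `lam N ≤ 40 ^ m`: `|ι| ≤ K (2 N + 1) ^ d ≤ K (3 N) ^ d` (the directions are in a box, at most `K` lines for every
direction), so `lam ^ d |ι| ≤ K (3 * 40 ^ m) ^ d` and the left side is at most `40 ^ m * K * (3 * 40 ^ m) ^ d` (`1 / α ≤ 1`).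
Otherwise `window` for every `A i` gives `j_i < m`, `c_i` and `W i = win N q j_i c_i (A i)`,
`|W i| ≥ |A i| / 40 ^ m ≥ lam₁ N`, `lam₁ = lam / 40 ^ m`.  Some level `j < m` has `j_i = j` for at least `|ι| / m` of the `i`.
For every `c` let `I_c` be the set of `i` with `j_i = j`, `c_i = c`.  `dt_win` for `I_c`, the sets `W i` (the hypothesis
with `40`: `win N q (j + 1) b' (W i) ⊆ win N q (j + 1) b' (A i)`), `Y t` = the cells of `cells N a b A t`:
`lam₁ N (lam₁ ^ d |I_c|) ^ (1 / α) ≤ K D₀^(m+1) q^D₀ ∑_{t in window c} |Y t|`.  Sum over the `c` which occur: the windows are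
disjoint, and `∑ (lam₁ ^ d |I_c|) ^ (1 / α) ≥ (lam₁ ^ d ∑ |I_c|) ^ (1 / α)` (`shade_rpow_sum` in `KH/Shade.lean`, private, copy
it).  So `lam₁ N (lam₁ ^ d |ι| / m) ^ (1 / α) ≤ K D₀^(m+1) q^D₀ ∑ cells`; `m ≤ 2 ^ m`,
`lam N (lam ^ d |ι|) ^ (1/α) ≤ 40 ^ (m (d + 1)) * 2 ^ m * lam₁ N (lam₁ ^ d |ι| / m) ^ (1/α)`.
-/

open RFold Finset

namespace Pool.Agent.MPac5134.KX

open Pool.Agent.MPac5134.KH

private theorem dtx_rpow_sum {κ : Type*} (S : Finset κ) (f : κ → ℝ) (hf : ∀ k, 0 ≤ f k) {p : ℝ}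
    (hp0 : 0 < p) (hp1 : p ≤ 1) : (∑ k ∈ S, f k) ^ p ≤ ∑ k ∈ S, f k ^ p := by
  classical
  induction S using Finset.induction_on with
  | empty => simp [Real.zero_rpow hp0.ne']
  | insert a S ha ih =>
    rw [Finset.sum_insert ha, Finset.sum_insert ha]
    have h1 : (f a + ∑ k ∈ S, f k) ^ p ≤ f a ^ p + (∑ k ∈ S, f k) ^ p :=
      Real.rpow_add_le_add_rpow (hf a) (Finset.sum_nonneg fun k _ => hf k) hp0.le hp1
    linarith

/-- `x ^ p ≤ X` for `x ≤ X`, `1 ≤ X`, `0 < p ≤ 1` -/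
private theorem dtx_rpow_le {x X p : ℝ} (hx : 0 ≤ x) (hX : 1 ≤ X) (h : x ≤ X) (hp0 : 0 < p)
    (hp1 : p ≤ 1) : x ^ p ≤ X :=
  calc x ^ p ≤ X ^ p := Real.rpow_le_rpow hx h hp0.le
    _ ≤ X ^ (1 : ℝ) := Real.rpow_le_rpow_of_exponent_le hX hp1
    _ = X := Real.rpow_one X

/-- the number of lines -/
private theorem dtx_count {d N K : ℕ} {ι : Type} [Fintype ι] (b : ι → Fin d → ℤ)
    (hb : ∀ i k, |(b i k : ℝ)| ≤ N)
    (hK : ∀ v : Fin d → ℤ, ∀ s : Finset ι, (∀ i ∈ s, b i = v) → s.card ≤ K) :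
    Fintype.card ι ≤ K * (2 * N + 1) ^ d := by
  classical
  have h1 : (univ : Finset ι).card ≤ K * (Fintype.piFinset fun _ : Fin d => Icc (-(N : ℤ)) N).card := by
    refine Finset.card_le_mul_card_image_of_maps_to (f := b) ?_ K ?_
    · intro i _
      rw [Fintype.mem_piFinset]
      intro k
      have h2 := abs_le.1 (hb i k)
      rw [Finset.mem_Icc]
      constructor
      · exact_mod_cast h2.1
      · exact_mod_cast h2.2
    · intro v _
      exact hK v _ fun i hi => (Finset.mem_filter.1 hi).2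
  have h2 : (Fintype.piFinset fun _ : Fin d => Icc (-(N : ℤ)) N).card = (2 * N + 1) ^ d := by
    rw [Fintype.card_piFinset, prod_const, card_univ, Fintype.card_fin, Int.card_Icc]
    congr 1
    omega
  rw [h2, card_univ] at h1
  exact h1

/-- the sum of the cells is at least `1` -/
private theorem dtx_cells {d N : ℕ} {lam : ℝ} {ι : Type} [Fintype ι] (a b : ι → Fin d → ℤ)
    (A : ι → Finset ℕ) (hN : 1 ≤ N) (hl : 0 < lam) (i : ι) (hA : A i ⊆ range N)
    (hc : lam * N ≤ (A i).card) : 1 ≤ ∑ j ∈ range N, (cells N a b A j : ℝ) := by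
  classical
  have h0 : (0 : ℝ) < (A i).card := lt_of_lt_of_le (by positivity) hc
  have h1 : 0 < (A i).card := by exact_mod_cast h0
  obtain ⟨j, hj⟩ := Finset.card_pos.1 h1
  have h2 : 1 ≤ cells N a b A j := by
    unfold cells
    refine Finset.card_pos.2 ⟨_, Finset.mem_image_of_mem _ (Finset.mem_filter.2 ⟨mem_univ i, hj⟩)⟩
  calc (1 : ℝ) ≤ (cells N a b A j : ℝ) := by exact_mod_cast h2
    _ ≤ ∑ j ∈ range N, (cells N a b A j : ℝ) :=
      Finset.single_le_sum (f := fun j => (cells N a b A j : ℝ)) (fun _ _ => Nat.cast_nonneg _) (hA hj)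

theorem dtx {d e k C₀ : ℕ} {α : ℝ} (hα : 1 ≤ α) (hα2 : α ≤ 2) (h : Sel2 α (9 / 10) k C₀)
    (hde : d ≤ e) (hd : 10 * C₀ + 9 * d ≤ 10 * e) : ∃ D : ℕ, 1 ≤ D ∧ ∀ (N m q K : ℕ) (lam : ℝ) (ι : Type) [Fintype ι]
      (a b : ι → Fin d → ℤ) (A : ι → Finset ℕ),
      1 ≤ N → 2 ≤ q → N ≤ q ^ m → 0 < lam → lam ≤ 1 → (∀ i k, |(b i k : ℝ)| ≤ N) →
      (∀ v : Fin d → ℤ, ∀ s : Finset ι, (∀ i ∈ s, b i = v) → s.card ≤ K) →
      (∀ i, A i ⊆ range N) → (∀ i, lam * N ≤ (A i).card) →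
      lam * N * (lam ^ e * Fintype.card ι) ^ (1 / α) ≤
        K * ((D : ℝ) ^ (m + 1) * (q : ℝ) ^ D) * ∑ j ∈ range N, (cells N a b A j : ℝ) := by
  classical
  obtain ⟨D₀, hD₀, hwin⟩ := dt_win hα hα2 h hde hd
  have hp0 : 0 < 1 / α := by positivity
  have hp1 : 1 / α ≤ 1 := by
    rw [div_le_one (by linarith)]
    exact hα
  refine ⟨2 * 40 ^ (e + 1) * D₀ * 3 ^ e, ?_, ?_⟩
  · exact Nat.succ_le_of_lt (by positivity)
  intro N m q K lam ι _ a b A hN hq hm hl0 hl1 hb hK hA hdens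
  have hD₀' : (1 : ℝ) ≤ D₀ := by exact_mod_cast hD₀
  have hN' : (1 : ℝ) ≤ N := by exact_mod_cast hN
  have hq' : (1 : ℝ) ≤ q := by exact_mod_cast (le_trans (by norm_num) hq : 1 ≤ q)
  have hC0 : 0 ≤ ∑ j ∈ range N, (cells N a b A j : ℝ) :=
    Finset.sum_nonneg fun _ _ => Nat.cast_nonneg _
  have hDle : D₀ ≤ 2 * 40 ^ (e + 1) * D₀ * 3 ^ e := by
    have h1 : 1 ≤ 2 * 40 ^ (e + 1) := Nat.succ_le_of_lt (by positivity)
    have h2 : 1 ≤ 3 ^ e := Nat.succ_le_of_lt (by positivity)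
    calc D₀ = 1 * D₀ * 1 := by ring
      _ ≤ 2 * 40 ^ (e + 1) * D₀ * 3 ^ e := Nat.mul_le_mul (Nat.mul_le_mul h1 le_rfl) h2
  have hqD : (q : ℝ) ^ D₀ ≤ (q : ℝ) ^ (2 * 40 ^ (e + 1) * D₀ * 3 ^ e) := pow_le_pow_right₀ hq' hDle
  -- the empty family
  rcases isEmpty_or_nonempty ι with hemp | ⟨⟨i₀⟩⟩
  · have h1 : (lam ^ e * (Fintype.card ι : ℝ)) ^ (1 / α) = 0 := by
      rw [Fintype.card_eq_zero, Nat.cast_zero, mul_zero, Real.zero_rpow hp0.ne']
    rw [h1, mul_zero]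
    positivity
  have hK1 : 1 ≤ K := by
    have := hK (b i₀) {i₀} (by simp)
    simpa using this
  have hK1' : (1 : ℝ) ≤ K := by exact_mod_cast hK1
  have hC1 := dtx_cells a b A hN hl0 i₀ (hA i₀) (hdens i₀)
  rcases le_or_gt (lam * N) ((40 : ℝ) ^ m) with hsm | hbig
  · -- the sets are small
    have hcard : (Fintype.card ι : ℝ) ≤ K * (3 * N) ^ d := by
      have h1 := dtx_count b hb hK
      have h2 : (Fintype.card ι : ℝ) ≤ K * (2 * N + 1) ^ d := by exact_mod_cast h1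
      refine h2.trans ?_
      refine mul_le_mul_of_nonneg_left (pow_le_pow_left₀ (by positivity) (by linarith) d) (by positivity)
    have h340 : (1 : ℝ) ≤ 3 * 40 ^ m := by
      have : (1 : ℝ) ≤ 40 ^ m := one_le_pow₀ (by norm_num)
      linarith
    have h1 : lam ^ e * (Fintype.card ι : ℝ) ≤ K * (3 * 40 ^ m) ^ e := by
      calc lam ^ e * (Fintype.card ι : ℝ) ≤ lam ^ d * (K * (3 * N) ^ d) :=
            mul_le_mul (pow_le_pow_of_le_one hl0.le hl1 hde) hcard (by positivity)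
              (by positivity)
        _ = K * (3 * (lam * N)) ^ d := by
            rw [mul_pow, mul_pow, mul_pow]
            ring
        _ ≤ K * (3 * 40 ^ m) ^ d := by
            refine mul_le_mul_of_nonneg_left (pow_le_pow_left₀ (by positivity) (by linarith) d)
              (by positivity)
        _ ≤ K * (3 * 40 ^ m) ^ e :=
            mul_le_mul_of_nonneg_left (pow_le_pow_right₀ h340 hde) (by positivity)
    have h2 : (1 : ℝ) ≤ K * (3 * 40 ^ m) ^ e := by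
      have : (1 : ℝ) ≤ (3 * 40 ^ m) ^ e := one_le_pow₀ h340
      nlinarith
    have h3 := dtx_rpow_le (by positivity) h2 h1 hp0 hp1
    have h4 : (40 : ℝ) ^ m * (3 * 40 ^ m) ^ e ≤
        ((2 * 40 ^ (e + 1) * D₀ * 3 ^ e : ℕ) : ℝ) ^ (m + 1) := by
      push_cast
      have e1 : (1 : ℝ) ≤ 2 ^ (m + 1) := one_le_pow₀ (by norm_num)
      have e2 : (40 : ℝ) ^ ((e + 1) * m) ≤ 40 ^ ((e + 1) * (m + 1)) :=
        pow_le_pow_right₀ (by norm_num) (Nat.mul_le_mul le_rfl (Nat.le_succ m))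
      have e3 : (1 : ℝ) ≤ (D₀ : ℝ) ^ (m + 1) := one_le_pow₀ hD₀'
      have e4 : (3 : ℝ) ^ e ≤ 3 ^ (e * (m + 1)) :=
        pow_le_pow_right₀ (by norm_num) (Nat.le_mul_of_pos_right e (Nat.succ_pos m))
      calc (40 : ℝ) ^ m * (3 * 40 ^ m) ^ e = 1 * 40 ^ ((e + 1) * m) * 1 * 3 ^ e := by
            rw [mul_pow, ← pow_mul, add_mul, pow_add, one_mul, mul_comm m e]
            ring
        _ ≤ 2 ^ (m + 1) * 40 ^ ((e + 1) * (m + 1)) * (D₀ : ℝ) ^ (m + 1) * 3 ^ (e * (m + 1)) := by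
            gcongr
        _ = (2 * 40 ^ (e + 1) * D₀ * 3 ^ e) ^ (m + 1) := by
            rw [mul_pow, mul_pow, mul_pow, ← pow_mul, ← pow_mul]
    have h5 : (1 : ℝ) ≤ (q : ℝ) ^ (2 * 40 ^ (e + 1) * D₀ * 3 ^ e) := one_le_pow₀ hq'
    calc lam * N * (lam ^ e * (Fintype.card ι : ℝ)) ^ (1 / α) ≤ 40 ^ m * (K * (3 * 40 ^ m) ^ e) :=
          mul_le_mul hsm h3 (by positivity) (by positivity)
      _ = K * (((40 : ℝ) ^ m * (3 * 40 ^ m) ^ e) * 1) * 1 := by ring
      _ ≤ K * (((2 * 40 ^ (e + 1) * D₀ * 3 ^ e : ℕ) : ℝ) ^ (m + 1) *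
          (q : ℝ) ^ (2 * 40 ^ (e + 1) * D₀ * 3 ^ e)) * ∑ j ∈ range N, (cells N a b A j : ℝ) := by
          gcongr
  · -- the windows
    have hex : ∀ i, ∃ p : ℕ × ℕ, p.1 < m ∧ p.2 * ell N q p.1 ≤ N ∧
        (A i).card ≤ 40 ^ p.1 * (win N q p.1 p.2 (A i)).card ∧
        ∀ b', 40 * (win N q (p.1 + 1) b' (A i)).card ≤ (win N q p.1 p.2 (A i)).card := by
      intro i
      have h1 : (40 : ℝ) ^ m < (A i).card := lt_of_lt_of_le hbig (hdens i)
      have h2 : 40 ^ m < (A i).card := by exact_mod_cast h1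
      obtain ⟨j, c, e1, e2, e3, e4⟩ := window hN hq hm (hA i) h2
      exact ⟨(j, c), e1, e2, e3, e4⟩
    choose p hp1' hp2 hp3 hp4 using hex
    set lam₁ : ℝ := lam / 40 ^ m with hlam₁
    have h40 : (0 : ℝ) < 40 ^ m := by positivity
    have hl1pos : 0 < lam₁ := div_pos hl0 h40
    set S : Finset (ℕ × ℕ) := range m ×ˢ range (N + 1) with hS
    have hpS : ∀ i ∈ (univ : Finset ι), p i ∈ S := by
      intro i _
      rw [hS, Finset.mem_product, Finset.mem_range, Finset.mem_range]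
      refine ⟨hp1' i, Nat.lt_succ_of_le (le_trans ?_ (hp2 i))⟩
      exact Nat.le_mul_of_pos_right _ (ell_pos hN (le_trans (by norm_num) hq) _)
    -- one window
    have hone : ∀ r ∈ S, lam₁ * N * (lam₁ ^ e * ((univ.filter fun i => p i = r).card : ℝ)) ^ (1 / α) ≤
        K * ((D₀ : ℝ) ^ (m + 1) * (q : ℝ) ^ D₀) *
        ∑ t ∈ (range N).filter (fun t => t / ell N q r.1 = r.2), (cells N a b A t : ℝ) := by
      intro r hr
      refine hwin N m q K r.1 r.2 lam₁ ι (univ.filter fun i => p i = r) a b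
        (fun i => win N q (p i).1 (p i).2 (A i))
        (fun t => (univ.filter fun i => t ∈ A i).image fun i => fl (pt (a i) (b i) ((t : ℝ) / N)))
        hN hq hm hl1pos hb hK ?_ ?_ ?_ ?_ ?_
      · intro i _
        exact (Finset.filter_subset _ _).trans (hA i)
      · intro i hi x hx
        have hi' := (Finset.mem_filter.1 hi).2
        have hx' := (Finset.mem_filter.1 hx).2
        rw [hi'] at hx'
        exact hx'
      · intro i _
        have e1 : ((A i).card : ℝ) ≤ 40 ^ (p i).1 * ((win N q (p i).1 (p i).2 (A i)).card : ℝ) := by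
          exact_mod_cast hp3 i
        have e2 : (40 : ℝ) ^ (p i).1 ≤ 40 ^ m := pow_le_pow_right₀ (by norm_num) (hp1' i).le
        have e3 : lam * N ≤ 40 ^ m * ((win N q (p i).1 (p i).2 (A i)).card : ℝ) :=
          (hdens i).trans (e1.trans (mul_le_mul_of_nonneg_right e2 (Nat.cast_nonneg _)))
        rw [hlam₁, div_mul_eq_mul_div, div_le_iff₀ h40, mul_comm _ ((40 : ℝ) ^ m)]
        exact e3
      · intro i hi b'
        have hi' := (Finset.mem_filter.1 hi).2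
        refine le_trans (Nat.mul_le_mul le_rfl (Finset.card_le_card ?_)) (hp4 i b')
        rw [← hi']
        exact Finset.filter_subset_filter _ (Finset.filter_subset _ _)
      · intro i _ t ht
        exact Finset.mem_image_of_mem _ (Finset.mem_filter.2 ⟨mem_univ i, (Finset.mem_filter.1 ht).1⟩)
    -- the sum over the windows
    have hsum : lam₁ * N * (lam₁ ^ e * (Fintype.card ι : ℝ)) ^ (1 / α) ≤
        K * ((D₀ : ℝ) ^ (m + 1) * (q : ℝ) ^ D₀) * (m * ∑ t ∈ range N, (cells N a b A t : ℝ)) := by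
      have e1 : (Fintype.card ι : ℝ) = ∑ r ∈ S, ((univ.filter fun i => p i = r).card : ℝ) := by
        rw [← Finset.card_univ, Finset.card_eq_sum_card_fiberwise hpS]
        push_cast
        rfl
      have e2 : (lam₁ ^ e * (Fintype.card ι : ℝ)) ^ (1 / α) ≤
          ∑ r ∈ S, (lam₁ ^ e * ((univ.filter fun i => p i = r).card : ℝ)) ^ (1 / α) := by
        rw [e1, Finset.mul_sum]
        exact dtx_rpow_sum S _ (fun r => by positivity) hp0 hp1
      have e3 : ∑ r ∈ S, ∑ t ∈ (range N).filter (fun t => t / ell N q r.1 = r.2),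
          (cells N a b A t : ℝ) ≤ m * ∑ t ∈ range N, (cells N a b A t : ℝ) := by
        rw [hS, Finset.sum_product]
        calc ∑ j ∈ range m, ∑ c ∈ range (N + 1), ∑ t ∈ (range N).filter (fun t => t / ell N q j = c),
              (cells N a b A t : ℝ) ≤ ∑ _j ∈ range m, ∑ t ∈ range N, (cells N a b A t : ℝ) := by
              refine Finset.sum_le_sum fun j _ => le_of_eq ?_
              refine Finset.sum_fiberwise_of_maps_to (fun t ht => ?_) _
              rw [Finset.mem_range] at ht ⊢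
              exact lt_of_le_of_lt (Nat.div_le_self _ _) (Nat.lt_succ_of_lt ht)
          _ = m * ∑ t ∈ range N, (cells N a b A t : ℝ) := by
              rw [Finset.sum_const, card_range, nsmul_eq_mul]
      calc lam₁ * N * (lam₁ ^ e * (Fintype.card ι : ℝ)) ^ (1 / α)
          ≤ lam₁ * N * ∑ r ∈ S, (lam₁ ^ e * ((univ.filter fun i => p i = r).card : ℝ)) ^ (1 / α) :=
            mul_le_mul_of_nonneg_left e2 (by positivity)
        _ = ∑ r ∈ S, lam₁ * N * (lam₁ ^ e * ((univ.filter fun i => p i = r).card : ℝ)) ^ (1 / α) :=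
            Finset.mul_sum _ _ _
        _ ≤ ∑ r ∈ S, K * ((D₀ : ℝ) ^ (m + 1) * (q : ℝ) ^ D₀) *
            ∑ t ∈ (range N).filter (fun t => t / ell N q r.1 = r.2), (cells N a b A t : ℝ) :=
            Finset.sum_le_sum hone
        _ = K * ((D₀ : ℝ) ^ (m + 1) * (q : ℝ) ^ D₀) *
            ∑ r ∈ S, ∑ t ∈ (range N).filter (fun t => t / ell N q r.1 = r.2), (cells N a b A t : ℝ) :=
            (Finset.mul_sum _ _ _).symm
        _ ≤ _ := mul_le_mul_of_nonneg_left e3 (by positivity)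
    have hlam : lam = 40 ^ m * lam₁ := by
      rw [hlam₁]
      field_simp
    have h1 : (lam ^ e * (Fintype.card ι : ℝ)) ^ (1 / α) ≤
        (40 ^ m) ^ e * (lam₁ ^ e * (Fintype.card ι : ℝ)) ^ (1 / α) := by
      rw [hlam, mul_pow, mul_assoc, Real.mul_rpow (by positivity) (by positivity)]
      refine mul_le_mul_of_nonneg_right ?_ (by positivity)
      exact dtx_rpow_le (by positivity) (one_le_pow₀ (one_le_pow₀ (by norm_num))) le_rfl hp0 hp1
    have hm2 : (m : ℝ) ≤ 2 ^ (m + 1) := by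
      have e1 : m ≤ 2 ^ m := (Nat.lt_two_pow_self).le
      have e2 : (m : ℝ) ≤ 2 ^ m := by exact_mod_cast e1
      refine e2.trans (pow_le_pow_right₀ (by norm_num) (Nat.le_succ m))
    have h4 : (40 : ℝ) ^ m * (40 ^ m) ^ e * m * (D₀ : ℝ) ^ (m + 1) ≤
        ((2 * 40 ^ (e + 1) * D₀ * 3 ^ e : ℕ) : ℝ) ^ (m + 1) := by
      push_cast
      have e2 : (40 : ℝ) ^ ((e + 1) * m) ≤ 40 ^ ((e + 1) * (m + 1)) :=
        pow_le_pow_right₀ (by norm_num) (Nat.mul_le_mul le_rfl (Nat.le_succ m))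
      have e4 : (1 : ℝ) ≤ 3 ^ (e * (m + 1)) := one_le_pow₀ (by norm_num)
      calc (40 : ℝ) ^ m * (40 ^ m) ^ e * m * (D₀ : ℝ) ^ (m + 1)
          = m * 40 ^ ((e + 1) * m) * (D₀ : ℝ) ^ (m + 1) * 1 := by
            rw [← pow_mul, add_mul, pow_add, one_mul, mul_comm m e]
            ring
        _ ≤ 2 ^ (m + 1) * 40 ^ ((e + 1) * (m + 1)) * (D₀ : ℝ) ^ (m + 1) * 3 ^ (e * (m + 1)) := by
            gcongr
        _ = (2 * 40 ^ (e + 1) * D₀ * 3 ^ e) ^ (m + 1) := by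
            rw [mul_pow, mul_pow, mul_pow, ← pow_mul, ← pow_mul]
    calc lam * N * (lam ^ e * (Fintype.card ι : ℝ)) ^ (1 / α)
        ≤ lam * N * ((40 ^ m) ^ e * (lam₁ ^ e * (Fintype.card ι : ℝ)) ^ (1 / α)) :=
          mul_le_mul_of_nonneg_left h1 (by positivity)
      _ = 40 ^ m * (40 ^ m) ^ e * (lam₁ * N * (lam₁ ^ e * (Fintype.card ι : ℝ)) ^ (1 / α)) := by
          rw [hlam]
          ring
      _ ≤ 40 ^ m * (40 ^ m) ^ e * (K * ((D₀ : ℝ) ^ (m + 1) * (q : ℝ) ^ D₀) *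
          (m * ∑ t ∈ range N, (cells N a b A t : ℝ))) :=
          mul_le_mul_of_nonneg_left hsum (by positivity)
      _ = K * ((40 ^ m * (40 ^ m) ^ e * m * (D₀ : ℝ) ^ (m + 1)) * (q : ℝ) ^ D₀) *
          ∑ t ∈ range N, (cells N a b A t : ℝ) := by ring
      _ ≤ _ := by
          gcongr

end Pool.Agent.MPac5134.KX
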