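import Pool.Agent.Lib.MP_ac5134_an.KX.Dt

/-!
# KX-DtE: the discrete theorem with the loss `N ^ ε`

PROOF.  `D` from `dtx`.  Given `K`, `ε`: for `N ≥ 1` put `q = ⌈(N : ℝ) ^ (ε / D)⌉₊ + 1`, `m = ⌈D / ε⌉₊`.  `q ≥ 2`,
`q ^ m ≥ N ^ ((ε / D) m) ≥ N`, `q ≤ 3 N ^ (ε / D)`, so `K * D ^ (m + 1) * q ^ D ≤ (K + 1) * D ^ (m + 1) * 3 ^ D * N ^ ε`.
-/

open RFold Finset

namespace Pool.Agent.MPac5134.KX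

open Pool.Agent.MPac5134.KH

theorem dtp {d e k C₀ : ℕ} {α : ℝ} (hα : 1 ≤ α) (hα2 : α ≤ 2) (h : Sel2 α (9 / 10) k C₀)
    (hde : d ≤ e) (hd : 10 * C₀ + 9 * d ≤ 10 * e) : DTp d e α := by
  classical
  obtain ⟨D, hD, hx⟩ := dtx hα hα2 h hde hd
  have hDr : (1 : ℝ) ≤ D := by exact_mod_cast hD
  have hD0 : (0 : ℝ) < D := by linarith
  intro K ε hε
  refine ⟨((K : ℝ) + 1) * (D : ℝ) ^ (⌈(D : ℝ) / ε⌉₊ + 1) * 3 ^ D, ?_, ?_⟩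
  · have h1 : (1 : ℝ) ≤ (K : ℝ) + 1 := by
      have := Nat.cast_nonneg (α := ℝ) K
      linarith
    have h2 : (1 : ℝ) ≤ (D : ℝ) ^ (⌈(D : ℝ) / ε⌉₊ + 1) := one_le_pow₀ hDr
    have h3 : (1 : ℝ) ≤ 3 ^ D := one_le_pow₀ (by norm_num)
    have h4 : (1 : ℝ) ≤ ((K : ℝ) + 1) * (D : ℝ) ^ (⌈(D : ℝ) / ε⌉₊ + 1) :=
      one_le_mul_of_one_le_of_one_le h1 h2
    exact one_le_mul_of_one_le_of_one_le h4 h3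
  intro N lam ι _ a b A hN hl0 hl1 hb hK hA hdens
  have hNr : (1 : ℝ) ≤ N := by exact_mod_cast hN
  have hN0 : (0 : ℝ) < N := by linarith
  have hp0 : 0 < ε / D := div_pos hε hD0
  set x : ℝ := (N : ℝ) ^ (ε / D) with hxdef
  have hx1 : 1 ≤ x := Real.one_le_rpow hNr hp0.le
  have hx0 : 0 < x := by linarith
  have hc1 : x ≤ (⌈x⌉₊ : ℝ) := Nat.le_ceil x
  have hc2 : (⌈x⌉₊ : ℝ) < x + 1 := Nat.ceil_lt_add_one hx0.le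
  have hc3 : 1 ≤ ⌈x⌉₊ := by
    have h5 : (1 : ℝ) ≤ (⌈x⌉₊ : ℝ) := le_trans hx1 hc1
    exact_mod_cast h5
  have hq2 : 2 ≤ ⌈x⌉₊ + 1 := by omega
  have hqu : ((⌈x⌉₊ + 1 : ℕ) : ℝ) ≤ 3 * x := by
    push_cast
    linarith
  have hql : x ≤ ((⌈x⌉₊ + 1 : ℕ) : ℝ) := by
    push_cast
    linarith
  have hm : (D : ℝ) / ε ≤ (⌈(D : ℝ) / ε⌉₊ : ℝ) := Nat.le_ceil _
  have hpow : N ≤ (⌈x⌉₊ + 1) ^ ⌈(D : ℝ) / ε⌉₊ := by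
    have h6 : (N : ℝ) ≤ ((⌈x⌉₊ + 1 : ℕ) : ℝ) ^ ⌈(D : ℝ) / ε⌉₊ := by
      calc (N : ℝ) = (N : ℝ) ^ (1 : ℝ) := (Real.rpow_one _).symm
        _ ≤ (N : ℝ) ^ (ε / D * (⌈(D : ℝ) / ε⌉₊ : ℝ)) := by
            refine Real.rpow_le_rpow_of_exponent_le hNr ?_
            calc (1 : ℝ) = ε / D * (D / ε) := by
                  field_simp
              _ ≤ ε / D * (⌈(D : ℝ) / ε⌉₊ : ℝ) := mul_le_mul_of_nonneg_left hm hp0.le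
        _ = x ^ (⌈(D : ℝ) / ε⌉₊ : ℝ) := by rw [hxdef, Real.rpow_mul hN0.le]
        _ = x ^ ⌈(D : ℝ) / ε⌉₊ := Real.rpow_natCast _ _
        _ ≤ ((⌈x⌉₊ + 1 : ℕ) : ℝ) ^ ⌈(D : ℝ) / ε⌉₊ := pow_le_pow_left₀ hx0.le hql _
    exact_mod_cast h6
  have hmain := hx N ⌈(D : ℝ) / ε⌉₊ (⌈x⌉₊ + 1) K lam ι a b A hN hq2 hpow hl0 hl1 hb hK hA hdens
  have hxD : x ^ D = (N : ℝ) ^ ε := by
    rw [hxdef, ← Real.rpow_natCast, ← Real.rpow_mul hN0.le]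
    congr 1
    field_simp
  have hqD : ((⌈x⌉₊ + 1 : ℕ) : ℝ) ^ D ≤ 3 ^ D * (N : ℝ) ^ ε := by
    calc ((⌈x⌉₊ + 1 : ℕ) : ℝ) ^ D ≤ (3 * x) ^ D := pow_le_pow_left₀ (Nat.cast_nonneg _) hqu D
      _ = 3 ^ D * x ^ D := mul_pow _ _ _
      _ = 3 ^ D * (N : ℝ) ^ ε := by rw [hxD]
  have hsum : 0 ≤ ∑ j ∈ range N, (cells N a b A j : ℝ) :=
    Finset.sum_nonneg fun _ _ => Nat.cast_nonneg _
  refine le_trans hmain (mul_le_mul_of_nonneg_right ?_ hsum)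
  have hK0 : (0 : ℝ) ≤ K := Nat.cast_nonneg K
  have hDm : (0 : ℝ) ≤ (D : ℝ) ^ (⌈(D : ℝ) / ε⌉₊ + 1) := by positivity
  have hNe : (0 : ℝ) ≤ 3 ^ D * (N : ℝ) ^ ε := by positivity
  calc (K : ℝ) * ((D : ℝ) ^ (⌈(D : ℝ) / ε⌉₊ + 1) * ((⌈x⌉₊ + 1 : ℕ) : ℝ) ^ D)
      ≤ (K : ℝ) * ((D : ℝ) ^ (⌈(D : ℝ) / ε⌉₊ + 1) * (3 ^ D * (N : ℝ) ^ ε)) :=
        mul_le_mul_of_nonneg_left (mul_le_mul_of_nonneg_left hqD hDm) hK0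
    _ ≤ ((K : ℝ) + 1) * ((D : ℝ) ^ (⌈(D : ℝ) / ε⌉₊ + 1) * (3 ^ D * (N : ℝ) ^ ε)) :=
        mul_le_mul_of_nonneg_right (by linarith) (mul_nonneg hDm hNe)
    _ = ((K : ℝ) + 1) * (D : ℝ) ^ (⌈(D : ℝ) / ε⌉₊ + 1) * 3 ^ D * (N : ℝ) ^ ε := by ring

end Pool.Agent.MPac5134.KX
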