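import Pool.Agent.Lib.MP_ac5134_an.KX.Loss

/-!
# KX-DtN: the numbers in one window
-/

open RFold Finset

namespace Pool.Agent.MPac5134.KX

theorem dt_numX (d e Γ C₀ : ℕ) (hΓ : 1 ≤ Γ) (hde : d ≤ e) (hd : 10 * C₀ + 9 * d ≤ 10 * e) :
    ∃ D : ℕ, 1 ≤ D ∧
    ∀ (N M m q K n J : ℕ) (α lam S : ℝ), 1 ≤ α → 1 ≤ N → 1 ≤ M → M ≤ N → 2 ≤ q → 1 ≤ K → 1 ≤ n → 1 ≤ J →
      0 < lam → 0 < S → lam * N / (2 * M) ≤ 1 →
      Real.log J ≤ α * Real.log (2 * S / (lam * N)) +
        (9 / 10 * d * Real.log (1 / (lam * N / (2 * M))) + er Γ m q + d * Real.log (N / M) +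
          8 * d) + Real.log K →
      ls Γ m q C₀ (lam * N / (2 * M)) * n ≤ J →
      lam * N * (lam ^ e * n) ^ (1 / α) ≤ K * ((D : ℝ) ^ (m + 1) * (q : ℝ) ^ D) * S := by
  refine ⟨⌈Real.exp (1 + Γ + Γ + 9 * e)⌉₊ + 2 * Γ, by omega, ?_⟩
  intro N M m q K n J α lam S hα hN hM hMN hq hK hn hJ hlam hS hl1 h1 h2
  obtain ⟨D, hD⟩ : ∃ D : ℕ, D = ⌈Real.exp (1 + Γ + Γ + 9 * e)⌉₊ + 2 * Γ := ⟨_, rfl⟩
  rw [← hD]
  have hΓ1 : (1:ℝ) ≤ Γ := by exact_mod_cast hΓ
  have hΓ0 : (0:ℝ) < Γ := by linarith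
  have hN0 : (0:ℝ) < N := by exact_mod_cast hN
  have hM0 : (0:ℝ) < M := by exact_mod_cast hM
  have hq2 : (2:ℝ) ≤ q := by exact_mod_cast hq
  have hq0 : (0:ℝ) < q := by linarith
  have hK1 : (1:ℝ) ≤ K := by exact_mod_cast hK
  have hK0 : (0:ℝ) < K := by linarith
  have hn1 : (1:ℝ) ≤ n := by exact_mod_cast hn
  have hn0 : (0:ℝ) < n := by linarith
  have hJ1 : (1:ℝ) ≤ J := by exact_mod_cast hJ
  have hJ0 : (0:ℝ) < J := by linarith
  have hα0 : 0 < α := by linarith
  have hd0 : (0:ℝ) ≤ d := Nat.cast_nonneg d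
  have he0 : (0:ℝ) ≤ e := Nat.cast_nonneg e
  have hde' : (d:ℝ) ≤ e := by exact_mod_cast hde
  have hD1 : Real.exp (1 + Γ + Γ + 9 * e) ≤ D := by
    rw [hD]
    push_cast
    have := Nat.le_ceil (Real.exp (1 + (Γ:ℝ) + Γ + 9 * e))
    linarith
  have hD0 : (0:ℝ) < D := lt_of_lt_of_le (Real.exp_pos _) hD1
  have hlD : 1 + Γ + Γ + 9 * e ≤ Real.log D := by
    rw [← Real.log_exp (1 + (Γ:ℝ) + Γ + 9 * e)]
    exact Real.log_le_log (Real.exp_pos _) hD1
  have hD2 : 2 * (Γ:ℝ) ≤ D := by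
    rw [hD]
    push_cast
    have : (0:ℝ) ≤ (⌈Real.exp (1 + (Γ:ℝ) + Γ + 9 * e)⌉₊ : ℝ) := Nat.cast_nonneg _
    linarith
  have hlq : 0 ≤ Real.log q := Real.log_nonneg (by linarith)
  have hlΓ : Real.log Γ ≤ Γ := by
    have := Real.log_le_sub_one_of_pos hΓ0
    linarith
  have hlΓ0 : 0 ≤ Real.log Γ := Real.log_nonneg hΓ1
  have hlK : 0 ≤ Real.log K := Real.log_nonneg hK1
  have hl2 : Real.log 2 ≤ 1 := by
    have := Real.log_two_lt_d9
    linarith
  obtain ⟨lp, hlp⟩ : ∃ lp : ℝ, lp = lam * N / (2 * M) := ⟨_, rfl⟩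
  rw [← hlp] at h1 h2 hl1
  have hlp0 : 0 < lp := by rw [hlp]; positivity
  -- logarithms
  have a1 : Real.log (1 / lp) = - Real.log lp := by rw [one_div, Real.log_inv]
  have a2 : Real.log lp = Real.log lam + Real.log N - (Real.log 2 + Real.log M) := by
    rw [hlp, Real.log_div (by positivity) (by positivity),
      Real.log_mul hlam.ne' hN0.ne', Real.log_mul (by norm_num) hM0.ne']
  have a3 : Real.log ((N:ℝ) / M) = Real.log N - Real.log M := Real.log_div hN0.ne' hM0.ne'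
  have a4 : Real.log (2 * S / (lam * N)) =
      Real.log 2 + Real.log S - (Real.log lam + Real.log N) := by
    rw [Real.log_div (by positivity) (by positivity), Real.log_mul (by norm_num) hS.ne',
      Real.log_mul hlam.ne' hN0.ne']
  have a5 : Real.log lp ≤ 0 := Real.log_nonpos hlp0.le hl1
  -- from the loss
  have b1 : Real.log n + (C₀ * Real.log lp - ((m + 1) * Real.log Γ + Γ * Real.log q)) ≤
      Real.log J := by
    have h3 := Real.log_le_log (by unfold ls; positivity) h2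
    unfold ls at h3
    rw [Real.log_mul (by positivity) hn0.ne', Real.log_div (by positivity) (by positivity),
      Real.log_mul (by positivity) (by positivity), Real.log_pow, Real.log_pow, Real.log_pow] at h3
    push_cast at h3
    linarith
  have b2 : er Γ m q = Γ * (1 + m + Real.log q) := rfl
  -- everything together
  have c1 : (C₀:ℝ) * Real.log lp ≥ (e - 9 / 10 * d) * Real.log lp := by
    have : 10 * (C₀:ℝ) + 9 * d ≤ 10 * e := by exact_mod_cast hd
    nlinarith
  have c0 : d * (Real.log N - Real.log M) ≤ e * (Real.log N - Real.log M) := by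
    have h3 : Real.log M ≤ Real.log N := Real.log_le_log hM0 (by exact_mod_cast hMN)
    exact mul_le_mul_of_nonneg_right hde' (by linarith)
  have c2 : Real.log n + e * Real.log lam ≤ α * Real.log (2 * S / (lam * N)) +
      ((m + 1) * (Real.log Γ + Γ) + 2 * Γ * Real.log q + e * Real.log 2 + 8 * d +
        Real.log K) := by
    rw [a1, b2, a3] at h1
    have e1 : (9:ℝ) / 10 * d * (-Real.log lp) + e * (Real.log N - Real.log M) -
        (e - 9 / 10 * d) * Real.log lp = e * Real.log 2 - e * Real.log lam := by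
      rw [a2]
      ring
    linarith
  obtain ⟨R, hR⟩ : ∃ R : ℝ, R = (m + 1) * (Real.log Γ + Γ) + 2 * Γ * Real.log q +
      e * Real.log 2 + 8 * d + Real.log K := ⟨_, rfl⟩
  rw [← hR] at c2
  have hm0 : (0:ℝ) ≤ m := Nat.cast_nonneg m
  have hl20 : 0 ≤ Real.log 2 := Real.log_nonneg (by norm_num)
  have hR0 : 0 ≤ R := by
    rw [hR]
    positivity
  have c3 : 1 / α * (Real.log n + e * Real.log lam) ≤ Real.log (2 * S / (lam * N)) + R := by
    have e1 : 1 / α * (Real.log n + e * Real.log lam) ≤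
        1 / α * (α * Real.log (2 * S / (lam * N)) + R) :=
      mul_le_mul_of_nonneg_left c2 (by positivity)
    have e2 : 1 / α * (α * Real.log (2 * S / (lam * N)) + R) =
        Real.log (2 * S / (lam * N)) + R / α := by
      field_simp
    have e3 : R / α ≤ R := div_le_self hR0 hα
    linarith
  have c4 : Real.log 2 + R ≤ Real.log K + ((m + 1) * Real.log D + D * Real.log q) := by
    have e1 : (m + 1) * (1 + Γ + Γ + 9 * e) ≤ (m + 1) * Real.log D :=
      mul_le_mul_of_nonneg_left hlD (by positivity)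
    have e2 : 2 * (Γ:ℝ) * Real.log q ≤ D * Real.log q := mul_le_mul_of_nonneg_right hD2 hlq
    have e3 : (m + 1) * Real.log Γ ≤ (m + 1) * (Γ:ℝ) :=
      mul_le_mul_of_nonneg_left hlΓ (by positivity)
    have e4 : e * Real.log 2 ≤ e * 1 := mul_le_mul_of_nonneg_left hl2 he0
    have e5 : 0 ≤ (m:ℝ) * e := mul_nonneg hm0 he0
    rw [hR]
    linarith
  have hX : 0 < lam * N * (lam ^ e * n) ^ (1 / α) := by positivity
  have hY : 0 < K * ((D : ℝ) ^ (m + 1) * (q : ℝ) ^ D) * S := by positivity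
  rw [← Real.log_le_log_iff hX hY]
  rw [Real.log_mul (by positivity) (by positivity), Real.log_mul hlam.ne' hN0.ne',
    Real.log_rpow (by positivity), Real.log_mul (by positivity) hn0.ne', Real.log_pow,
    Real.log_mul (by positivity) hS.ne', Real.log_mul hK0.ne' (by positivity),
    Real.log_mul (by positivity) (by positivity), Real.log_pow, Real.log_pow]
  rw [a4] at c3
  push_cast
  have e6 : 1 / α * (e * Real.log lam + Real.log n) =
      1 / α * (Real.log n + e * Real.log lam) := by ring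
  rw [e6]
  linarith

end Pool.Agent.MPac5134.KX
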