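import Pool.Agent.Lib.MP_ac5134_an.KX.JCond

/-!
# KX-Scale: change of the scale

The heights `(t + a) / N`, `t ∈ F ⊆ {0, …, M - 1}`, of the line `(A, B)` are the heights `t / M` of the line
`(A', B')`, `A' = ⌊A + (a / N) B⌋`, `B' = ⌊(M / N) B⌋`, up to rounding.

PROOF.  Given `(w, S)` at the scale `N`.  Let `S' i` have the same law, `A' = fl (pt A B (a / N))`,
`B' ω = fun k => ⌊(M / N) B ω k⌋`, and `Z ω = fun k => B ω k - ⌊(N / M) B' ω k⌋`.
`|B'| ≤ M`.  `0 ≤ B - (N / M) B' < N / M`, so `0 ≤ Z k < N / M + 1`: `ent p Z ≤ d log (N / M + 2) ≤ d log (3 N / M)`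
(`ent_le_log_card` with a box, as in `RI_triv`).  `(B', Z)` determines `B`.
`pt A B ((t + a) / N) k = (A k + (a / N) B k) + (t / M) ((M / N) B k)` differs from `pt A' B' (t / M) k` by at most `2`
(as `0 ≤ t / M ≤ 1`); so if `P ((t + a) / N)` is equal for `ω, ω'` (points at distance at most `1`, `fl_eq`) then
`|P' (t / M) ω - P' (t / M) ω'| ≤ 6` (`fl_near`), so `cent p (P' (t / M)) (P ((t + a) / N)) ≤ d log 13` (`cent_near`) and
`cent p (P' t) Z ≤ ent p (P' t) ≤ H ((t + a) / N) + d log 13` (`ent_le_add`).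
`RJ.cond` for `S'` with `Cf = Z`: `∑ w cent p B' Z ≤ α (s + d log 13) + C`.  Finally
`ent p B ≤ ent p Z + cent p B' Z` and `2 log 13 + log 3 ≤ 8`.
-/

open RFold Finset

namespace Pool.Agent.MPac5134.KX

open Pool.Agent.MPac5134.KH

/-- the rescaled lines -/
private noncomputable def ScaleS {d : ℕ} {Ω : Type} [Fintype Ω] (N M a : ℕ) (S : LS d Ω) : LS d Ω where
  p := S.p
  A := fun ω => fl (pt (S.A ω) (S.B ω) ((a : ℝ) / N))
  B := fun ω k => ⌊(M : ℝ) / N * S.B ω k⌋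
  hp := S.hp

/-- the remainder -/
private noncomputable def ScaleZ {d : ℕ} {Ω : Type} [Fintype Ω] (N M : ℕ) (S : LS d Ω) (ω : Ω) : Fin d → ℤ :=
  fun k => S.B ω k - ⌊(N : ℝ) / M * ((⌊(M : ℝ) / N * S.B ω k⌋ : ℤ) : ℝ)⌋

private theorem Scale_Z {N M : ℕ} (hM : 1 ≤ M) (hMN : M ≤ N) (b : ℤ) :
    0 ≤ b - ⌊(N : ℝ) / M * ((⌊(M : ℝ) / N * b⌋ : ℤ) : ℝ)⌋ ∧
      b - ⌊(N : ℝ) / M * ((⌊(M : ℝ) / N * b⌋ : ℤ) : ℝ)⌋ ≤ ((N / M : ℕ) : ℤ) + 1 := by
  have hM0 : (0 : ℝ) < M := by exact_mod_cast hM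
  have hN0 : (0 : ℝ) < N := by exact_mod_cast (lt_of_lt_of_le hM hMN)
  set B' : ℤ := ⌊(M : ℝ) / N * b⌋ with hB'
  have h1 : (B' : ℝ) ≤ (M : ℝ) / N * b := Int.floor_le _
  have h2 : (M : ℝ) / N * b < B' + 1 := Int.lt_floor_add_one _
  have hq : (0 : ℝ) < (N : ℝ) / M := div_pos hN0 hM0
  have e1 : (N : ℝ) / M * ((M : ℝ) / N * b) = b := by
    field_simp
  have h3 : (N : ℝ) / M * B' ≤ b := by
    rw [← e1]
    exact mul_le_mul_of_nonneg_left h1 hq.le
  have h4 : (b : ℝ) < (N : ℝ) / M * B' + (N : ℝ) / M := by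
    have h5 := mul_lt_mul_of_pos_left h2 hq
    rw [e1] at h5
    linarith
  have h5 := Int.floor_le ((N : ℝ) / M * B')
  have h6 := Int.lt_floor_add_one ((N : ℝ) / M * B')
  set f : ℤ := ⌊(N : ℝ) / M * B'⌋ with hf
  constructor
  · have h7 : (f : ℝ) ≤ b := h5.trans h3
    have h8 : f ≤ b := by exact_mod_cast h7
    omega
  · have h7 : ((b - f - 1 : ℤ) : ℝ) < (N : ℝ) / M := by
      push_cast
      linarith
    rw [lt_div_iff₀ hM0] at h7
    have h8 : (b - f - 1) * (M : ℤ) < (N : ℤ) := by exact_mod_cast h7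
    have h9 : b - f - 1 ≤ (N : ℤ) / (M : ℤ) := by
      rw [Int.le_ediv_iff_mul_le (by exact_mod_cast hM)]
      exact h8.le
    have h10 : ((N / M : ℕ) : ℤ) = (N : ℤ) / (M : ℤ) := Int.natCast_div _ _
    omega

private theorem Scale_log : Real.log 3 + 2 * Real.log 13 ≤ 8 := by
  have h6 : (507 : ℝ) ≤ Real.exp 8 := by
    have h7 : Real.exp 8 = Real.exp 1 ^ 8 := by
      rw [← Real.exp_nat_mul]
      norm_num
    rw [h7]
    have h8 : (2.7 : ℝ) ≤ Real.exp 1 := by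
      have := Real.exp_one_gt_d9
      linarith
    calc (507 : ℝ) ≤ 2.7 ^ 8 := by norm_num
      _ ≤ Real.exp 1 ^ 8 := pow_le_pow_left₀ (by norm_num) h8 8
  have h1 : Real.log 3 + 2 * Real.log 13 = Real.log 507 := by
    rw [show (507 : ℝ) = 3 * 13 ^ 2 by norm_num, Real.log_mul (by norm_num) (by norm_num), Real.log_pow]
    push_cast
    ring
  rw [h1]
  calc Real.log 507 ≤ Real.log (Real.exp 8) := Real.log_le_log (by norm_num) h6
    _ = 8 := Real.log_exp 8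

private theorem Scale_entZ {d N M : ℕ} (hM : 1 ≤ M) (hMN : M ≤ N) {Ω : Type} [Fintype Ω] (S : LS d Ω) :
    ent S.p (ScaleZ N M S) ≤ d * (Real.log (N / M) + Real.log 3) := by
  have hM0 : (0 : ℝ) < M := by exact_mod_cast hM
  have hN0 : (0 : ℝ) < N := by exact_mod_cast (lt_of_lt_of_le hM hMN)
  refine (ent_le_log_card S.hp _
    (Fintype.piFinset fun _ : Fin d => Icc (0 : ℤ) (((N / M : ℕ) : ℤ) + 1)) ?_).trans ?_
  · intro ω _
    rw [Fintype.mem_piFinset]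
    intro j
    rw [mem_Icc]
    exact Scale_Z hM hMN (S.B ω j)
  · have c1 : (Fintype.piFinset fun _ : Fin d => Icc (0 : ℤ) (((N / M : ℕ) : ℤ) + 1)).card = (N / M + 2) ^ d := by
      rw [Fintype.card_piFinset, prod_const, card_univ, Fintype.card_fin, Int.card_Icc]
      congr 1
    rw [c1]
    push_cast
    rw [Real.log_pow]
    refine mul_le_mul_of_nonneg_left ?_ (Nat.cast_nonneg d)
    have h1 : (1 : ℝ) ≤ (N : ℝ) / M := by
      rw [le_div_iff₀ hM0, one_mul]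
      exact_mod_cast hMN
    have h2 : ((N / M : ℕ) : ℝ) ≤ (N : ℝ) / M := Nat.cast_div_le
    have h3 : Real.log ((N : ℝ) / M) + Real.log 3 = Real.log ((N : ℝ) / M * 3) :=
      (Real.log_mul (by positivity) (by norm_num)).symm
    rw [h3]
    apply Real.log_le_log
    · positivity
    · linarith

private theorem Scale_P {d N M a t : ℕ} (hM : 1 ≤ M) (hMN : M ≤ N) (ht : t < M) {Ω : Type} [Fintype Ω] (S : LS d Ω) :
    ent S.p ((ScaleS N M a S).P ((t : ℝ) / M)) ≤ S.H (((t + a : ℕ) : ℝ) / N) + d * Real.log 13 := by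
  have hM0 : (0 : ℝ) < M := by exact_mod_cast hM
  have hN0 : (0 : ℝ) < N := by exact_mod_cast (lt_of_lt_of_le hM hMN)
  have ht1 : (t : ℝ) / M ≤ 1 := by
    rw [div_le_one hM0]
    exact_mod_cast ht.le
  have ht0 : 0 ≤ (t : ℝ) / M := by positivity
  have hd : ∀ ω k, 0 ≤ pt (S.A ω) (S.B ω) (((t + a : ℕ) : ℝ) / N) k -
      pt ((ScaleS N M a S).A ω) ((ScaleS N M a S).B ω) ((t : ℝ) / M) k ∧
      pt (S.A ω) (S.B ω) (((t + a : ℕ) : ℝ) / N) k -
      pt ((ScaleS N M a S).A ω) ((ScaleS N M a S).B ω) ((t : ℝ) / M) k ≤ 2 := by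
    intro ω k
    have e1 : pt (S.A ω) (S.B ω) (((t + a : ℕ) : ℝ) / N) k =
        pt (S.A ω) (S.B ω) ((a : ℝ) / N) k + (t : ℝ) / M * ((M : ℝ) / N * S.B ω k) := by
      unfold pt
      push_cast
      field_simp
      ring
    have e2 : pt ((ScaleS N M a S).A ω) ((ScaleS N M a S).B ω) ((t : ℝ) / M) k =
        (⌊pt (S.A ω) (S.B ω) ((a : ℝ) / N) k⌋ : ℝ) + (t : ℝ) / M * (⌊(M : ℝ) / N * S.B ω k⌋ : ℝ) := rfl
    rw [e1, e2]
    have a1 := Int.floor_le (pt (S.A ω) (S.B ω) ((a : ℝ) / N) k)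
    have a2 := (Int.lt_floor_add_one (pt (S.A ω) (S.B ω) ((a : ℝ) / N) k)).le
    have b1 := Int.floor_le ((M : ℝ) / N * S.B ω k)
    have b2 := (Int.lt_floor_add_one ((M : ℝ) / N * S.B ω k)).le
    have b3 : 0 ≤ (t : ℝ) / M * ((M : ℝ) / N * S.B ω k - (⌊(M : ℝ) / N * S.B ω k⌋ : ℝ)) :=
      mul_nonneg ht0 (by linarith)
    have b4 : (t : ℝ) / M * ((M : ℝ) / N * S.B ω k - (⌊(M : ℝ) / N * S.B ω k⌋ : ℝ)) ≤ 1 := by
      have b5 : (t : ℝ) / M * ((M : ℝ) / N * S.B ω k - (⌊(M : ℝ) / N * S.B ω k⌋ : ℝ)) ≤ 1 * 1 :=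
        mul_le_mul ht1 (by linarith) (by linarith) zero_le_one
      linarith
    rw [mul_sub] at b3 b4
    constructor <;> linarith
  have h1 := ent_le_add S.hp (S.P (((t + a : ℕ) : ℝ) / N)) ((ScaleS N M a S).P ((t : ℝ) / M))
  have h2 := cent_near S.hp ((ScaleS N M a S).P ((t : ℝ) / M)) (S.P (((t + a : ℕ) : ℝ) / N)) (R := 6) (by norm_num) (by
    intro ω ω' _ _ e k
    have h3 := fl_eq e k
    have h4 := hd ω k
    have h5 := hd ω' k
    rw [abs_le] at h3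
    have h6 : |pt ((ScaleS N M a S).A ω) ((ScaleS N M a S).B ω) ((t : ℝ) / M) k -
        pt ((ScaleS N M a S).A ω') ((ScaleS N M a S).B ω') ((t : ℝ) / M) k| ≤ 5 := by
      rw [abs_le]
      constructor <;> linarith [h3.1, h3.2, h4.1, h4.2, h5.1, h5.2]
    refine (fl_near k h6).trans ?_
    norm_num)
  have h3 : (2 * 6 + 1 : ℝ) = 13 := by norm_num
  rw [h3] at h2
  have h4 : S.H (((t + a : ℕ) : ℝ) / N) = ent S.p (S.P (((t + a : ℕ) : ℝ) / N)) := rfl
  rw [h4]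
  linarith

theorem RJ.scale {d N M a : ℕ} {α C : ℝ} {F : Finset ℕ} (hM : 1 ≤ M) (hMN : M ≤ N) (hα : 0 ≤ α)
    (hα2 : α ≤ 2) (h : RJ d M α C F) (hF : F ⊆ range M) :
    RJ d N α (C + d * Real.log (N / M) + 8 * d) (F.image fun t => t + a) := by
  obtain ⟨hFne, -⟩ := id h
  have hM0 : (0 : ℝ) < M := by exact_mod_cast hM
  have hN0 : (0 : ℝ) < N := by exact_mod_cast (lt_of_lt_of_le hM hMN)
  refine ⟨hFne.image _, fun I Ω _ _ w S s hw hw1 hB hs => ?_⟩
  have hB' : ∀ i ω j, |((ScaleS N M a (S i)).B ω j : ℝ)| ≤ M := by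
    intro i ω j
    have h1 := abs_le.1 (hB i ω j)
    have e : (ScaleS N M a (S i)).B ω j = ⌊(M : ℝ) / N * (S i).B ω j⌋ := rfl
    rw [e]
    have hq : (0 : ℝ) < (M : ℝ) / N := div_pos hM0 hN0
    have e1 : (M : ℝ) / N * N = M := by field_simp
    have h2 : (M : ℝ) / N * (S i).B ω j ≤ M :=
      (mul_le_mul_of_nonneg_left h1.2 hq.le).trans (le_of_eq e1)
    have h3 : -(M : ℝ) ≤ (M : ℝ) / N * (S i).B ω j := by
      have h4 := mul_le_mul_of_nonneg_left h1.1 hq.le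
      rw [mul_neg, e1] at h4
      exact h4
    rw [abs_le]
    constructor
    · have h4 : (-(M : ℤ)) ≤ ⌊(M : ℝ) / N * (S i).B ω j⌋ := by
        rw [Int.le_floor]
        push_cast
        exact h3
      exact_mod_cast h4
    · exact (Int.floor_le _).trans h2
  have hcond := h.cond hw hw1 (fun i => ScaleS N M a (S i)) hB' (fun i => ScaleZ N M (S i))
    (s := s + d * Real.log 13) (by
      intro t ht
      have h1 : ∀ i, w i * cent (ScaleS N M a (S i)).p ((ScaleS N M a (S i)).P ((t : ℝ) / M)) (ScaleZ N M (S i)) ≤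
          w i * (S i).H (((t + a : ℕ) : ℝ) / N) + w i * (d * Real.log 13) := by
        intro i
        rw [← mul_add]
        refine mul_le_mul_of_nonneg_left ?_ (hw i)
        exact (cent_le_ent (S i).hp _ _).trans (Scale_P hM hMN (mem_range.1 (hF ht)) (S i))
      refine (sum_le_sum fun i _ => h1 i).trans ?_
      rw [sum_add_distrib, ← sum_mul, hw1, one_mul]
      have h2 := hs (t + a) (mem_image_of_mem _ ht)
      linarith)
  have hd0 : (0 : ℝ) ≤ d := Nat.cast_nonneg d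
  have key : ∀ i, w i * ent (S i).p (S i).B ≤ w i * (d * (Real.log (N / M) + Real.log 3)) +
      w i * cent (ScaleS N M a (S i)).p (ScaleS N M a (S i)).B (ScaleZ N M (S i)) := by
    intro i
    rw [← mul_add]
    refine mul_le_mul_of_nonneg_left ?_ (hw i)
    have h1 : ent (S i).p (S i).B ≤ ent (S i).p (fun ω => ((ScaleS N M a (S i)).B ω, ScaleZ N M (S i) ω)) := by
      refine ent_mono (S i).hp ?_
      intro ω ω' _ _ e
      simp only [Prod.mk.injEq] at e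
      funext k
      have e1 := congrFun e.1 k
      have e2 := congrFun e.2 k
      change ⌊(M : ℝ) / N * (S i).B ω k⌋ = ⌊(M : ℝ) / N * (S i).B ω' k⌋ at e1
      change (S i).B ω k - ⌊(N : ℝ) / M * ((⌊(M : ℝ) / N * (S i).B ω k⌋ : ℤ) : ℝ)⌋ =
        (S i).B ω' k - ⌊(N : ℝ) / M * ((⌊(M : ℝ) / N * (S i).B ω' k⌋ : ℤ) : ℝ)⌋ at e2
      rw [e1] at e2
      linarith
    have h2 : ent (S i).p (fun ω => ((ScaleS N M a (S i)).B ω, ScaleZ N M (S i) ω)) =
        ent (S i).p (ScaleZ N M (S i)) + cent (S i).p (ScaleS N M a (S i)).B (ScaleZ N M (S i)) :=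
      ent_pair_add _ _
    have h3 := Scale_entZ hM hMN (S i)
    have h4 : (ScaleS N M a (S i)).p = (S i).p := rfl
    rw [h4]
    linarith
  have h5 : ∑ i, w i * ent (S i).p (S i).B ≤ d * (Real.log (N / M) + Real.log 3) +
      (α * (s + d * Real.log 13) + C) := by
    refine (sum_le_sum fun i _ => key i).trans ?_
    rw [sum_add_distrib, ← sum_mul, hw1, one_mul]
    linarith
  refine h5.trans ?_
  have h6 : 0 ≤ Real.log 13 := Real.log_nonneg (by norm_num)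
  have h7 : α * (d * Real.log 13) ≤ 2 * (d * Real.log 13) :=
    mul_le_mul_of_nonneg_right hα2 (mul_nonneg hd0 h6)
  have h8 := mul_le_mul_of_nonneg_left Scale_log hd0
  nlinarith

end Pool.Agent.MPac5134.KX
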