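import Pool.Agent.Lib.MP_ac5134_an.KX.WinA

/-!
# KX-WinB: the set in a window is not concentrated

`B ⊆ win N q j a A` with `|win| ≤ 2 |B|`, moved to `{0, …, M - 1}`, `M = ell N q j`.

PROOF of `shift_mem`, `shift_card`: for `x / M = a`: `a M ≤ x < (a + 1) M`; `x ↦ x - a M` is injective on `B`.
PROOF of `window_NC`.  Let `t : ℕ` and `S ⊆ B.image (· - a M)` with `|s - t| < M / (2 q)` for `s ∈ S`.  The set
`S' = {s + a M | s ∈ S} ⊆ B` lies in an open interval of length `M / q ≤ ell N q (j + 1) =: M'` (`ell_succ`), so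
`x / M'` (natural division) takes at most two values `b, b + 1` on `S'` (if `x < y` are in `S'` and `y / M' ≥ x / M' + 2`
then `y - x > M'`).  So `|S| = |S'| ≤ |win N q (j+1) b A| + |win N q (j+1) (b+1) A| ≤ 2 |win N q j a A| / 40 ≤ |B| / 10`.
(`S` empty: trivial; take `b` the minimum of `x / M'` on `S'`.)
-/

open RFold Finset

namespace Pool.Agent.MPac5134.KX

open Pool.Agent.MPac5134.KH

variable {N q j a : ℕ}

private theorem winB_bd (hN : 1 ≤ N) (hq : 1 ≤ q) {x : ℕ} (hx : x / ell N q j = a) :
    a * ell N q j ≤ x ∧ x < a * ell N q j + ell N q j := by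
  have hM := ell_pos hN hq j
  constructor
  · rw [← hx]
    exact Nat.div_mul_le_self x _
  · have := Nat.lt_mul_div_succ x (show 0 < ell N q j by omega)
    rw [hx] at this
    calc x < ell N q j * (a + 1) := this
      _ = a * ell N q j + ell N q j := by ring

theorem shift_mem (hN : 1 ≤ N) (hq : 1 ≤ q) {B : Finset ℕ}
    (hB : ∀ x ∈ B, x / ell N q j = a) : (B.image fun x => x - a * ell N q j) ⊆ range (ell N q j) := by
  intro y hy
  rw [mem_image] at hy
  obtain ⟨x, hx, rfl⟩ := hy
  have h1 := winB_bd hN hq (hB x hx)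
  rw [mem_range]
  omega

theorem shift_back (hN : 1 ≤ N) (hq : 1 ≤ q) {B : Finset ℕ}
    (hB : ∀ x ∈ B, x / ell N q j = a) {y : ℕ} (hy : y ∈ B.image fun x => x - a * ell N q j) :
    y + a * ell N q j ∈ B := by
  rw [mem_image] at hy
  obtain ⟨x, hx, rfl⟩ := hy
  have h1 := winB_bd hN hq (hB x hx)
  rwa [Nat.sub_add_cancel h1.1]

theorem shift_card (hN : 1 ≤ N) (hq : 1 ≤ q) {B : Finset ℕ}
    (hB : ∀ x ∈ B, x / ell N q j = a) : (B.image fun x => x - a * ell N q j).card = B.card := by
  apply card_image_of_injOn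
  intro x hx y hy hxy
  have h1 := winB_bd hN hq (hB x hx)
  have h2 := winB_bd hN hq (hB y hy)
  simp only at hxy
  omega

theorem window_NC (hN : 1 ≤ N) (hq : 2 ≤ q) {A B : Finset ℕ} (hBA : B ⊆ win N q j a A)
    (hcard : (win N q j a A).card ≤ 2 * B.card)
    (h : ∀ b, 40 * (win N q (j + 1) b A).card ≤ (win N q j a A).card) :
    NC (ell N q j) (et q) (B.image fun x => x - a * ell N q j) := by
  have hq1 : 1 ≤ q := by omega
  have hB : ∀ x ∈ B, x / ell N q j = a := fun x hx => by
    have := hBA hx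
    unfold win at this
    exact (mem_filter.mp this).2
  have hBA' : ∀ x ∈ B, x ∈ A := fun x hx => by
    have := hBA hx
    unfold win at this
    exact (mem_filter.mp this).1
  intro t S hS hsep
  rw [shift_card hN hq1 hB]
  rcases S.eq_empty_or_nonempty with rfl | hne
  · simp
  have hM := ell_pos hN hq1 j
  have hM' := ell_pos hN hq1 (j + 1)
  have hsucc : ell N q j ≤ q * ell N q (j + 1) := ell_succ hq1 j
  -- the shifted set
  have hcardS : (S.image fun y => y + a * ell N q j).card = S.card :=
    card_image_of_injective _ (fun x y hxy => by simpa using hxy)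
  have hSB : ∀ x ∈ S.image fun y => y + a * ell N q j, x ∈ B := by
    intro x hx
    rw [mem_image] at hx
    obtain ⟨y, hy, rfl⟩ := hx
    exact shift_back hN hq1 hB (hS hy)
  have hclose : ∀ y ∈ S, ∀ z ∈ S, y < z + ell N q (j + 1) := by
    intro y hy z hz
    have h1 := hsep y hy
    have h2 := hsep z hz
    unfold sep et at h1 h2
    rw [not_le] at h1 h2
    have h3 := (abs_lt.mp h1).2
    have h4 := (abs_lt.mp h2).1
    have hqR : (0 : ℝ) < q := by exact_mod_cast (by omega : 0 < q)
    have h5 : (ell N q j : ℝ) ≤ q * ell N q (j + 1) := by exact_mod_cast hsucc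
    have h6 : 1 / (2 * (q : ℝ)) * ell N q j ≤ ell N q (j + 1) / 2 := by
      rw [one_div, inv_mul_le_iff₀ (by positivity)]
      nlinarith
    have h7 : (y : ℝ) < z + ell N q (j + 1) := by linarith
    exact_mod_cast h7
  -- the smallest quotient
  obtain ⟨x₀, hx₀, hmin⟩ := exists_min_image (S.image fun y => y + a * ell N q j)
    (fun x => x / ell N q (j + 1)) (hne.image _)
  have hcover : (S.image fun y => y + a * ell N q j) ⊆
      win N q (j + 1) (x₀ / ell N q (j + 1)) A ∪ win N q (j + 1) (x₀ / ell N q (j + 1) + 1) A := by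
    intro x hx
    have hxA := hBA' x (hSB x hx)
    have h1 := hmin x hx
    have h2 : x < x₀ + ell N q (j + 1) := by
      rw [mem_image] at hx hx₀
      obtain ⟨y, hy, rfl⟩ := hx
      obtain ⟨z, hz, rfl⟩ := hx₀
      have := hclose y hy z hz
      omega
    have h3 : x / ell N q (j + 1) ≤ x₀ / ell N q (j + 1) + 1 := by
      rw [← Nat.add_div_right x₀ (by omega : 0 < ell N q (j + 1))]
      exact Nat.div_le_div_right h2.le
    unfold win
    rw [mem_union, mem_filter, mem_filter]
    rcases Nat.lt_or_ge (x₀ / ell N q (j + 1)) (x / ell N q (j + 1)) with h4 | h4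
    · right
      exact ⟨hxA, by omega⟩
    · left
      exact ⟨hxA, by omega⟩
  have h1 := (card_le_card hcover).trans (card_union_le _ _)
  rw [hcardS] at h1
  have h2 := h (x₀ / ell N q (j + 1))
  have h3 := h (x₀ / ell N q (j + 1) + 1)
  have h4 : 10 * S.card ≤ B.card := by omega
  exact_mod_cast h4

end Pool.Agent.MPac5134.KX
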