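import Pool.Agent.Lib.MP_ac5134_an.KX.RjC
import Pool.Agent.Lib.MP_ac5134_an.KX.DtN
import Pool.Agent.Lib.MP_ac5134_an.KX.Scale
import Pool.Agent.Lib.MP_ac5134_an.KX.WinB

/-!
# KX-DtW: the discrete theorem in one window

PROOF.  `Γ` from `h d`, `D` from `dt_numX d Γ C₀`.  `M = ell N q j`, `S` = the sum on the right.  If `I` is empty the left side
is `0` (`1 / α > 0`).  Some `A i` (`i ∈ I`) is nonempty (`lam N > 0`), so some `Y t`, `t` in the window, is nonempty, `S ≥ 1`;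
`K ≥ 1`.  `T = 2 S / (lam N)`.  The heights `t` of the window with `T < |Y t|` are less than `S / T = lam N / 2` many (`dt_heavy`
in `KH/DT.lean`, private, copy it), so `B i = {t ∈ A i | |Y t| ≤ T}` has `|B i| ≥ |A i| - lam N / 2 ≥ |A i| / 2` and
`|B i| ≥ lam N / 2`.  `win N q j c (A i) = A i`.  `shift_mem`, `shift_card`, `window_NC` (for `B i ⊆ win N q j c (A i)`) and
`Sel2` at the scale `M ≤ N ≤ q ^ m` for the sets `(B i).image (· - c M)`, `lam' = lam N / (2 M)` (`≤ 1` as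
`lam' M ≤ |B i| ≤ M`): `F'`, `J`, `|J| ≥ ls Γ m q C₀ lam' |I| > 0`, `F' ⊆ range M` and `F' + c M ⊆ B i` (`shift_back`).
`RJ.scale`, `rj_count` for `F' + c M`: `|Y t| ≤ T` there.  Then `dt_numX`.
-/

open RFold Finset

namespace Pool.Agent.MPac5134.KX

open Pool.Agent.MPac5134.KH

theorem dt_win {d e k C₀ : ℕ} {α : ℝ} (hα : 1 ≤ α) (hα2 : α ≤ 2) (h : Sel2 α (9 / 10) k C₀)
    (hde : d ≤ e) (hd : 10 * C₀ + 9 * d ≤ 10 * e) : ∃ D : ℕ, 1 ≤ D ∧ ∀ (N m q K j c : ℕ) (lam : ℝ) (ι : Type)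
      (I : Finset ι) (a b : ι → Fin d → ℤ) (A : ι → Finset ℕ) (Y : ℕ → Finset (Fin d → ℤ)),
      1 ≤ N → 2 ≤ q → N ≤ q ^ m → 0 < lam → (∀ i k, |(b i k : ℝ)| ≤ N) →
      (∀ v : Fin d → ℤ, ∀ s : Finset ι, (∀ i ∈ s, b i = v) → s.card ≤ K) →
      (∀ i ∈ I, A i ⊆ range N) → (∀ i ∈ I, ∀ x ∈ A i, x / ell N q j = c) →
      (∀ i ∈ I, lam * N ≤ (A i).card) →
      (∀ i ∈ I, ∀ b', 40 * (win N q (j + 1) b' (A i)).card ≤ (A i).card) →
      (∀ i ∈ I, ∀ t ∈ A i, fl (pt (a i) (b i) ((t : ℝ) / N)) ∈ Y t) →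
      lam * N * (lam ^ e * I.card) ^ (1 / α) ≤ K * ((D : ℝ) ^ (m + 1) * (q : ℝ) ^ D) *
        ∑ t ∈ (range N).filter (fun t => t / ell N q j = c), ((Y t).card : ℝ) := by
  classical
  obtain ⟨Γ, hΓ, hsel⟩ := h d
  obtain ⟨D, hD, hnum⟩ := dt_numX d e Γ C₀ hΓ hde hd
  refine ⟨D, hD, ?_⟩
  intro N m q K j c lam ι I a b A Y hN hq hqm hl hb hK hA hw hAc hwin hY
  have hα0 : 0 < α := by linarith
  have hN0 : (0 : ℝ) < N := by exact_mod_cast hN
  have hq1 : 1 ≤ q := by omega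
  have hlN : 0 < lam * N := by positivity
  set M : ℕ := ell N q j with hMdef
  have hM1 : 1 ≤ M := ell_pos hN hq1 j
  have hMN : M ≤ N := ell_le hN hq1 j
  have hM0 : (0 : ℝ) < M := by exact_mod_cast hM1
  obtain ⟨W, hW⟩ : ∃ W : Finset ℕ, W = (range N).filter (fun t => t / M = c) := ⟨_, rfl⟩
  obtain ⟨S, hS⟩ : ∃ S : ℝ, S = ∑ t ∈ W, ((Y t).card : ℝ) := ⟨_, rfl⟩
  rw [← hW, ← hS]
  have hSnn : 0 ≤ S := by
    rw [hS]; exact sum_nonneg fun t _ => Nat.cast_nonneg _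
  rcases I.eq_empty_or_nonempty with hI | hI
  · subst hI
    rw [card_empty, Nat.cast_zero, mul_zero, Real.zero_rpow (one_div_ne_zero hα0.ne'), mul_zero]
    positivity
  have hAW : ∀ i ∈ I, A i ⊆ W := by
    intro i hi x hx
    rw [hW]
    exact mem_filter.mpr ⟨hA i hi hx, hw i hi x hx⟩
  have hwinA : ∀ i ∈ I, win N q j c (A i) = A i := by
    intro i hi
    unfold win
    exact filter_true_of_mem fun x hx => hw i hi x hx
  have hAM : ∀ i ∈ I, (A i).card ≤ M := by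
    intro i hi
    have := win_card hN hq1 j c (A i)
    rw [hwinA i hi] at this
    exact this
  obtain ⟨i₀, hi₀⟩ := hI
  have hK1 : 1 ≤ K := by
    have := hK (b i₀) {i₀} (by simp)
    simpa using this
  have hS0 : 0 < S := by
    have h1 : lam * N ≤ S := by
      rw [hS]
      calc lam * N ≤ (A i₀).card := hAc i₀ hi₀
        _ = ∑ t ∈ A i₀, (1 : ℝ) := by simp
        _ ≤ ∑ t ∈ A i₀, ((Y t).card : ℝ) := by
            refine sum_le_sum fun t ht => ?_
            have : 0 < (Y t).card := card_pos.mpr ⟨_, hY i₀ hi₀ t ht⟩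
            exact_mod_cast this
        _ ≤ ∑ t ∈ W, ((Y t).card : ℝ) :=
            sum_le_sum_of_subset_of_nonneg (hAW i₀ hi₀) fun t _ _ => Nat.cast_nonneg _
    exact lt_of_lt_of_le hlN h1
  obtain ⟨T, hT⟩ : ∃ T : ℝ, T = 2 * S / (lam * N) := ⟨_, rfl⟩
  have hT0 : 0 < T := by
    rw [hT]; positivity
  obtain ⟨Hv, hHv⟩ : ∃ Hv : Finset ℕ, Hv = W.filter fun t => T < ((Y t).card : ℝ) := ⟨_, rfl⟩
  have hHv1 : (Hv.card : ℝ) ≤ lam * N / 2 := by
    have h1 : (Hv.card : ℝ) * T ≤ S := by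
      calc (Hv.card : ℝ) * T = ∑ t ∈ Hv, T := by rw [sum_const, nsmul_eq_mul]
        _ ≤ ∑ t ∈ Hv, ((Y t).card : ℝ) := by
            refine sum_le_sum fun t ht => ?_
            rw [hHv] at ht
            exact (mem_filter.mp ht).2.le
        _ ≤ ∑ t ∈ W, ((Y t).card : ℝ) := by
            refine sum_le_sum_of_subset_of_nonneg ?_ fun t _ _ => Nat.cast_nonneg _
            rw [hHv]; exact filter_subset _ _
        _ = S := hS.symm
    have h2 : lam * N / 2 * T = S := by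
      rw [hT]
      field_simp
    exact le_of_mul_le_mul_right (h1.trans h2.ge) hT0
  have hBc : ∀ i ∈ I, ((A i).card : ℝ) - lam * N / 2 ≤ ((A i \ Hv).card : ℝ) := by
    intro i _
    have h1 : (A i).card ≤ (A i \ Hv).card + Hv.card :=
      card_le_card_sdiff_add_card (s := A i) (t := Hv)
    have h2 : ((A i).card : ℝ) ≤ (A i \ Hv).card + Hv.card := by exact_mod_cast h1
    linarith
  have hBhalf : ∀ i ∈ I, lam * N / 2 ≤ ((A i \ Hv).card : ℝ) := by
    intro i hi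
    have h1 := hBc i hi
    have h2 := hAc i hi
    linarith
  have hB2 : ∀ i ∈ I, (A i).card ≤ 2 * (A i \ Hv).card := by
    intro i hi
    have h1 := hBc i hi
    have h2 := hAc i hi
    have h3 : ((A i).card : ℝ) ≤ 2 * ((A i \ Hv).card : ℝ) := by linarith
    exact_mod_cast h3
  have hBw : ∀ i ∈ I, ∀ x ∈ A i \ Hv, x / ell N q j = c := by
    intro i hi x hx
    exact hw i hi x (mem_sdiff.mp hx).1
  have hl'0 : 0 < lam * N / (2 * M) := by positivity
  have hl'M : lam * N / (2 * M) * M = lam * N / 2 := by field_simp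
  have hl'1 : lam * N / (2 * M) ≤ 1 := by
    rw [div_le_one (by positivity)]
    have h1 := hAc i₀ hi₀
    have h2 : ((A i₀).card : ℝ) ≤ M := by exact_mod_cast hAM i₀ hi₀
    linarith
  obtain ⟨F', J, hJI, hJc, -, hFJ, hRJ⟩ := hsel M m q (lam * N / (2 * M)) ι I
    (fun i => (A i \ Hv).image fun x => x - c * ell N q j) hM1 hq (hMN.trans hqm) hl'0 hl'1
    ⟨i₀, hi₀⟩
    (fun i hi => shift_mem hN hq1 (hBw i hi))
    (fun i hi => by
      rw [shift_card hN hq1 (hBw i hi), hl'M]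
      exact hBhalf i hi)
    (fun i hi => by
      refine window_NC hN hq (A := A i) ?_ ?_ ?_
      · rw [hwinA i hi]; exact sdiff_subset
      · rw [hwinA i hi]; exact hB2 i hi
      · intro b'
        rw [hwinA i hi]; exact hwin i hi b')
  have hIc : (0 : ℝ) < I.card := by exact_mod_cast card_pos.mpr ⟨i₀, hi₀⟩
  have hJ : J.Nonempty := by
    rw [nonempty_iff_ne_empty]
    rintro rfl
    rw [card_empty, Nat.cast_zero] at hJc
    have := mul_pos (ls_pos (Γ := Γ) (m := m) (q := q) (C := C₀) hΓ hq1 hl'0) hIc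
    linarith
  obtain ⟨i₁, hi₁⟩ := hJ
  have hF'M : F' ⊆ range M :=
    (hFJ i₁ hi₁).trans (shift_mem hN hq1 (hBw i₁ (hJI hi₁)))
  have hRJ' := RJ.scale (a := c * M) hM1 hMN hα0.le hα2 hRJ hF'M
  have hback : ∀ t ∈ F'.image (fun t => t + c * M), ∀ i ∈ J, t ∈ A i \ Hv := by
    intro t ht i hi
    obtain ⟨y, hy, rfl⟩ := mem_image.mp ht
    exact shift_back hN hq1 (hBw i (hJI hi)) (hFJ i hi hy)
  have hcount := rj_count (K := K) (T := T) hα0.le hRJ' a b J ⟨i₁, hi₁⟩ hb hK Y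
    (fun t ht i hi => hY i (hJI hi) t (mem_sdiff.mp (hback t ht i hi)).1)
    (fun t ht => by
      have h2 := mem_sdiff.mp (hback t ht i₁ hi₁)
      by_contra hc
      push Not at hc
      refine h2.2 ?_
      rw [hHv]
      exact mem_filter.mpr ⟨hAW i₁ (hJI hi₁) h2.1, hc⟩)
  rw [hT] at hcount
  exact hnum N M m q K I.card J.card α lam S hα hN hM1 hMN hq hK1
    (card_pos.mpr ⟨i₀, hi₀⟩) (card_pos.mpr ⟨i₁, hi₁⟩) hl hS0 hl'1 (by linarith) hJc

end Pool.Agent.MPac5134.KX
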