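import Pool.Agent.Lib.MP_ac5134_an.KX.Defs

/-!
# KX-Loss: arithmetic of the losses `ls` and the errors `er`

PROOF.  Direct: `ls Γ m q C lam = lam ^ C / (Γ ^ (m + 1) * q ^ Γ)`, `er Γ m q = Γ (1 + m + log q)`.
`ls_mul`: `(Γ₁ Γ₂) ^ (m + 1) ≤ Γ' ^ (m + 1)`, `q ^ (Γ₁ + Γ₂) ≤ q ^ Γ'`.  `ls_pow`: `(Γ ^ (m + 1)) ^ k = (Γ ^ k) ^ (m + 1)`.
`ls_dens`: `θ ^ C ≥ lam ^ (a C) / ((D ^ C) ^ (m + 1) q ^ (b C))`.  `log_dens`: `log D ≤ D`.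
`cst_et`: `cst_le` (KH/Rnd), `log (1 / et q ^ j) = j (log 2 + log q)`, `log 2 ≤ 1`.
-/

open RFold Finset

namespace Pool.Agent.MPac5134.KX

open Pool.Agent.MPac5134.KH

variable {Γ Γ' Γ₁ Γ₂ m q C C' C₁ C₂ : ℕ} {lam : ℝ}

private theorem Loss_den_pos (hΓ : 1 ≤ Γ) (hq : 1 ≤ q) :
    (0 : ℝ) < (Γ : ℝ) ^ (m + 1) * (q : ℝ) ^ Γ := by
  have h1 : (0 : ℝ) < Γ := by exact_mod_cast hΓ
  have h2 : (0 : ℝ) < q := by exact_mod_cast hq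
  positivity

private theorem Loss_den_le {x y : ℝ} {k l : ℕ} (hx : 0 ≤ x) (hxy : x ≤ y) (hkl : k ≤ l)
    (hq : 1 ≤ q) : x ^ (m + 1) * (q : ℝ) ^ k ≤ y ^ (m + 1) * (q : ℝ) ^ l := by
  have h2 : (1 : ℝ) ≤ q := by exact_mod_cast hq
  have hy : 0 ≤ y := hx.trans hxy
  exact mul_le_mul (pow_le_pow_left₀ hx hxy _) (pow_le_pow_right₀ h2 hkl) (by positivity)
    (by positivity)

private theorem Loss_log_nonneg (hq : 1 ≤ q) : 0 ≤ Real.log (q : ℝ) :=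
  Real.log_nonneg (by exact_mod_cast hq)

theorem ls_pos (hΓ : 1 ≤ Γ) (hq : 1 ≤ q) (hl : 0 < lam) : 0 < ls Γ m q C lam := by
  unfold ls
  exact div_pos (pow_pos hl _) (Loss_den_pos hΓ hq)

theorem ls_le_one (hΓ : 1 ≤ Γ) (hq : 1 ≤ q) (hl : 0 ≤ lam) (hl1 : lam ≤ 1) :
    ls Γ m q C lam ≤ 1 := by
  unfold ls
  rw [div_le_one (Loss_den_pos hΓ hq)]
  have h1 : (1 : ℝ) ≤ Γ := by exact_mod_cast hΓ
  have h2 : (1 : ℝ) ≤ q := by exact_mod_cast hq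
  have h3 : (1 : ℝ) ≤ (Γ : ℝ) ^ (m + 1) := one_le_pow₀ h1
  have h4 : (1 : ℝ) ≤ (q : ℝ) ^ Γ := one_le_pow₀ h2
  have h5 : lam ^ C ≤ 1 := pow_le_one₀ hl hl1
  nlinarith

theorem ls_anti (hΓ : 1 ≤ Γ) (h : Γ ≤ Γ') (hC : C ≤ C') (hq : 1 ≤ q) (hl : 0 < lam)
    (hl1 : lam ≤ 1) : ls Γ' m q C' lam ≤ ls Γ m q C lam := by
  unfold ls
  refine div_le_div₀ (pow_nonneg hl.le _) (pow_le_pow_of_le_one hl.le hl1 hC)
    (Loss_den_pos hΓ hq) ?_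
  exact Loss_den_le (Nat.cast_nonneg _) (by exact_mod_cast h) h hq

theorem ls_mul (hΓ₁ : 1 ≤ Γ₁) (hΓ₂ : 1 ≤ Γ₂) (hq : 1 ≤ q) (hl : 0 < lam) :
    ls (Γ₁ * Γ₂ + Γ₁ + Γ₂) m q (C₁ + C₂) lam ≤ ls Γ₁ m q C₁ lam * ls Γ₂ m q C₂ lam := by
  unfold ls
  rw [div_mul_div_comm, ← pow_add]
  have hd := mul_pos (Loss_den_pos (m := m) hΓ₁ hq) (Loss_den_pos (m := m) hΓ₂ hq)
  refine div_le_div_of_nonneg_left (pow_nonneg hl.le _) hd ?_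
  have e1 : (Γ₁ : ℝ) ^ (m + 1) * (q : ℝ) ^ Γ₁ * ((Γ₂ : ℝ) ^ (m + 1) * (q : ℝ) ^ Γ₂) =
      ((Γ₁ : ℝ) * Γ₂) ^ (m + 1) * (q : ℝ) ^ (Γ₁ + Γ₂) := by
    rw [mul_pow, pow_add]
    ring
  rw [e1]
  refine Loss_den_le (by positivity) ?_ (by omega) hq
  push_cast
  have h1 : (0 : ℝ) ≤ Γ₁ := Nat.cast_nonneg _
  have h2 : (0 : ℝ) ≤ Γ₂ := Nat.cast_nonneg _
  linarith

theorem ls_pow (hΓ : 1 ≤ Γ) (hq : 1 ≤ q) (hl : 0 < lam) (k : ℕ) :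
    ls (Γ ^ k + Γ * k) m q (C * k) lam ≤ ls Γ m q C lam ^ k := by
  unfold ls
  rw [div_pow, ← pow_mul]
  have hd := pow_pos (Loss_den_pos (m := m) hΓ hq) k
  refine div_le_div_of_nonneg_left (pow_nonneg hl.le _) hd ?_
  have e1 : ((Γ : ℝ) ^ (m + 1) * (q : ℝ) ^ Γ) ^ k =
      ((Γ : ℝ) ^ k) ^ (m + 1) * (q : ℝ) ^ (Γ * k) := by
    rw [mul_pow, ← pow_mul, ← pow_mul, ← pow_mul, mul_comm (m + 1) k]
  rw [e1]
  refine Loss_den_le (by positivity) ?_ (Nat.le_add_left _ _) hq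
  push_cast
  have h1 : (0 : ℝ) ≤ (Γ : ℝ) * k := by positivity
  linarith

theorem ls_dens {D a b : ℕ} {θ : ℝ} (hΓ : 1 ≤ Γ) (hD : 1 ≤ D) (hq : 1 ≤ q) (hl : 0 < lam)
    (hθ : lam ^ a / ((D : ℝ) ^ (m + 1) * (q : ℝ) ^ b) ≤ θ) :
    ls (Γ * D ^ C + Γ + b * C) m q (a * C) lam ≤ ls Γ m q C θ := by
  have hDR : (0 : ℝ) < D := by exact_mod_cast hD
  have hqR : (0 : ℝ) < q := by exact_mod_cast hq
  have hΓR : (0 : ℝ) < Γ := by exact_mod_cast hΓ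
  have hden : (0 : ℝ) < (D : ℝ) ^ (m + 1) * (q : ℝ) ^ b := by positivity
  have h1 : (lam ^ a / ((D : ℝ) ^ (m + 1) * (q : ℝ) ^ b)) ^ C ≤ θ ^ C :=
    pow_le_pow_left₀ (by positivity) hθ C
  have h2 : (lam ^ a / ((D : ℝ) ^ (m + 1) * (q : ℝ) ^ b)) ^ C =
      lam ^ (a * C) / (((D : ℝ) ^ C) ^ (m + 1) * (q : ℝ) ^ (b * C)) := by
    rw [div_pow, mul_pow, ← pow_mul, ← pow_mul, ← pow_mul, ← pow_mul, mul_comm (m + 1) C]
  have h3 : ls Γ m q C θ ≥ lam ^ (a * C) / (((D : ℝ) ^ C) ^ (m + 1) * (q : ℝ) ^ (b * C)) /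
      ((Γ : ℝ) ^ (m + 1) * (q : ℝ) ^ Γ) := by
    unfold ls
    rw [← h2]
    exact div_le_div_of_nonneg_right h1 (Loss_den_pos hΓ hq).le
  refine le_trans ?_ h3
  unfold ls
  rw [div_div]
  refine div_le_div_of_nonneg_left (pow_nonneg hl.le _) (by positivity) ?_
  have e1 : ((D : ℝ) ^ C) ^ (m + 1) * (q : ℝ) ^ (b * C) * ((Γ : ℝ) ^ (m + 1) * (q : ℝ) ^ Γ) =
      ((Γ : ℝ) * (D : ℝ) ^ C) ^ (m + 1) * (q : ℝ) ^ (Γ + b * C) := by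
    rw [mul_pow, pow_add]
    ring
  rw [e1]
  refine Loss_den_le (by positivity) ?_ (by omega) hq
  push_cast
  have h4 : (0 : ℝ) ≤ (b : ℝ) * C := by positivity
  linarith

theorem er_nonneg (hq : 1 ≤ q) : 0 ≤ er Γ m q := by
  unfold er
  have := Loss_log_nonneg hq
  positivity

theorem log_dens {D a b : ℕ} {θ : ℝ} (hD : 1 ≤ D) (hq : 1 ≤ q) (hl : 0 < lam)
    (hθ : lam ^ a / ((D : ℝ) ^ (m + 1) * (q : ℝ) ^ b) ≤ θ) :
    Real.log (1 / θ) ≤ a * Real.log (1 / lam) + er (D + b) m q := by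
  have hDR : (0 : ℝ) < D := by exact_mod_cast hD
  have hqR : (0 : ℝ) < q := by exact_mod_cast hq
  have hpos : (0 : ℝ) < lam ^ a / ((D : ℝ) ^ (m + 1) * (q : ℝ) ^ b) := by positivity
  have h1 := Real.log_le_log hpos hθ
  rw [Real.log_div (by positivity) (by positivity), Real.log_mul (by positivity) (by positivity),
    Real.log_pow, Real.log_pow, Real.log_pow] at h1
  rw [one_div, Real.log_inv, one_div, Real.log_inv]
  unfold er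
  have h2 : Real.log (D : ℝ) ≤ D := (Real.log_le_sub_one_of_pos hDR).trans (by linarith)
  have h3 := Loss_log_nonneg hq
  have h4 : ((m + 1 : ℕ) : ℝ) * Real.log (D : ℝ) ≤ ((m + 1 : ℕ) : ℝ) * D :=
    mul_le_mul_of_nonneg_left h2 (Nat.cast_nonneg _)
  push_cast at h1 h4 ⊢
  have h5 : 0 ≤ (D : ℝ) * Real.log (q : ℝ) := by positivity
  have h6 : 0 ≤ (b : ℝ) * (1 + m) := by positivity
  nlinarith

theorem er_mono (hq : 1 ≤ q) (h : Γ ≤ Γ') : er Γ m q ≤ er Γ' m q := by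
  unfold er
  have h1 := Loss_log_nonneg hq
  have h2 : (Γ : ℝ) ≤ Γ' := by exact_mod_cast h
  exact mul_le_mul_of_nonneg_right h2 (by positivity)

theorem er_add : er Γ₁ m q + er Γ₂ m q = er (Γ₁ + Γ₂) m q := by
  unfold er
  push_cast
  ring

theorem er_mul (x : ℕ) : x * er Γ m q = er (x * Γ) m q := by
  unfold er
  push_cast
  ring

theorem le_er {x : ℝ} (hq : 1 ≤ q) (hx : x ≤ Γ) : x ≤ er Γ m q := by
  unfold er
  have h1 := Loss_log_nonneg hq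
  have h2 : (0 : ℝ) ≤ Γ := Nat.cast_nonneg _
  have h3 : 0 ≤ (Γ : ℝ) * ((m : ℝ) + Real.log (q : ℝ)) := by positivity
  linarith

theorem le_er' {x : ℝ} (hq : 1 ≤ q) (hx : x ≤ Γ) : x * Real.log q ≤ er Γ m q := by
  unfold er
  have h1 := Loss_log_nonneg hq
  have h2 : x * Real.log (q : ℝ) ≤ Γ * Real.log (q : ℝ) := mul_le_mul_of_nonneg_right hx h1
  have h3 : 0 ≤ (Γ : ℝ) * (1 + m) := by positivity
  linarith

theorem et_pos (hq : 1 ≤ q) : 0 < et q := by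
  unfold et
  have hqR : (0 : ℝ) < q := by exact_mod_cast hq
  positivity

theorem et_le (hq : 2 ≤ q) : et q ≤ 1 / 4 := by
  unfold et
  have hqR : (2 : ℝ) ≤ q := by exact_mod_cast hq
  exact one_div_le_one_div_of_le (by norm_num) (by linarith)

theorem log_et (hq : 1 ≤ q) (j : ℕ) : Real.log (1 / et q ^ j) ≤ j * (1 + Real.log q) := by
  unfold et
  have hqR : (0 : ℝ) < q := by exact_mod_cast hq
  have e1 : 1 / (1 / (2 * (q : ℝ))) ^ j = (2 * (q : ℝ)) ^ j := by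
    rw [one_div_pow, one_div_one_div]
  rw [e1, Real.log_pow, Real.log_mul (by norm_num) hqR.ne']
  have h2 : Real.log 2 ≤ 1 := by
    have := Real.log_le_sub_one_of_pos (show (0 : ℝ) < 2 by norm_num)
    linarith
  exact mul_le_mul_of_nonneg_left (by linarith) (Nat.cast_nonneg _)

theorem cst_et (d : ℕ) (hq : 2 ≤ q) (j : ℕ) : cst d (et q ^ j) ≤ er (d * (4 + 2 * j)) m q := by
  have hq1 : 1 ≤ q := by omega
  have h0 := et_pos hq1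
  have h1 : et q ^ j ≤ 1 := pow_le_one₀ h0.le ((et_le hq).trans (by norm_num))
  refine (cst_le d (pow_pos h0 j) h1).trans ?_
  have h2 := log_et hq1 j
  have h3 := Loss_log_nonneg hq1
  unfold er
  have h4 : 4 + 2 * Real.log (1 / et q ^ j) ≤ (4 + 2 * (j : ℝ)) * (1 + m + Real.log q) := by
    have h5 : 0 ≤ (4 + 2 * (j : ℝ)) * (m : ℝ) := by positivity
    have h6 : 0 ≤ 4 * Real.log (q : ℝ) := by positivity
    nlinarith
  have h7 := mul_le_mul_of_nonneg_left h4 (Nat.cast_nonneg (α := ℝ) d)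
  refine h7.trans (le_of_eq ?_)
  push_cast
  ring

end Pool.Agent.MPac5134.KX
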