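import Pool.Agent.Lib.MP_ac5134_an.KX.WinB
import Pool.Agent.Lib.MP_ac5134_an.KX.Loss
import Pool.Agent.Lib.MP_ac5134_an.KX.Pop
import Pool.Agent.Lib.MP_ac5134_an.KX.Scale

/-!
# KX-Step1: from `Sel2 α L`, `L ≤ 1`, to `Sel1 α`

PROOF.  The new constants are `k = k₀ + 1`, `C = C₀ + 1`.  Let `d` be given, `Γ₀` from `h d`.  Given the data of `Sel1`.
If `lam N ≤ 40 ^ m`: `pop_one` (loss `lam`), `RJ_triv`: `d log (2 N + 1) ≤ d (log 3 + m log 40 + log (1 / lam))`, at most
`d log (1 / lam) + er (4 d)`.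
Otherwise for every `i ∈ I` `window` gives `(j_i, a_i)`; with `M = ell N q j_i`, `W_i = win N q j_i a_i (A i)`:
`|W_i| ≥ lam N / 40 ^ m`, `|W_i| ≤ M` (`win_card`), so `N / M ≤ 40 ^ m / lam` and `a_i ≤ N / M ≤ 40 ^ m / lam`.  `popular`
over the pairs `range m ×ˢ range (⌊40 ^ m / lam⌋₊ + 1)` (`a = 1`, `K = 2 m 40 ^ m / lam`): a common `(j, a)` for `J₁`,
`|J₁| ≥ lam / (2 m 40 ^ m) |I| ≥ ls 80 m q 1 lam |I|`.  Apply `Sel2` at the scale `M ≤ q ^ m` to the sets
`W_i.image (· - a M)` (`shift_mem`, `shift_card`, `window_NC` with `B = W_i`), density `lam' = lam N / (40 ^ m M) ≤ 1`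
(as `|W_i| ≤ M`); `lam' ≥ lam / 40 ^ m`: `ls_dens` (with `a = 1`, `D = 40`, `b = 0`).  It gives `F' ⊆ range M`, `J`, and
`RJ d M α (L d log (1 / lam') + er Γ₀ m q) F'`.  `RJ.scale` with `F = F'.image (· + a M)` (`⊆ A i` by `shift_back`):
constant `L d log (1 / lam') + er Γ₀ + d log (N / M) + 8 d`.  With `x = log (N / M)`, `y = log (1 / lam)`,
`z = m log 40 ≤ 4 m`: `log (1 / lam') = y + z - x ≥ 0` and `L (y + z - x) + x ≤ y + z` as `x ≤ y + z`, `L ≤ 1`.  So the constant is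
at most `d y + er (Γ₀ + 12 d)`.
-/

open RFold Finset

namespace Pool.Agent.MPac5134.KX

open Pool.Agent.MPac5134.KH

private theorem step1_log40 : Real.log 40 ≤ 4 := by
  rw [Real.log_le_iff_le_exp (by norm_num)]
  have e1 : (2.7 : ℝ) ≤ Real.exp 1 := by linarith [Real.exp_one_gt_d9]
  have e2 : Real.exp 4 = Real.exp 1 ^ 4 := by
    rw [← Real.exp_nat_mul]
    norm_num
  rw [e2]
  calc (40 : ℝ) ≤ 2.7 ^ 4 := by norm_num
    _ ≤ Real.exp 1 ^ 4 := pow_le_pow_left₀ (by norm_num) e1 4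

private theorem step1_log3 : Real.log 3 ≤ 2 := by
  have := Real.log_le_sub_one_of_pos (show (0 : ℝ) < 3 by norm_num)
  linarith

/-- the small case -/
private theorem step1_small {N m : ℕ} {lam : ℝ} (hN : 1 ≤ N) (hl : 0 < lam)
    (hs : lam * N ≤ 40 ^ m) :
    Real.log (2 * N + 1) ≤ Real.log (1 / lam) + (2 + 4 * m) := by
  have hN0 : (1 : ℝ) ≤ N := by exact_mod_cast hN
  have h1 : (2 * N + 1 : ℝ) ≤ 3 * 40 ^ m * (1 / lam) := by
    have h2 : (N : ℝ) ≤ 40 ^ m * (1 / lam) := by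
      rw [mul_one_div, le_div_iff₀ hl]
      linarith
    linarith
  have h3 : Real.log (2 * N + 1) ≤ Real.log (3 * 40 ^ m * (1 / lam)) :=
    Real.log_le_log (by positivity) h1
  have h4 : Real.log (3 * 40 ^ m * (1 / lam)) =
      Real.log 3 + m * Real.log 40 + Real.log (1 / lam) := by
    rw [Real.log_mul (by positivity) (by positivity), Real.log_mul (by norm_num) (by positivity),
      Real.log_pow]
  have h5 : (m : ℝ) * Real.log 40 ≤ m * 4 :=
    mul_le_mul_of_nonneg_left step1_log40 (Nat.cast_nonneg m)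
  linarith [step1_log3]

private theorem step1_loss {m q : ℕ} {lam : ℝ} (hm : 1 ≤ m) (hq : 1 ≤ q) (hl : 0 < lam) :
    ls 80 m q 1 lam ≤ 1 / (2 * m * 40 ^ m / lam) := by
  rw [one_div_div]
  unfold ls
  rw [pow_one]
  have hm0 : (0 : ℝ) < m := by exact_mod_cast hm
  apply div_le_div_of_nonneg_left hl.le (by positivity)
  have a1 : (1 : ℝ) ≤ (q : ℝ) ^ 80 := one_le_pow₀ (by exact_mod_cast hq)
  have a2 : (m : ℝ) ≤ 2 ^ m := by exact_mod_cast (Nat.lt_two_pow_self).le
  have a3 : ((80 : ℕ) : ℝ) ^ (m + 1) = 80 * (2 ^ m * 40 ^ m) := by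
    rw [← mul_pow, pow_succ]
    norm_num
    ring
  rw [a3]
  have a4 : (0 : ℝ) < 40 ^ m := by positivity
  have a5 : (m : ℝ) * 40 ^ m ≤ 2 ^ m * 40 ^ m := mul_le_mul_of_nonneg_right a2 a4.le
  have a6 : (0 : ℝ) < 2 ^ m * 40 ^ m := by positivity
  calc 2 * (m : ℝ) * 40 ^ m = 2 * (m * 40 ^ m) := by ring
    _ ≤ 80 * (2 ^ m * 40 ^ m) := by linarith
    _ = 80 * (2 ^ m * 40 ^ m) * 1 := by ring
    _ ≤ 80 * (2 ^ m * 40 ^ m) * (q : ℝ) ^ 80 :=
      mul_le_mul_of_nonneg_left a1 (by positivity)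

/-- the constants -/
private theorem step1_cst {d N M m q Γ₀ : ℕ} {L lam : ℝ} (hL1 : L ≤ 1)
    (hq : 1 ≤ q) (hM : 1 ≤ M) (hMN : M ≤ N) (hl : 0 < lam)
    (hl1 : lam * N / (40 ^ m * M) ≤ 1) :
    L * d * Real.log (1 / (lam * N / (40 ^ m * M))) + er Γ₀ m q + d * Real.log (N / M) + 8 * d ≤
      d * Real.log (1 / lam) + er (Γ₀ + 12 * d) m q := by
  have hM0 : (0 : ℝ) < M := by exact_mod_cast hM
  have hN0 : (0 : ℝ) < N := by exact_mod_cast (lt_of_lt_of_le hM hMN)
  have hd : (0 : ℝ) ≤ d := Nat.cast_nonneg d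
  have hpos : 0 < lam * N / (40 ^ m * M) := by positivity
  have e1 : Real.log (1 / (lam * N / (40 ^ m * M))) =
      m * Real.log 40 + Real.log (1 / lam) - Real.log (N / M) := by
    have e2 : 1 / (lam * N / (40 ^ m * M)) = 40 ^ m * (1 / lam) / (N / M : ℝ) := by
      field_simp
    rw [e2, Real.log_div (by positivity) (by positivity),
      Real.log_mul (by positivity) (by positivity), Real.log_pow]
  have e3 : 0 ≤ Real.log (1 / (lam * N / (40 ^ m * M))) := by
    apply Real.log_nonneg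
    rw [one_div]
    exact (one_le_inv₀ hpos).2 hl1
  have e4 : L * d * Real.log (1 / (lam * N / (40 ^ m * M))) ≤
      d * Real.log (1 / (lam * N / (40 ^ m * M))) := by
    have := mul_le_mul_of_nonneg_right hL1 (mul_nonneg hd e3)
    linarith
  have e5 : (d : ℝ) * (m * Real.log 40) ≤ d * (m * 4) :=
    mul_le_mul_of_nonneg_left
      (mul_le_mul_of_nonneg_left step1_log40 (Nat.cast_nonneg m)) hd
  have e6 : er (Γ₀ + 12 * d) m q = er Γ₀ m q + er (12 * d) m q := er_add.symm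
  have e7 : (d : ℝ) * (m * 4) + 8 * d ≤ er (12 * d) m q := by
    unfold er
    push_cast
    have h1 : 0 ≤ Real.log (q : ℝ) := Real.log_nonneg (by exact_mod_cast hq)
    have h2 : 0 ≤ (d : ℝ) * Real.log q := mul_nonneg hd h1
    have h3 : 0 ≤ (d : ℝ) * m := by positivity
    nlinarith
  rw [e1] at e4
  rw [e1, e6]
  rw [mul_sub, mul_add] at e4
  linarith

theorem step1 {α L : ℝ} (hα : 0 ≤ α) (hα2 : α ≤ 2) (hL0 : 0 ≤ L) (hL1 : L ≤ 1) {k₀ C₀ : ℕ}
    (h : Sel2 α L k₀ C₀) : ∃ k C : ℕ, Sel1 α k C := by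
  classical
  refine ⟨k₀ + 1, C₀ + 1, fun d => ?_⟩
  obtain ⟨Γ₀, hΓ₀, hS⟩ := h d
  obtain ⟨Γ₁, hΓ₁⟩ : ∃ Γ₁ : ℕ, Γ₁ = Γ₀ * 40 ^ C₀ + Γ₀ + 0 * C₀ := ⟨_, rfl⟩
  have hΓ₁1 : 1 ≤ Γ₁ := by
    rw [hΓ₁]
    omega
  refine ⟨(Γ₁ * 80 + Γ₁ + 80) + (Γ₀ + 12 * d), by omega, ?_⟩
  intro N m q lam ι I A hN hq hm hl hl1 hI hA hc
  have hq1 : 1 ≤ q := by omega
  have hN0 : (1 : ℝ) ≤ N := by exact_mod_cast hN
  have hd : (0 : ℝ) ≤ d := Nat.cast_nonneg d
  have hIp : (0 : ℝ) < I.card := by exact_mod_cast hI.card_pos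
  rcases le_or_gt (lam * N) (40 ^ m) with hsm | hbig
  · -- the small case
    obtain ⟨t, J, hJ, hJc, hJA⟩ := pop_one hN hl I hI A hA hc
    refine ⟨{t}, J, hJ, ?_, ?_, ?_, ?_⟩
    · refine le_trans (mul_le_mul_of_nonneg_right ?_ hIp.le) hJc
      refine le_trans (ls_anti (Γ := 1) (C := 1) le_rfl (by omega) (by omega) hq1 hl hl1) ?_
      unfold ls
      rw [pow_one, Nat.cast_one, one_pow, one_mul, pow_one]
      exact div_le_self hl.le (by exact_mod_cast hq1)
    · simp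
    · intro i hi
      rw [singleton_subset_iff]
      exact hJA i hi
    · refine RJ_triv hα ?_ (singleton_nonempty t)
      have e1 : er (12 * d) m q ≤ er ((Γ₁ * 80 + Γ₁ + 80) + (Γ₀ + 12 * d)) m q :=
        er_mono hq1 (by omega)
      have e2 := mul_le_mul_of_nonneg_left (step1_small hN hl hsm) hd
      have e3 : (d : ℝ) * (2 + 4 * m) ≤ er (12 * d) m q := by
        unfold er
        push_cast
        have h1 : 0 ≤ Real.log (q : ℝ) := Real.log_nonneg (by exact_mod_cast hq1)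
        have h2 : 0 ≤ (d : ℝ) * Real.log q := mul_nonneg hd h1
        have h3 : 0 ≤ (d : ℝ) * m := by positivity
        nlinarith
      rw [mul_add] at e2
      linarith
  · -- the large case
    have hm1 : 1 ≤ m := by
      rcases Nat.eq_zero_or_pos m with h0 | h0
      · exfalso
        subst h0
        rw [pow_zero] at hm hbig
        have : (N : ℝ) ≤ 1 := by exact_mod_cast hm
        nlinarith
      · exact h0
    have hm0 : (0 : ℝ) < m := by exact_mod_cast hm1
    have h40 : (1 : ℝ) ≤ 40 ^ m := one_le_pow₀ (by norm_num)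
    have hrat : (1 : ℝ) ≤ 40 ^ m / lam := by
      rw [le_div_iff₀ hl]
      linarith
    have hK : (0 : ℝ) < 2 * m * 40 ^ m / lam := by positivity
    -- a popular window
    have hwin : ∀ i ∈ I, ∃ j a : ℕ, j < m ∧ a ≤ ⌊(40 : ℝ) ^ m / lam⌋₊ ∧
        (A i).card ≤ 40 ^ j * (win N q j a (A i)).card ∧
        ∀ b, 40 * (win N q (j + 1) b (A i)).card ≤ (win N q j a (A i)).card := by
      intro i hi
      have hcard : 40 ^ m < (A i).card := by
        have h1 : (40 : ℝ) ^ m < (A i).card := hbig.trans_le (hc i hi)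
        exact_mod_cast h1
      obtain ⟨j, a, hj, ha, hw, hb⟩ := window hN hq hm (hA i hi) hcard
      refine ⟨j, a, hj, ?_, hw, hb⟩
      apply Nat.le_floor
      have hM := ell_pos hN hq1 j
      have hM0 : (0 : ℝ) < ell N q j := by exact_mod_cast hM
      have h1 : ((A i).card : ℝ) ≤ 40 ^ j * (win N q j a (A i)).card := by exact_mod_cast hw
      have h2 : ((win N q j a (A i)).card : ℝ) ≤ ell N q j := by
        exact_mod_cast win_card hN hq1 j a (A i)
      have h3 : (40 : ℝ) ^ j ≤ 40 ^ m := pow_le_pow_right₀ (by norm_num) hj.le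
      have h4 : lam * N ≤ 40 ^ m * ell N q j := by
        refine (hc i hi).trans (h1.trans ?_)
        exact mul_le_mul h3 h2 (Nat.cast_nonneg _) (by positivity)
      have h5 : (a : ℝ) * ell N q j ≤ N := by exact_mod_cast ha
      rw [le_div_iff₀ hl]
      have h6 : (a : ℝ) * lam * ell N q j ≤ 40 ^ m * ell N q j := by
        calc (a : ℝ) * lam * ell N q j = lam * (a * ell N q j) := by ring
          _ ≤ lam * N := mul_le_mul_of_nonneg_left h5 hl.le
          _ ≤ _ := h4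
      exact le_of_mul_le_mul_right h6 hM0
    obtain ⟨r, hr⟩ : ∃ r : ι → ℕ × ℕ → Prop, ∀ i y, r i y ↔
        (A i).card ≤ 40 ^ y.1 * (win N q y.1 y.2 (A i)).card ∧
          ∀ b, 40 * (win N q (y.1 + 1) b (A i)).card ≤ (win N q y.1 y.2 (A i)).card :=
      ⟨fun i y => (A i).card ≤ 40 ^ y.1 * (win N q y.1 y.2 (A i)).card ∧
          ∀ b, 40 * (win N q (y.1 + 1) b (A i)).card ≤ (win N q y.1 y.2 (A i)).card,
        fun _ _ => Iff.rfl⟩
    obtain ⟨⟨j, a⟩, hja, hpop⟩ := popular I hI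
      (range m ×ˢ range (⌊(40 : ℝ) ^ m / lam⌋₊ + 1)) r
      (a := 1) (K := 2 * m * 40 ^ m / lam) one_pos hK
      (by
        rw [card_product, card_range, card_range]
        push_cast
        have h1 : ((⌊(40 : ℝ) ^ m / lam⌋₊ : ℕ) : ℝ) ≤ 40 ^ m / lam :=
          Nat.floor_le (by positivity)
        calc (m : ℝ) * ((⌊(40 : ℝ) ^ m / lam⌋₊ : ℕ) + 1) ≤ m * (40 ^ m / lam + 40 ^ m / lam) :=
              mul_le_mul_of_nonneg_left (by linarith) hm0.le
          _ = 2 * m * 40 ^ m / lam := by ring)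
      (fun i hi => by
        obtain ⟨j, a, hj, ha, hw, hb⟩ := hwin i hi
        rw [Nat.one_le_cast, Nat.one_le_iff_ne_zero, ← Nat.pos_iff_ne_zero, card_pos]
        refine ⟨(j, a), ?_⟩
        rw [mem_filter, mem_product, mem_range, mem_range]
        exact ⟨⟨hj, by show a < _ + 1; omega⟩, (hr i (j, a)).2 ⟨hw, hb⟩⟩)
    rw [mem_product, mem_range, mem_range] at hja
    have hjm : j < m := hja.1
    obtain ⟨J₁, hJ₁⟩ : ∃ J₁ : Finset ι, J₁ = I.filter fun i => r i (j, a) := ⟨_, rfl⟩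
    have hpop' : 1 / (2 * m * 40 ^ m / lam) * I.card ≤ (J₁.card : ℝ) := by
      rw [hJ₁]
      convert hpop
    have hJ₁p : (0 : ℝ) < J₁.card := lt_of_lt_of_le (by positivity) hpop'
    have hJ₁n : J₁.Nonempty := by
      rw [← Finset.card_pos]
      exact_mod_cast hJ₁p
    have hJ₁I : J₁ ⊆ I := by
      rw [hJ₁]
      exact filter_subset _ _
    have hJ₁w : ∀ i ∈ J₁, (A i).card ≤ 40 ^ j * (win N q j a (A i)).card ∧
        ∀ b, 40 * (win N q (j + 1) b (A i)).card ≤ (win N q j a (A i)).card := by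
      intro i hi
      rw [hJ₁, mem_filter] at hi
      exact (hr i (j, a)).1 hi.2
    -- the scale
    have hM := ell_pos hN hq1 j
    have hMN := ell_le hN hq1 j
    have hM0 : (0 : ℝ) < ell N q j := by exact_mod_cast hM
    have hMNR : (ell N q j : ℝ) ≤ N := by exact_mod_cast hMN
    have hWd : ∀ i ∈ J₁, lam * N / 40 ^ m ≤ ((win N q j a (A i)).card : ℝ) := by
      intro i hi
      have h1 : ((A i).card : ℝ) ≤ 40 ^ j * (win N q j a (A i)).card := by
        exact_mod_cast (hJ₁w i hi).1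
      have h3 : (40 : ℝ) ^ j ≤ 40 ^ m := pow_le_pow_right₀ (by norm_num) hjm.le
      rw [div_le_iff₀ (by positivity)]
      refine (hc i (hJ₁I hi)).trans (h1.trans ?_)
      rw [mul_comm]
      exact mul_le_mul_of_nonneg_left h3 (Nat.cast_nonneg _)
    have hl'0 : 0 < lam * N / (40 ^ m * ell N q j) := by positivity
    have hl'1 : lam * N / (40 ^ m * ell N q j) ≤ 1 := by
      obtain ⟨i, hi⟩ := hJ₁n
      have h1 := hWd i hi
      have h2 : ((win N q j a (A i)).card : ℝ) ≤ ell N q j := by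
        exact_mod_cast win_card hN hq1 j a (A i)
      rw [← div_div, div_le_one hM0]
      exact h1.trans h2
    have hW : ∀ i, ∀ x ∈ win N q j a (A i), x / ell N q j = a := by
      intro i x hx
      unfold win at hx
      exact (mem_filter.1 hx).2
    obtain ⟨F', J, hJ, hJc, hFk, hFA, hR⟩ := hS (ell N q j) m q (lam * N / (40 ^ m * ell N q j)) ι
      J₁ (fun i => (win N q j a (A i)).image fun x => x - a * ell N q j) hM hq (hMN.trans hm)
      hl'0 hl'1 hJ₁n (fun i _ => shift_mem hN hq1 (hW i))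
      (fun i hi => by
        rw [shift_card hN hq1 (hW i)]
        refine le_trans (le_of_eq ?_) (hWd i hi)
        field_simp)
      (fun i hi => window_NC hN hq (Finset.Subset.refl _) (by omega) (hJ₁w i hi).2)
    have hls : 0 < ls Γ₀ m q C₀ (lam * N / (40 ^ m * ell N q j)) := ls_pos hΓ₀ hq1 hl'0
    have hJp : (0 : ℝ) < J.card := lt_of_lt_of_le (mul_pos hls hJ₁p) hJc
    have hJn : J.Nonempty := by
      rw [← Finset.card_pos]
      exact_mod_cast hJp
    have hF'r : F' ⊆ range (ell N q j) := by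
      obtain ⟨i, hi⟩ := hJn
      exact (hFA i hi).trans (shift_mem hN hq1 (hW i))
    refine ⟨F'.image fun t => t + a * ell N q j, J, hJ.trans hJ₁I, ?_, ?_, ?_, ?_⟩
    · -- losses
      have l1 : ls ((Γ₁ * 80 + Γ₁ + 80) + (Γ₀ + 12 * d)) m q (C₀ + 1) lam ≤
          ls (Γ₁ * 80 + Γ₁ + 80) m q (C₀ + 1) lam :=
        ls_anti (by omega) (by omega) le_rfl hq1 hl hl1
      have l2 : ls (Γ₁ * 80 + Γ₁ + 80) m q (C₀ + 1) lam ≤ ls Γ₁ m q C₀ lam * ls 80 m q 1 lam :=
        ls_mul hΓ₁1 (by norm_num) hq1 hl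
      have l3 : ls Γ₁ m q C₀ lam ≤ ls Γ₀ m q C₀ (lam * N / (40 ^ m * ell N q j)) := by
        have h1 := ls_dens (Γ := Γ₀) (m := m) (q := q) (C := C₀) (lam := lam) (D := 40) (a := 1)
          (b := 0) (θ := lam * N / (40 ^ m * ell N q j)) hΓ₀ (by norm_num) hq1 hl (by
            rw [pow_one, pow_zero, mul_one]
            push_cast
            rw [div_le_div_iff₀ (by positivity) (by positivity)]
            have h2 : lam * (40 ^ m * (ell N q j : ℝ)) ≤ lam * (40 ^ m * N) := by gcongr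
            have h3 : (0 : ℝ) ≤ lam * (40 ^ m * N) := by positivity
            calc lam * (40 ^ m * (ell N q j : ℝ)) ≤ lam * (40 ^ m * N) := h2
              _ ≤ 40 * (lam * (40 ^ m * N)) := by linarith
              _ = lam * N * 40 ^ (m + 1) := by ring)
        rw [one_mul] at h1
        rw [hΓ₁]
        exact h1
      have l4 := step1_loss (m := m) (q := q) hm1 hq1 hl
      have p1 : 0 < ls 80 m q 1 lam := ls_pos (by norm_num) hq1 hl
      calc ls ((Γ₁ * 80 + Γ₁ + 80) + (Γ₀ + 12 * d)) m q (C₀ + 1) lam * I.card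
          ≤ ls Γ₁ m q C₀ lam * ls 80 m q 1 lam * I.card :=
            mul_le_mul_of_nonneg_right (l1.trans l2) hIp.le
        _ ≤ ls Γ₀ m q C₀ (lam * N / (40 ^ m * ell N q j)) * (1 / (2 * m * 40 ^ m / lam)) *
            I.card := by
            refine mul_le_mul_of_nonneg_right ?_ hIp.le
            exact mul_le_mul l3 l4 p1.le hls.le
        _ = ls Γ₀ m q C₀ (lam * N / (40 ^ m * ell N q j)) *
            (1 / (2 * m * 40 ^ m / lam) * I.card) := by ring
        _ ≤ ls Γ₀ m q C₀ (lam * N / (40 ^ m * ell N q j)) * J₁.card :=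
            mul_le_mul_of_nonneg_left hpop' hls.le
        _ ≤ J.card := hJc
    · exact card_image_le.trans (by omega)
    · intro i hi x hx
      rw [mem_image] at hx
      obtain ⟨t, ht, rfl⟩ := hx
      have h1 := shift_back hN hq1 (hW i) (hFA i hi ht)
      unfold win at h1
      exact (mem_filter.1 h1).1
    · have h1 := hR.scale (N := N) (a := a * ell N q j) hM hMN hα hα2 hF'r
      refine h1.mono le_rfl ?_
      refine (step1_cst hL1 hq1 hM hMN hl hl'1).trans ?_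
      have e1 : er (Γ₀ + 12 * d) m q ≤ er ((Γ₁ * 80 + Γ₁ + 80) + (Γ₀ + 12 * d)) m q :=
        er_mono hq1 (by omega)
      linarith

end Pool.Agent.MPac5134.KX
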