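import Pool.Agent.Lib.MP_ac5134_an.KX.Defs

/-!
# KX-JLad: monotonicity of trees, and the ladder, with `RJ`

PROOF.  The proofs in `KH/Lad.lean` word by word (`Tree` becomes `TreeJ`, `RI` becomes `RJ`).  `TreeJ.mono_eta`: by
induction on `n` (`sep` and `Rel` and `η N ≤ |c|` are monotone: `sep.mono`, `Rel.mono` in `KH/RelA.lean`).
-/

open RFold Finset

namespace Pool.Agent.MPac5134.KX

open Pool.Agent.MPac5134.KH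

theorem TreeJ.mem {d N : ℕ} {α C η : ℝ} {H : Finset ℕ} {n t₀ u t₁ : ℕ}
    (h : TreeJ d N α C η H n t₀ u t₁) : t₀ ∈ H ∧ u ∈ H ∧ t₁ ∈ H := by
  cases n with
  | zero => exact h
  | succ n => exact h.1

/-- trees are monotone in `H` and `C` -/
theorem TreeJ.mono {d N : ℕ} {α C C' η : ℝ} {H H' : Finset ℕ} (hH : H ⊆ H')
    (hC : ∀ F, RJ d N α C F → RJ d N α C' F) {n : ℕ} :
    ∀ {t₀ u t₁ : ℕ}, TreeJ d N α C η H n t₀ u t₁ → TreeJ d N α C' η H' n t₀ u t₁ := by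
  induction n with
  | zero =>
    intro t₀ u t₁ h
    have h' : t₀ ∈ H ∧ u ∈ H ∧ t₁ ∈ H := h
    have h2 : t₀ ∈ H' ∧ u ∈ H' ∧ t₁ ∈ H' := ⟨hH h'.1, hH h'.2.1, hH h'.2.2⟩
    exact h2
  | succ n ih =>
    intro t₀ u t₁ h
    obtain ⟨hm, h1, h2, c, P, hc, hP, hRP, h3⟩ := h
    refine ⟨⟨hH hm.1, hH hm.2.1, hH hm.2.2⟩, h1, h2, c, P, hc, hP.trans hH, hC P hRP, ?_⟩
    intro p hp
    obtain ⟨h4, h5, Q, hQ, hRQ, h6⟩ := h3 p hp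
    refine ⟨h4, h5, Q, hQ.trans hH, hC Q hRQ, ?_⟩
    intro q hq
    obtain ⟨z, hz, h7, h8, h9, h10, h11⟩ := h6 q hq
    exact ⟨z, hH hz, h7, h8, h9, h10, ih h11⟩

theorem ladderJ {d N : ℕ} {α C η : ℝ} {H : Finset ℕ} (g : ℕ → ℕ → ℕ → ℝ) {Bd δ : ℝ}
    (hg : ∀ x ∈ H, ∀ y ∈ H, ∀ z ∈ H, g x y z ≤ Bd) (n : ℕ) : ∀ {t₀ u t₁ : ℕ},
    TreeJ d N α C η H n t₀ u t₁ → Bd < g t₀ u t₁ + n * δ →
    ∃ t₀ u t₁ : ℕ, (t₀ ∈ H ∧ u ∈ H ∧ t₁ ∈ H) ∧ sep N η t₀ t₁ ∧ sep N η t₀ u ∧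
      ∃ (c : ℝ) (P : Finset ℕ), η * N ≤ |c| ∧ P ⊆ H ∧ RJ d N α C P ∧
        ∀ p ∈ P, sep N η p t₀ ∧ sep N η p u ∧ ∃ Q : Finset ℕ, Q ⊆ H ∧ RJ d N α C Q ∧
          ∀ q ∈ Q, ∃ z ∈ H, sep N η z t₁ ∧ Rel η t₀ u t₁ c p q z ∧
            g t₁ z q ≤ g t₀ u t₁ + δ := by
  induction n with
  | zero =>
    intro t₀ u t₁ h hB
    have hm := h.mem
    have h1 := hg t₀ hm.1 u hm.2.1 t₁ hm.2.2
    have h2 : Bd < g t₀ u t₁ := by simpa using hB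
    exact absurd h1 (not_le.mpr h2)
  | succ n ih =>
    intro t₀ u t₁ h hB
    obtain ⟨hm, h1, h2, c, P, hc, hP, hRP, h3⟩ := h
    by_cases hbad : ∃ z q : ℕ, TreeJ d N α C η H n t₁ z q ∧ g t₀ u t₁ + δ < g t₁ z q
    · obtain ⟨z, q, hT, hlt⟩ := hbad
      refine ih hT ?_
      have h4 : Bd < g t₀ u t₁ + ((n : ℝ) + 1) * δ := by
        have := hB
        push_cast at this
        exact this
      nlinarith [h4, hlt]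
    · push Not at hbad
      refine ⟨t₀, u, t₁, hm, h1, h2, c, P, hc, hP, hRP, ?_⟩
      intro p hp
      obtain ⟨h4, h5, Q, hQ, hRQ, h6⟩ := h3 p hp
      refine ⟨h4, h5, Q, hQ, hRQ, ?_⟩
      intro q hq
      obtain ⟨z, hz, _, h8, _, h10, h11⟩ := h6 q hq
      exact ⟨z, hz, h8, h10, hbad z q h11⟩

end Pool.Agent.MPac5134.KX
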