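import Pool.Agent.Lib.MP_ac5134_an.KX.JNode
import Pool.Agent.Lib.MP_ac5134_an.KX.JLad

/-!
# KX-JTree: trees of heights give the exponent `Ψ(α) + ε`, the constant `C` is multiplied by
`(2 α - 1) / (α² + 3 α - 2)`

PROOF.  As `tree_RI` in `KH/TreeRI.lean`, with `nodeJ`, `ladderJ`, and with `k := ∑ i, w i * (S i).kap` exactly.  With
`D = α² + 3α - 2 ≥ 2` the error of `nodeJ` is
`(2 α - 1) C + (α² + α - 1) k + ((α - 1) (2 α + 1) + α (1 + α)) cst`, so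
`D E h ≤ (3α² + 2α - 2) s + 4 δ + (2 α - 1) C + (α² + α - 1) k + 11 cst`; `h = ent B + kap` (`LS.h_eq`), so
`D E h = D E ent B + D k`, and `α² + α - 1 ≤ D`, `k ≥ 0`: the terms with `k` drop.  `4 δ / D ≤ 2 δ ≤ ε s + 2`,
`11 cst / D ≤ 6 cst ≤ 6 d (4 + 2 log (1/η))` (`cst_le`).  Divide by `D`.  `Γ = 24 (d + 1)` or any larger
constant; `n = ⌈16 / ε⌉₊ + 1` does not depend on `d`.
-/

open RFold Finset

namespace Pool.Agent.MPac5134.KX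

open Pool.Agent.MPac5134.KH

private theorem JTree_fin {d : ℕ} {α ε b g s k c C L δ : ℝ} (h1 : 1 < α) (hα : α ≤ 2) (hk : 0 ≤ k)
    (hL : 0 ≤ L) (hδ : 2 * δ ≤ ε * s + 2) (hδ0 : 0 ≤ δ)
    (hg : g ≤ 2 * s) (hc0 : 0 ≤ c) (hc : c ≤ d * (4 + 2 * L))
    (hn : (α ^ 2 + 3 * α - 2) * (b + k) + (α - 1) ^ 2 * g ≤
      (3 * α ^ 2 - 2 * α) * s + α ^ 2 * (g + δ) +
        ((α - 1) * ((α + 1) * k + (2 * α + 1) * c + C) + α * (k + (1 + α) * c + C))) :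
    b ≤ (Psi α + ε) * s + ((2 * α - 1) / (α ^ 2 + 3 * α - 2) * C +
      24 * ((d : ℝ) + 1) * (1 + L)) := by
  have hD : 2 ≤ α ^ 2 + 3 * α - 2 := by nlinarith
  have hD0 : 0 < α ^ 2 + 3 * α - 2 := by linarith
  have e1 : (2 * α - 1) * g ≤ (2 * α - 1) * (2 * s) :=
    mul_le_mul_of_nonneg_left hg (by linarith)
  have hα2 : α ^ 2 ≤ 4 := by nlinarith
  have e2 : α ^ 2 * δ ≤ 4 * δ := mul_le_mul_of_nonneg_right hα2 hδ0
  have e3 : (3 * α ^ 2 - 1) * c ≤ 11 * c := mul_le_mul_of_nonneg_right (by linarith) hc0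
  have e3' : 0 ≤ (2 * α - 1) * k := mul_nonneg (by linarith) hk
  have e4 : (α ^ 2 + 3 * α - 2) * b ≤ (3 * α ^ 2 + 2 * α - 2) * s + (4 * δ + 11 * c) +
      (2 * α - 1) * C := by
    linarith
  have e5 : (3 * α ^ 2 + 2 * α - 2) * s = (α ^ 2 + 3 * α - 2) * (Psi α * s) := by
    unfold Psi
    rw [← mul_assoc, mul_div_cancel₀ _ hD0.ne']
  have e6 : (2 * α - 1) * C = (α ^ 2 + 3 * α - 2) * ((2 * α - 1) / (α ^ 2 + 3 * α - 2) * C) := by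
    rw [← mul_assoc, mul_div_cancel₀ _ hD0.ne']
  have e7 : 4 * δ + 11 * c ≤ (α ^ 2 + 3 * α - 2) * (2 * δ + 11 / 2 * c) := by
    have h0 : 0 ≤ 2 * δ + 11 / 2 * c := by linarith
    have := mul_le_mul_of_nonneg_right hD h0
    linarith
  have e8 : b ≤ Psi α * s + (2 * δ + 11 / 2 * c) + (2 * α - 1) / (α ^ 2 + 3 * α - 2) * C := by
    refine le_of_mul_le_mul_left ?_ hD0
    rw [mul_add, mul_add, ← e5, ← e6]
    linarith
  have hd : (0 : ℝ) ≤ d := Nat.cast_nonneg d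
  have hdL : 0 ≤ (d : ℝ) * L := mul_nonneg hd hL
  have e9 : 24 * ((d : ℝ) + 1) * (1 + L) = 24 * d + 24 + 24 * (d * L) + 24 * L := by ring
  have e10 : (d : ℝ) * (4 + 2 * L) = 4 * d + 2 * (d * L) := by ring
  rw [e10] at hc
  rw [e9]
  linarith

theorem tree_RJ {α ε : ℝ} (h1 : 1 < α) (h2 : α ≤ 2) (hε : 0 < ε) :
    ∃ n : ℕ, ∀ d : ℕ, ∃ Γ : ℝ, 0 ≤ Γ ∧ ∀ (N : ℕ) (C η : ℝ) (H : Finset ℕ) (t₀ u t₁ : ℕ), 1 ≤ N →
      0 ≤ C → 0 < η → η ≤ 1 → (∀ j ∈ H, j ≤ N) → TreeJ d N α C η H n t₀ u t₁ →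
      RJ d N (Psi α + ε) ((2 * α - 1) / (α ^ 2 + 3 * α - 2) * C +
        Γ * (1 + Real.log (1 / η))) H := by
  refine ⟨⌈16 / ε⌉₊ + 1, fun d => ⟨24 * ((d : ℝ) + 1), by positivity, ?_⟩⟩
  intro N C η H t₀ u t₁ hN hC hη hη1 hH hT
  obtain ⟨ht0, hu, ht1⟩ := hT.mem
  refine ⟨⟨t₀, ht0⟩, ?_⟩
  intro I Ω _ _ w S s hw hw1 hB hs
  set n : ℕ := ⌈16 / ε⌉₊ + 1 with hn
  have hn0 : (0 : ℝ) < n := by
    rw [hn]; positivity
  have hnε : 16 ≤ ε * n := by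
    have h3 : 16 / ε ≤ n := by
      rw [hn]; push_cast
      have := Nat.le_ceil (16 / ε)
      linarith
    rw [div_le_iff₀ hε] at h3
    linarith
  have hk0 : 0 ≤ ∑ i, w i * (S i).kap := Finset.sum_nonneg fun i _ =>
    mul_nonneg (hw i) (LS.kap_nonneg (S i))
  have hs0 : 0 ≤ s := le_trans (Finset.sum_nonneg fun i _ =>
    mul_nonneg (hw i) (LS.H_nonneg (S i) ((t₀ : ℝ) / N))) (hs t₀ ht0)
  have hL : 0 ≤ Real.log (1 / η) := Real.log_nonneg (by rw [le_div_iff₀ hη]; linarith)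
  set g : ℕ → ℕ → ℕ → ℝ := fun a b c => ∑ i, w i * (S i).G ((a : ℝ) / N) ((b : ℝ) / N) ((c : ℝ) / N)
    with hg
  have hg2 : ∀ x ∈ H, ∀ y ∈ H, ∀ z ∈ H, g x y z ≤ 2 * s := by
    intro x _ y hy z hz
    have e1 : g x y z ≤ ∑ i, (w i * (S i).H ((y : ℝ) / N) + w i * (S i).H ((z : ℝ) / N)) := by
      rw [hg]
      refine Finset.sum_le_sum fun i _ => ?_
      rw [← mul_add]
      exact mul_le_mul_of_nonneg_left (LS.G_le (S i) _ _ _) (hw i)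
    rw [Finset.sum_add_distrib] at e1
    have e2 := hs y hy
    have e3 := hs z hz
    linarith
  have hg0 : ∀ x y z, 0 ≤ g x y z := fun x y z =>
    Finset.sum_nonneg fun i _ => mul_nonneg (hw i) (LS.G_nonneg (S i) _ _ _)
  set δ : ℝ := (2 * s + 1) / n with hδd
  have hδ0 : 0 ≤ δ := div_nonneg (by linarith) hn0.le
  have hδ : 2 * δ ≤ ε * s + 2 := by
    have hn1 : (1 : ℝ) ≤ n := by
      rw [hn]; push_cast
      have : (0 : ℝ) ≤ (⌈16 / ε⌉₊ : ℝ) := Nat.cast_nonneg _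
      linarith
    rw [hδd, mul_div_assoc', div_le_iff₀ hn0]
    have e1 : 16 * s ≤ (ε * n) * s := mul_le_mul_of_nonneg_right hnε hs0
    nlinarith
  obtain ⟨a, b, c, ⟨ha, hb, hc⟩, hs1, hs2, cc, P, hcc, hPH, hRJ, hP⟩ :=
    ladderJ (Bd := 2 * s) (δ := δ) g hg2 n hT (by
      have e1 : (n : ℝ) * δ = 2 * s + 1 := by
        rw [hδd]; field_simp
      have e2 := hg0 t₀ u t₁
      rw [e1]
      linarith)
  have hnode := nodeJ hN h1 hη hη1 hH ha hb hc hs1 hcc hPH hRJ hw hw1 S hB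
    (k := ∑ i, w i * (S i).kap) le_rfl hs (Gs := g a b c + δ) (by
      intro p hp
      obtain ⟨q1, q2, Q, _, hQ2, hQ⟩ := hP p hp
      exact ⟨q1, q2, Q, hQ2, hQ⟩)
  have hsum : ∑ i, w i * (S i).h = ∑ i, w i * ent (S i).p (S i).B + ∑ i, w i * (S i).kap := by
    rw [← Finset.sum_add_distrib]
    refine Finset.sum_congr rfl fun i _ => ?_
    rw [LS.h_eq (S i)]
    ring
  rw [hsum] at hnode
  exact JTree_fin (d := d) (ε := ε) h1 h2 hk0 hL hδ hδ0 (hg2 a ha b hb c hc) (cst_nonneg d hη)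
    (cst_le d hη hη1) hnode

end Pool.Agent.MPac5134.KX
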