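import Pool.Agent.Lib.MP_ac5134_an.KX.SelJ
import Pool.Agent.Lib.MP_ac5134_an.KX.JTree

/-!
# KX-Step2: from `Sel1 α` to `Sel2 (Ψ(α) + ε)`

PROOF.  `n` from `tree_RJ`, `k, C` from `selectJ h n`; the new constants are `k + 1`, `C + 3`.  Let `d` be given, `Γ₁` from
`tree_RJ`, `Γ₂` from `selectJ`.  Given the data of `Sel2`, `η = et q`.
If `N < 2 / η ^ 3 = 16 q ^ 3`: `pop_one` gives a common height `t` for `J`, loss `lam`; `F = {t}`, `RJ_triv`:
`d log (2 N + 1) ≤ d log (33 q ^ 3) ≤ er (4 d)`.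
Otherwise `pop_root` (loss `lam ^ 3 / 2`), `selectJ`, `tree_RJ` with the constant `2 d log (1 / lam) + er Γ₂`, `η ^ 4`:
`(2 α - 1) / (α ^ 2 + 3 α - 2) * 2 ≤ 9 / 10` (equivalent to `0 ≤ 9 α² - 13 α + 2`, true for `α ≥ 3/2`),
`(2 α - 1) / (α ^ 2 + 3 α - 2) ≤ 1`, `log (1 / η ^ 4) ≤ 4 (1 + log q)` (`log_et`).  `RJ.mono`, `er_mono`, `er_add`; the
losses: `ls_mul`, `ls_anti` (`lam ^ 3 / 2 ≥ ls 2 m q 3 lam`, `lam ≥ ls 1 m q 1 lam`).
`Psi α + ε ≥ 0`.
-/

open RFold Finset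

namespace Pool.Agent.MPac5134.KX

open Pool.Agent.MPac5134.KH

private theorem step2_psi {α : ℝ} (h1 : 3 / 2 ≤ α) : 0 ≤ Psi α := by
  unfold Psi
  apply div_nonneg <;> nlinarith

private theorem step2_a {α : ℝ} (h1 : 3 / 2 ≤ α) :
    (2 * α - 1) / (α ^ 2 + 3 * α - 2) * 2 ≤ 9 / 10 := by
  have hD : 0 < α ^ 2 + 3 * α - 2 := by nlinarith
  rw [div_mul_eq_mul_div, div_le_iff₀ hD]
  nlinarith

private theorem step2_b {α : ℝ} (h1 : 3 / 2 ≤ α) :
    0 ≤ (2 * α - 1) / (α ^ 2 + 3 * α - 2) ∧ (2 * α - 1) / (α ^ 2 + 3 * α - 2) ≤ 1 := by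
  have hD : 0 < α ^ 2 + 3 * α - 2 := by nlinarith
  refine ⟨div_nonneg (by linarith) hD.le, ?_⟩
  rw [div_le_one hD]
  nlinarith

private theorem step2_log {N q : ℕ} (hq : 2 ≤ q) (hN : (N : ℝ) < 2 / et q ^ 3) :
    Real.log (2 * N + 1) ≤ 4 * (1 + Real.log q) := by
  have hq0 : (2 : ℝ) ≤ q := by exact_mod_cast hq
  have h1 : 2 / et q ^ 3 = 16 * (q : ℝ) ^ 3 := by
    unfold et
    field_simp
    norm_num
  rw [h1] at hN
  have hq3 : (1 : ℝ) ≤ (q : ℝ) ^ 3 := one_le_pow₀ (by linarith)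
  have h2 : (2 * N + 1 : ℝ) ≤ 33 * (q : ℝ) ^ 3 := by linarith
  have h3 : Real.log (2 * N + 1) ≤ Real.log (33 * (q : ℝ) ^ 3) :=
    Real.log_le_log (by positivity) h2
  have h4 : Real.log (33 * (q : ℝ) ^ 3) = Real.log 33 + 3 * Real.log q := by
    rw [Real.log_mul (by norm_num) (by positivity), Real.log_pow]
    norm_num
  have h5 : Real.log 33 ≤ 4 := by
    rw [Real.log_le_iff_le_exp (by norm_num)]
    have e1 : (2.7 : ℝ) ≤ Real.exp 1 := by linarith [Real.exp_one_gt_d9]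
    have e2 : Real.exp 4 = Real.exp 1 ^ 4 := by
      rw [← Real.exp_nat_mul]
      norm_num
    rw [e2]
    calc (33 : ℝ) ≤ 2.7 ^ 4 := by norm_num
      _ ≤ Real.exp 1 ^ 4 := pow_le_pow_left₀ (by norm_num) e1 4
  have h6 : 0 ≤ Real.log q := Real.log_nonneg (by linarith)
  linarith

theorem step2 {α ε : ℝ} (h1 : 3 / 2 ≤ α) (h2 : α ≤ 2) (hε : 0 < ε) {k₀ C₀ : ℕ}
    (h : Sel1 α k₀ C₀) : ∃ k C : ℕ, Sel2 (Psi α + ε) (9 / 10) k C := by
  obtain ⟨n, hn⟩ := tree_RJ (α := α) (ε := ε) (by linarith) h2 hε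
  obtain ⟨k, C, hk⟩ := selectJ h n
  refine ⟨k + 1, C + 3, fun d => ?_⟩
  obtain ⟨Γ₁, hΓ₁, ht⟩ := hn d
  obtain ⟨Γ₂, hΓ₂, hs⟩ := hk d
  set G : ℕ := ⌈Γ₁⌉₊ with hG
  have hG1 : Γ₁ ≤ (G : ℝ) := Nat.le_ceil _
  refine ⟨(Γ₂ * 2 + Γ₂ + 2) + 5 * G + 4 * d, by omega, ?_⟩
  intro N m q lam ι I A hN hq hm hl hl1 hI hA hc hNC
  have hq1 : 1 ≤ q := by omega
  have hL : 0 ≤ Real.log (1 / lam) := by
    apply Real.log_nonneg
    rw [one_div]
    exact (one_le_inv₀ hl).2 hl1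
  have hd : (0 : ℝ) ≤ d := Nat.cast_nonneg d
  have hα0 : 0 ≤ Psi α + ε := add_nonneg (step2_psi h1) hε.le
  have hη0 : 0 < et q := et_pos hq1
  have hη1 : et q ≤ 1 := by linarith [et_le hq]
  have hIp : (0 : ℝ) < I.card := by exact_mod_cast hI.card_pos
  by_cases hbig : (N : ℝ) < 2 / et q ^ 3
  · obtain ⟨t, J, hJ, hJc, hJA⟩ := pop_one (hN := hN) hl I hI A hA hc
    refine ⟨{t}, J, hJ, ?_, ?_, ?_, ?_⟩
    · refine le_trans (mul_le_mul_of_nonneg_right ?_ hIp.le) hJc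
      refine le_trans (ls_anti (Γ := 1) (C := 1) le_rfl (by omega) (by omega) hq1 hl hl1) ?_
      unfold ls
      rw [pow_one, Nat.cast_one, one_pow, one_mul, pow_one]
      exact div_le_self hl.le (by exact_mod_cast hq1)
    · simp
    · intro i hi
      rw [singleton_subset_iff]
      exact hJA i hi
    · refine RJ_triv hα0 ?_ (singleton_nonempty t)
      have e1 : er (4 * d) m q ≤ er ((Γ₂ * 2 + Γ₂ + 2) + 5 * G + 4 * d) m q :=
        er_mono hq1 (by omega)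
      have e2 : (d : ℝ) * Real.log (2 * N + 1) ≤ er (4 * d) m q := by
        have e3 := step2_log hq hbig
        have hm0 : (0 : ℝ) ≤ m := Nat.cast_nonneg m
        unfold er
        push_cast
        nlinarith
      have e4 : 0 ≤ 9 / 10 * (d : ℝ) * Real.log (1 / lam) := by positivity
      linarith
  · have hbig' : 2 / et q ^ 3 ≤ (N : ℝ) := not_lt.1 hbig
    obtain ⟨t₀, u, t₁, J₁, hJ₁, hJ₁c, s1, s2, hJ₁A⟩ := pop_root (hN := hN) hl I hI A hA hc hNC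
    have hJ₁p : (0 : ℝ) < J₁.card := lt_of_lt_of_le (by positivity) hJ₁c
    have hJ₁n : J₁.Nonempty := by
      rw [← Finset.card_pos]
      exact_mod_cast hJ₁p
    have hF : Fam N m q lam J₁ A :=
      ⟨hN, hq, hm, hl, hl1, hbig', hJ₁n, fun i hi => hA i (hJ₁ hi), fun i hi => hc i (hJ₁ hi),
        fun i hi => hNC i (hJ₁ hi)⟩
    obtain ⟨H, J, hJ, hJc, hHk, hHA, hT⟩ := hs N m q lam ι J₁ A t₀ u t₁ hF hJ₁A s1 s2
    have hls : 0 < ls Γ₂ m q C lam := ls_pos hΓ₂ hq1 hl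
    have hJp : (0 : ℝ) < J.card := lt_of_lt_of_le (mul_pos hls hJ₁p) hJc
    have hJn : J.Nonempty := by
      rw [← Finset.card_pos]
      exact_mod_cast hJp
    have hHN : ∀ j ∈ H, j ≤ N := by
      obtain ⟨i, hi⟩ := hJn
      intro j hj
      have := hA i (hJ₁ (hJ hi)) (hHA i hi hj)
      rw [mem_range] at this
      omega
    refine ⟨H, J, hJ.trans hJ₁, ?_, by omega, hHA, ?_⟩
    · have l1 : ls ((Γ₂ * 2 + Γ₂ + 2) + 5 * G + 4 * d) m q (C + 3) lam ≤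
          ls (Γ₂ * 2 + Γ₂ + 2) m q (C + 3) lam :=
        ls_anti (by omega) (by omega) le_rfl hq1 hl hl1
      have l2 : ls (Γ₂ * 2 + Γ₂ + 2) m q (C + 3) lam ≤ ls Γ₂ m q C lam * ls 2 m q 3 lam :=
        ls_mul hΓ₂ (by norm_num) hq1 hl
      have l3 : ls 2 m q 3 lam ≤ lam ^ 3 / 2 := by
        unfold ls
        apply div_le_div_of_nonneg_left (by positivity) (by norm_num)
        have a1 : (1 : ℝ) ≤ (q : ℝ) ^ 2 := one_le_pow₀ (by exact_mod_cast hq1)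
        have a2 : (2 : ℝ) ≤ ((2 : ℕ) : ℝ) ^ (m + 1) := by
          push_cast
          rw [pow_succ]
          have : (1 : ℝ) ≤ 2 ^ m := one_le_pow₀ (by norm_num)
          linarith
        nlinarith
      calc ls ((Γ₂ * 2 + Γ₂ + 2) + 5 * G + 4 * d) m q (C + 3) lam * I.card
          ≤ ls Γ₂ m q C lam * ls 2 m q 3 lam * I.card :=
            mul_le_mul_of_nonneg_right (l1.trans l2) hIp.le
        _ ≤ ls Γ₂ m q C lam * (lam ^ 3 / 2) * I.card := by gcongr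
        _ = ls Γ₂ m q C lam * (lam ^ 3 / 2 * I.card) := by ring
        _ ≤ ls Γ₂ m q C lam * J₁.card := mul_le_mul_of_nonneg_left hJ₁c hls.le
        _ ≤ J.card := hJc
    · have hC' : 0 ≤ 2 * (d : ℝ) * Real.log (1 / lam) + er Γ₂ m q :=
        add_nonneg (by positivity) (er_nonneg hq1)
      have hR := ht N (2 * d * Real.log (1 / lam) + er Γ₂ m q) (et q ^ 4) H t₀ u t₁ hN hC'
        (pow_pos hη0 4) (pow_le_one₀ hη0.le hη1) hHN hT
      refine hR.mono le_rfl ?_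
      obtain ⟨b0, b1⟩ := step2_b h1
      have a0 := step2_a h1
      set κ : ℝ := (2 * α - 1) / (α ^ 2 + 3 * α - 2) with hκ
      have e0 := er_nonneg (Γ := Γ₂) (m := m) hq1
      have e1 : κ * (2 * d * Real.log (1 / lam) + er Γ₂ m q) ≤
          9 / 10 * d * Real.log (1 / lam) + er Γ₂ m q := by
        have x1 : 0 ≤ (d : ℝ) * Real.log (1 / lam) := by positivity
        nlinarith [mul_le_mul_of_nonneg_right a0 x1, mul_le_mul_of_nonneg_right b1 e0]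
      have e2 : Γ₁ * (1 + Real.log (1 / et q ^ 4)) ≤ er (5 * G) m q := by
        have y1 := log_et hq1 4
        have y2 : 0 ≤ Real.log q := Real.log_nonneg (by exact_mod_cast hq1)
        have y3 : 1 + Real.log (1 / et q ^ 4) ≤ 5 * (1 + m + Real.log q) := by
          have hm0 : (0 : ℝ) ≤ m := Nat.cast_nonneg m
          push_cast at y1
          linarith
        have y4 : 0 ≤ 1 + m + Real.log q := by positivity
        calc Γ₁ * (1 + Real.log (1 / et q ^ 4)) ≤ Γ₁ * (5 * (1 + m + Real.log q)) :=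
              mul_le_mul_of_nonneg_left y3 hΓ₁
          _ ≤ G * (5 * (1 + m + Real.log q)) := mul_le_mul_of_nonneg_right hG1 (by positivity)
          _ = er (5 * G) m q := by unfold er; push_cast; ring
      have e3 : er Γ₂ m q + er (5 * G) m q = er (Γ₂ + 5 * G) m q := er_add
      have e4 : er (Γ₂ + 5 * G) m q ≤ er ((Γ₂ * 2 + Γ₂ + 2) + 5 * G + 4 * d) m q :=
        er_mono hq1 (by omega)
      linarith

end Pool.Agent.MPac5134.KX
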