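import Pool.Agent.Lib.MP_ac5134_an.KX.Base
import Pool.Agent.Lib.MP_ac5134_an.KX.Step1
import Pool.Agent.Lib.MP_ac5134_an.KX.Step2

/-!
# KX-Fix: `Sel2 α (9/10)` for every `α` above the root of `α³ - 4α + 2`

PROOF (compare `flex_kt` in `KH/FlexF.lean`).  `1 < α`, `0 < α³ - 4α + 2`.  First `3/2 ≤ α`: for `1 < α < 3/2`,
`α³ - 4α + 2 < 0` (`nlinarith`; e.g. `α³ - 4α + 2 = (α - 1)(α² + α - 3) - 1` and `α² + α - 3 ≤ 3/4`, `α - 1 ≤ 1/2`).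
For `x ∈ [α, 2]`: `x - Ψ(x) = (x³ - 4x + 2)/(x² + 3x - 2)`, `x³ - 4x + 2 ≥ α³ - 4α + 2` (increasing, as
`x² + x α + α² ≥ 4`), `x² + 3x - 2 ≤ 8`, so `Ψ(x) ≤ x - 2 δ` with `δ = (α³ - 4α + 2)/16 > 0`.
Let `S` be the set of `x ∈ [α, 2]` with `∃ k C, Sel2 x (9/10) k C`; if `α ≤ 2`, `2 ∈ S` (`base`).  `a = sInf S`.  Take `x ∈ S`,
`x < a + δ/2`; `step1`, `step2` with `ε = δ`: `Sel2 (Ψ(x) + δ)`, and `Ψ(x) + δ ≤ x - δ < a`; if `Ψ(x) + δ ≥ α` this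
contradicts `a = sInf S`, so `Ψ(x) + δ < α` and `sel2_mono` gives the claim.  For `α > 2` use `base` and `sel2_mono`.
-/

open RFold Finset

namespace Pool.Agent.MPac5134.KX

open Pool.Agent.MPac5134.KH

/-- the root is above `3/2` -/
private theorem three_half_le {α : ℝ} (h1 : 1 < α) (h : 0 < α ^ 3 - 4 * α + 2) : 3 / 2 ≤ α := by
  by_contra hlt
  push Not at hlt
  have e : α ^ 3 - 4 * α + 2 = (α - 1) * (α ^ 2 + α - 3) - 1 := by ring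
  have h2 : α ^ 2 + α - 3 ≤ 3 / 4 := by nlinarith
  have h3 : (α - 1) * (α ^ 2 + α - 3) ≤ (α - 1) * (3 / 4) :=
    mul_le_mul_of_nonneg_left h2 (by linarith)
  linarith

/-- the improvement above `α` -/
private theorem psi_le_delta {α x : ℝ} (hα : 3 / 2 ≤ α) (h : 0 < α ^ 3 - 4 * α + 2) (hx1 : α ≤ x)
    (hx2 : x ≤ 2) : Psi x ≤ x - 2 * ((α ^ 3 - 4 * α + 2) / 16) := by
  have hD : 0 < x ^ 2 + 3 * x - 2 := by nlinarith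
  have hD8 : x ^ 2 + 3 * x - 2 ≤ 8 := by nlinarith
  have hmono : α ^ 3 - 4 * α + 2 ≤ x ^ 3 - 4 * x + 2 := by
    have e : (x ^ 3 - 4 * x + 2) - (α ^ 3 - 4 * α + 2) = (x - α) * (x ^ 2 + x * α + α ^ 2 - 4) := by
      ring
    have h3 : 0 ≤ x ^ 2 + x * α + α ^ 2 - 4 := by nlinarith
    have h4 : 0 ≤ (x - α) * (x ^ 2 + x * α + α ^ 2 - 4) := mul_nonneg (by linarith) h3
    linarith
  unfold Psi
  rw [div_le_iff₀ hD]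
  obtain ⟨c, hc⟩ : ∃ c : ℝ, c = α ^ 3 - 4 * α + 2 := ⟨_, rfl⟩
  rw [← hc] at h hmono ⊢
  have h5 : 2 * (c / 16) * (x ^ 2 + 3 * x - 2) ≤ c := by
    have h6 : c * (x ^ 2 + 3 * x - 2) ≤ c * 8 := mul_le_mul_of_nonneg_left hD8 h.le
    linarith
  have h7 : (x - 2 * (c / 16)) * (x ^ 2 + 3 * x - 2) =
      x * (x ^ 2 + 3 * x - 2) - 2 * (c / 16) * (x ^ 2 + 3 * x - 2) := by ring
  rw [h7]
  nlinarith

theorem sel2_all {α : ℝ} (h1 : 1 < α) (h : 0 < α ^ 3 - 4 * α + 2) :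
    ∃ k C : ℕ, Sel2 α (9 / 10) k C := by
  have hα := three_half_le h1 h
  obtain ⟨k2, C2, hb⟩ := base (L := 9 / 10) (by norm_num)
  rcases le_or_gt α 2 with hα2 | hα2
  swap
  · exact ⟨k2, C2, sel2_mono hb hα2.le⟩
  obtain ⟨δ, hδ⟩ : ∃ δ : ℝ, δ = (α ^ 3 - 4 * α + 2) / 16 := ⟨_, rfl⟩
  have hδ0 : 0 < δ := by rw [hδ]; positivity
  obtain ⟨S, hS⟩ : ∃ S : Set ℝ, S = {x | α ≤ x ∧ x ≤ 2 ∧ ∃ k C : ℕ, Sel2 x (9 / 10) k C} :=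
    ⟨_, rfl⟩
  have h2S : (2 : ℝ) ∈ S := by
    rw [hS]
    exact ⟨hα2, le_rfl, k2, C2, hb⟩
  have hbdd : BddBelow S := ⟨α, by rw [hS]; exact fun x hx => hx.1⟩
  obtain ⟨x, hxS, hx⟩ := exists_lt_of_csInf_lt (b := sInf S + δ / 2) ⟨2, h2S⟩ (by linarith)
  have hxS' := hxS
  rw [hS] at hxS'
  obtain ⟨hx1, hx2, k0, C0, hF⟩ := hxS'
  obtain ⟨k1, C1, hF1⟩ := step1 (by linarith) hx2 (by norm_num) (by norm_num) hF
  obtain ⟨k3, C3, hF2⟩ := step2 (ε := δ) (by linarith) hx2 hδ0 hF1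
  have hpsi := psi_le_delta hα h hx1 hx2
  rw [← hδ] at hpsi
  rcases le_or_gt α (Psi x + δ) with h4 | h4
  · exfalso
    have h5 : Psi x + δ ∈ S := by
      rw [hS]
      exact ⟨h4, by linarith, k3, C3, hF2⟩
    have h6 := csInf_le hbdd h5
    linarith
  · exact ⟨k3, C3, sel2_mono hF2 h4.le⟩

end Pool.Agent.MPac5134.KX
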