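import Pool.Agent.Lib.MP_ac5134_an.KX.Defs

/-!
# KX-FsCnt: counting the balls of one scale

PROOF.  The proof of `dir_count` in `KH/HB.lean` (copy its private lemmas `HB_Icc`, `HB_fiber`, `HB_geo`), with `h` (`DTp d e α`,
for `K = 1` and `ε`; it is stated with `cells`, see `KX/Defs.lean`) instead of `DT`, and without `HB_vol` and `HB_volT`: `Z` = the cells
that meet `Ω`; for `z ∈ Z` a point `w z ∈ Ω` in the cell; `A z = {j < N | ∃ t ∈ T (w z), j/N ≤ t < (j+1)/N}`, which contains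
`⌊N t⌋₊` for all `t ∈ T (w z)`, so `lam N ≤ |A z|` by the hypothesis.  At most `21 ^ (d + 1)` pairs `(j, cell)` belong to one
point of `X`, so `∑ cells ≤ 21 ^ (d + 1) |X|`; `C = 21 ^ (d + 1) C₀`.
-/

open MeasureTheory

namespace Pool.Agent.MPac5134.KX

open Pool.Agent.MPac5134.KH

/-- an interval of length `20` contains at most `21` integers -/
private theorem HB_Icc (v : ℝ) : (Finset.Icc ⌈v - 10⌉ ⌊v + 10⌋).card ≤ 21 := by
  rw [Int.card_Icc]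
  have h1 : (⌊v + 10⌋ : ℝ) ≤ v + 10 := Int.floor_le _
  have h2 : v - 10 ≤ ⌈v - 10⌉ := Int.le_ceil _
  have h3 : ((⌊v + 10⌋ + 1 - ⌈v - 10⌉ : ℤ) : ℝ) ≤ (21 : ℤ) := by push_cast; linarith
  have h4 : (⌊v + 10⌋ + 1 - ⌈v - 10⌉ : ℤ) ≤ 21 := by exact_mod_cast h3
  omega

/-- at most `21^(d+1)` pairs are within `10` of a point -/
private theorem HB_fiber {d : ℕ} (s : Finset (Σ _ : ℕ, (Fin d → ℤ))) (u : Fin d → ℝ) (v : ℝ)
    (h : ∀ x ∈ s, (∀ k, |u k - x.2 k| ≤ 10) ∧ |v - x.1| ≤ 10) : s.card ≤ 21 ^ (d + 1) := by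
  classical
  have h1 : s.card ≤ ((Finset.Icc ⌈v - 10⌉ ⌊v + 10⌋) ×ˢ
      (Fintype.piFinset fun k => Finset.Icc ⌈u k - 10⌉ ⌊u k + 10⌋)).card := by
    refine Finset.card_le_card_of_injOn (fun x => ((x.1 : ℤ), x.2)) ?_ ?_
    · intro x hx
      obtain ⟨h2, h3⟩ := h x hx
      rw [Finset.mem_coe, Finset.mem_product, Fintype.mem_piFinset]
      rw [abs_le] at h3
      refine ⟨Finset.mem_Icc.2 ⟨Int.ceil_le.2 ?_, Int.le_floor.2 ?_⟩, fun k =>
        Finset.mem_Icc.2 ⟨Int.ceil_le.2 ?_, Int.le_floor.2 ?_⟩⟩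
      · push_cast; linarith [h3.2]
      · push_cast; linarith [h3.1]
      · have h4 := abs_le.1 (h2 k)
        linarith [h4.2]
      · have h4 := abs_le.1 (h2 k)
        linarith [h4.1]
    · intro x _ y _ e
      obtain ⟨x1, x2⟩ := x
      obtain ⟨y1, y2⟩ := y
      simp only [Prod.mk.injEq, Nat.cast_inj] at e
      obtain ⟨rfl, rfl⟩ := e
      rfl
  refine h1.trans ?_
  rw [Finset.card_product, Fintype.card_piFinset, pow_succ, mul_comm]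
  refine Nat.mul_le_mul ?_ (HB_Icc v)
  calc ∏ k, (Finset.Icc ⌈u k - 10⌉ ⌊u k + 10⌋).card ≤ ∏ _k : Fin d, 21 :=
        Finset.prod_le_prod' fun k _ => HB_Icc (u k)
    _ = 21 ^ d := by simp

/-- the geometric estimate -/
private theorem HB_geo {d N : ℕ} (hN : 1 ≤ N) {ω a x1 : Fin d → ℝ} {t x2 : ℝ} {z : Fin d → ℤ} {j : ℕ}
    (hz : fl (fun k => (N : ℝ) * ω k) = z) (hω : ∀ k, 0 ≤ ω k ∧ ω k < 1) (ht0 : 0 ≤ t) (ht1 : t < 1)
    (hj1 : (j : ℝ) / N ≤ t) (hj2 : t < ((j : ℝ) + 1) / N)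
    (h1 : ∀ k, |a k + t / 4 * ω k - x1 k| ≤ 1 / N) (h2 : |t / 4 - x2| ≤ 1 / N) :
    (∀ k, |4 * N * x1 k - (fl (pt (fun k => ⌊4 * (N : ℝ) * a k⌋) z ((j : ℝ) / N)) k : ℝ)| ≤ 10) ∧
      |4 * N * x2 - j| ≤ 10 := by
  have hN0 : (0 : ℝ) < N := by exact_mod_cast hN
  have hNN : (N : ℝ) * (1 / N) = 1 := by field_simp
  have hjt1 : (j : ℝ) ≤ N * t := by
    rw [div_le_iff₀ hN0] at hj1; linarith
  have hjt2 : (N : ℝ) * t ≤ j + 1 := by
    rw [lt_div_iff₀ hN0] at hj2; linarith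
  constructor
  · intro k
    have e1 : |4 * N * x1 k - 4 * N * (a k + t / 4 * ω k)| ≤ 4 := by
      have : 4 * N * x1 k - 4 * N * (a k + t / 4 * ω k) = -(4 * N * (a k + t / 4 * ω k - x1 k)) := by ring
      rw [this, abs_neg, abs_mul, abs_of_nonneg (by positivity : (0 : ℝ) ≤ 4 * N)]
      calc 4 * (N : ℝ) * |a k + t / 4 * ω k - x1 k| ≤ 4 * N * (1 / N) := by
            exact mul_le_mul_of_nonneg_left (h1 k) (by positivity)
        _ = 4 := by field_simp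
    have zk : (z k : ℝ) ≤ N * ω k ∧ N * ω k < z k + 1 := by
      rw [← hz]
      unfold fl
      exact ⟨Int.floor_le _, Int.lt_floor_add_one _⟩
    have hz0 : (0 : ℝ) ≤ z k := by
      have : (0 : ℤ) ≤ z k := by
        rw [← hz]
        unfold fl
        exact Int.floor_nonneg.2 (mul_nonneg hN0.le (hω k).1)
      exact_mod_cast this
    have hzN : (z k : ℝ) ≤ N := by
      have := (hω k).2
      nlinarith [zk.1]
    have f1 := Int.floor_le (4 * (N : ℝ) * a k)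
    have f2 := Int.lt_floor_add_one (4 * (N : ℝ) * a k)
    have g1 := Int.floor_le ((⌊4 * (N : ℝ) * a k⌋ : ℝ) + (j : ℝ) / N * z k)
    have g2 := Int.lt_floor_add_one ((⌊4 * (N : ℝ) * a k⌋ : ℝ) + (j : ℝ) / N * z k)
    have hfl : (fl (pt (fun k => ⌊4 * (N : ℝ) * a k⌋) z ((j : ℝ) / N)) k : ℝ) =
        (⌊(⌊4 * (N : ℝ) * a k⌋ : ℝ) + (j : ℝ) / N * z k⌋ : ℝ) := rfl
    rw [hfl]
    -- the product term
    have p1 : 0 ≤ N * t * ω k - (j : ℝ) / N * z k := by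
      have q1 : (j : ℝ) / N * z k ≤ t * (N * ω k) := mul_le_mul hj1 zk.1 hz0 ht0
      linarith [q1, (by ring : t * (N * ω k) = N * t * ω k)]
    have p2 : N * t * ω k - (j : ℝ) / N * z k ≤ 2 := by
      have q1 : t * (N * ω k - z k) ≤ 1 * 1 := mul_le_mul ht1.le (by linarith [zk.2]) (by linarith [zk.1]) (by norm_num)
      have q2 : (t - (j : ℝ) / N) * z k ≤ (1 / N) * N := by
        refine mul_le_mul ?_ hzN hz0 (by positivity)
        have : ((j : ℝ) + 1) / N = (j : ℝ) / N + 1 / N := by ring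
        linarith
      have q3 : (1 / (N : ℝ)) * N = 1 := by field_simp
      nlinarith [q1, q2, q3]
    rw [abs_le] at e1 ⊢
    have e2 : 4 * N * (a k + t / 4 * ω k) = 4 * N * a k + N * t * ω k := by ring
    constructor <;> linarith [e1.1, e1.2]
  · have e1 : |4 * N * x2 - N * t| ≤ 4 := by
      have : 4 * N * x2 - N * t = -(4 * N * (t / 4 - x2)) := by ring
      rw [this, abs_neg, abs_mul, abs_of_nonneg (by positivity : (0 : ℝ) ≤ 4 * N)]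
      calc 4 * (N : ℝ) * |t / 4 - x2| ≤ 4 * N * (1 / N) := mul_le_mul_of_nonneg_left h2 (by positivity)
        _ = 4 := by field_simp
    rw [abs_le] at e1 ⊢
    constructor <;> linarith [e1.1, e1.2]

theorem fs_count {d e : ℕ} {α : ℝ} (h : DTp d e α) {ε : ℝ} (hε : 0 < ε) :
    ∃ C : ℝ, 1 ≤ C ∧ ∀ (N : ℕ) (lam : ℝ) (Ω : Set (Fin d → ℝ)) (a : (Fin d → ℝ) → Fin d → ℝ)
      (X : Finset ((Fin d → ℝ) × ℝ)) (T : (Fin d → ℝ) → Set ℝ), 1 ≤ N → 0 < lam → lam ≤ 1 →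
      (∀ ω ∈ Ω, ∀ k, 0 ≤ ω k ∧ ω k < 1) → (∀ ω ∈ Ω, T ω ⊆ Set.Ico 0 1) →
      (∀ ω ∈ Ω, ∀ A : Finset ℕ, (∀ t ∈ T ω, ⌊(N : ℝ) * t⌋₊ ∈ A) → lam * N ≤ A.card) →
      (∀ ω ∈ Ω, ∀ t ∈ T ω, ∃ x ∈ X, (∀ k, |a ω k + t / 4 * ω k - x.1 k| ≤ 1 / N) ∧
        |t / 4 - x.2| ≤ 1 / N) →
      ∃ Z : Finset (Fin d → ℤ), (∀ ω ∈ Ω, fl (fun k => (N : ℝ) * ω k) ∈ Z) ∧
        lam * N * (lam ^ e * Z.card) ^ (1 / α) ≤ C * (N : ℝ) ^ ε * X.card := by
  classical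
  obtain ⟨C₀, hC₀1, hC₀⟩ := h 1 ε hε
  refine ⟨21 ^ (d + 1) * C₀, ?_, ?_⟩
  · have : (1 : ℝ) ≤ 21 ^ (d + 1) := one_le_pow₀ (by norm_num)
    nlinarith
  intro N lam Ω a X T hN hlam0 hlam1 hΩ hT hTA hX
  have hN0 : (0 : ℝ) < N := by exact_mod_cast hN
  -- the cells
  obtain ⟨Z, hZ⟩ : ∃ Z : Finset (Fin d → ℤ), ∀ z, z ∈ Z ↔ ∃ ω ∈ Ω, fl (fun k => (N : ℝ) * ω k) = z := by
    refine ⟨(Fintype.piFinset fun _ : Fin d => Finset.Icc (0 : ℤ) N).filter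
      (fun z => ∃ ω ∈ Ω, fl (fun k => (N : ℝ) * ω k) = z), fun z => ?_⟩
    rw [Finset.mem_filter]
    refine ⟨fun h => h.2, fun h => ⟨?_, h⟩⟩
    obtain ⟨ω, hω, rfl⟩ := h
    rw [Fintype.mem_piFinset]
    intro k
    rw [Finset.mem_Icc]
    have h1 := hΩ ω hω k
    refine ⟨Int.floor_nonneg.2 (mul_nonneg hN0.le h1.1), ?_⟩
    have h2 : (N : ℝ) * ω k ≤ ((N : ℤ) : ℝ) := by
      push_cast
      nlinarith [h1.2]
    calc ⌊(N : ℝ) * ω k⌋ ≤ ⌊((N : ℤ) : ℝ)⌋ := Int.floor_le_floor h2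
      _ = N := Int.floor_intCast _
  have hw : ∀ z : {z // z ∈ Z}, ∃ ω, ω ∈ Ω ∧ fl (fun k => (N : ℝ) * ω k) = z.1 := by
    intro z
    obtain ⟨ω, h1, h2⟩ := (hZ z.1).1 z.2
    exact ⟨ω, h1, h2⟩
  choose w hwΩ hwz using hw
  -- the line data
  obtain ⟨A, hA⟩ : ∃ A : {z // z ∈ Z} → Finset ℕ, ∀ z j, j ∈ A z ↔
      j < N ∧ ∃ t ∈ T (w z), (j : ℝ) / N ≤ t ∧ t < ((j : ℝ) + 1) / N := by
    refine ⟨fun z => (Finset.range N).filter
      (fun j => ∃ t ∈ T (w z), (j : ℝ) / N ≤ t ∧ t < ((j : ℝ) + 1) / N), fun z j => ?_⟩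
    rw [Finset.mem_filter, Finset.mem_range]
  have hAN : ∀ z, A z ⊆ Finset.range N := by
    intro z j hj
    exact Finset.mem_range.2 ((hA z j).1 hj).1
  have hAc : ∀ z, lam * N ≤ (A z).card := by
    intro z
    refine hTA _ (hwΩ z) (A z) ?_
    intro t ht
    have h1 := hT _ (hwΩ z) ht
    have hNt : (0 : ℝ) ≤ N * t := mul_nonneg hN0.le h1.1
    have h2 := Nat.floor_le hNt
    have h3 := Nat.lt_floor_add_one ((N : ℝ) * t)
    have h4 : (⌊(N : ℝ) * t⌋₊ : ℝ) / N ≤ t := by rw [div_le_iff₀ hN0]; linarith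
    have h5 : t < ((⌊(N : ℝ) * t⌋₊ : ℝ) + 1) / N := by rw [lt_div_iff₀ hN0]; linarith
    refine (hA z _).2 ⟨?_, t, ht, h4, h5⟩
    have h6 : (⌊(N : ℝ) * t⌋₊ : ℝ) < N := by
      have := h1.2
      nlinarith
    exact_mod_cast h6
  have hDT := hC₀ N lam {z // z ∈ Z} (fun z k => ⌊4 * (N : ℝ) * a (w z) k⌋) (fun z => z.1) A hN hlam0 hlam1
    (by
      intro z k
      have h1 := hΩ _ (hwΩ z) k
      have h2 := congrFun (hwz z) k
      have h3 : (0 : ℤ) ≤ z.1 k := by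
        rw [← h2]
        exact Int.floor_nonneg.2 (mul_nonneg hN0.le h1.1)
      have h4 : (z.1 k : ℝ) ≤ N := by
        rw [← h2]
        have := Int.floor_le ((N : ℝ) * w z k)
        unfold fl
        nlinarith [h1.2]
      have h5 : (0 : ℝ) ≤ z.1 k := by exact_mod_cast h3
      show |((z.1 k : ℤ) : ℝ)| ≤ N
      rw [abs_of_nonneg h5]
      exact h4)
    (by
      intro v s hs
      rw [Finset.card_le_one]
      intro i hi i' hi'
      exact Subtype.ext ((hs i hi).trans (hs i' hi').symm))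
    hAN hAc
  -- counting the pairs
  set S : Finset (Σ _ : ℕ, (Fin d → ℤ)) := (Finset.range N).sigma fun j =>
    ((Finset.univ.filter fun z => j ∈ A z).image
        fun z : {z // z ∈ Z} => fl (pt (fun k => ⌊4 * (N : ℝ) * a (w z) k⌋) z.1 ((j : ℝ) / N))) with hS
  have hSc : (S.card : ℝ) = ∑ j ∈ Finset.range N, (((Finset.univ.filter fun z => j ∈ A z).image
        fun z : {z // z ∈ Z} => fl (pt (fun k => ⌊4 * (N : ℝ) * a (w z) k⌋) z.1 ((j : ℝ) / N))).card : ℝ) := by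
    rw [hS, Finset.card_sigma]
    push_cast
    rfl
  have hnear : ∀ q : Σ _ : ℕ, (Fin d → ℤ), ∃ x, q ∈ S → x ∈ X ∧ (∀ k, |4 * N * x.1 k - q.2 k| ≤ 10) ∧
      |4 * N * x.2 - q.1| ≤ 10 := by
    intro q
    by_cases hq : q ∈ S
    · obtain ⟨j, c⟩ := q
      rw [hS, Finset.mem_sigma] at hq
      obtain ⟨hq1, hq2⟩ := hq
      rw [Finset.mem_image] at hq2
      obtain ⟨z, hz, hzc⟩ := hq2
      rw [Finset.mem_filter] at hz
      obtain ⟨-, t, ht, hj1, hj2⟩ := (hA z j).1 hz.2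
      obtain ⟨x, hxX, hx1, hx2⟩ := hX _ (hwΩ z) t ht
      have hTt := hT _ (hwΩ z) ht
      refine ⟨x, fun _ => ⟨hxX, ?_⟩⟩
      have := HB_geo hN (hwz z) (hΩ _ (hwΩ z)) hTt.1 hTt.2 hj1 hj2 hx1 hx2
      dsimp only at hzc
      rw [hzc] at this
      exact this
    · exact ⟨(fun _ => 0, 0), fun h => absurd h hq⟩
  choose φ hφ using hnear
  have hScard : S.card ≤ 21 ^ (d + 1) * X.card := by
    refine Finset.card_le_mul_card_image_of_maps_to (f := φ) (fun q hq => (hφ q hq).1) _ (fun x hx => ?_)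
    refine HB_fiber _ (fun k => 4 * N * x.1 k) (4 * N * x.2) ?_
    intro q hq
    rw [Finset.mem_filter] at hq
    obtain ⟨hq1, rfl⟩ := hq
    exact (hφ q hq1).2
  -- assembly
  refine ⟨Z, fun ω hω => (hZ _).2 ⟨ω, hω, rfl⟩, ?_⟩
  have h2 : (Fintype.card {z // z ∈ Z} : ℝ) = Z.card := by rw [Fintype.card_coe]
  rw [h2] at hDT
  have hNε : 0 ≤ (N : ℝ) ^ ε := by positivity
  calc lam * N * (lam ^ e * Z.card) ^ (1 / α) ≤ C₀ * (N : ℝ) ^ ε * (S.card : ℝ) := by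
        rw [hSc]
        exact hDT
    _ ≤ C₀ * (N : ℝ) ^ ε * ((21 ^ (d + 1) * X.card : ℕ) : ℝ) := by
        apply mul_le_mul_of_nonneg_left _ (by positivity)
        exact_mod_cast hScard
    _ = 21 ^ (d + 1) * C₀ * (N : ℝ) ^ ε * X.card := by
        push_cast
        ring

end Pool.Agent.MPac5134.KX
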