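import Mathlib

/-!
# KX-FsLrg: a real inequality for large `j`

PROOF.  `lam * 2 ^ j = 2 ^ (j s) c`, `c = c₁ / (4 j²)`; `lam ^ e = 2 ^ (j (s - 1) e) c ^ e`; so the right side is
`2 ^ (j s) c * (2 ^ (j (β - (1 - s) e)) c ^ e m₀ / (4 j²)) ^ (1 / α) = 2 ^ (j σ₀) * c * (c ^ e m₀ / (4 j²)) ^ (1 / α)`,
`σ₀ = s + (β - (1 - s) e) / α`.  With `y = c ^ e m₀ / (4 j²)`: `y ^ (1 / α) ≥ min y 1 ≥ ..`: the right side is at least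
`2 ^ (j σ₀)` times a constant over `j ^ (2 e + 4)`, while the left side is `C 2 ^ (j (σ + ε))`, `σ + ε < σ₀`.
`tendsto_pow_const_div_const_pow_of_one_lt (2 e + 4)` with `r = 2 ^ (σ₀ - σ - ε) > 1`; see `HC_large` in `KH/HC.lean`.
-/

namespace Pool.Agent.MPac5134.KX

theorem fs_large {C s σ β α ε c₁ m₀ : ℝ} (e : ℕ) (hα : 1 ≤ α) (hc : 0 < c₁) (hm : 0 < m₀)
    (hσ : σ + ε < s + (β - (1 - s) * e) / α) : ∃ k₀ : ℕ, 1 ≤ k₀ ∧ ∀ j : ℕ, k₀ ≤ j → ∀ lam : ℝ,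
      lam = (2 : ℝ) ^ ((j : ℝ) * (s - 1)) * (c₁ / (4 * (j : ℝ) ^ 2)) →
      C * ((2 : ℝ) ^ j) ^ ε * (2 : ℝ) ^ ((j : ℝ) * σ) <
        lam * 2 ^ j * (lam ^ e * ((2 : ℝ) ^ ((j : ℝ) * β) * (m₀ / (4 * (j : ℝ) ^ 2)))) ^ (1 / α) := by
  have hα0 : 0 < α := by linarith
  have h2 : (0 : ℝ) < 2 := by norm_num
  obtain ⟨σ₀, hσ₀⟩ : ∃ σ₀ : ℝ, σ₀ = s + (β - (1 - s) * e) / α := ⟨_, rfl⟩
  rw [← hσ₀] at hσ
  set r : ℝ := (2 : ℝ) ^ (σ₀ - (σ + ε)) with hr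
  have hr1 : 1 < r := Real.one_lt_rpow (by norm_num) (by linarith)
  have hr0 : 0 < r := by linarith
  -- the constant
  obtain ⟨c₂, hc₂⟩ : ∃ c₂ : ℝ, c₂ = min c₁ 1 := ⟨_, rfl⟩
  obtain ⟨m₂, hm₂⟩ : ∃ m₂ : ℝ, m₂ = min m₀ 1 := ⟨_, rfl⟩
  have hc20 : 0 < c₂ := by rw [hc₂]; exact lt_min hc one_pos
  have hm20 : 0 < m₂ := by rw [hm₂]; exact lt_min hm one_pos
  have hc21 : c₂ ≤ 1 := by rw [hc₂]; exact min_le_right _ _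
  have hm21 : m₂ ≤ 1 := by rw [hm₂]; exact min_le_right _ _
  have hc2c : c₂ ≤ c₁ := by rw [hc₂]; exact min_le_left _ _
  have hm2m : m₂ ≤ m₀ := by rw [hm₂]; exact min_le_left _ _
  set c0 : ℝ := (c₂ / 4) ^ (e + 1) * (m₂ / 4) with hc0
  have hc0p : 0 < c0 := by positivity
  have ht := tendsto_pow_const_div_const_pow_of_one_lt (2 * e + 4) hr1
  have hε : 0 < c0 / (|C| + 1) := by positivity
  obtain ⟨k₁, hk₁⟩ := Filter.eventually_atTop.1 (ht.eventually_lt_const hε)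
  refine ⟨max k₁ 1, le_max_right _ _, fun j hj lam hlam => ?_⟩
  have h1 := hk₁ j ((le_max_left _ _).trans hj)
  have hj1 : (1 : ℝ) ≤ j := by exact_mod_cast (le_max_right _ _).trans hj
  have hj0 : (0 : ℝ) < j := by linarith
  rw [div_lt_div_iff₀ (by positivity) (by positivity)] at h1
  -- `|C| < c0 r ^ j / j ^ (2 e + 4)`
  have hCr : |C| < c0 * r ^ j / (j : ℝ) ^ (2 * e + 4) := by
    rw [lt_div_iff₀ (by positivity)]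
    have h4 : (0 : ℝ) < (j : ℝ) ^ (2 * e + 4) := by positivity
    nlinarith
  obtain ⟨c, hcd⟩ : ∃ c : ℝ, c = c₁ / (4 * (j : ℝ) ^ 2) := ⟨_, rfl⟩
  obtain ⟨y, hyd⟩ : ∃ y : ℝ, y = c₂ / (4 * (j : ℝ) ^ 2) := ⟨_, rfl⟩
  obtain ⟨z, hzd⟩ : ∃ z : ℝ, z = m₂ / (4 * (j : ℝ) ^ 2) := ⟨_, rfl⟩
  have hj2 : (1 : ℝ) ≤ 4 * (j : ℝ) ^ 2 := by nlinarith
  have hy0 : 0 < y := by rw [hyd]; positivity
  have hz0 : 0 < z := by rw [hzd]; positivity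
  have hc0' : 0 < c := by rw [hcd]; positivity
  have hyc : y ≤ c := by rw [hyd, hcd]; gcongr
  have hy1 : y ≤ 1 := by
    rw [hyd, div_le_one (by positivity)]
    linarith
  have hz1 : z ≤ 1 := by
    rw [hzd, div_le_one (by positivity)]
    linarith
  have hzm : z ≤ m₀ / (4 * (j : ℝ) ^ 2) := by rw [hzd]; gcongr
  -- the powers of `2`
  have e1 : lam ^ e * ((2 : ℝ) ^ ((j : ℝ) * β) * (m₀ / (4 * (j : ℝ) ^ 2))) =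
      (2 : ℝ) ^ ((j : ℝ) * (β - (1 - s) * e)) * (c ^ e * (m₀ / (4 * (j : ℝ) ^ 2))) := by
    rw [hlam, ← hcd, mul_pow, ← Real.rpow_mul_natCast h2.le]
    have : (2 : ℝ) ^ ((j : ℝ) * (β - (1 - s) * e)) =
        (2 : ℝ) ^ ((j : ℝ) * (s - 1) * e) * (2 : ℝ) ^ ((j : ℝ) * β) := by
      rw [← Real.rpow_add h2]
      congr 1
      ring
    rw [this]
    ring
  have e2 : ((2 : ℝ) ^ ((j : ℝ) * (β - (1 - s) * e)) * (c ^ e * (m₀ / (4 * (j : ℝ) ^ 2)))) ^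
      (1 / α) = (2 : ℝ) ^ ((j : ℝ) * ((β - (1 - s) * e) / α)) *
        (c ^ e * (m₀ / (4 * (j : ℝ) ^ 2))) ^ (1 / α) := by
    rw [Real.mul_rpow (by positivity) (by positivity), ← Real.rpow_mul h2.le]
    congr 2
    ring
  have e3 : lam * 2 ^ j = (2 : ℝ) ^ ((j : ℝ) * s) * c := by
    rw [hlam, ← hcd]
    have : (2 : ℝ) ^ ((j : ℝ) * s) = (2 : ℝ) ^ ((j : ℝ) * (s - 1)) * 2 ^ j := by
      rw [← Real.rpow_natCast 2 j, ← Real.rpow_add h2]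
      congr 1
      ring
    rw [this]
    ring
  have e4 : y ^ e * z ≤ (c ^ e * (m₀ / (4 * (j : ℝ) ^ 2))) ^ (1 / α) := by
    have h5 : y ^ e * z ≤ 1 := by
      have : y ^ e ≤ 1 := pow_le_one₀ hy0.le hy1
      nlinarith [pow_pos hy0 e]
    have h6 : 1 / α ≤ 1 := by
      rw [div_le_one hα0]
      exact hα
    calc y ^ e * z = (y ^ e * z) ^ (1 : ℝ) := (Real.rpow_one _).symm
      _ ≤ (y ^ e * z) ^ (1 / α) :=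
          Real.rpow_le_rpow_of_exponent_ge (by positivity) h5 h6
      _ ≤ _ := by
          apply Real.rpow_le_rpow (by positivity) _ (by positivity)
          gcongr
  have e5 : c0 / (j : ℝ) ^ (2 * e + 4) = y * (y ^ e * z) := by
    rw [hc0, hyd, hzd]
    have h7 : (j : ℝ) ^ (2 * e + 4) = ((j : ℝ) ^ 2) ^ (e + 1) * (j : ℝ) ^ 2 := by
      rw [← pow_mul, ← pow_add]
      congr 1
    have h8 : c₂ / (4 * (j : ℝ) ^ 2) = c₂ / 4 / (j : ℝ) ^ 2 := by rw [div_div]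
    have h9 : m₂ / (4 * (j : ℝ) ^ 2) = m₂ / 4 / (j : ℝ) ^ 2 := by rw [div_div]
    rw [h7, h8, h9, ← mul_assoc, ← pow_succ', div_pow (c₂ / 4), mul_div_mul_comm]
  have hX : 0 < (2 : ℝ) ^ ((j : ℝ) * (σ + ε)) := Real.rpow_pos_of_pos h2 _
  have e6 : (2 : ℝ) ^ ((j : ℝ) * σ₀) = (2 : ℝ) ^ ((j : ℝ) * (σ + ε)) * r ^ j := by
    rw [hr, ← Real.rpow_natCast, ← Real.rpow_mul h2.le, ← Real.rpow_add h2]
    congr 1
    ring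
  have e7 : (2 : ℝ) ^ ((j : ℝ) * σ₀) =
      (2 : ℝ) ^ ((j : ℝ) * s) * (2 : ℝ) ^ ((j : ℝ) * ((β - (1 - s) * e) / α)) := by
    rw [← Real.rpow_add h2, hσ₀]
    congr 1
    ring
  have e8 : ((2 : ℝ) ^ j) ^ ε * (2 : ℝ) ^ ((j : ℝ) * σ) = (2 : ℝ) ^ ((j : ℝ) * (σ + ε)) := by
    rw [← Real.rpow_natCast 2 j, ← Real.rpow_mul h2.le, ← Real.rpow_add h2]
    congr 1
    ring
  rw [e1, e2, e3]
  calc C * ((2 : ℝ) ^ j) ^ ε * (2 : ℝ) ^ ((j : ℝ) * σ)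
      = C * (2 : ℝ) ^ ((j : ℝ) * (σ + ε)) := by rw [mul_assoc, e8]
    _ ≤ |C| * (2 : ℝ) ^ ((j : ℝ) * (σ + ε)) :=
        mul_le_mul_of_nonneg_right (le_abs_self C) hX.le
    _ < c0 * r ^ j / (j : ℝ) ^ (2 * e + 4) * (2 : ℝ) ^ ((j : ℝ) * (σ + ε)) :=
        mul_lt_mul_of_pos_right hCr hX
    _ = (2 : ℝ) ^ ((j : ℝ) * σ₀) * (c0 / (j : ℝ) ^ (2 * e + 4)) := by rw [e6]; ring
    _ = (2 : ℝ) ^ ((j : ℝ) * σ₀) * (y * (y ^ e * z)) := by rw [e5]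
    _ ≤ (2 : ℝ) ^ ((j : ℝ) * σ₀) * (c * (c ^ e * (m₀ / (4 * (j : ℝ) ^ 2))) ^ (1 / α)) := by
        gcongr
    _ = _ := by rw [e7]; ring

end Pool.Agent.MPac5134.KX
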