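import Pool.Agent.Lib.MP_ac5134_an.KX.FsPre
import Pool.Agent.Lib.MP_ac5134_an.KX.FsCnt
import Pool.Agent.Lib.MP_ac5134_an.KX.FsLrg
import Pool.Agent.Lib.MP_ac5134_an.KH.HA

/-!
# KX-FsBox: sets with large intersections with lines, one box of directions

PROOF.  The proof of `haus_box` in `KH/HC.lean`, with the premeasures `hpre` instead of the Lebesgue measures.  Suppose
`dimH E < ofReal σ₀`, `σ₀ = s + (β - (1 - s) e) / α`; choose a real `σ > 0` with `dimH E < σ < σ₀`, so `μH[σ] E = 0`;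
`ε = (σ₀ - σ) / 2`; `C` from `fs_count h hε`; `n'` from `hpre_pos hpos`: `ofReal (1/n') ≤ hpre β (ofReal (1/n')) Ω`; `k₁` from
`fs_large` with `c₁ = 1 / n`, `m₀ = 1 / n'`; `k₀ = max k₁ (max n n')`, so `k₀ ≥ 1` and `(1/2) ^ j ≤ 1/n, 1/n'` for `j ≥ k₀`
(`j < 2 ^ j`).  `dyadic_cover` (`KH/HA.lean`) with `k₀`: balls `closedBall (x i) ((1/2) ^ (k i))`, `k i ≥ k₀`.
`T' j ω = {t ∈ T ω | ∃ i, k i = j ∧ the point of ω, t is in the ball i}`; `T ω ⊆ ⋃ j ≥ k₀, T' j ω` for `ω ∈ Ω`.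
`hpre_split` (`s`, `r = ofReal (1/n)`, `m₀ = 1/n`) gives `j ≥ k₀` with `ω ∈ Ω' j := {ω ∈ Ω | ofReal ((1/n)/(4 j²)) ≤ hpre s r (T' j ω)}`.
So `Ω ⊆ ⋃ j ≥ k₀, Ω' j`; `hpre_split` (`β`, `r = ofReal (1/n')`): some `j ≥ k₀` with `ofReal ((1/n')/(4 j²)) ≤ hpre β r (Ω' j)`.
Fix it; `N = 2 ^ j`, `lam = 2 ^ (j (s - 1)) * ((1/n)/(4 j²))`, `0 < lam ≤ 1`.  `X` = the centres `(x', x_last - m/4)` of the balls
with `k i = j`, at most `2 ^ (j σ)`.  `fs_count` for `Ω' j`, `T' j`: its hypothesis about finite sets `A` is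
`hpre_heights`: `ofReal ((1/n)/(4 j²)) ≤ |A| ofReal ((1/N) ^ s)`, so `|A| ≥ (2 ^ j) ^ s (1/n)/(4 j²) = lam N`.  It gives `Z` with
`lam N (lam ^ e |Z|) ^ (1/α) ≤ C N ^ ε |X| ≤ C N ^ ε 2 ^ (j σ)`; `hpre_cells` gives `|Z| ≥ 2 ^ (j β) (1/n')/(4 j²)`.
This contradicts `fs_large`.
-/

open MeasureTheory

namespace Pool.Agent.MPac5134.KX

open Pool.Agent.MPac5134.KH

theorem fs_box {d e : ℕ} {α : ℝ} (hα : 1 ≤ α) (h : DTp d e α) {s β : ℝ} (hs0 : 0 ≤ s)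
    (hs1 : s ≤ 1) (hβ : 0 ≤ β) (E : Set (Sp d)) (m : ℤ) (Ω : Set (Fin d → ℝ))
    (hΩ : ∀ ω ∈ Ω, ∀ k, 0 ≤ ω k ∧ ω k < 1) (hpos : Measure.hausdorffMeasure β Ω ≠ 0)
    (n : ℕ) (hn : 1 ≤ n) (a : (Fin d → ℝ) → Fin d → ℝ) (T : (Fin d → ℝ) → Set ℝ)
    (hT : ∀ ω ∈ Ω, T ω ⊆ Set.Ico 0 1)
    (hTn : ∀ ω ∈ Ω, ENNReal.ofReal (1 / n) ≤ hpre s (ENNReal.ofReal (1 / n)) (T ω))
    (hE : ∀ ω ∈ Ω, ∀ t ∈ T ω,
      (WithLp.toLp 2 (Fin.snoc (fun k => a ω k + t / 4 * ω k) ((m : ℝ) / 4 + t / 4) :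
        Fin (d + 1) → ℝ) : Sp d) ∈ E) :
    ENNReal.ofReal (s + (β - (1 - s) * e) / α) ≤ dimH E := by
  classical
  by_contra hcon
  rw [not_le] at hcon
  obtain ⟨σ, hσ1, hσ2⟩ := ENNReal.lt_iff_exists_nnreal_btwn.1 hcon
  have hσ0 : (0 : ℝ) < σ := by
    have h1 : (0 : ENNReal) < (σ : ENNReal) := lt_of_le_of_lt zero_le hσ1
    exact_mod_cast h1
  have hα0 : 0 < α := by linarith
  have hσσ : (σ : ℝ) < s + (β - (1 - s) * e) / α := by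
    rw [ENNReal.ofReal, ENNReal.coe_lt_coe] at hσ2
    have h1 := NNReal.coe_lt_coe.2 hσ2
    rw [Real.coe_toNNReal'] at h1
    rcases lt_max_iff.1 h1 with h2 | h2
    · exact h2
    · exact absurd h2 (not_lt.2 hσ0.le)
  have hμ : Measure.hausdorffMeasure (σ : ℝ) E = 0 := hausdorffMeasure_of_dimH_lt hσ1
  set ε : ℝ := (s + (β - (1 - s) * e) / α - σ) / 2 with hεd
  have hε : 0 < ε := by
    rw [hεd]
    linarith
  have hσε : (σ : ℝ) + ε < s + (β - (1 - s) * e) / α := by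
    rw [hεd]
    linarith
  obtain ⟨C, hC1, hC⟩ := fs_count h hε
  obtain ⟨n', hn', hΩn'⟩ := hpre_pos hpos
  have hnr : (1 : ℝ) ≤ n := by exact_mod_cast hn
  have hnr' : (1 : ℝ) ≤ n' := by exact_mod_cast hn'
  have hn0 : (0 : ℝ) < 1 / n := by positivity
  have hn0' : (0 : ℝ) < 1 / n' := by positivity
  obtain ⟨k₁, hk₁1, hk₁⟩ := fs_large (C := C) e hα hn0 hn0' hσε
  set k₀ : ℕ := max k₁ (max n n') with hk₀
  have hk₀1 : 1 ≤ k₀ := hk₁1.trans (le_max_left _ _)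
  obtain ⟨x, k, hk, hcov, hfin⟩ := dyadic_cover hσ0 hμ k₀
  set pt : (Fin d → ℝ) → ℝ → Sp d := fun ω t =>
    (WithLp.toLp 2 (Fin.snoc (fun k => a ω k + t / 4 * ω k) ((m : ℝ) / 4 + t / 4) :
      Fin (d + 1) → ℝ) : Sp d) with hpt
  set T' : ℕ → (Fin d → ℝ) → Set ℝ := fun j ω =>
    {t | t ∈ T ω ∧ ∃ i, k i = j ∧ pt ω t ∈ Metric.closedBall (x i) ((1 / 2 : ℝ) ^ (k i))} with hT'
  set Ω' : ℕ → Set (Fin d → ℝ) := fun j =>
    {ω | ω ∈ Ω ∧ ENNReal.ofReal (1 / (n : ℝ) / (4 * (j : ℝ) ^ 2)) ≤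
      hpre s (ENNReal.ofReal (1 / n)) (T' j ω)} with hΩ'
  have hcovω : ∀ ω ∈ Ω, T ω ⊆ ⋃ j ∈ {j : ℕ | k₀ ≤ j}, T' j ω := by
    intro ω hω t ht
    obtain ⟨i, hi⟩ := Set.mem_iUnion.1 (hcov (hE ω hω t ht))
    exact Set.mem_iUnion₂.2 ⟨k i, hk i, ht, i, rfl, hi⟩
  have hΩsub : Ω ⊆ ⋃ j ∈ {j : ℕ | k₀ ≤ j}, Ω' j := by
    intro ω hω
    obtain ⟨j, hj, hj2⟩ := hpre_split hk₀1 hn0 (fun j => T' j ω) (hcovω ω hω) (hTn ω hω)
    exact Set.mem_iUnion₂.2 ⟨j, hj, hω, hj2⟩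
  obtain ⟨j, hj, hjΩ⟩ := hpre_split hk₀1 hn0' Ω' hΩsub hΩn'
  have hj1 : 1 ≤ j := hk₀1.trans hj
  have hjr : (1 : ℝ) ≤ j := by exact_mod_cast hj1
  have hjn : n ≤ j := ((le_max_left _ _).trans (le_max_right _ _)).trans hj
  have hjn' : n' ≤ j := ((le_max_right _ _).trans (le_max_right _ _)).trans hj
  have hjk₁ : k₁ ≤ j := (le_max_left _ _).trans hj
  have h2j : (0 : ℝ) < (2 : ℝ) ^ j := by positivity
  have hN1 : 1 ≤ 2 ^ j := Nat.one_le_two_pow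
  have hNc : ((2 ^ j : ℕ) : ℝ) = (2 : ℝ) ^ j := by push_cast; rfl
  have hNr : ((2 ^ j : ℕ) : ℝ) = (2 : ℝ) ^ (j : ℝ) := by
    rw [hNc, Real.rpow_natCast]
  have hscale : ∀ l : ℕ, 1 ≤ l → l ≤ j →
      ENNReal.ofReal (1 / ((2 ^ j : ℕ) : ℝ)) ≤ ENNReal.ofReal (1 / (l : ℝ)) := by
    intro l hl1 hl
    refine ENNReal.ofReal_le_ofReal (one_div_le_one_div_of_le (by exact_mod_cast hl1) ?_)
    exact_mod_cast hl.trans (Nat.lt_two_pow_self).le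
  obtain ⟨hfinj, hcardj⟩ := hfin j
  set X : Finset ((Fin d → ℝ) × ℝ) := hfinj.toFinset.image (fun n =>
    ((fun i : Fin d => x n i.castSucc), x n (Fin.last d) - (m : ℝ) / 4)) with hX
  have hXcard : (X.card : ℝ) ≤ (2 : ℝ) ^ ((j : ℝ) * σ) := by
    refine le_trans ?_ hcardj
    rw [hX, Set.ncard_eq_toFinset_card _ hfinj]
    exact_mod_cast Finset.card_image_le
  -- the density
  set lam : ℝ := (2 : ℝ) ^ ((j : ℝ) * (s - 1)) * (1 / (n : ℝ) / (4 * (j : ℝ) ^ 2)) with hlam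
  have hpw : (0 : ℝ) < (2 : ℝ) ^ ((j : ℝ) * (s - 1)) := Real.rpow_pos_of_pos two_pos _
  have hlam0 : 0 < lam := by
    rw [hlam]
    positivity
  have hpw1 : (2 : ℝ) ^ ((j : ℝ) * (s - 1)) ≤ 1 := by
    refine Real.rpow_le_one_of_one_le_of_nonpos (by norm_num) ?_
    exact mul_nonpos_of_nonneg_of_nonpos (by linarith) (by linarith)
  have hc1 : 1 / (n : ℝ) / (4 * (j : ℝ) ^ 2) ≤ 1 := by
    rw [div_div, div_le_one (by positivity)]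
    nlinarith
  have hlam1 : lam ≤ 1 := by
    rw [hlam]
    exact mul_le_one₀ hpw1 (by positivity) hc1
  have hlamN : lam * ((2 ^ j : ℕ) : ℝ) =
      (2 : ℝ) ^ ((j : ℝ) * s) * (1 / (n : ℝ) / (4 * (j : ℝ) ^ 2)) := by
    have h1 : (2 : ℝ) ^ ((j : ℝ) * s) = (2 : ℝ) ^ ((j : ℝ) * (s - 1)) * (2 : ℝ) ^ (j : ℝ) := by
      rw [← Real.rpow_add two_pos]
      congr 1
      ring
    rw [hlam, hNr, h1]
    ring
  have hback : ∀ u : ℝ, (2 : ℝ) ^ ((j : ℝ) * u) * (1 / ((2 ^ j : ℕ) : ℝ)) ^ u = 1 := by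
    intro u
    rw [Real.rpow_mul (by norm_num), ← hNr, ← Real.mul_rpow (by positivity) (by positivity),
      mul_one_div_cancel (by positivity), Real.one_rpow]
  obtain ⟨Z, hZ1, hZ2⟩ := hC (2 ^ j) lam (Ω' j) a X (T' j) hN1 hlam0 hlam1
    (fun ω hω => hΩ ω hω.1) (fun ω hω t ht => hT ω hω.1 ht.1) (by
      intro ω hω A hA
      have h1 := hω.2.trans (hpre_heights hs0 hN1 (hscale n hn hjn) (T' j ω) A
        (fun t ht => ⟨(hT ω hω.1 ht.1).1, hA t ht⟩))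
      rw [← ENNReal.ofReal_natCast, ← ENNReal.ofReal_mul (by positivity),
        ENNReal.ofReal_le_ofReal_iff (by positivity)] at h1
      rw [hlamN]
      calc (2 : ℝ) ^ ((j : ℝ) * s) * (1 / (n : ℝ) / (4 * (j : ℝ) ^ 2))
          ≤ (2 : ℝ) ^ ((j : ℝ) * s) * (A.card * (1 / ((2 ^ j : ℕ) : ℝ)) ^ s) :=
            mul_le_mul_of_nonneg_left h1 (Real.rpow_pos_of_pos two_pos _).le
        _ = A.card * ((2 : ℝ) ^ ((j : ℝ) * s) * (1 / ((2 ^ j : ℕ) : ℝ)) ^ s) := by ring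
        _ = A.card := by rw [hback, mul_one]) (by
      rintro ω hω t ⟨ht, i, hi, hball⟩
      have hd : ∀ l : Fin (d + 1), |pt ω t l - x i l| ≤ 1 / (2 ^ j : ℕ) := by
        intro l
        have h1 := PiLp.norm_apply_le (pt ω t - x i) l
        rw [Metric.mem_closedBall, dist_eq_norm, hi] at hball
        have h2 : (1 / 2 : ℝ) ^ j = 1 / ((2 ^ j : ℕ) : ℝ) := by
          push_cast
          rw [one_div_pow]
        rw [h2] at hball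
        rw [PiLp.sub_apply, Real.norm_eq_abs] at h1
        exact h1.trans hball
      refine ⟨((fun l : Fin d => x i l.castSucc), x i (Fin.last d) - (m : ℝ) / 4), ?_, ?_, ?_⟩
      · rw [hX, Finset.mem_image]
        exact ⟨i, hfinj.mem_toFinset.2 hi, rfl⟩
      · intro l
        have h1 := hd l.castSucc
        rw [hpt] at h1
        simpa using h1
      · have h1 := hd (Fin.last d)
        rw [hpt] at h1
        have h2 : (m : ℝ) / 4 + t / 4 - x i (Fin.last d) =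
            t / 4 - (x i (Fin.last d) - (m : ℝ) / 4) := by ring
        simp only [Fin.snoc_last] at h1
        rw [h2] at h1
        exact h1)
  -- the number of cells
  have hZcard : (2 : ℝ) ^ ((j : ℝ) * β) * (1 / (n' : ℝ) / (4 * (j : ℝ) ^ 2)) ≤ Z.card := by
    have h1 := hjΩ.trans (hpre_cells hβ hN1 (hscale n' hn' hjn') (Ω' j) Z hZ1)
    rw [← ENNReal.ofReal_natCast, ← ENNReal.ofReal_mul (by positivity),
      ENNReal.ofReal_le_ofReal_iff (by positivity)] at h1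
    calc (2 : ℝ) ^ ((j : ℝ) * β) * (1 / (n' : ℝ) / (4 * (j : ℝ) ^ 2))
        ≤ (2 : ℝ) ^ ((j : ℝ) * β) * (Z.card * (1 / ((2 ^ j : ℕ) : ℝ)) ^ β) :=
          mul_le_mul_of_nonneg_left h1 (Real.rpow_pos_of_pos two_pos _).le
      _ = Z.card * ((2 : ℝ) ^ ((j : ℝ) * β) * (1 / ((2 ^ j : ℕ) : ℝ)) ^ β) := by ring
      _ = Z.card := by rw [hback, mul_one]
  have hlarge := hk₁ j hjk₁ lam hlam
  rw [hNc] at hZ2
  have hlow : lam * 2 ^ j * (lam ^ e *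
      ((2 : ℝ) ^ ((j : ℝ) * β) * (1 / (n' : ℝ) / (4 * (j : ℝ) ^ 2)))) ^ (1 / α) ≤
      lam * 2 ^ j * (lam ^ e * Z.card) ^ (1 / α) := by
    refine mul_le_mul_of_nonneg_left ?_ (by positivity)
    refine Real.rpow_le_rpow (by positivity) ?_ (by positivity)
    exact mul_le_mul_of_nonneg_left hZcard (by positivity)
  have hup : C * ((2 : ℝ) ^ j) ^ ε * X.card ≤ C * ((2 : ℝ) ^ j) ^ ε * (2 : ℝ) ^ ((j : ℝ) * σ) :=
    mul_le_mul_of_nonneg_left hXcard (by positivity)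
  linarith

end Pool.Agent.MPac5134.KX
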