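import Pool.Agent.Lib.MP_ac5134_an.KX.FsSph

/-!
# KX-FsFin: sets with large intersections with lines

PROOF.  `β = 0`: one `v ∈ D` and its `x`; `t ↦ x + t • v` is an isometry (`‖v‖ = 1`), so
`s ≤ dimH {t | ..} = dimH (image) ≤ dimH E`, and `s + (0 - (1 - s) e) / α ≤ s`.
`0 < β`: for `0 < δ < min s β` the theorem `fs_sphere` for `s - δ`, `β - δ`: `ofReal (β - δ) < ofReal β ≤ dimH D`;
`ofReal (s - δ) < dimH {t | ..}`, so `μH[s - δ] {t | ..} ≠ 0` (`hausdorffMeasure_of_lt_dimH`; `s - δ` as an `NNReal`).  It gives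
`ofReal (σ₀ - δ (1 + (1 + e) / α)) ≤ dimH E` for all these `δ`
(`(s - δ) + ((β - δ) - (1 - s + δ) e) / α = σ₀ - δ (1 + (1 + e) / α)`), so `ofReal σ₀ ≤ dimH E`
(let `δ → 0`: `le_of_forall_lt` or `ge_of_tendsto`).
-/

open MeasureTheory

namespace Pool.Agent.MPac5134.KX

open Pool.Agent.MPac5134.KH

theorem fs_dim {d e : ℕ} {α : ℝ} (hα : 1 ≤ α) (h : DTp d e α) {s β : ℝ} (hs0 : 0 < s)
    (hs1 : s ≤ 1) (hβ : 0 ≤ β) (D E : Set (Sp d)) (hDn : D.Nonempty) (hD1 : ∀ v ∈ D, ‖v‖ = 1)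
    (hD : ENNReal.ofReal β ≤ dimH D)
    (hE : ∀ v ∈ D, ∃ x : Sp d, ENNReal.ofReal s ≤ dimH {t : ℝ | x + t • v ∈ E}) :
    ENNReal.ofReal (s + (β - (1 - s) * e) / α) ≤ dimH E := by
  have hα0 : 0 < α := by linarith
  have he0 : (0 : ℝ) ≤ e := Nat.cast_nonneg e
  rcases hβ.eq_or_lt with hb | hb
  · -- one line
    obtain ⟨v, hv⟩ := hDn
    obtain ⟨x, hx⟩ := hE v hv
    have hiso : Isometry fun t : ℝ => x + t • v := by
      refine Isometry.of_dist_eq fun t u => ?_
      rw [dist_add_left, dist_eq_norm, ← sub_smul, norm_smul, hD1 v hv, mul_one, dist_eq_norm]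
    have h1 : dimH {t : ℝ | x + t • v ∈ E} ≤ dimH E := by
      rw [← hiso.dimH_image]
      refine dimH_mono ?_
      rintro _ ⟨t, ht, rfl⟩
      exact ht
    refine le_trans (ENNReal.ofReal_le_ofReal ?_) (hx.trans h1)
    have h2 : (β - (1 - s) * e) / α ≤ 0 := by
      apply div_nonpos_of_nonpos_of_nonneg _ hα0.le
      have : 0 ≤ (1 - s) * e := mul_nonneg (by linarith) he0
      linarith
    linarith
  · -- the limit
    obtain ⟨L, hL⟩ : ∃ L : ℝ, L = 1 + (1 + e) / α := ⟨_, rfl⟩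
    have key : ∀ δ : ℝ, 0 < δ → δ < min s β →
        ENNReal.ofReal (s + (β - (1 - s) * e) / α - δ * L) ≤ dimH E := by
      intro δ hδ hδm
      have hδs : δ < s := lt_of_lt_of_le hδm (min_le_left _ _)
      have hδβ : δ < β := lt_of_lt_of_le hδm (min_le_right _ _)
      have h1 := fs_sphere hα h (s := s - δ) (β := β - δ) (by linarith) (by linarith)
        (by linarith) D E hD1
        (lt_of_lt_of_le ((ENNReal.ofReal_lt_ofReal_iff hb).2 (by linarith)) hD)
        (fun v hv => by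
          obtain ⟨x, hx⟩ := hE v hv
          refine ⟨x, ?_⟩
          have h2 : ((Real.toNNReal (s - δ) : NNReal) : ENNReal) <
              dimH {t : ℝ | x + t • v ∈ E} :=
            lt_of_lt_of_le ((ENNReal.ofReal_lt_ofReal_iff hs0).2 (by linarith)) hx
          have h3 := hausdorffMeasure_of_lt_dimH h2
          rw [Real.coe_toNNReal _ (by linarith)] at h3
          rw [h3]
          exact ENNReal.top_ne_zero)
      refine le_trans (ENNReal.ofReal_le_ofReal (le_of_eq ?_)) h1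
      rw [hL]
      field_simp
      ring
    have htend : Filter.Tendsto (fun δ : ℝ => ENNReal.ofReal (s + (β - (1 - s) * e) / α - δ * L))
        (nhdsWithin 0 (Set.Ioi 0)) (nhds (ENNReal.ofReal (s + (β - (1 - s) * e) / α - 0 * L))) := by
      refine Filter.Tendsto.mono_left ?_ nhdsWithin_le_nhds
      exact (ENNReal.continuous_ofReal.comp (by fun_prop)).tendsto _
    rw [zero_mul, sub_zero] at htend
    refine le_of_tendsto htend ?_
    have hm : (0 : ℝ) < min s β := lt_min hs0 hb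
    filter_upwards [Ioo_mem_nhdsGT hm] with δ hδ
    exact key δ hδ.1 hδ.2

end Pool.Agent.MPac5134.KX
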