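import Pool.Agent.Lib.MP_ac5134_an.KX.FsFin

/-!
# KX-FsKak: Kakeya sets

The case of all directions: the unit sphere of `R^(d + 1)` has dimension `≥ d` (its projection to `R^d` contains the unit
ball).
-/

open MeasureTheory

namespace Pool.Agent.MPac5134.KX

open Pool.Agent.MPac5134.KH

theorem fs_dim_sphere (d : ℕ) : ENNReal.ofReal d ≤ dimH {v : Sp d | ‖v‖ = 1} := by
  classical
  let f : Sp d →ₗ[ℝ] (Fin d → ℝ) :=
    { toFun := fun v k => v k.castSucc
      map_add' := fun _ _ => rfl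
      map_smul' := fun _ _ => rfl }
  have hf : LipschitzWith ‖f.toContinuousLinearMap‖₊ f := f.toContinuousLinearMap.lipschitz
  have h1 : {ω : Fin d → ℝ | ∑ k, ω k ^ 2 < 1} ⊆ f '' {v : Sp d | ‖v‖ = 1} := by
    intro ω hω
    have hω' : ∑ k, ω k ^ 2 < 1 := hω
    refine ⟨(WithLp.toLp 2 (Fin.snoc (fun k => ω k) (Real.sqrt (1 - ∑ k, ω k ^ 2)) :
      Fin (d + 1) → ℝ) : Sp d), ?_, ?_⟩
    · have h2 : ‖(WithLp.toLp 2 (Fin.snoc (fun k => ω k) (Real.sqrt (1 - ∑ k, ω k ^ 2)) :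
          Fin (d + 1) → ℝ) : Sp d)‖ ^ 2 = 1 := by
        rw [EuclideanSpace.norm_sq_eq, Fin.sum_univ_castSucc]
        simp only [Fin.snoc_castSucc, Fin.snoc_last, Real.norm_eq_abs, sq_abs]
        rw [Real.sq_sqrt (by linarith)]
        ring
      exact (pow_eq_one_iff_of_nonneg (norm_nonneg _) two_ne_zero).1 h2
    · funext k
      simp [f]
  have h2 : dimH {ω : Fin d → ℝ | ∑ k, ω k ^ 2 < 1} = d := by
    rw [Real.dimH_of_nonempty_interior]
    · simp
    · have hopen : IsOpen {ω : Fin d → ℝ | ∑ k, ω k ^ 2 < 1} := by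
        apply isOpen_lt _ continuous_const
        fun_prop
      rw [hopen.interior_eq]
      exact ⟨fun _ => 0, by simp⟩
  calc ENNReal.ofReal d = d := ENNReal.ofReal_natCast d
    _ = dimH {ω : Fin d → ℝ | ∑ k, ω k ^ 2 < 1} := h2.symm
    _ ≤ dimH (f '' {v : Sp d | ‖v‖ = 1}) := dimH_mono h1
    _ ≤ dimH {v : Sp d | ‖v‖ = 1} := hf.dimH_image_le _

theorem fs_kakeya {d e : ℕ} {α : ℝ} (hα : 1 ≤ α) (h : DTp d e α) (E : Set (Sp d))
    (hE : ∀ v : Sp d, ‖v‖ = 1 → ∃ x, ∀ t : ℝ, 0 ≤ t → t ≤ 1 → x + t • v ∈ E) :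
    ENNReal.ofReal (1 + d / α) ≤ dimH E := by
  have hne : ({v : Sp d | ‖v‖ = 1}).Nonempty :=
    ⟨EuclideanSpace.single (Fin.last d) 1, by simp⟩
  have h1 := fs_dim hα h (s := 1) (β := d) one_pos le_rfl (Nat.cast_nonneg d)
    {v : Sp d | ‖v‖ = 1} E hne (fun v hv => hv) (fs_dim_sphere d) (fun v hv => by
      obtain ⟨x, hx⟩ := hE v hv
      refine ⟨x, ?_⟩
      have h2 : dimH (Set.Icc (0 : ℝ) 1) = 1 := by
        rw [Real.dimH_of_nonempty_interior]
        · simp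
        · rw [interior_Icc]
          exact ⟨1 / 2, by norm_num, by norm_num⟩
      rw [ENNReal.ofReal_one, ← h2]
      exact dimH_mono fun t ht => hx t ht.1 ht.2)
  have e1 : (1 : ℝ) + (d - (1 - 1) * e) / α = 1 + d / α := by ring
  rwa [e1] at h1

end Pool.Agent.MPac5134.KX
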