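import Pool.Agent.Lib.MP_ac5134_an.KX.Defs

/-!
# KX-FsPre: Hausdorff premeasures

PROOF of `hpre_pos`.  `μH[s] A = OuterMeasure.mkMetric (· ^ s) A` (`OuterMeasure.coe_mkMetric`; `Measure.hausdorffMeasure` is by
definition `Measure.mkMetric`), which is the supremum over `r > 0` of `hpre s r A` (`OuterMeasure.iSup_apply`; or use
`OuterMeasure.mkMetric'.eq_iSup_nat`).  So `0 < hpre s r A` for some `r > 0`; take `n ≥ 1` with `1 / n ≤ r`, `1 / n ≤ hpre s r A`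
(`ENNReal.exists_inv_nat_lt`) and `OuterMeasure.mkMetric'.mono_pre` (`1 / n ≤ r` gives `hpre s r ≤ hpre s (1 / n)`).

PROOF of `hpre_cover`.  `measure_mono`, `measure_biUnion_finset_le` for the outer measure, `OuterMeasure.mkMetric'.pre_le`,
`ediam ^ s ≤ (ofReal δ) ^ s = ofReal (δ ^ s)` (`ENNReal.rpow_le_rpow`, `ENNReal.ofReal_rpow_of_pos`).

PROOF of `hpre_heights`, `hpre_cells`.  `hpre_cover` with `δ = 1 / N` and the intervals `[j/N, (j+1)/N)`, `j ∈ A`, resp. the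
cubes `∏ [z_k/N, (z_k+1)/N)`, `z ∈ Z` (sup metric: `Metric.ediam_le` or the like and `edist_pi_le_iff`).
See `HB_vol`, `HB_volT` in `KH/HB.lean`.

PROOF of `hpre_split`.  Otherwise `ofReal m₀ ≤ hpre s r A ≤ ∑' j, ofReal (m₀ / (4 j²)) < ofReal m₀`: `measure_iUnion_le` for
the outer measure; see `HC_sum` and its use in `haus_box` (`KH/HC.lean`; private, copy it).
-/

open MeasureTheory
open scoped ENNReal

namespace Pool.Agent.MPac5134.KX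

open Pool.Agent.MPac5134.KH

/-- the premeasure of dimension `s` at scale `r` -/
noncomputable def hpre {X : Type} [EMetricSpace X] (s : ℝ) (r : ℝ≥0∞) : OuterMeasure X :=
  OuterMeasure.mkMetric'.pre (fun t : Set X => Metric.ediam t ^ s) r

private theorem fp_inv {n : ℕ} (hn : 1 ≤ n) :
    ENNReal.ofReal (1 / (n : ℝ)) = ((n : ℕ) : ℝ≥0∞)⁻¹ := by
  have h0 : (0 : ℝ) < n := by exact_mod_cast hn
  rw [one_div, ENNReal.ofReal_inv_of_pos h0, ENNReal.ofReal_natCast]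

theorem hpre_pos {X : Type} [EMetricSpace X] [MeasurableSpace X] [BorelSpace X] {s : ℝ}
    {A : Set X} (h : Measure.hausdorffMeasure s A ≠ 0) :
    ∃ n : ℕ, 1 ≤ n ∧ ENNReal.ofReal (1 / n) ≤ hpre s (ENNReal.ofReal (1 / n)) A := by
  have h1 : (OuterMeasure.mkMetric (fun r : ℝ≥0∞ => r ^ s) : OuterMeasure X) A ≠ 0 := by
    rw [OuterMeasure.coe_mkMetric]
    exact h
  have h2 : (OuterMeasure.mkMetric (fun r : ℝ≥0∞ => r ^ s) : OuterMeasure X) =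
      ⨆ n : ℕ, OuterMeasure.mkMetric'.pre (fun t : Set X => Metric.ediam t ^ s)
        ((n : ℕ) : ℝ≥0∞)⁻¹ :=
    OuterMeasure.mkMetric'.eq_iSup_nat _
  rw [h2, OuterMeasure.iSup_apply] at h1
  obtain ⟨n₀, hn₀⟩ : ∃ n : ℕ, OuterMeasure.mkMetric'.pre (fun t : Set X => Metric.ediam t ^ s)
      ((n : ℕ) : ℝ≥0∞)⁻¹ A ≠ 0 := by
    by_contra hcon
    push Not at hcon
    exact h1 (by simp [hcon])
  obtain ⟨k, hk⟩ := ENNReal.exists_inv_nat_lt hn₀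
  obtain ⟨n, hn⟩ : ∃ n : ℕ, n = max (max n₀ k) 1 := ⟨_, rfl⟩
  have hn1 : 1 ≤ n := by rw [hn]; exact le_max_right _ _
  have hn2 : n₀ ≤ n := by rw [hn]; exact (le_max_left _ _).trans (le_max_left _ _)
  have hn3 : k ≤ n := by rw [hn]; exact (le_max_right _ _).trans (le_max_left _ _)
  refine ⟨n, hn1, ?_⟩
  rw [fp_inv hn1]
  have h3 : ((n : ℕ) : ℝ≥0∞)⁻¹ ≤ ((k : ℕ) : ℝ≥0∞)⁻¹ :=
    ENNReal.inv_le_inv.2 (by exact_mod_cast hn3)
  have h4 := OuterMeasure.mkMetric'.mono_pre_nat (fun t : Set X => Metric.ediam t ^ s) hn2 A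
  exact (h3.trans hk.le).trans h4

theorem hpre_cover {X ι : Type} [EMetricSpace X] {s δ : ℝ} {r : ℝ≥0∞} (hs : 0 ≤ s) (hδ : 0 < δ)
    (hr : ENNReal.ofReal δ ≤ r) (F : Finset ι) (c : ι → Set X) {A : Set X}
    (hA : A ⊆ ⋃ i ∈ F, c i) (hd : ∀ i ∈ F, Metric.ediam (c i) ≤ ENNReal.ofReal δ) :
    hpre s r A ≤ F.card * ENNReal.ofReal (δ ^ s) := by
  calc hpre s r A ≤ hpre s r (⋃ i ∈ F, c i) := measure_mono hA
    _ ≤ ∑ i ∈ F, hpre s r (c i) := measure_biUnion_finset_le F c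
    _ ≤ ∑ _i ∈ F, ENNReal.ofReal (δ ^ s) := by
        refine Finset.sum_le_sum fun i hi => ?_
        refine (OuterMeasure.mkMetric'.pre_le ((hd i hi).trans hr)).trans ?_
        rw [← ENNReal.ofReal_rpow_of_pos hδ]
        exact ENNReal.rpow_le_rpow (hd i hi) hs
    _ = F.card * ENNReal.ofReal (δ ^ s) := by rw [Finset.sum_const, nsmul_eq_mul]

theorem hpre_heights {s : ℝ} {r : ℝ≥0∞} (hs : 0 ≤ s) {N : ℕ} (hN : 1 ≤ N)
    (hr : ENNReal.ofReal (1 / N) ≤ r) (T : Set ℝ) (A : Finset ℕ)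
    (hT : ∀ t ∈ T, 0 ≤ t ∧ ⌊(N : ℝ) * t⌋₊ ∈ A) :
    hpre s r T ≤ A.card * ENNReal.ofReal ((1 / (N : ℝ)) ^ s) := by
  have hN0 : (0 : ℝ) < N := by exact_mod_cast hN
  refine hpre_cover hs (by positivity) hr A
    (fun j => {t : ℝ | 0 ≤ t ∧ ⌊(N : ℝ) * t⌋₊ = j}) ?_ ?_
  · intro t ht
    obtain ⟨h1, h2⟩ := hT t ht
    rw [Set.mem_iUnion₂]
    exact ⟨_, h2, h1, rfl⟩
  · intro j _
    refine Metric.ediam_le fun x hx y hy => ?_
    rw [edist_dist]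
    apply ENNReal.ofReal_le_ofReal
    obtain ⟨hx0, hx1⟩ := hx
    obtain ⟨hy0, hy1⟩ := hy
    have a1 := Nat.floor_le (a := (N : ℝ) * x) (by positivity)
    have a2 := Nat.lt_floor_add_one ((N : ℝ) * x)
    have b1 := Nat.floor_le (a := (N : ℝ) * y) (by positivity)
    have b2 := Nat.lt_floor_add_one ((N : ℝ) * y)
    rw [hx1] at a1 a2
    rw [hy1] at b1 b2
    rw [Real.dist_eq, abs_le, neg_le, le_div_iff₀ hN0, le_div_iff₀ hN0]
    constructor <;> nlinarith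

theorem hpre_cells {d : ℕ} {s : ℝ} {r : ℝ≥0∞} (hs : 0 ≤ s) {N : ℕ} (hN : 1 ≤ N)
    (hr : ENNReal.ofReal (1 / N) ≤ r) (Ω : Set (Fin d → ℝ)) (Z : Finset (Fin d → ℤ))
    (hΩ : ∀ ω ∈ Ω, fl (fun k => (N : ℝ) * ω k) ∈ Z) :
    hpre s r Ω ≤ Z.card * ENNReal.ofReal ((1 / (N : ℝ)) ^ s) := by
  have hN0 : (0 : ℝ) < N := by exact_mod_cast hN
  refine hpre_cover hs (by positivity) hr Z
    (fun z => {ω : Fin d → ℝ | fl (fun k => (N : ℝ) * ω k) = z}) ?_ ?_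
  · intro ω hω
    rw [Set.mem_iUnion₂]
    exact ⟨_, hΩ ω hω, rfl⟩
  · intro z _
    refine Metric.ediam_le fun x hx y hy => ?_
    rw [edist_pi_le_iff]
    intro k
    rw [edist_dist]
    apply ENNReal.ofReal_le_ofReal
    have hx1 : ⌊(N : ℝ) * x k⌋ = z k := congrFun hx k
    have hy1 : ⌊(N : ℝ) * y k⌋ = z k := congrFun hy k
    have a1 := Int.floor_le ((N : ℝ) * x k)
    have a2 := Int.lt_floor_add_one ((N : ℝ) * x k)
    have b1 := Int.floor_le ((N : ℝ) * y k)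
    have b2 := Int.lt_floor_add_one ((N : ℝ) * y k)
    rw [hx1] at a1 a2
    rw [hy1] at b1 b2
    rw [Real.dist_eq, abs_le, neg_le, le_div_iff₀ hN0, le_div_iff₀ hN0]
    constructor <;> nlinarith

private theorem fp_sum (m : ℝ) (hm : 0 < m) :
    ∑' k : ℕ, ENNReal.ofReal (m / (4 * (k : ℝ) ^ 2)) < ENNReal.ofReal m := by
  have h1 : HasSum (fun n : ℕ => m / 4 * ((1 : ℝ) / (n : ℝ) ^ 2)) (m / 4 * (Real.pi ^ 2 / 6)) :=
    hasSum_zeta_two.mul_left _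
  have h2 : (fun n : ℕ => m / 4 * ((1 : ℝ) / (n : ℝ) ^ 2)) = fun k : ℕ => m / (4 * (k : ℝ) ^ 2) := by
    funext k
    rw [mul_one_div, div_div]
  rw [h2] at h1
  rw [← ENNReal.ofReal_tsum_of_nonneg (fun n => by positivity) h1.summable, h1.tsum_eq]
  apply (ENNReal.ofReal_lt_ofReal_iff hm).2
  have h3 : Real.pi < 4 := Real.pi_lt_four
  have h4 : 0 < Real.pi := Real.pi_pos
  have h5 : Real.pi ^ 2 < 16 := by nlinarith
  nlinarith

theorem hpre_split {X : Type} [EMetricSpace X] {s m₀ : ℝ} {r : ℝ≥0∞} {k₀ : ℕ} (hk : 1 ≤ k₀)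
    (hm : 0 < m₀) {A : Set X} (B : ℕ → Set X) (hA : A ⊆ ⋃ j ∈ {j : ℕ | k₀ ≤ j}, B j)
    (h : ENNReal.ofReal m₀ ≤ hpre s r A) :
    ∃ j, k₀ ≤ j ∧ ENNReal.ofReal (m₀ / (4 * (j : ℝ) ^ 2)) ≤ hpre s r (B j) := by
  classical
  by_contra hcon
  push Not at hcon
  have h1 : A ⊆ ⋃ j : ℕ, (if k₀ ≤ j then B j else ∅) := by
    intro x hx
    obtain ⟨j, hj, hxj⟩ := Set.mem_iUnion₂.1 (hA hx)
    have hj' : k₀ ≤ j := hj
    rw [Set.mem_iUnion]
    refine ⟨j, ?_⟩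
    rw [if_pos hj']
    exact hxj
  have h2 : hpre s r A ≤ ∑' j : ℕ, ENNReal.ofReal (m₀ / (4 * (j : ℝ) ^ 2)) := by
    refine ((measure_mono h1).trans (measure_iUnion_le _)).trans (ENNReal.tsum_le_tsum fun j => ?_)
    by_cases hj : k₀ ≤ j
    · rw [if_pos hj]
      exact (hcon j hj).le
    · rw [if_neg hj, measure_empty]
      exact zero_le
  exact absurd (h.trans h2) (not_le.2 (fp_sum m₀ hm))

end Pool.Agent.MPac5134.KX
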