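import Pool.Agent.Lib.MP_ac5134_an.KX.FsStr

/-!
# KX-FsSph: sets with large intersections with lines, directions in the unit sphere

PROOF.  For `k : Fin (d + 1)` and `σ ∈ {1, -1}` let `P k σ = {v ∈ D | ∀ j, |v j| ≤ σ * v k}`.  `D = ⋃ P k σ` (take `k` with `|v k|`
maximal).  `dimH D` is the supremum of the `dimH (P k σ)` (`dimH_iUnion`, `dimH_union`), so `ofReal β < dimH (P k σ)` for some
`k, σ`.  `v ∈ P k σ` has `σ v k > 0` (`v ≠ 0`).  Let `π = Equiv.swap k (Fin.last d)` and `B : Sp d → Sp d` the linear map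
`B x = (j ↦ (x (π j.castSucc) + σ x k) / 3, σ x k)` (`Fin.snoc`); it is Lipschitz (`ContinuousLinearMap.lipschitz`, via
`LinearMap.toContinuousLinearMap`), so `dimH (B '' E) ≤ dimH E` (`LipschitzWith.dimH_image_le`).
For `v ∈ P k σ` put `t = σ v k > 0`, `ω v j = (v (π j.castSucc) / t + 1) / 3 ∈ [0, 2/3]`; then `B v = t • (ω v, 1)`.
`Ω = ω '' P k σ`.  `Ψ ω' = u ω' / ‖u ω'‖` with `u ω' ∈ Sp d` the vector with `u (π j.castSucc) = 3 ω' j - 1`, `u k = σ`
(`u ω' ≠ 0`): `Ψ (ω v) = v` (`u (ω v) = v / t`, `‖v‖ = 1`), and `Ψ` is `C¹` on `Fin d → ℝ`, so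
`dimH (P k σ) ≤ dimH (Ψ '' Ω) ≤ dimH Ω` (`ContDiff.dimH_image_le` / `ContDiffOn.dimH_image_le`, or Lipschitz by hand).  So
`ofReal β < dimH Ω` and `μH[β] Ω ≠ 0` (`hausdorffMeasure_of_lt_dimH`, it is `⊤`).
For `ω' = ω v ∈ Ω` (choose `v`; `x` from `hE v`): `B (x + t' • v) = B x + (t' t) • (ω', 1)`, so
`{τ | B x + τ • (ω', 1) ∈ B '' E} ⊇ (t' ↦ t' t) '' {t' | x + t' • v ∈ E}` and its `μH[s]` is not `0` (the set
`{t' | ..}` is the image of the right set under the Lipschitz map `τ ↦ τ / t`).  `fs_strip` for `B '' E`.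
-/

open MeasureTheory

namespace Pool.Agent.MPac5134.KX

open Pool.Agent.MPac5134.KH

/-- a null set stays null under division -/
private theorem null_of_image {s : ℝ} (hs0 : 0 ≤ s) {S T : Set ℝ} {t : ℝ}
    (hsub : S ⊆ (fun τ : ℝ => τ / t) '' T) (hT : Measure.hausdorffMeasure s T = 0) :
    Measure.hausdorffMeasure s S = 0 := by
  refine measure_mono_null hsub ?_
  have hlip : LipschitzWith (Real.toNNReal (1 / |t|)) (fun τ : ℝ => τ / t) := by
    refine LipschitzWith.of_dist_le_mul fun u v => ?_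
    rw [Real.dist_eq, Real.dist_eq, Real.coe_toNNReal _ (by positivity), ← sub_div, abs_div]
    rw [div_mul_eq_mul_div, one_mul]
  have h3 := hlip.hausdorffMeasure_image_le hs0 T
  rw [hT, mul_zero] at h3
  exact nonpos_iff_eq_zero.1 h3

/-- the linear map -/
private noncomputable def Bl {d : ℕ} (k : Fin (d + 1)) (σ : ℝ) : Sp d →ₗ[ℝ] Sp d where
  toFun x := WithLp.toLp 2 (Fin.snoc (fun j : Fin d =>
    (x (Equiv.swap k (Fin.last d) j.castSucc) + σ * x k) / 3) (σ * x k) : Fin (d + 1) → ℝ)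
  map_add' x y := by
    ext i
    refine Fin.lastCases ?_ (fun i => ?_) i
    · simp
      ring
    · simp
      ring
  map_smul' c x := by
    ext i
    refine Fin.lastCases ?_ (fun i => ?_) i
    · simp
      ring
    · simp
      ring

/-- the chart, before normalisation -/
private noncomputable def uu {d : ℕ} (k : Fin (d + 1)) (σ : ℝ) (ω : Fin d → ℝ) : Sp d :=
  WithLp.toLp 2 (fun i : Fin (d + 1) =>
    (Fin.snoc (fun j : Fin d => 3 * ω j - 1) σ : Fin (d + 1) → ℝ) (Equiv.swap k (Fin.last d) i))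

private theorem uu_contDiff {d : ℕ} (k : Fin (d + 1)) (σ : ℝ) :
    ContDiff ℝ 1 (uu k σ : (Fin d → ℝ) → Sp d) := by
  rw [contDiff_euclidean]
  intro i
  show ContDiff ℝ 1 (fun ω : Fin d → ℝ =>
    (Fin.snoc (fun j : Fin d => 3 * ω j - 1) σ : Fin (d + 1) → ℝ) (Equiv.swap k (Fin.last d) i))
  generalize Equiv.swap k (Fin.last d) i = l
  refine Fin.lastCases ?_ (fun l => ?_) l
  · simp only [Fin.snoc_last]
    exact contDiff_const
  · simp only [Fin.snoc_castSucc]
    exact (contDiff_const.mul (contDiff_apply ℝ ℝ l)).sub contDiff_const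

private theorem swsw {d : ℕ} (k l : Fin (d + 1)) :
    Equiv.swap k (Fin.last d) (Equiv.swap k (Fin.last d) l) = l :=
  DFunLike.congr_fun (Equiv.swap_swap k (Fin.last d)) l

private theorem uu_k {d : ℕ} (k : Fin (d + 1)) (σ : ℝ) (ω : Fin d → ℝ) : uu k σ ω k = σ := by
  show (Fin.snoc (fun j : Fin d => 3 * ω j - 1) σ : Fin (d + 1) → ℝ)
    (Equiv.swap k (Fin.last d) k) = σ
  rw [Equiv.swap_apply_left, Fin.snoc_last]

private theorem uu_eq {d : ℕ} (k : Fin (d + 1)) (σ : ℝ) (hσ : σ * σ = 1) (v : Sp d)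
    (hv : 0 < σ * v k) :
    uu k σ (fun j : Fin d => (v (Equiv.swap k (Fin.last d) j.castSucc) / (σ * v k) + 1) / 3) =
      (σ * v k)⁻¹ • v := by
  ext i
  obtain ⟨l, rfl⟩ : ∃ l, i = Equiv.swap k (Fin.last d) l :=
    ⟨Equiv.swap k (Fin.last d) i, (swsw k i).symm⟩
  show (Fin.snoc (fun j : Fin d => 3 *
      ((v (Equiv.swap k (Fin.last d) j.castSucc) / (σ * v k) + 1) / 3) - 1) σ : Fin (d + 1) → ℝ)
    (Equiv.swap k (Fin.last d) (Equiv.swap k (Fin.last d) l)) =
      (σ * v k)⁻¹ * v (Equiv.swap k (Fin.last d) l)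
  rw [swsw]
  refine Fin.lastCases ?_ (fun l => ?_) l
  · rw [Fin.snoc_last, Equiv.swap_apply_right]
    have h1 : σ ≠ 0 := fun h => by simp [h] at hσ
    have h2 : v k ≠ 0 := fun h => by simp [h] at hv
    field_simp
    nlinarith [hσ]
  · rw [Fin.snoc_castSucc]
    generalize σ * v k = T at hv ⊢
    field_simp
    ring

theorem fs_sphere {d e : ℕ} {α : ℝ} (hα : 1 ≤ α) (h : DTp d e α) {s β : ℝ} (hs0 : 0 ≤ s)
    (hs1 : s ≤ 1) (hβ : 0 ≤ β) (D E : Set (Sp d)) (hD1 : ∀ v ∈ D, ‖v‖ = 1)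
    (hD : ENNReal.ofReal β < dimH D)
    (hE : ∀ v ∈ D, ∃ x : Sp d, Measure.hausdorffMeasure s {t : ℝ | x + t • v ∈ E} ≠ 0) :
    ENNReal.ofReal (s + (β - (1 - s) * e) / α) ≤ dimH E := by
  classical
  set sg : Bool → ℝ := fun b => if b then 1 else -1 with hsg
  set P : Fin (d + 1) × Bool → Set (Sp d) := fun i =>
    {v | v ∈ D ∧ ∀ j, |v j| ≤ sg i.2 * v i.1} with hP
  have hcov : D ⊆ ⋃ i, P i := by
    intro v hv
    obtain ⟨k, hk⟩ := Finite.exists_max (fun k : Fin (d + 1) => |v k|)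
    rw [Set.mem_iUnion]
    rcases le_total 0 (v k) with h0 | h0
    · refine ⟨(k, true), hv, fun j => ?_⟩
      have := hk j
      rw [abs_of_nonneg h0] at this
      simpa [hsg] using this
    · refine ⟨(k, false), hv, fun j => ?_⟩
      have := hk j
      rw [abs_of_nonpos h0] at this
      simpa [hsg] using this
  have hdim : ∃ i, ENNReal.ofReal β < dimH (P i) := by
    have h1 : ENNReal.ofReal β < dimH (⋃ i, P i) := lt_of_lt_of_le hD (dimH_mono hcov)
    rw [dimH_iUnion, lt_iSup_iff] at h1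
    exact h1
  obtain ⟨⟨k, b⟩, hkb⟩ := hdim
  set σ : ℝ := sg b with hσd
  have hσ : σ * σ = 1 := by
    rw [hσd, hsg]
    cases b <;> norm_num
  have hPk : ∀ v ∈ P (k, b), v ∈ D ∧ ∀ j, |v j| ≤ σ * v k := fun v hv => hv
  have hpos : ∀ v ∈ P (k, b), 0 < σ * v k := by
    intro v hv
    obtain ⟨hvD, hvj⟩ := hPk v hv
    rcases lt_or_ge 0 (σ * v k) with h0 | h0
    · exact h0
    · exfalso
      have hz : v = 0 := by
        ext j
        have h1 := hvj j
        have h2 : |v j| ≤ 0 := h1.trans h0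
        have h3 := abs_nonpos_iff.1 h2
        simpa using h3
      have h4 := hD1 v hvD
      rw [hz, norm_zero] at h4
      exact zero_ne_one h4
  set om : Sp d → (Fin d → ℝ) := fun v j =>
    (v (Equiv.swap k (Fin.last d) j.castSucc) / (σ * v k) + 1) / 3 with hom
  set Ω : Set (Fin d → ℝ) := om '' P (k, b) with hΩ
  set w : (Fin d → ℝ) → Sp d := fun ω =>
    (WithLp.toLp 2 (Fin.snoc (fun k => ω k) 1 : Fin (d + 1) → ℝ) : Sp d) with hw
  have hBv : ∀ v ∈ P (k, b), Bl k σ v = (σ * v k) • w (om v) := by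
    intro v hv
    have h0 := hpos v hv
    ext i
    refine Fin.lastCases ?_ (fun i => ?_) i
    · show (Fin.snoc (fun j : Fin d =>
        (v (Equiv.swap k (Fin.last d) j.castSucc) + σ * v k) / 3) (σ * v k) : Fin (d + 1) → ℝ)
          (Fin.last d) = (σ * v k) * (Fin.snoc (fun k => om v k) 1 : Fin (d + 1) → ℝ) (Fin.last d)
      rw [Fin.snoc_last, Fin.snoc_last, mul_one]
    · show (Fin.snoc (fun j : Fin d =>
        (v (Equiv.swap k (Fin.last d) j.castSucc) + σ * v k) / 3) (σ * v k) : Fin (d + 1) → ℝ)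
          i.castSucc = (σ * v k) * (Fin.snoc (fun k => om v k) 1 : Fin (d + 1) → ℝ) i.castSucc
      rw [Fin.snoc_castSucc, Fin.snoc_castSucc]
      simp only [hom]
      generalize σ * v k = T at h0 ⊢
      field_simp
  -- dimension of `Ω`
  have hΨ : dimH (P (k, b)) ≤ dimH Ω := by
    set Ψ : (Fin d → ℝ) → Sp d := fun ω => ‖uu k σ ω‖⁻¹ • uu k σ ω with hΨd
    have hne : ∀ ω : Fin d → ℝ, uu k σ ω ≠ 0 := by
      intro ω h0
      have h1 := uu_k k σ ω
      rw [h0] at h1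
      have h2 : (0 : ℝ) = σ := by simpa using h1
      rw [← h2] at hσ
      norm_num at hσ
    have hC : ContDiff ℝ 1 Ψ := by
      have hu := uu_contDiff (d := d) k σ
      exact ((hu.norm ℝ hne).inv (fun ω => norm_ne_zero_iff.2 (hne ω))).smul hu
    have h1 : dimH (Ψ '' Ω) ≤ dimH Ω :=
      ContDiffOn.dimH_image_le (s := Set.univ) hC.contDiffOn convex_univ (Set.subset_univ _)
    refine le_trans (dimH_mono ?_) h1
    intro v hv
    refine ⟨om v, ⟨v, hv, rfl⟩, ?_⟩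
    have h2 : uu k σ (om v) = (σ * v k)⁻¹ • v := uu_eq k σ hσ v (hpos v hv)
    have h3 := hD1 v (hPk v hv).1
    have h4 := hpos v hv
    show ‖uu k σ (om v)‖⁻¹ • uu k σ (om v) = v
    rw [h2, norm_smul, h3, mul_one, Real.norm_eq_abs, abs_of_pos (inv_pos.2 h4), inv_inv,
      smul_smul, mul_inv_cancel₀ h4.ne', one_smul]
  have hμ : Measure.hausdorffMeasure β Ω ≠ 0 := by
    have h1 : ((Real.toNNReal β : NNReal) : ENNReal) < dimH Ω := lt_of_lt_of_le hkb hΨ
    have h2 := hausdorffMeasure_of_lt_dimH h1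
    rw [Real.coe_toNNReal β hβ] at h2
    rw [h2]
    exact ENNReal.top_ne_zero
  have hX : ∀ ω ∈ Ω, ∃ x : Sp d,
      Measure.hausdorffMeasure s {t : ℝ | x + t • w ω ∈ (Bl k σ) '' E} ≠ 0 := by
    rintro ω ⟨v, hv, rfl⟩
    obtain ⟨x, hx⟩ := hE v (hPk v hv).1
    have h0 := hpos v hv
    refine ⟨Bl k σ x, fun hnull => hx ?_⟩
    refine null_of_image hs0 (t := σ * v k) (T := {t : ℝ | Bl k σ x + t • w (om v) ∈
      (Bl k σ) '' E}) ?_ hnull
    intro t ht
    refine ⟨t * (σ * v k), ?_, ?_⟩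
    · refine ⟨x + t • v, ht, ?_⟩
      rw [map_add, map_smul, hBv v hv, smul_smul]
    · show t * (σ * v k) / (σ * v k) = t
      exact mul_div_cancel_right₀ t h0.ne'
  choose! X hX' using hX
  have hfin := fs_strip hα h hs0 hs1 hβ ((Bl k σ) '' E) Ω ?_ hμ X ?_
  · refine hfin.trans ?_
    have hL := (Bl (d := d) k σ).toContinuousLinearMap.lipschitz
    exact hL.dimH_image_le E
  · rintro ω ⟨v, hv, rfl⟩ j
    have h0 := hpos v hv
    have h1 := (hPk v hv).2 (Equiv.swap k (Fin.last d) j.castSucc)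
    obtain ⟨h2, h3⟩ := abs_le.1 h1
    have h4 : -1 ≤ v (Equiv.swap k (Fin.last d) j.castSucc) / (σ * v k) := by
      rw [le_div_iff₀ h0]
      linarith
    have h5 : v (Equiv.swap k (Fin.last d) j.castSucc) / (σ * v k) ≤ 1 := by
      rw [div_le_iff₀ h0]
      linarith
    simp only [hom]
    constructor
    · linarith
    · linarith
  · intro ω hω
    exact hX' ω hω

end Pool.Agent.MPac5134.KX
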