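import Pool.Agent.Lib.MP_ac5134_an.KX.FsBox

/-!
# KX-FsStr: sets with large intersections with lines, directions `(ω, 1)`

PROOF.  `w ω = (ω, 1)`, `S ω = {t | x ω + t w ω ∈ E}`, `μH[s] (S ω) ≠ 0` for `ω ∈ Ω`.  For `m : ℤ` put
`a m ω k = x ω k + (m/4 - x ω last) ω k` and `T m ω = {t ∈ [0, 1) | the point (a m ω + (t/4) ω, m/4 + t/4) ∈ E}`; this point is
`x ω + (m/4 - x ω last + t/4) w ω`.  So `S ω = ⋃ m, (fun t => m/4 - x ω last + t/4) '' (T m ω)` and by countable subadditivity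
(`measure_iUnion_null`) and `LipschitzOnWith.hausdorffMeasure_image_le` (or `AffineMap`, `dimH`-free: the image of a null set under a
Lipschitz map is a null set) some `μH[s] (T m ω) ≠ 0`, so `hpre_pos` gives `n ≥ 1` with
`ω ∈ Ω' m n := {ω ∈ Ω | ofReal (1/n) ≤ hpre s (ofReal (1/n)) (T m ω)}`.  `Ω = ⋃ m n, Ω' m n` (`n ≥ 1`), so some
`μH[β] (Ω' m n) ≠ 0`; `fs_box`.
-/

open MeasureTheory

namespace Pool.Agent.MPac5134.KX

open Pool.Agent.MPac5134.KH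

theorem fs_strip {d e : ℕ} {α : ℝ} (hα : 1 ≤ α) (h : DTp d e α) {s β : ℝ} (hs0 : 0 ≤ s)
    (hs1 : s ≤ 1) (hβ : 0 ≤ β) (E : Set (Sp d)) (Ω : Set (Fin d → ℝ))
    (hΩ : ∀ ω ∈ Ω, ∀ k, 0 ≤ ω k ∧ ω k < 1) (hpos : Measure.hausdorffMeasure β Ω ≠ 0)
    (x : (Fin d → ℝ) → Sp d)
    (hE : ∀ ω ∈ Ω, Measure.hausdorffMeasure s {t : ℝ | x ω + t •
      (WithLp.toLp 2 (Fin.snoc (fun k => ω k) 1 : Fin (d + 1) → ℝ) : Sp d) ∈ E} ≠ 0) :
    ENNReal.ofReal (s + (β - (1 - s) * e) / α) ≤ dimH E := by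
  classical
  set w : (Fin d → ℝ) → Sp d := fun ω =>
    (WithLp.toLp 2 (Fin.snoc (fun k => ω k) 1 : Fin (d + 1) → ℝ) : Sp d) with hw
  set a : ℤ → (Fin d → ℝ) → Fin d → ℝ := fun m ω k =>
    x ω k.castSucc + ((m : ℝ) / 4 - x ω (Fin.last d)) * ω k with ha
  set pt : ℤ → (Fin d → ℝ) → ℝ → Sp d := fun m ω t =>
    (WithLp.toLp 2 (Fin.snoc (fun k => a m ω k + t / 4 * ω k) ((m : ℝ) / 4 + t / 4) :
        Fin (d + 1) → ℝ) : Sp d) with hpt
  have hptw : ∀ m ω t, pt m ω t = x ω + ((m : ℝ) / 4 - x ω (Fin.last d) + t / 4) • w ω := by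
    intro m ω t
    ext i
    refine Fin.lastCases ?_ (fun i => ?_) i
    · simp [hpt, hw]
      ring
    · simp [hpt, hw, ha]
      ring
  set T : ℤ → (Fin d → ℝ) → Set ℝ := fun m ω => {t | (0 ≤ t ∧ t < 1) ∧ pt m ω t ∈ E} with hT
  have h1 : ∀ ω ∈ Ω, ∃ m : ℤ, Measure.hausdorffMeasure s (T m ω) ≠ 0 := by
    intro ω hω
    by_contra hno
    push Not at hno
    refine hE ω hω ?_
    have hsub : {t : ℝ | x ω + t • w ω ∈ E} ⊆
        ⋃ m : ℤ, (fun t : ℝ => (m : ℝ) / 4 - x ω (Fin.last d) + t / 4) '' (T m ω) := by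
      intro τ hτ
      rw [Set.mem_iUnion]
      refine ⟨⌊4 * (τ + x ω (Fin.last d))⌋, 4 * (τ + x ω (Fin.last d)) -
        ⌊4 * (τ + x ω (Fin.last d))⌋, ⟨⟨?_, ?_⟩, ?_⟩, ?_⟩
      · linarith [Int.floor_le (4 * (τ + x ω (Fin.last d)))]
      · linarith [Int.lt_floor_add_one (4 * (τ + x ω (Fin.last d)))]
      · rw [hptw]
        have e1 : ((⌊4 * (τ + x ω (Fin.last d))⌋ : ℤ) : ℝ) / 4 - x ω (Fin.last d) +
            (4 * (τ + x ω (Fin.last d)) - ⌊4 * (τ + x ω (Fin.last d))⌋) / 4 = τ := by ring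
        rw [e1]
        exact hτ
      · show ((⌊4 * (τ + x ω (Fin.last d))⌋ : ℤ) : ℝ) / 4 - x ω (Fin.last d) +
            (4 * (τ + x ω (Fin.last d)) - ⌊4 * (τ + x ω (Fin.last d))⌋) / 4 = τ
        ring
    refine measure_mono_null hsub (measure_iUnion_null fun m => ?_)
    have hlip : LipschitzWith 1 (fun t : ℝ => (m : ℝ) / 4 - x ω (Fin.last d) + t / 4) := by
      refine LipschitzWith.of_dist_le_mul fun u v => ?_
      rw [Real.dist_eq, Real.dist_eq]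
      have e2 : (m : ℝ) / 4 - x ω (Fin.last d) + u / 4 - ((m : ℝ) / 4 - x ω (Fin.last d) + v / 4) =
          (u - v) / 4 := by ring
      rw [e2, abs_div, NNReal.coe_one, one_mul]
      have h4 : |(4 : ℝ)| = 4 := abs_of_pos (by norm_num)
      rw [h4]
      have := abs_nonneg (u - v)
      linarith
    have h3 := hlip.hausdorffMeasure_image_le hs0 (T m ω)
    rw [hno m, mul_zero] at h3
    exact nonpos_iff_eq_zero.1 h3
  set Ω' : ℤ → ℕ → Set (Fin d → ℝ) := fun m n =>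
    {ω | ω ∈ Ω ∧ ENNReal.ofReal (1 / ((n + 1 : ℕ) : ℝ)) ≤
      hpre s (ENNReal.ofReal (1 / ((n + 1 : ℕ) : ℝ))) (T m ω)} with hΩ'
  have h2 : ∃ m n, Measure.hausdorffMeasure β (Ω' m n) ≠ 0 := by
    by_contra hno
    push Not at hno
    refine hpos ?_
    have hsub : Ω ⊆ ⋃ m : ℤ, ⋃ n : ℕ, Ω' m n := by
      intro ω hω
      obtain ⟨m, hm⟩ := h1 ω hω
      obtain ⟨n, hn, hn'⟩ := hpre_pos hm
      rw [Set.mem_iUnion]
      refine ⟨m, ?_⟩
      rw [Set.mem_iUnion]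
      refine ⟨n - 1, hω, ?_⟩
      have e3 : n - 1 + 1 = n := by omega
      rw [e3]
      exact hn'
    exact measure_mono_null hsub (measure_iUnion_null fun m => measure_iUnion_null fun n => hno m n)
  obtain ⟨m, n, hmn⟩ := h2
  refine fs_box hα h hs0 hs1 hβ E m (Ω' m n) (fun ω hω => hΩ ω hω.1) hmn (n + 1) (by omega)
    (a m) (T m) ?_ ?_ ?_
  · intro ω _ t ht
    exact ht.1
  · intro ω hω
    exact hω.2
  · intro ω _ t ht
    exact ht.2

end Pool.Agent.MPac5134.KX
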