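import Pool.Agent.Lib.MP_ac5134_an.KX.JPath
import Pool.Agent.Lib.MP_ac5134_an.KX.JPair

/-!
# KX-JNode: the inequality at a node of the tree of heights, with `RJ`

PROOF.  The proof of `node` in `KH/Node.lean` with `path_famJ`, `pair_famJ`, and `C` instead of
`C * (1 + k)`.
-/

open RFold Finset

namespace Pool.Agent.MPac5134.KX

open Pool.Agent.MPac5134.KH

private theorem nodeJ_div {N : ℕ} (hN : 1 ≤ N) {η x : ℝ} (h : η * N ≤ |x|) : η ≤ |x / N| := by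
  have hN0 : (0 : ℝ) < N := by exact_mod_cast hN
  rw [abs_div, abs_of_pos hN0, le_div_iff₀ hN0]
  exact h

private theorem nodeJ_frac {N : ℕ} (hN : 1 ≤ N) (a b c : ℝ) :
    a / N * (b / N) / (c / N) = (a * b / c) / N := by
  have hN0 : (N : ℝ) ≠ 0 := by
    have : (0 : ℝ) < N := by exact_mod_cast hN
    exact this.ne'
  by_cases hc : c = 0
  · simp [hc]
  · field_simp

theorem nodeJ {d N : ℕ} (hN : 1 ≤ N) {α C η k s Gs : ℝ} (h1 : 1 < α) (hη : 0 < η) (hη1 : η ≤ 1)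
    {H : Finset ℕ} (hH : ∀ j ∈ H, j ≤ N) {t₀ u t₁ : ℕ} (ht0 : t₀ ∈ H) (hu : u ∈ H) (ht1 : t₁ ∈ H)
    (hs1 : sep N η t₀ t₁) {c : ℝ} (hc : η * N ≤ |c|) {P : Finset ℕ} (hPH : P ⊆ H)
    (hRI : RJ d N α C P) {I Ω : Type} [Fintype I] [Fintype Ω] {w : I → ℝ} (hw : ∀ i, 0 ≤ w i)
    (hw1 : ∑ i, w i = 1) (S : I → LS d Ω) (hB : ∀ i ω j, |((S i).B ω j : ℝ)| ≤ N)
    (hk : ∑ i, w i * (S i).kap ≤ k) (hs : ∀ t ∈ H, ∑ i, w i * (S i).H ((t : ℝ) / N) ≤ s)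
    (hP : ∀ p ∈ P, sep N η p t₀ ∧ sep N η p u ∧ ∃ Q : Finset ℕ, RJ d N α C Q ∧
      ∀ q ∈ Q, ∃ z ∈ H, sep N η z t₁ ∧ Rel η t₀ u t₁ c p q z ∧
        ∑ i, w i * (S i).G ((t₁ : ℝ) / N) ((z : ℝ) / N) ((q : ℝ) / N) ≤ Gs) :
    (α ^ 2 + 3 * α - 2) * ∑ i, w i * (S i).h +
        (α - 1) ^ 2 * ∑ i, w i * (S i).G ((t₀ : ℝ) / N) ((u : ℝ) / N) ((t₁ : ℝ) / N) ≤
      (3 * α ^ 2 - 2 * α) * s + α ^ 2 * Gs +
        ((α - 1) * ((α + 1) * k + (2 * α + 1) * cst d η + C) +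
          α * (k + (1 + α) * cst d η + C)) := by
  have hN0 : (0 : ℝ) < N := by exact_mod_cast hN
  have hle : ∀ j ∈ H, (j : ℝ) / N ≤ 1 := by
    intro j hj
    rw [div_le_one hN0]
    exact_mod_cast hH j hj
  have hpos : ∀ j : ℕ, (0 : ℝ) ≤ (j : ℝ) / N := fun j => by positivity
  have hsub : ∀ a b : ℝ, a / N - b / N = (a - b) / N := fun a b => by ring
  have hα0 : (0 : ℝ) < α - 1 := by linarith
  have ht : η ≤ |(t₁ : ℝ) / N - (t₀ : ℝ) / N| := by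
    rw [hsub]
    refine nodeJ_div hN ?_
    rw [abs_sub_comm]
    exact hs1
  have hpair : ∀ p ∈ P, ∑ i, w i * (S i).sig ((t₁ : ℝ) / N) ((t₀ : ℝ) / N)
      (c / N * ((p : ℝ) / N - (t₀ : ℝ) / N) / ((p : ℝ) / N - (u : ℝ) / N)) ≤
      (α * Gs + s - 2 * ∑ i, w i * (S i).h + (k + (1 + α) * cst d η + C)) /
        (α - 1) := by
    intro p hp
    obtain ⟨a1, a2, Q, hQ, hq⟩ := hP p hp
    have := pair_famJ (κ := c / N * ((p : ℝ) / N - (t₀ : ℝ) / N) / ((p : ℝ) / N - (u : ℝ) / N))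
      hN hη hη1 hQ (by linarith) (hpos t₀) (hle _ ht0) (hpos t₁) (hle _ ht1) ht hw hw1 S hB hk
      (hs t₁ ht1) (Gs := Gs) (by
        intro q hq'
        obtain ⟨z, hz, b1, b2, b3⟩ := hq q hq'
        refine ⟨(z : ℝ) / N, hpos z, hle z hz, ?_, ?_, b3⟩
        · rw [hsub]
          exact nodeJ_div hN b1
        · rw [hsub, hsub, hsub, hsub, hsub, nodeJ_frac hN, nodeJ_frac hN, ← sub_div, abs_div,
            abs_of_pos hN0, div_le_div_iff₀ hN0 (by positivity)]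
          have b4 : |((z : ℝ) - t₀) * (q - t₁) / (z - t₁) - c * (p - t₀) / (p - u)| ≤ 1 / η := b2
          have b5 := mul_le_mul_of_nonneg_right b4 (show (0 : ℝ) ≤ η * N by positivity)
          have b6 : 1 / η * (η * N) = 1 * N := by field_simp
          linarith)
    rw [le_div_iff₀ hα0]
    linarith
  have key := path_famJ (c := c / N) (t₁ := (t₁ : ℝ) / N) hN h1.le hη hη1 hRI (hpos t₀)
    (hle _ ht0) (hpos u) (hle _ hu) ht (nodeJ_div hN hc) (by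
      intro p hp
      obtain ⟨a1, a2, -⟩ := hP p hp
      refine ⟨hle p (hPH hp), ?_, ?_⟩
      · rw [hsub]
        exact nodeJ_div hN a1
      · rw [hsub]
        exact nodeJ_div hN a2) hw hw1 S hB hk (hs t₀ ht0) (hs u hu) (hs t₁ ht1)
      (fun p hp => hs p (hPH hp)) hpair
  obtain ⟨Eh, hEh⟩ : ∃ z : ℝ, z = ∑ i, w i * (S i).h := ⟨_, rfl⟩
  obtain ⟨EG, hEG⟩ : ∃ z : ℝ,
      z = ∑ i, w i * (S i).G ((t₀ : ℝ) / N) ((u : ℝ) / N) ((t₁ : ℝ) / N) := ⟨_, rfl⟩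
  rw [← hEh, ← hEG] at key ⊢
  have f1 := mul_le_mul_of_nonneg_left key hα0.le
  have f2 : (α - 1) * (3 * α * s + α * ((α * Gs + s - 2 * Eh +
      (k + (1 + α) * cst d η + C)) / (α - 1)) +
      ((α + 1) * k + (2 * α + 1) * cst d η + C)) =
      (α - 1) * (3 * α * s) + α * (α * Gs + s - 2 * Eh +
      (k + (1 + α) * cst d η + C)) +
      (α - 1) * ((α + 1) * k + (2 * α + 1) * cst d η + C) := by
    field_simp
  rw [f2] at f1
  nlinarith [f1]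


end Pool.Agent.MPac5134.KX
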