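import Pool.Agent.Lib.MP_ac5134_an.KX.JCond
import Pool.Agent.Lib.MP_ac5134_an.KH.PathB
import Pool.Agent.Lib.MP_ac5134_an.KH.PathS
import Pool.Agent.Lib.MP_ac5134_an.KH.PathM

/-!
# KX-JPath: the path inequality with `RJ`

PROOF.  The proof of `path_fam` in `KH/PathF.lean` with `RJ.cond` instead of `RI.cond`, and `C` instead of
`C * (1 + k)`.
-/

open RFold Finset

namespace Pool.Agent.MPac5134.KX

open Pool.Agent.MPac5134.KH

theorem path_famJ {d N : ℕ} (hN : 1 ≤ N) {α C η k s σ : ℝ} (hα : 1 ≤ α) (hη : 0 < η) (h1 : η ≤ 1)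
    {P : Finset ℕ} (hRI : RJ d N α C P) {t₀ u t₁ c : ℝ} (ht0 : 0 ≤ t₀) (ht0' : t₀ ≤ 1) (hu : 0 ≤ u)
    (hu' : u ≤ 1) (ht : η ≤ |t₁ - t₀|) (hc : η ≤ |c|)
    (hP : ∀ p ∈ P, (p : ℝ) / N ≤ 1 ∧ η ≤ |(p : ℝ) / N - t₀| ∧ η ≤ |(p : ℝ) / N - u|)
    {I Ω : Type} [Fintype I] [Fintype Ω] {w : I → ℝ} (hw : ∀ i, 0 ≤ w i) (hw1 : ∑ i, w i = 1)
    (S : I → LS d Ω) (hB : ∀ i ω j, |((S i).B ω j : ℝ)| ≤ N) (hk : ∑ i, w i * (S i).kap ≤ k)
    (H0 : ∑ i, w i * (S i).H t₀ ≤ s) (Hu : ∑ i, w i * (S i).H u ≤ s)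
    (H1 : ∑ i, w i * (S i).H t₁ ≤ s) (HP : ∀ p ∈ P, ∑ i, w i * (S i).H ((p : ℝ) / N) ≤ s)
    (hσ : ∀ p ∈ P, ∑ i, w i * (S i).sig t₁ t₀ (c * ((p : ℝ) / N - t₀) / ((p : ℝ) / N - u)) ≤ σ) :
    (α + 2) * ∑ i, w i * (S i).h + (α - 1) * ∑ i, w i * (S i).G t₀ u t₁ ≤
      3 * α * s + α * σ + ((α + 1) * k + (2 * α + 1) * cst d η + C) := by
  obtain ⟨m, hm⟩ : ∃ m : ℝ, m = ∑ i, w i * ent ((S i).w3 t₀ t₁) ((S i).M u c) := ⟨_, rfl⟩
  -- the systems
  obtain ⟨T, hT⟩ : ∃ T : I → LS d ((Ω × Ω) × Ω), T = fun i =>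
      ⟨(S i).w3 t₀ t₁, fun x => (S i).A x.1.1, fun x => (S i).B x.1.1, (S i).isPr_w3 t₀ t₁⟩ :=
    ⟨_, rfl⟩
  have hTB : ∀ i ω j, |((T i).B ω j : ℝ)| ≤ N := by
    intro i ω j
    rw [hT]
    exact hB i ω.1.1 j
  have hTs : ∀ p ∈ P, ∑ i, w i * cent (T i).p ((T i).P ((p : ℝ) / N)) ((S i).M u c) ≤
      s + σ + cst d η - m := by
    intro p hp
    obtain ⟨q1, q2, q3⟩ := hP p hp
    have q0 : (0 : ℝ) ≤ (p : ℝ) / N := by positivity
    have e1 : ∀ i, w i * cent (T i).p ((T i).P ((p : ℝ) / N)) ((S i).M u c) ≤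
        w i * (S i).H ((p : ℝ) / N) +
          w i * (S i).sig t₁ t₀ (c * ((p : ℝ) / N - t₀) / ((p : ℝ) / N - u)) +
          w i * cst d η - w i * ent ((S i).w3 t₀ t₁) ((S i).M u c) := by
      intro i
      have e2 : cent (T i).p ((T i).P ((p : ℝ) / N)) ((S i).M u c) =
          ent ((S i).w3 t₀ t₁) (fun x => ((S i).P ((p : ℝ) / N) x.1.1, (S i).M u c x)) -
            ent ((S i).w3 t₀ t₁) ((S i).M u c) := by
        rw [hT]
        rfl
      have e3 := (S i).path_slice (t₁ := t₁) (c := c) hη h1 ht0 ht0' hu hu' q0 q1 q2 q3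
      rw [e2]
      have e4 := mul_le_mul_of_nonneg_left e3 (hw i)
      linarith [e4]
    refine (sum_le_sum fun i _ => e1 i).trans ?_
    rw [sum_sub_distrib, sum_add_distrib, sum_add_distrib, ← sum_mul, hw1, one_mul, ← hm]
    have := HP p hp
    have := hσ p hp
    linarith
  have key := RJ.cond hRI hw hw1 T hTB (fun i => (S i).M u c) hTs
  -- lower bound for the left side
  have e5 : 3 * ∑ i, w i * (S i).h - ∑ i, w i * (S i).H t₀ - ∑ i, w i * (S i).H t₁ -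
      2 * ∑ i, w i * (S i).kap - 2 * cst d η - m ≤
      ∑ i, w i * cent (T i).p (T i).B ((S i).M u c) := by
    have e6 : ∀ i, 3 * (w i * (S i).h) - w i * (S i).H t₀ - w i * (S i).H t₁ -
        2 * (w i * (S i).kap) - w i * (2 * cst d η) -
        w i * ent ((S i).w3 t₀ t₁) ((S i).M u c) ≤
        w i * cent (T i).p (T i).B ((S i).M u c) := by
      intro i
      have e7 : cent (T i).p (T i).B ((S i).M u c) =
          ent ((S i).w3 t₀ t₁) (fun x => ((S i).B x.1.1, (S i).M u c x)) -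
            ent ((S i).w3 t₀ t₁) ((S i).M u c) := by
        rw [hT]
        rfl
      have e8 := (S i).path_B (t₀ := t₀) (t₁ := t₁) (u := u) (c := c) hη h1 ht hc
      rw [e7]
      have e9 := mul_le_mul_of_nonneg_left e8 (hw i)
      linarith [e9]
    refine le_trans (le_of_eq ?_) (sum_le_sum fun i _ => e6 i)
    rw [sum_sub_distrib, sum_sub_distrib, sum_sub_distrib, sum_sub_distrib, sum_sub_distrib,
      ← mul_sum, ← mul_sum, ← sum_mul, hw1, one_mul, ← hm]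
  -- lower bound for `m`
  have e10 : ∑ i, w i * (S i).h - ∑ i, w i * (S i).H t₁ + ∑ i, w i * (S i).G t₀ u t₁ -
      ∑ i, w i * (S i).H u - ∑ i, w i * (S i).kap - cst d η ≤ m := by
    have e11 : ∀ i, w i * (S i).h - w i * (S i).H t₁ + w i * (S i).G t₀ u t₁ -
        w i * (S i).H u - w i * (S i).kap - w i * cst d η ≤
        w i * ent ((S i).w3 t₀ t₁) ((S i).M u c) := by
      intro i
      have e8 := (S i).path_M (t₀ := t₀) (t₁ := t₁) (u := u) (c := c) hη h1 hc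
      have e9 := mul_le_mul_of_nonneg_left e8 (hw i)
      linarith [e9]
    rw [hm]
    refine le_trans (le_of_eq ?_) (sum_le_sum fun i _ => e11 i)
    rw [sum_sub_distrib, sum_sub_distrib, sum_sub_distrib, sum_add_distrib, sum_sub_distrib,
      ← sum_mul, hw1, one_mul]
  obtain ⟨Eh, hEh⟩ : ∃ z : ℝ, z = ∑ i, w i * (S i).h := ⟨_, rfl⟩
  obtain ⟨EG, hEG⟩ : ∃ z : ℝ, z = ∑ i, w i * (S i).G t₀ u t₁ := ⟨_, rfl⟩
  rw [← hEh] at e5 e10 ⊢
  rw [← hEG] at e10 ⊢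
  have f1 : 3 * Eh - 2 * s - 2 * k - 2 * cst d η - m ≤
      α * (s + σ + cst d η - m) + C := by linarith
  have f2 : Eh - 2 * s + EG - k - cst d η ≤ m := by linarith
  have f3 := mul_le_mul_of_nonneg_left f2 (show (0 : ℝ) ≤ α - 1 by linarith)
  nlinarith [f1, f3]

end Pool.Agent.MPac5134.KX
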