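import Pool.Agent.Lib.MP_ac5134_an.Norms

/-!
# KX-LpL: lower bound for the centred tubes

PROOF.  On the ball of radius `N / 2` about `0` the function is `|ι|` (see `eLpNorm_top_ge` in `Norms.lean`), and this ball has
volume `(N / 2) ^ (d + 1) * volume (ball 0 1)` (`Measure.addHaar_ball`), `0 < volume (ball 0 1) < ∞`.
-/

open MeasureTheory

namespace Pool.Agent.MPac5134.KX

private theorem lpL_ball {d : ℕ} {ι : Type} [Fintype ι] {N : ℝ} (hN : 1 ≤ N) (θ : ι → Cap d) (x : Sp d)
    (hn : ‖x‖ < N / 2) : mult N θ (fun _ => 0) x = Fintype.card ι := by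
  unfold mult
  have : ∀ i, (tube N (θ i) 0).indicator (fun _ => (1:ℝ)) x = 1 := by
    intro i
    apply Set.indicator_of_mem
    refine ⟨fun j => ?_, ?_⟩
    · rw [sub_zero]
      exact (abs_inner_le_norm _ x _).trans hn.le
    · rw [sub_zero]
      refine (abs_inner_le_norm _ x _).trans (hn.le.trans ?_)
      have : N ≤ N ^ 2 := by nlinarith
      linarith
  simp_rw [this]
  simp

theorem lpL (d : ℕ) : ∃ c : ℝ, 0 < c ∧ ∀ (N p : ℝ), 1 ≤ N → 0 ≤ p → ∀ (ι : Type) [Fintype ι]
    (θ : ι → Cap d), ENNReal.ofReal (c * N ^ (d + 1) * (Fintype.card ι : ℝ) ^ p) ≤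
      ∫⁻ x, ENNReal.ofReal (mult N θ (fun _ => 0) x ^ p) := by
  set v : ENNReal := volume (Metric.ball (0 : Sp d) 1) with hv
  have hv0 : 0 < v := Metric.measure_ball_pos volume 0 one_pos
  have hvt : v ≠ ⊤ := measure_ball_lt_top.ne
  have hfr : Module.finrank ℝ (Sp d) = d + 1 := by
    simp [Sp]
  refine ⟨(1 / 2) ^ (d + 1) * v.toReal, mul_pos (by positivity) (ENNReal.toReal_pos hv0.ne' hvt), ?_⟩
  intro N p hN hp ι _ θ
  have hN0 : 0 < N := by linarith
  have hvol : volume (Metric.ball (0 : Sp d) (N / 2)) = ENNReal.ofReal ((N / 2) ^ (d + 1)) * v := by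
    rw [Measure.addHaar_ball _ _ (by linarith : (0 : ℝ) ≤ N / 2), hfr]
  calc ENNReal.ofReal ((1 / 2) ^ (d + 1) * v.toReal * N ^ (d + 1) * (Fintype.card ι : ℝ) ^ p)
      = ENNReal.ofReal ((Fintype.card ι : ℝ) ^ p) * volume (Metric.ball (0 : Sp d) (N / 2)) := by
        rw [hvol, ← ENNReal.ofReal_toReal hvt, ← ENNReal.ofReal_mul (by positivity),
          ← ENNReal.ofReal_mul (by positivity), ENNReal.toReal_ofReal ENNReal.toReal_nonneg]
        congr 1
        rw [div_pow, div_pow, one_pow]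
        ring
    _ = ∫⁻ x in Metric.ball (0 : Sp d) (N / 2), ENNReal.ofReal ((Fintype.card ι : ℝ) ^ p) := by
        rw [setLIntegral_const]
    _ = ∫⁻ x in Metric.ball (0 : Sp d) (N / 2), ENNReal.ofReal (mult N θ (fun _ => 0) x ^ p) := by
        refine setLIntegral_congr_fun Metric.isOpen_ball.measurableSet ?_
        intro x hx
        have hx' : ‖x‖ < N / 2 := by simpa using hx
        simp only [lpL_ball hN θ x hx']
    _ ≤ _ := setLIntegral_le_lintegral _ _

end Pool.Agent.MPac5134.KX
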