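import Pool.Agent.Lib.MP_ac5134_an.KX.LvX

/-!
# KX-LpU: upper bound for the integral

PROOF.  As in `lp` in `KH/Lp.lean` (copy `lp_ge_one`, `lp_card`, `lp_pt`, `lp_upper`, they are private), with `levelX` (for `ε / 2`)
instead of `level`: `∫ f ^ P ≤ 2 ^ P (log₂ n + 1) C N ^ (ε / 2 + (2 d + 1 + α))`, `n = |ι| ≤ K (4 N) ^ d`,
`log₂ n + 1 ≤ C' N ^ (ε / 2)`.
-/

open MeasureTheory
open scoped ENNReal

namespace Pool.Agent.MPac5134.KX

open Pool.Agent.MPac5134.KH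

private theorem LpU_ge_one {d : ℕ} {ι : Type} [Fintype ι] {N : ℝ} {θ : ι → Cap d} {c : ι → Sp d}
    {x : Sp d} (h : 0 < mult N θ c x) : 1 ≤ mult N θ c x := by
  classical
  have h1 : mult N θ c x = ((Finset.univ.filter fun i => x ∈ tube N (θ i) (c i)).card : ℝ) := by
    unfold mult
    rw [Finset.card_filter]
    push_cast
    apply Finset.sum_congr rfl
    intro i _
    rw [Set.indicator_apply]
  rw [h1] at h ⊢
  have h2 : 0 < (Finset.univ.filter fun i => x ∈ tube N (θ i) (c i)).card := by exact_mod_cast h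
  exact_mod_cast h2

/-- the number of tubes -/
private theorem LpU_card {d : ℕ} {N : ℝ} (hN : 1 ≤ N) (K : ℕ) {ι : Type} [Fintype ι]
    (θ : ι → Cap d)
    (hK : ∀ z : Fin d → ℤ, ∀ s : Finset ι, (∀ i ∈ s, cell N (θ i) = z) → s.card ≤ K) :
    (Fintype.card ι : ℝ) ≤ K * (4 * N) ^ d := by
  classical
  have hN0 : 0 < N := by linarith
  have h1 : (Finset.univ : Finset ι).card ≤
      K * ((Finset.univ : Finset ι).image fun i => cell N (θ i)).card := by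
    apply Finset.card_le_mul_card_image
    intro a _
    exact hK a _ fun i hi => (Finset.mem_filter.1 hi).2
  have h2 : ((Finset.univ : Finset ι).image fun i => cell N (θ i)) ⊆
      Fintype.piFinset fun _ : Fin d => Finset.Icc ⌊-N⌋ ⌊N⌋ := by
    intro z hz
    rw [Finset.mem_image] at hz
    obtain ⟨i, -, rfl⟩ := hz
    rw [Fintype.mem_piFinset]
    intro k
    have h3 : |(θ i).foot k| ≤ 1 := by
      have h4 := (θ i).foot_mem
      have h5 : (θ i).foot k ^ 2 ≤ ∑ j, (θ i).foot j ^ 2 :=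
        Finset.single_le_sum (f := fun j => (θ i).foot j ^ 2) (fun j _ => sq_nonneg _)
          (Finset.mem_univ k)
      rw [← sq_le_one_iff_abs_le_one]
      linarith
    rw [abs_le] at h3
    rw [Finset.mem_Icc]
    constructor
    · apply Int.floor_le_floor
      nlinarith [h3.1]
    · apply Int.floor_le_floor
      nlinarith [h3.2]
  have h3 := Finset.card_le_card h2
  rw [Fintype.card_piFinset_const, Int.card_Icc] at h3
  have h4 : (((⌊N⌋ + 1 - ⌊-N⌋).toNat : ℕ) : ℝ) ≤ 4 * N := by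
    have h5 : (0 : ℤ) ≤ ⌊N⌋ + 1 - ⌊-N⌋ := by
      have : ⌊-N⌋ ≤ ⌊N⌋ := Int.floor_le_floor (by linarith)
      omega
    have h6 : (((⌊N⌋ + 1 - ⌊-N⌋).toNat : ℕ) : ℝ) = ((⌊N⌋ + 1 - ⌊-N⌋ : ℤ) : ℝ) := by
      have : (((⌊N⌋ + 1 - ⌊-N⌋).toNat : ℕ) : ℤ) = ⌊N⌋ + 1 - ⌊-N⌋ := Int.toNat_of_nonneg h5
      exact_mod_cast this
    rw [h6]
    push_cast
    have h7 := Int.floor_le N
    have h8 := Int.lt_floor_add_one (-N)
    linarith
  have h5 : (((Finset.univ : Finset ι).image fun i => cell N (θ i)).card : ℝ) ≤ (4 * N) ^ d := by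
    calc (((Finset.univ : Finset ι).image fun i => cell N (θ i)).card : ℝ)
        ≤ (((⌊N⌋ + 1 - ⌊-N⌋).toNat ^ d : ℕ) : ℝ) := by exact_mod_cast h3
      _ ≤ _ := by
          push_cast
          gcongr
  rw [Finset.card_univ] at h1
  calc (Fintype.card ι : ℝ)
      ≤ ((K * ((Finset.univ : Finset ι).image fun i => cell N (θ i)).card : ℕ) : ℝ) := by
        exact_mod_cast h1
    _ ≤ _ := by
        push_cast
        gcongr

/-- dyadic decomposition of the values -/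
private theorem LpU_pt {n : ℕ} {f p : ℝ} (hf1 : 1 ≤ f) (hfn : f ≤ n) (hp : 0 ≤ p) :
    ∃ k ∈ Finset.range (Nat.log 2 n + 1), (2:ℝ) ^ k ≤ f ∧
      f ^ p ≤ (2:ℝ) ^ p * ((2:ℝ) ^ k) ^ p := by
  have h0 : ⌊f⌋₊ ≠ 0 := by
    have : 1 ≤ ⌊f⌋₊ := Nat.le_floor (by simpa using hf1)
    omega
  refine ⟨Nat.log 2 ⌊f⌋₊, ?_, ?_, ?_⟩
  · rw [Finset.mem_range]
    have h1 : ⌊f⌋₊ ≤ n := Nat.floor_le_of_le hfn
    have := Nat.log_mono_right (b := 2) h1
    omega
  · have h1 : 2 ^ Nat.log 2 ⌊f⌋₊ ≤ ⌊f⌋₊ := Nat.pow_log_le_self 2 h0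
    have h2 : (2:ℝ) ^ Nat.log 2 ⌊f⌋₊ ≤ (⌊f⌋₊ : ℝ) := by exact_mod_cast h1
    exact h2.trans (Nat.floor_le (by linarith))
  · have h1 : ⌊f⌋₊ < 2 ^ (Nat.log 2 ⌊f⌋₊).succ := Nat.lt_pow_succ_log_self (by norm_num) _
    have h2 : (⌊f⌋₊ : ℝ) + 1 ≤ 2 ^ (Nat.log 2 ⌊f⌋₊ + 1) := by exact_mod_cast h1
    have h3 := Nat.lt_floor_add_one f
    rw [← Real.mul_rpow (by norm_num) (by positivity)]
    apply Real.rpow_le_rpow (by linarith) _ hp
    rw [pow_succ] at h2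
    linarith

/-- the upper bound for the integral -/
private theorem LpU_upper {d : ℕ} {ι : Type} [Fintype ι] {N p X : ℝ} (θ : ι → Cap d)
    (c : ι → Sp d) (hp : 1 ≤ p)
    (h : ∀ k : ℕ, ENNReal.ofReal (((2:ℝ) ^ k) ^ p) * volume {x | (2:ℝ) ^ k ≤ mult N θ c x} ≤
      ENNReal.ofReal X) :
    ∫⁻ x, ENNReal.ofReal (mult N θ c x ^ p) ≤
      ENNReal.ofReal ((2:ℝ) ^ p * (((Nat.log 2 (Fintype.card ι) + 1 : ℕ) : ℝ) * X)) := by
  classical
  have hm : ∀ k : ℕ, MeasurableSet {x | (2:ℝ) ^ k ≤ mult N θ c x} := fun k =>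
    measurableSet_le measurable_const (measurable_mult N θ c)
  have hpt : ∀ x, ENNReal.ofReal (mult N θ c x ^ p) ≤
      ∑ k ∈ Finset.range (Nat.log 2 (Fintype.card ι) + 1),
        ({x | (2:ℝ) ^ k ≤ mult N θ c x}.indicator
          (fun _ => ENNReal.ofReal ((2:ℝ) ^ p * ((2:ℝ) ^ k) ^ p)) x) := by
    intro x
    rcases (mult_nonneg N θ c x).eq_or_lt with h0 | h0
    · rw [← h0, Real.zero_rpow (by linarith), ENNReal.ofReal_zero]
      exact bot_le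
    · obtain ⟨k, hk, h1, h2⟩ := LpU_pt (p := p) (LpU_ge_one h0) (mult_le_card N θ c x) (by linarith)
      have h3 : ({x | (2:ℝ) ^ k ≤ mult N θ c x}.indicator
          (fun _ => ENNReal.ofReal ((2:ℝ) ^ p * ((2:ℝ) ^ k) ^ p)) x) ≤
          ∑ k ∈ Finset.range (Nat.log 2 (Fintype.card ι) + 1),
            ({x | (2:ℝ) ^ k ≤ mult N θ c x}.indicator
              (fun _ => ENNReal.ofReal ((2:ℝ) ^ p * ((2:ℝ) ^ k) ^ p)) x) :=
        Finset.single_le_sum (f := fun k => ({x | (2:ℝ) ^ k ≤ mult N θ c x}.indicator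
          (fun _ => ENNReal.ofReal ((2:ℝ) ^ p * ((2:ℝ) ^ k) ^ p)) x)) (fun _ _ => bot_le) hk
      refine le_trans ?_ h3
      rw [Set.indicator_of_mem (show x ∈ {x | (2:ℝ) ^ k ≤ mult N θ c x} from h1)]
      exact ENNReal.ofReal_le_ofReal h2
  refine (lintegral_mono hpt).trans ?_
  rw [lintegral_finsetSum _ fun k _ => measurable_const.indicator (hm k)]
  simp_rw [lintegral_indicator_const (hm _)]
  calc ∑ k ∈ Finset.range (Nat.log 2 (Fintype.card ι) + 1),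
        ENNReal.ofReal ((2:ℝ) ^ p * ((2:ℝ) ^ k) ^ p) * volume {x | (2:ℝ) ^ k ≤ mult N θ c x}
      ≤ ∑ _k ∈ Finset.range (Nat.log 2 (Fintype.card ι) + 1),
        ENNReal.ofReal ((2:ℝ) ^ p) * ENNReal.ofReal X := by
        apply Finset.sum_le_sum
        intro k _
        rw [ENNReal.ofReal_mul (by positivity), mul_assoc]
        gcongr
        exact h k
    _ = _ := by
        rw [Finset.sum_const, Finset.card_range, nsmul_eq_mul,
          ENNReal.ofReal_mul (by positivity), ENNReal.ofReal_mul (by positivity),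
          ENNReal.ofReal_natCast]
        ring

/-- the number of dyadic levels -/
private theorem LpU_log {N ε : ℝ} {n K d : ℕ} (hN : 1 ≤ N) (hε : 0 < ε) (hd : 1 ≤ d)
    (hc : (n:ℝ) ≤ K * (4 * N) ^ d) :
    ((Nat.log 2 n + 1 : ℕ) : ℝ) ≤ 2 * (1 + K + 2 * d + 2 * d / ε) * N ^ (ε / 2) := by
  have hN0 : 0 < N := by linarith
  have hK0 : (0:ℝ) ≤ K := Nat.cast_nonneg K
  have hd0 : (0:ℝ) ≤ d := Nat.cast_nonneg d
  have hlN : 0 ≤ Real.log N := Real.log_nonneg hN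
  have hy0 : (0:ℝ) < (K + 1) * 4 ^ d * N ^ d := by positivity
  have hy : ((2 ^ Nat.log 2 n : ℕ) : ℝ) ≤ (K + 1) * 4 ^ d * N ^ d := by
    rcases Nat.eq_zero_or_pos n with h0 | h0
    · subst h0
      have h1 : (1:ℝ) ≤ 4 ^ d := one_le_pow₀ (by norm_num)
      have h2 : (1:ℝ) ≤ N ^ d := one_le_pow₀ hN
      have h3 : (1:ℝ) ≤ (K + 1) * 4 ^ d := by nlinarith
      simp only [Nat.log_zero_right, pow_zero, Nat.cast_one]
      nlinarith
    · have h1 : 2 ^ Nat.log 2 n ≤ n := Nat.pow_log_le_self 2 (by omega)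
      have h2 : ((2 ^ Nat.log 2 n : ℕ) : ℝ) ≤ (n:ℝ) := by exact_mod_cast h1
      refine h2.trans (hc.trans ?_)
      rw [mul_pow, ← mul_assoc]
      gcongr
      linarith
  have hl := Real.log_le_log (by positivity) hy
  rw [Nat.cast_pow, Real.log_pow, Real.log_mul (by positivity) (by positivity),
    Real.log_mul (by positivity) (by positivity), Real.log_pow, Real.log_pow] at hl
  have h2 : Real.log ((K:ℝ) + 1) ≤ K := by
    have := Real.log_le_sub_one_of_pos (show (0:ℝ) < (K:ℝ) + 1 by positivity)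
    linarith
  have h3 : Real.log 4 ≤ 2 := by
    have h4 : (4:ℝ) = 2 ^ 2 := by norm_num
    rw [h4, Real.log_pow]
    have := Real.log_two_lt_d9
    push_cast
    linarith
  have h4 : (0.5:ℝ) ≤ Real.log 2 := by
    have := Real.log_two_gt_d9
    linarith
  have h5 : (Nat.log 2 n : ℝ) * 0.5 ≤ Nat.log 2 n * Real.log 2 := by gcongr
  have h6 : (d:ℝ) * Real.log 4 ≤ d * 2 := by gcongr
  have h7 : Real.log N ≤ N ^ (ε / 2) / (ε / 2) := Real.log_le_rpow_div hN0.le (half_pos hε)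
  have h8 : (d:ℝ) * Real.log N ≤ 2 * d / ε * N ^ (ε / 2) := by
    calc (d:ℝ) * Real.log N ≤ d * (N ^ (ε / 2) / (ε / 2)) := by gcongr
      _ = 2 * d / ε * N ^ (ε / 2) := by field_simp
  have h9 : 1 ≤ N ^ (ε / 2) := Real.one_le_rpow hN (by linarith)
  have h10 : (1 + K + 2 * d : ℝ) ≤ (1 + K + 2 * d) * N ^ (ε / 2) := by
    have : (0:ℝ) ≤ 1 + K + 2 * d := by positivity
    nlinarith
  push_cast at hl ⊢
  linarith

theorem lpU {d : ℕ} {α : ℝ} (hα : 1 ≤ α) (hα2 : α ≤ 2) (hd : 1 ≤ d) (h : Shp d d α) (K : ℕ)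
    {ε : ℝ} (hε : 0 < ε) : ∃ C : ℝ, 1 ≤ C ∧ ∀ (N : ℝ), 1 ≤ N → ∀ (ι : Type) [Fintype ι]
      (θ : ι → Cap d) (c : ι → Sp d),
      (∀ z : Fin d → ℤ, ∀ s : Finset ι, (∀ i ∈ s, cell N (θ i) = z) → s.card ≤ K) →
      ∫⁻ x, ENNReal.ofReal (mult N θ c x ^ (1 + α / d)) ≤
        ENNReal.ofReal (C * N ^ (ε + (2 * d + 1 + α))) := by
  classical
  obtain ⟨C₁, hC₁, hlev⟩ := levelX hα hα2 hd h K (half_pos hε)
  have hd1 : (1:ℝ) ≤ d := by exact_mod_cast hd
  have hd0 : (0:ℝ) < d := by linarith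
  have hK0 : (0:ℝ) ≤ K := Nat.cast_nonneg K
  have hP1 : 1 ≤ 1 + α / d := by
    have : 0 ≤ α / d := by positivity
    linarith
  have hP3 : 1 + α / d ≤ 3 := by
    have : α / d ≤ 2 := by
      rw [div_le_iff₀ hd0]
      nlinarith
    linarith
  have hM0 : 0 ≤ 1 + K + 2 * d + 2 * d / ε := by positivity
  have hM1 : 1 ≤ 2 * (1 + K + 2 * d + 2 * d / ε) := by
    have : 0 ≤ 2 * d / ε := by positivity
    linarith
  refine ⟨8 * (2 * (1 + K + 2 * d + 2 * d / ε)) * C₁, by nlinarith, ?_⟩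
  intro N hN ι _ θ c hK
  have hN0 : 0 < N := by linarith
  have hup := LpU_upper (N := N) (p := 1 + α / d) (X := C₁ * N ^ (ε / 2 + (2 * d + 1 + α))) θ c hP1 (by
      intro k
      exact hlev N hN ι θ c hK _ _ (measurableSet_le measurable_const (measurable_mult N θ c))
        (one_le_pow₀ (by norm_num)) (fun x hx => hx))
  refine hup.trans (ENNReal.ofReal_le_ofReal ?_)
  have hcard := LpU_card hN K θ hK
  have e5 : (2:ℝ) ^ (1 + α / d) ≤ 8 := by
    calc (2:ℝ) ^ (1 + α / d) ≤ (2:ℝ) ^ (3:ℝ) := Real.rpow_le_rpow_of_exponent_le (by norm_num) hP3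
      _ = 8 := by
        rw [show (2:ℝ) ^ (3:ℝ) = (2:ℝ) ^ ((3:ℕ):ℝ) by norm_num, Real.rpow_natCast]
        norm_num
  have e6 := LpU_log (K := K) hN hε hd hcard
  have hX0 : 0 ≤ C₁ * N ^ (ε / 2 + (2 * d + 1 + α)) := by positivity
  have e7 : N ^ (ε / 2) * N ^ (ε / 2 + (2 * d + 1 + α)) = N ^ (ε + (2 * d + 1 + α)) := by
    rw [← Real.rpow_add hN0]
    congr 1
    ring
  calc (2:ℝ) ^ (1 + α / d) * (((Nat.log 2 (Fintype.card ι) + 1 : ℕ) : ℝ) *
        (C₁ * N ^ (ε / 2 + (2 * d + 1 + α))))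
      ≤ 8 * (2 * (1 + K + 2 * d + 2 * d / ε) * N ^ (ε / 2) *
        (C₁ * N ^ (ε / 2 + (2 * d + 1 + α)))) := by gcongr
    _ = 8 * (2 * (1 + K + 2 * d + 2 * d / ε)) * C₁ *
        (N ^ (ε / 2) * N ^ (ε / 2 + (2 * d + 1 + α))) := by ring
    _ = _ := by rw [e7]

end Pool.Agent.MPac5134.KX
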