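import Pool.Agent.Lib.MP_ac5134_an.KX.LpV
import Pool.Agent.Lib.MP_ac5134_an.KX.LpL

/-!
# KX-LpW: the inequality for the norms, `p ≥ 1 + α / e`, full families

PROOF.  `P = 1 + α / e`.  `p = ∞`: `eLpNorm_top_le`, `eLpNorm_top_ge`.  `p < ∞`, `r = p.toReal ≥ P`:
`f ≤ n = |ι|`, so `f ^ r ≤ n ^ (r - P) f ^ P`, `∫ f ^ r ≤ n ^ (r - P) C N ^ ε n ^ (1 + (α - 1) / e) N ^ (d + 2)` (`lpV`);
`∫ f₀ ^ r ≥ c N ^ (d + 1) n ^ r` (`lpL`) and `n ^ (1 / e) ≥ min(κ, 1) N ^ (d / e)`.  So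
`∫ f ^ r ≤ (C / (c min(κ, 1))) N ^ (ε + (1 - d / e)) ∫ f₀ ^ r`, and `norm_of_ratio`.
-/

open MeasureTheory

namespace Pool.Agent.MPac5134.KX

open Pool.Agent.MPac5134.KH

theorem lpW {d e : ℕ} {α : ℝ} (hα : 1 ≤ α) (hα2 : α ≤ 2) (he : 1 ≤ e) (hde : d ≤ e)
    (h : Shp d e α) (K : ℕ) {κ ε : ℝ} (hκ : 0 < κ) (hε : 0 < ε) : ∃ C : ℝ, 1 ≤ C ∧
      ∀ (N : ℝ), 1 ≤ N → ∀ (ι : Type) [Fintype ι] (θ : ι → Cap d) (c : ι → Sp d),
      (∀ z : Fin d → ℤ, ∀ s : Finset ι, (∀ i ∈ s, cell N (θ i) = z) → s.card ≤ K) →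
      κ * N ^ d ≤ Fintype.card ι → ∀ p : ENNReal, ENNReal.ofReal (1 + α / e) ≤ p →
      eLpNorm (mult N θ c) p volume ≤
        ENNReal.ofReal (C * N ^ (ε + (1 - d / e) / p.toReal)) *
          eLpNorm (mult N θ (fun _ => 0)) p volume := by
  obtain ⟨C₁, hC₁, hU⟩ := lpV hα hα2 he h K hε
  obtain ⟨c₁, hc₁, hL⟩ := lpL d
  have he1 : (1:ℝ) ≤ e := by exact_mod_cast he
  have he0 : (0:ℝ) < e := by linarith
  have hde' : (d:ℝ) ≤ e := by exact_mod_cast hde
  have hP1 : 1 ≤ 1 + α / e := by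
    have : 0 ≤ α / e := by positivity
    linarith
  have hq0 : 0 ≤ 1 - (d:ℝ) / e := by
    have : (d:ℝ) / e ≤ 1 := (div_le_one he0).2 hde'
    linarith
  set P : ℝ := 1 + α / e with hPdef
  set κ₁ : ℝ := min κ 1 with hκ₁
  have hκ10 : 0 < κ₁ := lt_min hκ one_pos
  have hκ11 : κ₁ ≤ 1 := min_le_right _ _
  have hκ1κ : κ₁ ≤ κ := min_le_left _ _
  set C' : ℝ := C₁ / (c₁ * κ₁) + 1 with hC'
  have hC'1 : 1 ≤ C' := by
    have : 0 ≤ C₁ / (c₁ * κ₁) := by positivity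
    linarith
  refine ⟨C', hC'1, ?_⟩
  intro N hN ι _ θ c hK hmany p hp
  have hN0 : 0 < N := by linarith
  have hNε : 1 ≤ N ^ ε := Real.one_le_rpow hN hε.le
  rcases eq_or_ne p ⊤ with rfl | hpt
  · have hCN : 1 ≤ C' * N ^ (ε + (1 - (d:ℝ) / e) / (⊤ : ENNReal).toReal) := by
      rw [ENNReal.toReal_top, div_zero, add_zero]
      nlinarith
    calc eLpNorm (mult N θ c) ⊤ volume ≤ ENNReal.ofReal (Fintype.card ι) := eLpNorm_top_le N θ c
      _ ≤ eLpNorm (mult N θ (fun _ => 0)) ⊤ volume := eLpNorm_top_ge hN θ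
      _ = 1 * eLpNorm (mult N θ (fun _ => 0)) ⊤ volume := (one_mul _).symm
      _ ≤ _ := by
          gcongr
          rw [← ENNReal.ofReal_one]
          exact ENNReal.ofReal_le_ofReal hCN
  · set r : ℝ := p.toReal with hr
    have hPr : P ≤ r := by
      have h1 := ENNReal.toReal_mono hpt hp
      rwa [ENNReal.toReal_ofReal (by linarith)] at h1
    have hr1 : 1 ≤ r := hP1.trans hPr
    have hp1 : 1 ≤ p := by
      refine le_trans ?_ hp
      rw [← ENNReal.ofReal_one]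
      exact ENNReal.ofReal_le_ofReal hP1
    have hκN : 0 < κ * N ^ d := by positivity
    set n : ℝ := (Fintype.card ι : ℝ) with hn
    have hn0 : 0 < n := lt_of_lt_of_le hκN hmany
    have hpow : ∀ x, mult N θ c x ^ r ≤ n ^ (r - P) * mult N θ c x ^ P := by
      intro x
      have h0 := mult_nonneg N θ c x
      have h1 : mult N θ c x ≤ n := mult_le_card N θ c x
      rcases h0.eq_or_lt with h2 | h2
      · rw [← h2, Real.zero_rpow (by linarith)]
        positivity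
      · have h3 : mult N θ c x ^ r = mult N θ c x ^ (r - P) * mult N θ c x ^ P := by
          rw [← Real.rpow_add h2]
          ring_nf
        rw [h3]
        apply mul_le_mul_of_nonneg_right _ (by positivity)
        exact Real.rpow_le_rpow h0 h1 (by linarith)
    have hup : ∫⁻ x, ENNReal.ofReal (mult N θ c x ^ r) ≤
        ENNReal.ofReal (n ^ (r - P) * (C₁ * N ^ ε * n ^ (1 + (α - 1) / e) * N ^ (d + 2))) := by
      calc ∫⁻ x, ENNReal.ofReal (mult N θ c x ^ r)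
          ≤ ∫⁻ x, ENNReal.ofReal (n ^ (r - P)) * ENNReal.ofReal (mult N θ c x ^ P) := by
            apply lintegral_mono
            intro x
            change ENNReal.ofReal (mult N θ c x ^ r) ≤
              ENNReal.ofReal (n ^ (r - P)) * ENNReal.ofReal (mult N θ c x ^ P)
            rw [← ENNReal.ofReal_mul (by positivity)]
            exact ENNReal.ofReal_le_ofReal (hpow x)
        _ = ENNReal.ofReal (n ^ (r - P)) * ∫⁻ x, ENNReal.ofReal (mult N θ c x ^ P) :=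
            lintegral_const_mul' _ _ ENNReal.ofReal_ne_top
        _ ≤ ENNReal.ofReal (n ^ (r - P)) *
            ENNReal.ofReal (C₁ * N ^ ε * n ^ (1 + (α - 1) / e) * N ^ (d + 2)) := by
            gcongr
            exact hU N hN ι θ c hK
        _ = _ := (ENNReal.ofReal_mul (by positivity)).symm
    have hlow := hL N r hN (by linarith) ι θ
    -- the power of `n`
    have hn1 : κ₁ * N ^ ((d:ℝ) / e) ≤ n ^ (1 / (e:ℝ)) := by
      have h1 : (κ * N ^ d) ^ (1 / (e:ℝ)) ≤ n ^ (1 / (e:ℝ)) :=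
        Real.rpow_le_rpow hκN.le hmany (by positivity)
      have h2 : (κ * N ^ d) ^ (1 / (e:ℝ)) = κ ^ (1 / (e:ℝ)) * N ^ ((d:ℝ) / e) := by
        rw [Real.mul_rpow hκ.le (by positivity), ← Real.rpow_natCast N d, ← Real.rpow_mul hN0.le]
        congr 2
        ring
      have h3 : κ₁ ≤ κ ^ (1 / (e:ℝ)) := by
        calc κ₁ = κ₁ ^ (1:ℝ) := (Real.rpow_one _).symm
          _ ≤ κ₁ ^ (1 / (e:ℝ)) := by
              refine Real.rpow_le_rpow_of_exponent_ge hκ10 hκ11 ?_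
              rw [div_le_one he0]
              exact he1
          _ ≤ κ ^ (1 / (e:ℝ)) := Real.rpow_le_rpow hκ10.le hκ1κ (by positivity)
      calc κ₁ * N ^ ((d:ℝ) / e) ≤ κ ^ (1 / (e:ℝ)) * N ^ ((d:ℝ) / e) := by gcongr
        _ = (κ * N ^ d) ^ (1 / (e:ℝ)) := h2.symm
        _ ≤ _ := h1
    have hnr : n ^ r = n ^ (r - P) * n ^ (1 + (α - 1) / e) * n ^ (1 / (e:ℝ)) := by
      rw [← Real.rpow_add hn0, ← Real.rpow_add hn0]
      congr 1
      rw [hPdef]
      field_simp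
      ring
    have hNs : N ^ (ε + (1 - (d:ℝ) / e)) * N ^ ((d:ℝ) / e) = N ^ ε * N := by
      rw [← Real.rpow_add hN0]
      nth_rewrite 3 [← Real.rpow_one N]
      rw [← Real.rpow_add hN0]
      congr 1
      ring
    have hkey : n ^ (r - P) * (C₁ * N ^ ε * n ^ (1 + (α - 1) / e) * N ^ (d + 2)) ≤
        (C' * N ^ (ε + (1 - (d:ℝ) / e))) * (c₁ * N ^ (d + 1) * n ^ r) := by
      have h1 : C₁ ≤ C' * (c₁ * κ₁) := by
        have h2 : C₁ / (c₁ * κ₁) * (c₁ * κ₁) = C₁ := by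
          field_simp
        have h3 : 0 ≤ c₁ * κ₁ := by positivity
        rw [hC']
        nlinarith
      have hY : 0 ≤ n ^ (r - P) * n ^ (1 + (α - 1) / e) * N ^ (d + 1) := by positivity
      calc n ^ (r - P) * (C₁ * N ^ ε * n ^ (1 + (α - 1) / e) * N ^ (d + 2))
          = C₁ * ((N ^ ε * N) * (n ^ (r - P) * n ^ (1 + (α - 1) / e) * N ^ (d + 1))) := by
            rw [pow_succ N (d + 1)]
            ring
        _ ≤ (C' * (c₁ * κ₁)) * ((N ^ ε * N) *
            (n ^ (r - P) * n ^ (1 + (α - 1) / e) * N ^ (d + 1))) := by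
            apply mul_le_mul_of_nonneg_right h1 (by positivity)
        _ = (C' * c₁ * N ^ (ε + (1 - (d:ℝ) / e)) *
            (n ^ (r - P) * n ^ (1 + (α - 1) / e) * N ^ (d + 1))) * (κ₁ * N ^ ((d:ℝ) / e)) := by
            rw [← hNs]
            ring
        _ ≤ (C' * c₁ * N ^ (ε + (1 - (d:ℝ) / e)) *
            (n ^ (r - P) * n ^ (1 + (α - 1) / e) * N ^ (d + 1))) * n ^ (1 / (e:ℝ)) := by
            apply mul_le_mul_of_nonneg_left hn1 (by positivity)
        _ = (C' * N ^ (ε + (1 - (d:ℝ) / e))) * (c₁ * N ^ (d + 1) * n ^ r) := by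
            rw [hnr]
            ring
    have hratio : ∫⁻ x, ENNReal.ofReal ((mult N θ c x) ^ p.toReal) ≤
        ENNReal.ofReal (C' * N ^ (ε + (1 - (d:ℝ) / e))) *
          ∫⁻ x, ENNReal.ofReal ((mult N θ (fun _ => 0) x) ^ p.toReal) := by
      calc ∫⁻ x, ENNReal.ofReal (mult N θ c x ^ p.toReal)
          ≤ ENNReal.ofReal (n ^ (r - P) * (C₁ * N ^ ε * n ^ (1 + (α - 1) / e) * N ^ (d + 2))) :=
            hup
        _ ≤ ENNReal.ofReal ((C' * N ^ (ε + (1 - (d:ℝ) / e))) * (c₁ * N ^ (d + 1) * n ^ r)) :=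
            ENNReal.ofReal_le_ofReal hkey
        _ = ENNReal.ofReal (C' * N ^ (ε + (1 - (d:ℝ) / e))) *
            ENNReal.ofReal (c₁ * N ^ (d + 1) * n ^ r) :=
            ENNReal.ofReal_mul (by positivity)
        _ ≤ _ := by
            gcongr
    have hfin := norm_of_ratio hC'1 (add_nonneg hε.le hq0) θ c hN hp1 hpt hratio
    refine hfin.trans ?_
    gcongr ENNReal.ofReal (C' * ?_) * _
    apply Real.rpow_le_rpow_of_exponent_le hN
    rw [add_div]
    have e3 : ε / r ≤ ε := div_le_self hε.le hr1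
    linarith

end Pool.Agent.MPac5134.KX
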