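import Pool.Agent.Lib.MP_ac5134_an.KX.LpU
import Pool.Agent.Lib.MP_ac5134_an.KX.LpL

/-!
# KX-LpX: the inequality for the norms, `p ≥ 1 + α / d`

PROOF.  `P = 1 + α / d`.  `p = ∞`: `eLpNorm_top_le`, `eLpNorm_top_ge`.  `p < ∞`, `r = p.toReal ≥ P`: `f ≤ n = |ι|`
(`mult_le_card`), so `f ^ r ≤ n ^ (r - P) f ^ P` (if `f x = 0` both sides are `0`), `∫ f ^ r ≤ n ^ (r - P) C N ^ (ε + 2 d + 1 + α)`
(`lpU`); `∫ f₀ ^ r ≥ c N ^ (d + 1) n ^ r` (`lpL`) and `n ^ P ≥ (κ N ^ d) ^ P ≥ min(κ, 1) ^ 3 N ^ (d + α)` (`many`).  So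
`∫ f ^ r ≤ (C / (c min(κ, 1) ^ 3)) N ^ ε ∫ f₀ ^ r`, and `norm_of_ratio` (with `a = ε`, and `N ^ (ε / r) ≤ N ^ ε`).
-/

open MeasureTheory

namespace Pool.Agent.MPac5134.KX

open Pool.Agent.MPac5134.KH

theorem lpX {d : ℕ} {α : ℝ} (hα : 1 ≤ α) (hα2 : α ≤ 2) (hd : 1 ≤ d) (h : Shp d d α) (K : ℕ)
    {κ ε : ℝ} (hκ : 0 < κ) (hε : 0 < ε) : ∃ C : ℝ, 1 ≤ C ∧ ∀ (N : ℝ), 1 ≤ N →
      ∀ (ι : Type) [Fintype ι] (θ : ι → Cap d) (c : ι → Sp d), IsCapFamily K κ N θ →
      ∀ p : ENNReal, ENNReal.ofReal (1 + α / d) ≤ p →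
      eLpNorm (mult N θ c) p volume ≤
        ENNReal.ofReal (C * N ^ ε) * eLpNorm (mult N θ (fun _ => 0)) p volume := by
  obtain ⟨C₁, hC₁, hU⟩ := lpU hα hα2 hd h K hε
  obtain ⟨c₁, hc₁, hL⟩ := lpL d
  have hd1 : (1:ℝ) ≤ d := by exact_mod_cast hd
  have hd0 : (0:ℝ) < d := by linarith
  have hP1 : 1 ≤ 1 + α / d := by
    have : 0 ≤ α / d := by positivity
    linarith
  have hP3 : 1 + α / d ≤ 3 := by
    have : α / d ≤ 2 := by
      rw [div_le_iff₀ hd0]
      nlinarith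
    linarith
  set P : ℝ := 1 + α / d with hPdef
  set κ₁ : ℝ := min κ 1 with hκ₁
  have hκ10 : 0 < κ₁ := lt_min hκ one_pos
  have hκ11 : κ₁ ≤ 1 := min_le_right _ _
  have hκ1κ : κ₁ ≤ κ := min_le_left _ _
  set C' : ℝ := C₁ / (c₁ * κ₁ ^ 3) + 1 with hC'
  have hC'1 : 1 ≤ C' := by
    have : 0 ≤ C₁ / (c₁ * κ₁ ^ 3) := by positivity
    linarith
  refine ⟨C', hC'1, ?_⟩
  intro N hN ι _ θ c hF p hp
  have hN0 : 0 < N := by linarith
  have hNε : 1 ≤ N ^ ε := Real.one_le_rpow hN hε.le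
  have hCN : 1 ≤ C' * N ^ ε := by nlinarith
  rcases eq_or_ne p ⊤ with rfl | hpt
  · calc eLpNorm (mult N θ c) ⊤ volume ≤ ENNReal.ofReal (Fintype.card ι) := eLpNorm_top_le N θ c
      _ ≤ eLpNorm (mult N θ (fun _ => 0)) ⊤ volume := eLpNorm_top_ge hN θ
      _ = 1 * eLpNorm (mult N θ (fun _ => 0)) ⊤ volume := (one_mul _).symm
      _ ≤ _ := by
          gcongr
          rw [← ENNReal.ofReal_one]
          exact ENNReal.ofReal_le_ofReal hCN
  · set r : ℝ := p.toReal with hr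
    have hPr : P ≤ r := by
      have h1 := ENNReal.toReal_mono hpt hp
      rwa [ENNReal.toReal_ofReal (by linarith)] at h1
    have hr1 : 1 ≤ r := hP1.trans hPr
    have hp1 : 1 ≤ p := by
      refine le_trans ?_ hp
      rw [← ENNReal.ofReal_one]
      exact ENNReal.ofReal_le_ofReal hP1
    set n : ℝ := (Fintype.card ι : ℝ) with hn
    have hκN : 0 < κ * N ^ d := by positivity
    have hn0 : 0 < n := lt_of_lt_of_le hκN hF.many
    have hpow : ∀ x, mult N θ c x ^ r ≤ n ^ (r - P) * mult N θ c x ^ P := by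
      intro x
      have h0 := mult_nonneg N θ c x
      have h1 : mult N θ c x ≤ n := mult_le_card N θ c x
      rcases h0.eq_or_lt with h2 | h2
      · rw [← h2, Real.zero_rpow (by linarith)]
        positivity
      · have h3 : mult N θ c x ^ r = mult N θ c x ^ (r - P) * mult N θ c x ^ P := by
          rw [← Real.rpow_add h2]
          ring_nf
        rw [h3]
        apply mul_le_mul_of_nonneg_right _ (by positivity)
        exact Real.rpow_le_rpow h0 h1 (by linarith)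
    have hup : ∫⁻ x, ENNReal.ofReal (mult N θ c x ^ r) ≤
        ENNReal.ofReal (n ^ (r - P) * (C₁ * N ^ (ε + (2 * d + 1 + α)))) := by
      calc ∫⁻ x, ENNReal.ofReal (mult N θ c x ^ r)
          ≤ ∫⁻ x, ENNReal.ofReal (n ^ (r - P)) * ENNReal.ofReal (mult N θ c x ^ P) := by
            apply lintegral_mono
            intro x
            change ENNReal.ofReal (mult N θ c x ^ r) ≤
              ENNReal.ofReal (n ^ (r - P)) * ENNReal.ofReal (mult N θ c x ^ P)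
            rw [← ENNReal.ofReal_mul (by positivity)]
            exact ENNReal.ofReal_le_ofReal (hpow x)
        _ = ENNReal.ofReal (n ^ (r - P)) * ∫⁻ x, ENNReal.ofReal (mult N θ c x ^ P) :=
            lintegral_const_mul' _ _ ENNReal.ofReal_ne_top
        _ ≤ ENNReal.ofReal (n ^ (r - P)) * ENNReal.ofReal (C₁ * N ^ (ε + (2 * d + 1 + α))) := by
            gcongr
            exact hU N hN ι θ c hF.overlap
        _ = _ := (ENNReal.ofReal_mul (by positivity)).symm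
    have hlow := hL N r hN (by linarith) ι θ
    have hnP : κ₁ ^ 3 * N ^ ((d:ℝ) + α) ≤ n ^ P := by
      have h1 : (κ * N ^ d) ^ P ≤ n ^ P := Real.rpow_le_rpow hκN.le hF.many (by linarith)
      have h2 : (κ * N ^ d) ^ P = κ ^ P * N ^ ((d:ℝ) + α) := by
        rw [Real.mul_rpow hκ.le (by positivity), ← Real.rpow_natCast N d, ← Real.rpow_mul hN0.le]
        congr 2
        rw [hPdef]
        field_simp
      have h3 : κ₁ ^ 3 ≤ κ ^ P := by
        calc κ₁ ^ 3 = κ₁ ^ (3:ℝ) := by rw [← Real.rpow_natCast]; norm_num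
          _ ≤ κ₁ ^ P := Real.rpow_le_rpow_of_exponent_ge hκ10 hκ11 hP3
          _ ≤ κ ^ P := Real.rpow_le_rpow hκ10.le hκ1κ (by linarith)
      calc κ₁ ^ 3 * N ^ ((d:ℝ) + α) ≤ κ ^ P * N ^ ((d:ℝ) + α) := by gcongr
        _ = (κ * N ^ d) ^ P := h2.symm
        _ ≤ n ^ P := h1
    have hnr : n ^ r = n ^ (r - P) * n ^ P := by
      rw [← Real.rpow_add hn0]
      ring_nf
    have hNs : N ^ (ε + (2 * d + 1 + α)) = N ^ ε * (N ^ (d + 1) * N ^ ((d:ℝ) + α)) := by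
      rw [← Real.rpow_natCast N (d + 1), ← Real.rpow_add hN0, ← Real.rpow_add hN0]
      congr 1
      push_cast
      ring
    have hkey : n ^ (r - P) * (C₁ * N ^ (ε + (2 * d + 1 + α))) ≤
        (C' * N ^ ε) * (c₁ * N ^ (d + 1) * n ^ r) := by
      have hX : (0:ℝ) ≤ N ^ ε * (N ^ (d + 1) * n ^ (r - P)) := by positivity
      have h1 : C₁ ≤ C' * (c₁ * κ₁ ^ 3) := by
        have h2 : C₁ / (c₁ * κ₁ ^ 3) * (c₁ * κ₁ ^ 3) = C₁ := by
          field_simp
        have h3 : 0 ≤ c₁ * κ₁ ^ 3 := by positivity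
        rw [hC']
        nlinarith
      calc n ^ (r - P) * (C₁ * N ^ (ε + (2 * d + 1 + α)))
          = C₁ * ((N ^ ε * (N ^ (d + 1) * n ^ (r - P))) * N ^ ((d:ℝ) + α)) := by
            rw [hNs]
            ring
        _ ≤ (C' * (c₁ * κ₁ ^ 3)) * ((N ^ ε * (N ^ (d + 1) * n ^ (r - P))) * N ^ ((d:ℝ) + α)) := by
            apply mul_le_mul_of_nonneg_right h1 (by positivity)
        _ = (C' * c₁ * (N ^ ε * (N ^ (d + 1) * n ^ (r - P)))) * (κ₁ ^ 3 * N ^ ((d:ℝ) + α)) := by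
            ring
        _ ≤ (C' * c₁ * (N ^ ε * (N ^ (d + 1) * n ^ (r - P)))) * n ^ P := by
            apply mul_le_mul_of_nonneg_left hnP (by positivity)
        _ = (C' * N ^ ε) * (c₁ * N ^ (d + 1) * n ^ r) := by
            rw [hnr]
            ring
    have hratio : ∫⁻ x, ENNReal.ofReal ((mult N θ c x) ^ p.toReal) ≤
        ENNReal.ofReal (C' * N ^ ε) *
          ∫⁻ x, ENNReal.ofReal ((mult N θ (fun _ => 0) x) ^ p.toReal) := by
      calc ∫⁻ x, ENNReal.ofReal (mult N θ c x ^ p.toReal)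
          ≤ ENNReal.ofReal (n ^ (r - P) * (C₁ * N ^ (ε + (2 * d + 1 + α)))) := hup
        _ ≤ ENNReal.ofReal ((C' * N ^ ε) * (c₁ * N ^ (d + 1) * n ^ r)) :=
            ENNReal.ofReal_le_ofReal hkey
        _ = ENNReal.ofReal (C' * N ^ ε) * ENNReal.ofReal (c₁ * N ^ (d + 1) * n ^ r) :=
            ENNReal.ofReal_mul (by positivity)
        _ ≤ _ := by
            gcongr
    have hfin := norm_of_ratio hC'1 hε.le θ c hN hp1 hpt hratio
    refine hfin.trans ?_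
    gcongr
    exact div_le_self hε.le hr1

end Pool.Agent.MPac5134.KX
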