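import Pool.Agent.Lib.MP_ac5134_an.KX.Defs
import Pool.Agent.Lib.MP_ac5134_an.KX.LpL

/-!
# KX-LpY: the inequality for the norms, `1 ≤ p ≤ 1 + α / d`
-/

open MeasureTheory

namespace Pool.Agent.MPac5134.KX

open Pool.Agent.MPac5134.KH

private theorem lpY_ge_one {d : ℕ} {ι : Type} [Fintype ι] {N : ℝ} {θ : ι → Cap d} {c : ι → Sp d}
    {x : Sp d} (h : 0 < mult N θ c x) : 1 ≤ mult N θ c x := by
  classical
  have h1 : mult N θ c x = ((Finset.univ.filter fun i => x ∈ tube N (θ i) (c i)).card : ℝ) := by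
    unfold mult
    rw [Finset.card_filter]
    push_cast
    apply Finset.sum_congr rfl
    intro i _
    rw [Set.indicator_apply]
  rw [h1] at h ⊢
  have h2 : 0 < (Finset.univ.filter fun i => x ∈ tube N (θ i) (c i)).card := by exact_mod_cast h
  exact_mod_cast h2

theorem lpY_lower {d : ℕ} {ι : Type} [Fintype ι] {N p : ℝ} (hN : 0 ≤ N) (hp : 1 ≤ p)
    (θ : ι → Cap d) (c : ι → Sp d) :
    ENNReal.ofReal (Fintype.card ι * N ^ (d + 2)) ≤
      ∫⁻ x, ENNReal.ofReal (mult N θ c x ^ p) := by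
  rw [← lintegral_mult hN θ c]
  apply lintegral_mono
  intro x
  apply ENNReal.ofReal_le_ofReal
  rcases (mult_nonneg N θ c x).eq_or_lt with h0 | h0
  · rw [← h0, Real.zero_rpow (by linarith)]
  · calc mult N θ c x = mult N θ c x ^ (1:ℝ) := (Real.rpow_one _).symm
      _ ≤ _ := Real.rpow_le_rpow_of_exponent_le (lpY_ge_one h0) hp

/-- interpolation at a point -/
private theorem lpY_pt {f X p P : ℝ} (hf : 0 ≤ f) (hX : 0 < X) (hp : 1 ≤ p) (hP : p ≤ P) :
    f ^ p ≤ X ^ (p - 1) * f + X ^ (p - P) * f ^ P := by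
  rcases hf.eq_or_lt with h0 | h0
  · rw [← h0, Real.zero_rpow (by linarith), Real.zero_rpow (by linarith)]
    simp
  have e1 : f ^ p = f ^ (p - 1) * f := by
    conv_lhs => rw [show p = (p - 1) + 1 by ring]
    rw [Real.rpow_add h0, Real.rpow_one]
  have e2 : f ^ p = f ^ (p - P) * f ^ P := by
    rw [← Real.rpow_add h0]
    congr 1
    ring
  rcases le_total f X with h | h
  · have h1 : f ^ (p - 1) ≤ X ^ (p - 1) := Real.rpow_le_rpow hf h (by linarith)
    have h2 : 0 ≤ X ^ (p - P) * f ^ P := by positivity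
    rw [e1]
    nlinarith [mul_le_mul_of_nonneg_right h1 hf]
  · have h1 : f ^ (p - P) ≤ X ^ (p - P) := Real.rpow_le_rpow_of_nonpos hX h (by linarith)
    have h2 : 0 ≤ X ^ (p - 1) * f := by positivity
    have h3 : 0 ≤ f ^ P := by positivity
    rw [e2]
    nlinarith [mul_le_mul_of_nonneg_right h1 h3]

/-- the integral for `1 ≤ p ≤ 1 + α / e` -/
theorem lpY_int {d e : ℕ} {α : ℝ} (hα : 1 ≤ α) (he : 1 ≤ e) (K : ℕ)
    {ε : ℝ} (hε : 0 < ε) (hU : ∃ C : ℝ, 1 ≤ C ∧ ∀ (N : ℝ), 1 ≤ N → ∀ (ι : Type) [Fintype ι]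
      (θ : ι → Cap d) (c : ι → Sp d),
      (∀ z : Fin d → ℤ, ∀ s : Finset ι, (∀ i ∈ s, cell N (θ i) = z) → s.card ≤ K) →
      ∫⁻ x, ENNReal.ofReal (mult N θ c x ^ (1 + α / e)) ≤
        ENNReal.ofReal (C * N ^ ε * (Fintype.card ι : ℝ) ^ (1 + (α - 1) / e) * N ^ (d + 2))) :
    ∃ C : ℝ, 1 ≤ C ∧ ∀ (N : ℝ), 1 ≤ N → ∀ (ι : Type) [Fintype ι] (θ : ι → Cap d)
      (c : ι → Sp d),
      (∀ z : Fin d → ℤ, ∀ s : Finset ι, (∀ i ∈ s, cell N (θ i) = z) → s.card ≤ K) →
      ∀ p : ℝ, 1 ≤ p → p ≤ 1 + α / e →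
      ∫⁻ x, ENNReal.ofReal (mult N θ c x ^ p) ≤
        ENNReal.ofReal (C * N ^ ε * (Fintype.card ι : ℝ) ^ (1 + (p - 1) * (1 - 1 / α)) *
          N ^ (d + 2)) := by
  obtain ⟨C₁, hC₁, H⟩ := hU
  refine ⟨2 * C₁, by linarith, ?_⟩
  intro N hN ι _ θ c hK p hp hpP
  have hN0 : 0 < N := by linarith
  have he0 : (0:ℝ) < e := by exact_mod_cast he
  have hα0 : 0 < α := by linarith
  have hNε : 1 ≤ N ^ ε := Real.one_le_rpow hN hε.le
  rcases isEmpty_or_nonempty ι with hι | hι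
  · have h0 : ∀ x, mult N θ c x = 0 := by
      intro x
      unfold mult
      simp
    simp_rw [h0]
    rw [Real.zero_rpow (by linarith)]
    simp
  have hn1 : (1:ℝ) ≤ Fintype.card ι := by exact_mod_cast Fintype.card_pos
  set n : ℝ := (Fintype.card ι : ℝ) with hn
  have hn0 : 0 < n := by linarith
  set X : ℝ := n ^ (1 - 1 / α) with hX
  have hX0 : 0 < X := by positivity
  have hV : 0 < N ^ (d + 2) := by positivity
  have h1 : ∫⁻ x, ENNReal.ofReal (mult N θ c x ^ p) ≤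
      ∫⁻ x, (ENNReal.ofReal (X ^ (p - 1)) * ENNReal.ofReal (mult N θ c x) +
        ENNReal.ofReal (X ^ (p - (1 + α / e))) *
          ENNReal.ofReal (mult N θ c x ^ (1 + α / e))) := by
    apply lintegral_mono
    intro x
    dsimp only
    rw [← ENNReal.ofReal_mul (by positivity), ← ENNReal.ofReal_mul (by positivity),
      ← ENNReal.ofReal_add (by have := mult_nonneg N θ c x; positivity)
        (by have := mult_nonneg N θ c x; positivity)]
    exact ENNReal.ofReal_le_ofReal (lpY_pt (mult_nonneg N θ c x) hX0 hp hpP)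
  have hm : Measurable fun x => ENNReal.ofReal (mult N θ c x) :=
    (measurable_mult N θ c).ennreal_ofReal
  rw [lintegral_add_left (hm.const_mul _), lintegral_const_mul _ hm,
    lintegral_const_mul' _ _ ENNReal.ofReal_ne_top, lintegral_mult hN0.le] at h1
  refine h1.trans ?_
  have h2 := H N hN ι θ c hK
  refine (add_le_add le_rfl (mul_le_mul_right h2 _)).trans ?_
  rw [← ENNReal.ofReal_mul (by positivity), ← ENNReal.ofReal_mul (by positivity),
    ← ENNReal.ofReal_add (by positivity) (by positivity)]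
  apply ENNReal.ofReal_le_ofReal
  have e1 : X ^ (p - 1) * n = n ^ (1 + (p - 1) * (1 - 1 / α)) := by
    rw [hX, ← Real.rpow_mul hn0.le]
    nth_rewrite 2 [← Real.rpow_one n]
    rw [← Real.rpow_add hn0]
    congr 1
    ring
  have e2 : X ^ (p - (1 + α / e)) * n ^ (1 + (α - 1) / e) = n ^ (1 + (p - 1) * (1 - 1 / α)) := by
    rw [hX, ← Real.rpow_mul hn0.le, ← Real.rpow_add hn0]
    congr 1
    field_simp
    ring
  have e3 : 0 < n ^ (1 + (p - 1) * (1 - 1 / α)) := by positivity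
  have h3 : X ^ (p - 1) * (n * N ^ (d + 2)) ≤
      C₁ * N ^ ε * n ^ (1 + (p - 1) * (1 - 1 / α)) * N ^ (d + 2) := by
    rw [← mul_assoc, e1]
    have : 1 ≤ C₁ * N ^ ε := by nlinarith
    nlinarith [mul_pos e3 hV]
  have h4 : X ^ (p - (1 + α / e)) * (C₁ * N ^ ε * n ^ (1 + (α - 1) / e) * N ^ (d + 2)) =
      C₁ * N ^ ε * n ^ (1 + (p - 1) * (1 - 1 / α)) * N ^ (d + 2) := by
    rw [← e2]
    ring
  rw [h4]
  linarith

end Pool.Agent.MPac5134.KX
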