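import Pool.Agent.Lib.MP_ac5134_an.KX.LpY

/-!
# KX-LpZ: the inequality for the norms, `1 ≤ p ≤ 1 + α / d`
-/

open MeasureTheory

namespace Pool.Agent.MPac5134.KX

open Pool.Agent.MPac5134.KH

private theorem lpZ_norm {d : ℕ} {ι : Type} [Fintype ι] {N C a p : ℝ} (hC : 1 ≤ C) (ha : 0 ≤ a)
    (hN : 1 ≤ N) (hp : 1 ≤ p) (θ : ι → Cap d) (c : ι → Sp d)
    (h : ∫⁻ x, ENNReal.ofReal (mult N θ c x ^ p) ≤ ENNReal.ofReal (C * N ^ a) *
      ∫⁻ x, ENNReal.ofReal (mult N θ (fun _ => 0) x ^ p)) :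
    eLpNorm (mult N θ c) (ENNReal.ofReal p) volume ≤
      ENNReal.ofReal (C * N ^ (a / p)) *
        eLpNorm (mult N θ (fun _ => 0)) (ENNReal.ofReal p) volume := by
  have htr : (ENNReal.ofReal p).toReal = p := ENNReal.toReal_ofReal (by linarith)
  have key := norm_of_ratio (N := N) (C := C) (a := a) hC ha θ c (L := N) hN
    (p := ENNReal.ofReal p) (by
      rw [← ENNReal.ofReal_one]
      exact ENNReal.ofReal_le_ofReal hp) ENNReal.ofReal_ne_top (by rw [htr]; exact h)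
  rwa [htr] at key

theorem lpZ {d e : ℕ} {α : ℝ} (hα : 1 ≤ α) (hd : 1 ≤ d) (hde : d ≤ e) (K : ℕ) {κ ε : ℝ} (hκ : 0 < κ) (hε : 0 < ε)
    (hI : ∃ C : ℝ, 1 ≤ C ∧ ∀ (N : ℝ), 1 ≤ N → ∀ (ι : Type) [Fintype ι] (θ : ι → Cap d)
      (c : ι → Sp d),
      (∀ z : Fin d → ℤ, ∀ s : Finset ι, (∀ i ∈ s, cell N (θ i) = z) → s.card ≤ K) →
      ∀ p : ℝ, 1 ≤ p → p ≤ 1 + α / e →
      ∫⁻ x, ENNReal.ofReal (mult N θ c x ^ p) ≤
        ENNReal.ofReal (C * N ^ ε * (Fintype.card ι : ℝ) ^ (1 + (p - 1) * (1 - 1 / α)) *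
          N ^ (d + 2)))
    (hcard : ∀ (N : ℝ), 1 ≤ N → ∀ (ι : Type) [Fintype ι] (θ : ι → Cap d),
      (∀ z : Fin d → ℤ, ∀ s : Finset ι, (∀ i ∈ s, cell N (θ i) = z) → s.card ≤ K) →
      (Fintype.card ι : ℝ) ≤ K * (4 * N) ^ d) :
    ∃ C : ℝ, 1 ≤ C ∧ ∀ (N : ℝ), 1 ≤ N → ∀ (ι : Type) [Fintype ι] (θ : ι → Cap d)
      (c : ι → Sp d),
      (∀ z : Fin d → ℤ, ∀ s : Finset ι, (∀ i ∈ s, cell N (θ i) = z) → s.card ≤ K) →
      ∀ p : ℝ, 1 ≤ p → p ≤ 1 + α / e →
      eLpNorm (mult N θ c) (ENNReal.ofReal p) volume ≤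
        ENNReal.ofReal (C * N ^ (ε + d * (1 - 1 / α) * (1 - 1 / p))) *
          eLpNorm (mult N θ (fun _ => 0)) (ENNReal.ofReal p) volume ∧
      (κ * N ^ d ≤ Fintype.card ι →
        eLpNorm (mult N θ c) (ENNReal.ofReal p) volume ≤
          ENNReal.ofReal (C * N ^ (ε + (1 - (p - 1) * d / α) / p)) *
            eLpNorm (mult N θ (fun _ => 0)) (ENNReal.ofReal p) volume) := by
  obtain ⟨C₁, hC₁, HI⟩ := hI
  obtain ⟨c₀, hc₀, HL⟩ := lpL d
  have hd0 : (0:ℝ) < d := by exact_mod_cast hd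
  have hd1 : (1:ℝ) ≤ d := by exact_mod_cast hd
  have hα0 : 0 < α := by linarith
  have hK0 : (0:ℝ) ≤ K := Nat.cast_nonneg K
  have h1α0 : 0 ≤ 1 - 1 / α := by
    have : 1 / α ≤ 1 := by rw [div_le_one hα0]; exact hα
    linarith
  have h1α1 : 1 - 1 / α ≤ 1 := by
    have : 0 ≤ 1 / α := by positivity
    linarith
  -- the constants
  obtain ⟨A, hA⟩ : ∃ A : ℝ, A = ((K:ℝ) + 1) * 4 ^ d := ⟨_, rfl⟩
  have hA1 : 1 ≤ A := by
    rw [hA]
    have h1 : (1:ℝ) ≤ 4 ^ d := one_le_pow₀ (by norm_num)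
    nlinarith
  obtain ⟨B, hB⟩ : ∃ B : ℝ, B = max 1 (1 / κ) := ⟨_, rfl⟩
  have hB1 : 1 ≤ B := by rw [hB]; exact le_max_left _ _
  have hB2 : 1 / κ ≤ B := by rw [hB]; exact le_max_right _ _
  obtain ⟨C, hC⟩ : ∃ C : ℝ, C = C₁ * A ^ α + C₁ * B * (1 / c₀) := ⟨_, rfl⟩
  have hAα1 : 1 ≤ A ^ α := Real.one_le_rpow hA1 (by linarith)
  have hx0 : 0 ≤ C₁ * B * (1 / c₀) := by positivity
  have hC1 : 1 ≤ C := by
    rw [hC]
    nlinarith
  refine ⟨C, hC1, ?_⟩
  intro N hN ι _ θ c hK p hp hpP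
  have hN0 : 0 < N := by linarith
  have hNd : 1 ≤ N ^ d := one_le_pow₀ hN
  have hp0 : 0 < p := by linarith
  have hNε : 1 ≤ N ^ ε := Real.one_le_rpow hN hε.le
  have hpα : (p - 1) * d ≤ α := by
    have hde' : (d:ℝ) ≤ e := by exact_mod_cast hde
    have he0 : (0:ℝ) < e := by linarith
    have h1 : p - 1 ≤ α / e := by linarith
    rw [le_div_iff₀ he0] at h1
    exact (mul_le_mul_of_nonneg_left hde' (by linarith)).trans h1
  rcases isEmpty_or_nonempty ι with hι | hι
  · have h0 : mult N θ c = 0 := by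
      funext x
      unfold mult
      simp
    rw [h0, eLpNorm_zero]
    exact ⟨bot_le, fun _ => bot_le⟩
  have hn1 : (1:ℝ) ≤ Fintype.card ι := by exact_mod_cast Fintype.card_pos
  have hint := HI N hN ι θ c hK p hp hpP
  have hcd := hcard N hN ι θ hK
  have hlow1 := lpY_lower hN0.le hp θ (fun _ => (0 : Sp d))
  have hlow2 := HL N p hN hp0.le ι θ
  obtain ⟨n, hn⟩ : ∃ n : ℝ, n = (Fintype.card ι : ℝ) := ⟨_, rfl⟩
  rw [← hn] at hint hcd hlow1 hlow2 hn1 ⊢
  have hn0 : 0 < n := by linarith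
  have hV : 0 < N ^ (d + 2) := by positivity
  have hAn : n ≤ A * N ^ d := by
    rw [hA]
    refine hcd.trans ?_
    rw [mul_pow, ← mul_assoc]
    gcongr
    linarith
  constructor
  · -- all families
    have e1 : n ^ ((p - 1) * (1 - 1 / α)) ≤ A ^ α * N ^ (d * ((p - 1) * (1 - 1 / α))) := by
      have hq0 : 0 ≤ (p - 1) * (1 - 1 / α) := mul_nonneg (by linarith) h1α0
      calc n ^ ((p - 1) * (1 - 1 / α)) ≤ (A * N ^ d) ^ ((p - 1) * (1 - 1 / α)) :=
            Real.rpow_le_rpow hn0.le hAn hq0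
        _ = A ^ ((p - 1) * (1 - 1 / α)) * N ^ (d * ((p - 1) * (1 - 1 / α))) := by
            rw [Real.mul_rpow (by linarith) (by positivity), ← Real.rpow_natCast N d,
              ← Real.rpow_mul hN0.le]
        _ ≤ A ^ α * N ^ (d * ((p - 1) * (1 - 1 / α))) := by
            apply mul_le_mul_of_nonneg_right _ (by positivity)
            apply Real.rpow_le_rpow_of_exponent_le hA1
            have h1 : (p - 1) * (1 - 1 / α) ≤ (p - 1) * 1 :=
              mul_le_mul_of_nonneg_left h1α1 (by linarith)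
            nlinarith
    have key := lpZ_norm (C := C) (a := ε + d * ((p - 1) * (1 - 1 / α))) hC1 (by positivity) hN hp
      θ c (by
        refine hint.trans ?_
        refine le_trans (ENNReal.ofReal_le_ofReal (?_ : _ ≤
          (C * N ^ (ε + d * ((p - 1) * (1 - 1 / α)))) * (n * N ^ (d + 2)))) ?_
        · rw [Real.rpow_add hn0, Real.rpow_one, Real.rpow_add hN0]
          calc C₁ * N ^ ε * (n * n ^ ((p - 1) * (1 - 1 / α))) * N ^ (d + 2)
              ≤ C₁ * N ^ ε * (n * (A ^ α * N ^ (d * ((p - 1) * (1 - 1 / α))))) *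
                N ^ (d + 2) := by gcongr
            _ = (C₁ * A ^ α) * (N ^ ε * N ^ (d * ((p - 1) * (1 - 1 / α)))) *
                (n * N ^ (d + 2)) := by ring
            _ ≤ C * (N ^ ε * N ^ (d * ((p - 1) * (1 - 1 / α)))) * (n * N ^ (d + 2)) := by
                gcongr
                rw [hC]
                linarith
        · rw [ENNReal.ofReal_mul (by positivity)]
          gcongr)
    refine key.trans ?_
    gcongr ENNReal.ofReal (C * ?_) * _
    apply Real.rpow_le_rpow_of_exponent_le hN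
    have e2 : (ε + d * ((p - 1) * (1 - 1 / α))) / p = ε / p + d * (1 - 1 / α) * (1 - 1 / p) := by
      field_simp
    have e3 : ε / p ≤ ε := div_le_self hε.le hp
    rw [e2]
    linarith
  · -- full families
    intro hκn
    have hq0 : 0 ≤ 1 - (p - 1) * d / α := by
      have : (p - 1) * d / α ≤ 1 := by rw [div_le_one hα0]; exact hpα
      linarith
    have e1 : n ^ (-((p - 1) / α)) ≤ B * N ^ (-((p - 1) * d / α)) := by
      have hr0 : 0 ≤ (p - 1) / α := div_nonneg (by linarith) hα0.le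
      have hr1 : (p - 1) / α ≤ 1 := by
        rw [div_le_one hα0]
        nlinarith
      have h1 : n ^ (-((p - 1) / α)) ≤ (κ * N ^ d) ^ (-((p - 1) / α)) :=
        Real.rpow_le_rpow_of_nonpos (by positivity) hκn (by linarith)
      have h2 : (κ * N ^ d) ^ (-((p - 1) / α)) =
          (1 / κ) ^ ((p - 1) / α) * N ^ (-((p - 1) * d / α)) := by
        rw [Real.mul_rpow hκ.le (by positivity), ← Real.rpow_natCast N d, ← Real.rpow_mul hN0.le,
          one_div, Real.inv_rpow hκ.le, Real.rpow_neg hκ.le]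
        congr 2
        ring
      rw [h2] at h1
      refine h1.trans ?_
      apply mul_le_mul_of_nonneg_right _ (by positivity)
      calc (1 / κ) ^ ((p - 1) / α) ≤ B ^ ((p - 1) / α) :=
            Real.rpow_le_rpow (by positivity) hB2 hr0
        _ ≤ B ^ (1:ℝ) := Real.rpow_le_rpow_of_exponent_le hB1 hr1
        _ = B := Real.rpow_one B
    have key := lpZ_norm (C := C) (a := ε + (1 - (p - 1) * d / α)) hC1 (by linarith) hN hp
      θ c (by
        refine hint.trans ?_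
        refine le_trans (ENNReal.ofReal_le_ofReal (?_ : _ ≤
          (C * N ^ (ε + (1 - (p - 1) * d / α))) * (c₀ * N ^ (d + 1) * n ^ p))) ?_
        · have e4 : n ^ (1 + (p - 1) * (1 - 1 / α)) = n ^ p * n ^ (-((p - 1) / α)) := by
            rw [← Real.rpow_add hn0]
            congr 1
            ring
          have e5 : N ^ (ε + (1 - (p - 1) * d / α)) =
              N ^ ε * (N * N ^ (-((p - 1) * d / α))) := by
            rw [Real.rpow_add hN0, sub_eq_add_neg, Real.rpow_add hN0, Real.rpow_one]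
          rw [e4, e5, pow_succ N (d + 1)]
          calc C₁ * N ^ ε * (n ^ p * n ^ (-((p - 1) / α))) * (N ^ (d + 1) * N)
              ≤ C₁ * N ^ ε * (n ^ p * (B * N ^ (-((p - 1) * d / α)))) * (N ^ (d + 1) * N) := by
                gcongr
            _ = (C₁ * B * (1 / c₀)) * (N ^ ε * (N * N ^ (-((p - 1) * d / α)))) *
                (c₀ * N ^ (d + 1) * n ^ p) := by
                field_simp
            _ ≤ C * (N ^ ε * (N * N ^ (-((p - 1) * d / α)))) *
                (c₀ * N ^ (d + 1) * n ^ p) := by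
                gcongr
                rw [hC]
                have : 0 ≤ C₁ * A ^ α := by positivity
                linarith
        · rw [ENNReal.ofReal_mul (by positivity)]
          gcongr)
    refine key.trans ?_
    gcongr ENNReal.ofReal (C * ?_) * _
    apply Real.rpow_le_rpow_of_exponent_le hN
    rw [add_div]
    have e3 : ε / p ≤ ε := div_le_self hε.le hp
    linarith

end Pool.Agent.MPac5134.KX
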