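import Mathlib

/-!
# KX-LvR: the real inequality of one level set

PROOF.  `P = 1 + α / d ≤ 3`, `x = a / 2`.  `h1`: `τ e ≤ 4 L m x V`.  `h2`: `x ^ (1 + d / α) m ^ (1 / α) V ≤ C e`; raise to the
power `α / d`: `x ^ P m ^ (1 / d) V ^ (α / d) ≤ C ^ (α / d) e ^ (α / d)` (as `(1 + d / α) (α / d) = P`).  Raise `h1` to the power `P`
and multiply:
`τ ^ P e ^ P ≤ (4 L m V) ^ P x ^ P ≤ (4 L m V) ^ P C ^ (α / d) e ^ (α / d) m ^ (-1 / d) V ^ (-α / d)`; divide by `e ^ (α / d)`:
`τ ^ P e ≤ (4 L) ^ P C ^ (α / d) m ^ (P - 1 / d) V ≤ 64 L ^ 3 C ^ 2 m ^ (1 + (α - 1) / d) V`, and `m ≤ n`.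
(All quantities are positive: work with logarithms, `τ = exp t` etc.)
-/

namespace Pool.Agent.MPac5134.KX

theorem lvR {τ e V α a C n : ℝ} {m L d : ℕ} (hτ : 1 ≤ τ) (he : 0 < e) (hV : 0 < V) (hα : 1 ≤ α)
    (hα2 : α ≤ 2) (hd : 1 ≤ d) (hC : 1 ≤ C) (ha : 0 < a) (hm : 1 ≤ m) (hmn : (m : ℝ) ≤ n)
    (hL : 1 ≤ L) (h1 : τ * e ≤ 2 * L * (m * (a * V)))
    (h2 : a / 2 * ((a / 2) ^ d * m) ^ (1 / α) * V ≤ C * e) :
    τ ^ (1 + α / d) * e ≤ 64 * (L : ℝ) ^ 3 * C ^ 2 * n ^ (1 + (α - 1) / d) * V := by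
  have hd0 : (0 : ℝ) < d := by exact_mod_cast hd
  have hd1 : (1 : ℝ) ≤ d := by exact_mod_cast hd
  have hm0 : (0 : ℝ) < m := by exact_mod_cast hm
  have hm1 : (1 : ℝ) ≤ m := by exact_mod_cast hm
  have hL0 : (0 : ℝ) < L := by exact_mod_cast hL
  have hL1 : (1 : ℝ) ≤ L := by exact_mod_cast hL
  have hτ0 : (0 : ℝ) < τ := by linarith
  have hC0 : (0 : ℝ) < C := by linarith
  have hα0 : (0 : ℝ) < α := by linarith
  have hn0 : (0 : ℝ) < n := by linarith
  obtain ⟨x, hx⟩ : ∃ x, x = a / 2 := ⟨_, rfl⟩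
  have hx0 : 0 < x := by rw [hx]; positivity
  have hax : a = 2 * x := by rw [hx]; ring
  rw [← hx] at h2
  rw [hax] at h1
  have hxd : 0 < x ^ d * (m : ℝ) := by positivity
  -- logarithmic form of the two hypotheses
  have g1 : Real.log τ + Real.log e ≤ Real.log 4 + Real.log L + Real.log m + Real.log x + Real.log V := by
    have h3 := Real.log_le_log (by positivity) h1
    have h4 : 2 * (L : ℝ) * (m * (2 * x * V)) = 4 * L * m * x * V := by ring
    rw [h4, Real.log_mul hτ0.ne' he.ne', Real.log_mul (by positivity) hV.ne',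
      Real.log_mul (by positivity) hx0.ne', Real.log_mul (by positivity) hm0.ne',
      Real.log_mul (by norm_num) hL0.ne'] at h3
    exact h3
  have g2 : Real.log x + 1 / α * (d * Real.log x + Real.log m) + Real.log V ≤ Real.log C + Real.log e := by
    have h3 := Real.log_le_log (by positivity) h2
    rw [Real.log_mul (by positivity) hV.ne', Real.log_mul hx0.ne' (by positivity),
      Real.log_rpow hxd, Real.log_mul (by positivity) hm0.ne', Real.log_pow,
      Real.log_mul hC0.ne' he.ne'] at h3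
    exact h3
  -- logarithmic form of the goal
  have hgoal : (1 + α / d) * Real.log τ + Real.log e ≤
      3 * Real.log 4 + 3 * Real.log L + 2 * Real.log C + (1 + (α - 1) / d) * Real.log n + Real.log V := by
    obtain ⟨r, hr⟩ : ∃ r, r = α / d := ⟨_, rfl⟩
    have hr0 : 0 < r := by rw [hr]; positivity
    have hr2 : r ≤ 2 := by
      rw [hr, div_le_iff₀ hd0]
      nlinarith
    have hrd : r * (1 / α) = 1 / d := by
      rw [hr]
      field_simp
    have hsub : (α - 1) / d = r - 1 / d := by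
      rw [hr]
      ring
    have hd' : 1 / (d : ℝ) * d = 1 := by field_simp
    have k2 := mul_le_mul_of_nonneg_left g2 hr0.le
    have k3 : r * (Real.log x + 1 / α * (d * Real.log x + Real.log m) + Real.log V) =
        (1 + r) * Real.log x + 1 / d * Real.log m + r * Real.log V := by
      calc r * (Real.log x + 1 / α * (d * Real.log x + Real.log m) + Real.log V)
          = r * Real.log x + (r * (1 / α)) * (d * Real.log x + Real.log m) + r * Real.log V := by ring
        _ = r * Real.log x + ((1 / d * d) * Real.log x + 1 / d * Real.log m) + r * Real.log V := by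
            rw [hrd]; ring
        _ = (1 + r) * Real.log x + 1 / d * Real.log m + r * Real.log V := by rw [hd']; ring
    rw [k3] at k2
    have k1 := mul_le_mul_of_nonneg_left g1 (by linarith : (0 : ℝ) ≤ 1 + r)
    have q4 : 0 ≤ Real.log 4 := Real.log_nonneg (by norm_num)
    have qL : 0 ≤ Real.log L := Real.log_nonneg hL1
    have qC : 0 ≤ Real.log C := Real.log_nonneg hC
    have qm : 0 ≤ Real.log m := Real.log_nonneg hm1
    have qn : Real.log m ≤ Real.log n := Real.log_le_log hm0 hmn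
    have q1 : (1 + r) * Real.log 4 ≤ 3 * Real.log 4 := mul_le_mul_of_nonneg_right (by linarith) q4
    have q2 : (1 + r) * Real.log L ≤ 3 * Real.log L := mul_le_mul_of_nonneg_right (by linarith) qL
    have q3 : r * Real.log C ≤ 2 * Real.log C := mul_le_mul_of_nonneg_right hr2 qC
    have hpos : 0 ≤ 1 + (r - 1 / d) := by
      have : 1 / (d : ℝ) ≤ 1 := by
        rw [div_le_iff₀ hd0]
        linarith
      linarith
    have q5 : (1 + (r - 1 / d)) * Real.log m ≤ (1 + (r - 1 / d)) * Real.log n :=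
      mul_le_mul_of_nonneg_left qn hpos
    rw [← hr, hsub]
    linarith
  have e1 : τ ^ (1 + α / d) * e = Real.exp ((1 + α / d) * Real.log τ + Real.log e) := by
    rw [Real.exp_add, Real.exp_log he, mul_comm (1 + α / (d : ℝ)), ← Real.rpow_def_of_pos hτ0]
  have e2 : 64 * (L : ℝ) ^ 3 * C ^ 2 * n ^ (1 + (α - 1) / d) * V =
      Real.exp (3 * Real.log 4 + 3 * Real.log L + 2 * Real.log C + (1 + (α - 1) / d) * Real.log n + Real.log V) := by
    have f1 : Real.exp (3 * Real.log 4) = 64 := by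
      have : (3 : ℝ) * Real.log 4 = Real.log (4 ^ 3) := by
        rw [Real.log_pow]
        norm_num
      rw [this, Real.exp_log (by norm_num)]
      norm_num
    have f2 : Real.exp (3 * Real.log L) = (L : ℝ) ^ 3 := by
      have : (3 : ℝ) * Real.log L = Real.log ((L : ℝ) ^ 3) := by
        rw [Real.log_pow]
        norm_num
      rw [this, Real.exp_log (by positivity)]
    have f3 : Real.exp (2 * Real.log C) = C ^ 2 := by
      have : (2 : ℝ) * Real.log C = Real.log (C ^ 2) := by
        rw [Real.log_pow]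
        norm_num
      rw [this, Real.exp_log (by positivity)]
    rw [Real.exp_add, Real.exp_add, Real.exp_add, Real.exp_add, f1, f2, f3, Real.exp_log hV,
      mul_comm (1 + (α - 1) / (d : ℝ)), ← Real.rpow_def_of_pos hn0]
  rw [e1, e2]
  exact Real.exp_le_exp.mpr hgoal

end Pool.Agent.MPac5134.KX
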