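import Pool.Agent.Lib.MP_ac5134_an.KX.Defs
import Pool.Agent.Lib.MP_ac5134_an.KX.LvR
import Pool.Agent.Lib.MP_ac5134_an.KH.Lp

/-!
# KX-LvG: one level set of the multiplicity, families of any size
-/

open MeasureTheory
open scoped ENNReal

namespace Pool.Agent.MPac5134.KX

open Pool.Agent.MPac5134.KH

/-- dyadic classes of a number -/
private theorem lvG_pt {t V : ℝ} (ht : t ≤ V) (L : ℕ) :
    t ≤ (2:ℝ)⁻¹ ^ L * V ∨
      ∃ l < L, (2:ℝ)⁻¹ ^ (l + 1) * V < t ∧ t ≤ (2:ℝ)⁻¹ ^ l * V := by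
  induction L with
  | zero => left; simpa using ht
  | succ L ih =>
    rcases ih with h | ⟨l, hl, h⟩
    · by_cases h2 : t ≤ (2:ℝ)⁻¹ ^ (L + 1) * V
      · left; exact h2
      · right
        exact ⟨L, Nat.lt_succ_self L, not_le.1 h2, h⟩
    · right; exact ⟨l, Nat.lt_succ_of_lt hl, h⟩

open Classical in
private theorem lvG_sum {ι : Type} [Fintype ι] {t : ι → ℝ} {V : ℝ} (hV : 0 ≤ V)
    (ht : ∀ i, t i ≤ V) (L : ℕ) :
    ∑ i, t i ≤ Fintype.card ι * ((2:ℝ)⁻¹ ^ L * V) +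
      ∑ l ∈ Finset.range L, ((Finset.univ.filter fun i =>
        (2:ℝ)⁻¹ ^ (l + 1) * V < t i ∧ t i ≤ (2:ℝ)⁻¹ ^ l * V).card : ℝ) * ((2:ℝ)⁻¹ ^ l * V) := by
  have key : ∀ i, t i ≤ (2:ℝ)⁻¹ ^ L * V + ∑ l ∈ Finset.range L,
      (if (2:ℝ)⁻¹ ^ (l + 1) * V < t i ∧ t i ≤ (2:ℝ)⁻¹ ^ l * V then (2:ℝ)⁻¹ ^ l * V else 0) := by
    intro i
    have hnn : ∀ l ∈ Finset.range L, (0:ℝ) ≤
        (if (2:ℝ)⁻¹ ^ (l + 1) * V < t i ∧ t i ≤ (2:ℝ)⁻¹ ^ l * V then (2:ℝ)⁻¹ ^ l * V else 0) := by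
      intro l _
      split_ifs
      · positivity
      · exact le_rfl
    rcases lvG_pt (ht i) L with h | ⟨l, hl, h⟩
    · have := Finset.sum_nonneg hnn
      linarith
    · have h1 := Finset.single_le_sum hnn (Finset.mem_range.2 hl)
      rw [if_pos h] at h1
      have : 0 ≤ (2:ℝ)⁻¹ ^ L * V := by positivity
      linarith [h.2]
  calc ∑ i, t i ≤ ∑ i, ((2:ℝ)⁻¹ ^ L * V + ∑ l ∈ Finset.range L,
      (if (2:ℝ)⁻¹ ^ (l + 1) * V < t i ∧ t i ≤ (2:ℝ)⁻¹ ^ l * V then (2:ℝ)⁻¹ ^ l * V else 0)) :=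
        Finset.sum_le_sum fun i _ => key i
    _ = _ := by
        rw [Finset.sum_add_distrib, Finset.sum_comm]
        congr 1
        · rw [Finset.sum_const, Finset.card_univ, nsmul_eq_mul]
        · apply Finset.sum_congr rfl
          intro l _
          rw [← Finset.sum_filter, Finset.sum_const, nsmul_eq_mul]

private theorem lvG_int {d : ℕ} {ι : Type} [Fintype ι] (N : ℝ) (θ : ι → Cap d) (c : ι → Sp d)
    (G : Set (Sp d)) :
    ∫⁻ x in G, ENNReal.ofReal (mult N θ c x) = ∑ i, volume (tube N (θ i) (c i) ∩ G) := by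
  unfold mult
  have e1 : ∀ x : Sp d,
      ENNReal.ofReal (∑ i, (tube N (θ i) (c i)).indicator (fun _ => (1:ℝ)) x) =
      ∑ i, (tube N (θ i) (c i)).indicator (fun _ => (1:ℝ≥0∞)) x := by
    intro x
    rw [ENNReal.ofReal_sum_of_nonneg
      (fun i _ => Set.indicator_nonneg (fun _ _ => zero_le_one) _)]
    apply Finset.sum_congr rfl; intro i _
    by_cases h : x ∈ tube N (θ i) (c i)
    · rw [Set.indicator_of_mem h, Set.indicator_of_mem h, ENNReal.ofReal_one]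
    · rw [Set.indicator_of_notMem h, Set.indicator_of_notMem h, ENNReal.ofReal_zero]
  simp_rw [e1]
  rw [lintegral_finsetSum _ fun i _ => measurable_const.indicator (measurableSet_tube _ _ _)]
  apply Finset.sum_congr rfl
  intro i _
  rw [lintegral_indicator_const (measurableSet_tube _ _ _), one_mul,
    Measure.restrict_apply (measurableSet_tube _ _ _)]

private theorem lvG_log (n : ℕ) (hn : 1 ≤ n) :
    8 * (n:ℝ) ^ 3 ≤ 2 ^ (Nat.log 2 (n ^ 3) + 4) ∧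
      ((Nat.log 2 (n ^ 3) + 4 : ℕ) : ℝ) ≤ 6 * (1 + Real.log n) := by
  have hn1 : (1:ℝ) ≤ n := by exact_mod_cast hn
  have hn2 : n ^ 3 ≠ 0 := by positivity
  constructor
  · have h1 : n ^ 3 < 2 ^ (Nat.log 2 (n ^ 3)).succ := Nat.lt_pow_succ_log_self (by norm_num) _
    have h2 : (n:ℝ) ^ 3 < 2 ^ (Nat.log 2 (n ^ 3) + 1) := by exact_mod_cast h1
    calc 8 * (n:ℝ) ^ 3 ≤ 8 * 2 ^ (Nat.log 2 (n ^ 3) + 1) := by linarith
      _ = 2 ^ (Nat.log 2 (n ^ 3) + 4) := by ring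
  · have h1 : 2 ^ Nat.log 2 (n ^ 3) ≤ n ^ 3 := Nat.pow_log_le_self 2 hn2
    have h2 : (2:ℝ) ^ Nat.log 2 (n ^ 3) ≤ (n:ℝ) ^ 3 := by exact_mod_cast h1
    have h3 := Real.log_le_log (by positivity) h2
    rw [Real.log_pow, Real.log_pow] at h3
    have h4 : (0.5:ℝ) ≤ Real.log 2 := by
      have := Real.log_two_gt_d9
      linarith
    push_cast at h3 ⊢
    have h5 : (Nat.log 2 (n ^ 3) : ℝ) * 0.5 ≤ Nat.log 2 (n ^ 3) * Real.log 2 := by gcongr
    linarith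

/-- one level set -/
theorem levelG {d k : ℕ} {α : ℝ} (hα : 1 ≤ α) (hα2 : α ≤ 2) (hk : 1 ≤ k) (h : Shp d k α) (K : ℕ)
    {ε : ℝ} (hε : 0 < ε) : ∃ C : ℝ, 1 ≤ C ∧ ∀ (N : ℝ), 1 ≤ N → ∀ (ι : Type) [Fintype ι]
      [Nonempty ι] (θ : ι → Cap d) (c : ι → Sp d),
      (∀ z : Fin d → ℤ, ∀ s : Finset ι, (∀ i ∈ s, cell N (θ i) = z) → s.card ≤ K) →
      ∀ (E : Set (Sp d)) (τ : ℝ), MeasurableSet E → 1 ≤ τ → (∀ x ∈ E, τ ≤ mult N θ c x) →
      ENNReal.ofReal (τ ^ (1 + α / k)) * volume E ≤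
        ENNReal.ofReal (C * (1 + Real.log (Fintype.card ι)) ^ 3 * N ^ ε *
          (Fintype.card ι : ℝ) ^ (1 + (α - 1) / k) * N ^ (d + 2)) := by
  classical
  obtain ⟨C₀, hC₀, hsh⟩ := h K (ε / 2) (by positivity)
  have hd0 : (0:ℝ) < k := by exact_mod_cast hk
  have hd1 : (1:ℝ) ≤ k := by exact_mod_cast hk
  refine ⟨64 * 216 * C₀ ^ 2, by nlinarith, ?_⟩
  intro N hN ι _ _ θ c hK E τ hE hτ hEτ
  have hN0 : 0 ≤ N := by linarith
  have hN1 : 0 < N := by linarith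
  have hn1 : 1 ≤ Fintype.card ι := Fintype.card_pos
  have hτn : ∀ x ∈ E, τ ≤ (Fintype.card ι : ℝ) := fun x hx =>
    (hEτ x hx).trans (mult_le_card N θ c x)
  have hvt0 : ∀ i, volume (tube N (θ i) (c i)) = ENNReal.ofReal (N ^ (d + 2)) := fun i =>
    volume_tube hN0 _ _
  obtain ⟨V, hV⟩ : ∃ V, V = N ^ (d + 2) := ⟨_, rfl⟩
  have hV0 : 0 < V := by rw [hV]; positivity
  rw [← hV]
  simp_rw [← hV] at hvt0
  by_cases hE0 : volume E = 0
  · rw [hE0, mul_zero]; exact bot_le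
  have hEne : E.Nonempty := by
    rw [Set.nonempty_iff_ne_empty]; rintro rfl; exact hE0 measure_empty
  have hτn' : τ ≤ (Fintype.card ι : ℝ) := by
    obtain ⟨x, hx⟩ := hEne
    exact hτn x hx
  have hsub : E ⊆ ⋃ i, tube N (θ i) (c i) := by
    intro x hx
    by_contra hcon
    have h0 : mult N θ c x = 0 := by
      unfold mult
      apply Finset.sum_eq_zero
      intro i _
      apply Set.indicator_of_notMem
      exact fun h => hcon (Set.mem_iUnion.2 ⟨i, h⟩)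
    have := hEτ x hx
    linarith
  have hEtop : volume E ≠ ⊤ := by
    apply ne_top_of_le_ne_top _ ((measure_mono hsub).trans (measure_iUnion_fintype_le _ _))
    simp_rw [hvt0]
    exact (ENNReal.sum_lt_top.2 fun i _ => ENNReal.ofReal_lt_top).ne
  obtain ⟨e, he⟩ : ∃ e, e = (volume E).toReal := ⟨_, rfl⟩
  have heV : volume E = ENNReal.ofReal e := by rw [he, ENNReal.ofReal_toReal hEtop]
  have he0 : 0 < e := by rw [he]; exact ENNReal.toReal_pos hE0 hEtop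
  obtain ⟨t, ht⟩ : ∃ t : ι → ℝ, t = fun i => (volume (tube N (θ i) (c i) ∩ E)).toReal := ⟨_, rfl⟩
  have htV : ∀ i, volume (tube N (θ i) (c i) ∩ E) = ENNReal.ofReal (t i) := by
    intro i
    rw [ht]
    exact (ENNReal.ofReal_toReal (ne_top_of_le_ne_top hEtop (measure_mono Set.inter_subset_right))).symm
  have ht0 : ∀ i, 0 ≤ t i := by intro i; rw [ht]; exact ENNReal.toReal_nonneg
  have htV' : ∀ i, t i ≤ V := by
    intro i
    rw [← ENNReal.ofReal_le_ofReal_iff hV0.le, ← htV, ← hvt0 i]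
    exact measure_mono Set.inter_subset_left
  have hsum : τ * e ≤ ∑ i, t i := by
    rw [← ENNReal.ofReal_le_ofReal_iff (Finset.sum_nonneg fun i _ => ht0 i),
      ENNReal.ofReal_mul (by linarith), ← heV, ENNReal.ofReal_sum_of_nonneg fun i _ => ht0 i]
    simp_rw [← htV]
    rw [← lvG_int, ← setLIntegral_const]
    exact setLIntegral_mono (measurable_mult N θ c).ennreal_ofReal
      fun x hx => ENNReal.ofReal_le_ofReal (hEτ x hx)
  rw [heV, ← ENNReal.ofReal_mul (by positivity)]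
  apply ENNReal.ofReal_le_ofReal
  obtain ⟨n, hn⟩ : ∃ n, n = Fintype.card ι := ⟨_, rfl⟩
  rw [← hn] at hn1 hτn' ⊢
  have hn1' : (1:ℝ) ≤ n := by exact_mod_cast hn1
  obtain ⟨L, hL⟩ : ∃ L, L = Nat.log 2 (n ^ 3) + 4 := ⟨_, rfl⟩
  obtain ⟨hL1, hL2⟩ := lvG_log n hn1
  rw [← hL] at hL1 hL2
  have hLpos : 1 ≤ L := by omega
  have hlog : 0 ≤ Real.log n := Real.log_nonneg hn1'
  have hNε : 1 ≤ N ^ (ε / 2) := Real.one_le_rpow hN (by positivity)
  have hαd : 0 ≤ α / k := by positivity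
  have hαd2 : α / k ≤ 2 := by
    rw [div_le_iff₀ hd0]
    nlinarith
  have hexp : 0 ≤ 1 + (α - 1) / k := by
    have : 0 ≤ (α - 1) / k := div_nonneg (by linarith) hd0.le
    linarith
  have hs := lvG_sum hV0.le htV' L
  rw [← hn] at hs
  have hLL : (1:ℝ) ≤ (L:ℝ) := by exact_mod_cast hLpos
  have hCN : 1 ≤ C₀ * N ^ (ε / 2) := by nlinarith
  have hfin : ∀ X : ℝ, X ≤ 64 * (L:ℝ) ^ 3 * (C₀ * N ^ (ε / 2)) ^ 2 *
      (n:ℝ) ^ (1 + (α - 1) / k) * V →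
      X ≤ 64 * 216 * C₀ ^ 2 * (1 + Real.log n) ^ 3 * N ^ ε * (n:ℝ) ^ (1 + (α - 1) / k) * V := by
    intro X hX
    refine hX.trans ?_
    have e1 : (N ^ (ε / 2)) ^ 2 = N ^ ε := by
      rw [← Real.rpow_natCast, ← Real.rpow_mul hN0]
      congr 1
      push_cast
      ring
    calc 64 * (L:ℝ) ^ 3 * (C₀ * N ^ (ε / 2)) ^ 2 * (n:ℝ) ^ (1 + (α - 1) / k) * V
        ≤ 64 * (6 * (1 + Real.log n)) ^ 3 * (C₀ * N ^ (ε / 2)) ^ 2 *
          (n:ℝ) ^ (1 + (α - 1) / k) * V := by gcongr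
      _ = 64 * 216 * C₀ ^ 2 * (1 + Real.log n) ^ 3 * (N ^ (ε / 2)) ^ 2 *
          (n:ℝ) ^ (1 + (α - 1) / k) * V := by ring
      _ = _ := by rw [e1]
  apply hfin
  by_cases hA : τ * e ≤ 2 * ((n:ℝ) * ((2:ℝ)⁻¹ ^ L * V))
  · -- the small parts dominate
    have h1 : τ * e ≤ V / (4 * n ^ 2) := by
      rw [le_div_iff₀ (by positivity)]
      have h2 : (2:ℝ)⁻¹ ^ L * (8 * (n:ℝ) ^ 3) ≤ 1 := by
        calc (2:ℝ)⁻¹ ^ L * (8 * (n:ℝ) ^ 3) ≤ (2:ℝ)⁻¹ ^ L * 2 ^ L := by gcongr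
          _ = 1 := by rw [← mul_pow]; norm_num
      calc τ * e * (4 * n ^ 2) ≤ 2 * ((n:ℝ) * ((2:ℝ)⁻¹ ^ L * V)) * (4 * n ^ 2) := by gcongr
        _ = (2:ℝ)⁻¹ ^ L * (8 * (n:ℝ) ^ 3) * V := by ring
        _ ≤ 1 * V := by gcongr
        _ = V := one_mul V
    have h3 : τ ^ (α / k) ≤ (n:ℝ) ^ 2 := by
      calc τ ^ (α / k) ≤ τ ^ (2:ℝ) := Real.rpow_le_rpow_of_exponent_le hτ hαd2
        _ = τ ^ 2 := by
          rw [show (2:ℝ) = ((2:ℕ):ℝ) by norm_num, Real.rpow_natCast]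
        _ ≤ (n:ℝ) ^ 2 := by gcongr
    have h4 : τ ^ (1 + α / k) = τ ^ (α / k) * τ := by
      rw [← Real.rpow_add_one (by positivity)]
      congr 1
      ring
    have h5 : (1:ℝ) ≤ (n:ℝ) ^ (1 + (α - 1) / k) := Real.one_le_rpow hn1' hexp
    have h6 : V / 4 ≤ 64 * (L:ℝ) ^ 3 * (C₀ * N ^ (ε / 2)) ^ 2 *
        (n:ℝ) ^ (1 + (α - 1) / k) * V := by
      have h7 : (1:ℝ) ≤ 64 * (L:ℝ) ^ 3 * (C₀ * N ^ (ε / 2)) ^ 2 * (n:ℝ) ^ (1 + (α - 1) / k) := by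
        have h8 : (1:ℝ) ≤ (L:ℝ) ^ 3 := one_le_pow₀ hLL
        have h9 : (1:ℝ) ≤ (C₀ * N ^ (ε / 2)) ^ 2 := one_le_pow₀ hCN
        calc (1:ℝ) = 1 * 1 * 1 * 1 := by norm_num
          _ ≤ 64 * (L:ℝ) ^ 3 * (C₀ * N ^ (ε / 2)) ^ 2 * (n:ℝ) ^ (1 + (α - 1) / k) := by
            gcongr
            norm_num
      nlinarith
    refine le_trans ?_ h6
    calc τ ^ (1 + α / k) * e = τ ^ (α / k) * (τ * e) := by rw [h4]; ring
      _ ≤ (n:ℝ) ^ 2 * (V / (4 * n ^ 2)) := by gcongr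
      _ = V / 4 := by field_simp
  · rw [not_le] at hA
    -- some class carries a large part
    have hB : ∃ l ∈ Finset.range L, τ * e / (2 * L) ≤ ((Finset.univ.filter fun i =>
        (2:ℝ)⁻¹ ^ (l + 1) * V < t i ∧ t i ≤ (2:ℝ)⁻¹ ^ l * V).card : ℝ) * ((2:ℝ)⁻¹ ^ l * V) := by
      by_contra hcon
      push Not at hcon
      have h1 : ∑ l ∈ Finset.range L, ((Finset.univ.filter fun i =>
          (2:ℝ)⁻¹ ^ (l + 1) * V < t i ∧ t i ≤ (2:ℝ)⁻¹ ^ l * V).card : ℝ) * ((2:ℝ)⁻¹ ^ l * V) ≤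
          ∑ l ∈ Finset.range L, τ * e / (2 * L) :=
        Finset.sum_le_sum fun l hl => (hcon l hl).le
      rw [Finset.sum_const, Finset.card_range, nsmul_eq_mul] at h1
      have h2 : (L:ℝ) * (τ * e / (2 * L)) = τ * e / 2 := by field_simp
      rw [h2] at h1
      linarith
    obtain ⟨l, hl, hB⟩ := hB
    obtain ⟨S, hS⟩ : ∃ S, S = (Finset.univ.filter fun i =>
        (2:ℝ)⁻¹ ^ (l + 1) * V < t i ∧ t i ≤ (2:ℝ)⁻¹ ^ l * V) := ⟨_, rfl⟩
    rw [← hS] at hB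
    have hSm : ∀ i ∈ S, (2:ℝ)⁻¹ ^ (l + 1) * V ≤ t i := by
      intro i hi
      rw [hS, Finset.mem_filter] at hi
      exact hi.2.1.le
    have hτe : 0 < τ * e := by positivity
    have hm : 1 ≤ S.card := by
      by_contra h0
      have h1 : S.card = 0 := by omega
      rw [h1, Nat.cast_zero, zero_mul] at hB
      have : 0 < τ * e / (2 * L) := by positivity
      linarith
    have hmn : (S.card : ℝ) ≤ n := by
      rw [hn]
      exact_mod_cast Finset.card_le_univ S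
    have h1 : τ * e ≤ 2 * L * (S.card * ((2:ℝ)⁻¹ ^ l * V)) := by
      rw [div_le_iff₀ (by positivity)] at hB
      linarith
    -- the shading theorem
    have h2 := hsh N ((2:ℝ)⁻¹ ^ (l + 1)) hN (by positivity)
      (pow_le_one₀ (by norm_num) (by norm_num)) S (fun i => θ i) (fun i => c i) E hE
      (by
        intro z s hs
        have h3 := hK z (s.map (Function.Embedding.subtype _)) (by
          intro i hi
          rw [Finset.mem_map] at hi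
          obtain ⟨j, hj, rfl⟩ := hi
          exact hs j hj)
        rwa [Finset.card_map] at h3)
      (by
        intro i
        rw [hvt0, htV, ← ENNReal.ofReal_mul (by positivity)]
        exact ENNReal.ofReal_le_ofReal (hSm _ i.2))
    rw [Fintype.card_coe, ← hV] at h2
    have h3 : (2:ℝ)⁻¹ ^ l / 2 * (((2:ℝ)⁻¹ ^ l / 2) ^ k * (S.card:ℝ)) ^ (1 / α) * V ≤
        C₀ * N ^ (ε / 2) * e := by
      have e2 : (2:ℝ)⁻¹ ^ l / 2 = (2:ℝ)⁻¹ ^ (l + 1) := by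
        rw [pow_succ]
        ring
      rw [e2, ← ENNReal.ofReal_le_ofReal_iff (by positivity),
        ENNReal.ofReal_mul (by positivity : (0:ℝ) ≤ C₀ * N ^ (ε / 2)), ← heV]
      refine h2.trans ?_
      gcongr
      exact Set.inter_subset_left
    exact lvR (a := (2:ℝ)⁻¹ ^ l) hτ he0 hV0 hα hα2 hk hCN (by positivity) hm hmn hLpos h1 h3

end Pool.Agent.MPac5134.KX
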