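import Pool.Agent.Lib.MP_ac5134_an.KX.Defs
import Pool.Agent.Lib.MP_ac5134_an.KX.LvR
import Pool.Agent.Lib.MP_ac5134_an.KH.Lp

/-!
# KX-LvX: one level set of the multiplicity

PROOF.  As `level` in `KH/Lp.lean` (copy the private lemmas `lvl_pt`, `lvl_sum`, `lp_card`), with `Shp` instead of `shade`.
`V = N^(d+2)`, `n = |ι| ≤ K (4 N) ^ d`, `P = 1 + α / d ≤ 3`, `L = ⌈3 log₂ n⌉₊ + 2`, so `2 ^ L ≥ 2 n ^ 3`.  `|E| = e < ∞`, may be
assumed positive, `τ e ≤ ∑ |T_i ∩ E|`, `τ ≤ n`.  If the tubes with `|T_i ∩ E| ≤ 2^-L V` contribute at least half of `τ e`: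
`τ ^ P e ≤ n ^ 2 * 2 n 2^-L V ≤ V`.  Otherwise there is `l < L` with `τ e ≤ 2 L |I_l| 2^-l V`, and `Shp` (with `ε / 4`) for `I_l`,
`lam = 2^-(l+1)`; `lvR` with `C N ^ (ε / 4)` for its `C` and `a = 2^-l` gives
`τ ^ P e ≤ 64 L ^ 3 (C N ^ (ε/4)) ^ 2 (K (4 N) ^ d) ^ (1 + (α - 1) / d) V`, `L ^ 3 ≤ C' N ^ (ε / 2)`,
`(K (4 N) ^ d) ^ (1 + (α - 1) / d) ≤ (K 4 ^ d) ^ 2 N ^ (d + α - 1)` (`1 + (α - 1) / d ≤ 2`), `V = N^(d+2)`.
-/

open MeasureTheory
open scoped ENNReal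

namespace Pool.Agent.MPac5134.KX

open Pool.Agent.MPac5134.KH

/-- dyadic classes of a number -/
private theorem lvl_pt {t V : ℝ} (ht : t ≤ V) (L : ℕ) :
    t ≤ (2:ℝ)⁻¹ ^ L * V ∨
      ∃ l < L, (2:ℝ)⁻¹ ^ (l + 1) * V < t ∧ t ≤ (2:ℝ)⁻¹ ^ l * V := by
  induction L with
  | zero => left; simpa using ht
  | succ L ih =>
    rcases ih with h | ⟨l, hl, h⟩
    · by_cases h2 : t ≤ (2:ℝ)⁻¹ ^ (L + 1) * V
      · left; exact h2
      · right
        exact ⟨L, Nat.lt_succ_self L, not_le.1 h2, h⟩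
    · right; exact ⟨l, Nat.lt_succ_of_lt hl, h⟩

open Classical in
private theorem lvl_sum {ι : Type} [Fintype ι] {t : ι → ℝ} {V : ℝ} (hV : 0 ≤ V)
    (ht : ∀ i, t i ≤ V) (L : ℕ) :
    ∑ i, t i ≤ Fintype.card ι * ((2:ℝ)⁻¹ ^ L * V) +
      ∑ l ∈ Finset.range L, ((Finset.univ.filter fun i =>
        (2:ℝ)⁻¹ ^ (l + 1) * V < t i ∧ t i ≤ (2:ℝ)⁻¹ ^ l * V).card : ℝ) * ((2:ℝ)⁻¹ ^ l * V) := by
  have key : ∀ i, t i ≤ (2:ℝ)⁻¹ ^ L * V + ∑ l ∈ Finset.range L,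
      (if (2:ℝ)⁻¹ ^ (l + 1) * V < t i ∧ t i ≤ (2:ℝ)⁻¹ ^ l * V then (2:ℝ)⁻¹ ^ l * V else 0) := by
    intro i
    have hnn : ∀ l ∈ Finset.range L, (0:ℝ) ≤
        (if (2:ℝ)⁻¹ ^ (l + 1) * V < t i ∧ t i ≤ (2:ℝ)⁻¹ ^ l * V then (2:ℝ)⁻¹ ^ l * V else 0) := by
      intro l _
      split_ifs
      · positivity
      · exact le_rfl
    rcases lvl_pt (ht i) L with h | ⟨l, hl, h⟩
    · have := Finset.sum_nonneg hnn
      linarith
    · have h1 := Finset.single_le_sum hnn (Finset.mem_range.2 hl)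
      rw [if_pos h] at h1
      have : 0 ≤ (2:ℝ)⁻¹ ^ L * V := by positivity
      linarith [h.2]
  calc ∑ i, t i ≤ ∑ i, ((2:ℝ)⁻¹ ^ L * V + ∑ l ∈ Finset.range L,
      (if (2:ℝ)⁻¹ ^ (l + 1) * V < t i ∧ t i ≤ (2:ℝ)⁻¹ ^ l * V then (2:ℝ)⁻¹ ^ l * V else 0)) :=
        Finset.sum_le_sum fun i _ => key i
    _ = _ := by
        rw [Finset.sum_add_distrib, Finset.sum_comm]
        congr 1
        · rw [Finset.sum_const, Finset.card_univ, nsmul_eq_mul]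
        · apply Finset.sum_congr rfl
          intro l _
          rw [← Finset.sum_filter, Finset.sum_const, nsmul_eq_mul]

private theorem lvl_int {d : ℕ} {ι : Type} [Fintype ι] (N : ℝ) (θ : ι → Cap d) (c : ι → Sp d)
    (G : Set (Sp d)) :
    ∫⁻ x in G, ENNReal.ofReal (mult N θ c x) = ∑ i, volume (tube N (θ i) (c i) ∩ G) := by
  unfold mult
  have e1 : ∀ x : Sp d,
      ENNReal.ofReal (∑ i, (tube N (θ i) (c i)).indicator (fun _ => (1:ℝ)) x) =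
      ∑ i, (tube N (θ i) (c i)).indicator (fun _ => (1:ℝ≥0∞)) x := by
    intro x
    rw [ENNReal.ofReal_sum_of_nonneg
      (fun i _ => Set.indicator_nonneg (fun _ _ => zero_le_one) _)]
    apply Finset.sum_congr rfl; intro i _
    by_cases h : x ∈ tube N (θ i) (c i)
    · rw [Set.indicator_of_mem h, Set.indicator_of_mem h, ENNReal.ofReal_one]
    · rw [Set.indicator_of_notMem h, Set.indicator_of_notMem h, ENNReal.ofReal_zero]
  simp_rw [e1]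
  rw [lintegral_finsetSum _ fun i _ => measurable_const.indicator (measurableSet_tube _ _ _)]
  apply Finset.sum_congr rfl
  intro i _
  rw [lintegral_indicator_const (measurableSet_tube _ _ _), one_mul,
    Measure.restrict_apply (measurableSet_tube _ _ _)]

private theorem lp_card {d : ℕ} {N : ℝ} (hN : 1 ≤ N) (K : ℕ) {ι : Type} [Fintype ι]
    (θ : ι → Cap d)
    (hK : ∀ z : Fin d → ℤ, ∀ s : Finset ι, (∀ i ∈ s, cell N (θ i) = z) → s.card ≤ K) :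
    (Fintype.card ι : ℝ) ≤ K * (4 * N) ^ d := by
  classical
  have hN0 : 0 < N := by linarith
  have h1 : (Finset.univ : Finset ι).card ≤
      K * ((Finset.univ : Finset ι).image fun i => cell N (θ i)).card := by
    apply Finset.card_le_mul_card_image
    intro a _
    exact hK a _ fun i hi => (Finset.mem_filter.1 hi).2
  have h2 : ((Finset.univ : Finset ι).image fun i => cell N (θ i)) ⊆
      Fintype.piFinset fun _ : Fin d => Finset.Icc ⌊-N⌋ ⌊N⌋ := by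
    intro z hz
    rw [Finset.mem_image] at hz
    obtain ⟨i, -, rfl⟩ := hz
    rw [Fintype.mem_piFinset]
    intro k
    have h3 : |(θ i).foot k| ≤ 1 := by
      have h4 := (θ i).foot_mem
      have h5 : (θ i).foot k ^ 2 ≤ ∑ j, (θ i).foot j ^ 2 :=
        Finset.single_le_sum (f := fun j => (θ i).foot j ^ 2) (fun j _ => sq_nonneg _)
          (Finset.mem_univ k)
      rw [← sq_le_one_iff_abs_le_one]
      linarith
    rw [abs_le] at h3
    rw [Finset.mem_Icc]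
    constructor
    · apply Int.floor_le_floor
      nlinarith [h3.1]
    · apply Int.floor_le_floor
      nlinarith [h3.2]
  have h3 := Finset.card_le_card h2
  rw [Fintype.card_piFinset_const, Int.card_Icc] at h3
  have h4 : (((⌊N⌋ + 1 - ⌊-N⌋).toNat : ℕ) : ℝ) ≤ 4 * N := by
    have h5 : (0 : ℤ) ≤ ⌊N⌋ + 1 - ⌊-N⌋ := by
      have : ⌊-N⌋ ≤ ⌊N⌋ := Int.floor_le_floor (by linarith)
      omega
    have h6 : (((⌊N⌋ + 1 - ⌊-N⌋).toNat : ℕ) : ℝ) = ((⌊N⌋ + 1 - ⌊-N⌋ : ℤ) : ℝ) := by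
      have : (((⌊N⌋ + 1 - ⌊-N⌋).toNat : ℕ) : ℤ) = ⌊N⌋ + 1 - ⌊-N⌋ := Int.toNat_of_nonneg h5
      exact_mod_cast this
    rw [h6]
    push_cast
    have h7 := Int.floor_le N
    have h8 := Int.lt_floor_add_one (-N)
    linarith
  have h5 : (((Finset.univ : Finset ι).image fun i => cell N (θ i)).card : ℝ) ≤ (4 * N) ^ d := by
    calc (((Finset.univ : Finset ι).image fun i => cell N (θ i)).card : ℝ)
        ≤ (((⌊N⌋ + 1 - ⌊-N⌋).toNat ^ d : ℕ) : ℝ) := by exact_mod_cast h3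
      _ ≤ _ := by
          push_cast
          gcongr
  rw [Finset.card_univ] at h1
  calc (Fintype.card ι : ℝ)
      ≤ ((K * ((Finset.univ : Finset ι).image fun i => cell N (θ i)).card : ℕ) : ℝ) := by
        exact_mod_cast h1
    _ ≤ _ := by
        push_cast
        gcongr


private theorem lvx_log (n : ℕ) (hn : 1 ≤ n) :
    2 * (n:ℝ) ^ 3 ≤ 2 ^ (Nat.log 2 (n ^ 3) + 2) ∧
      ((Nat.log 2 (n ^ 3) + 2 : ℕ) : ℝ) ≤ 6 * (1 + Real.log n) := by
  have hn1 : (1:ℝ) ≤ n := by exact_mod_cast hn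
  have hn2 : n ^ 3 ≠ 0 := by positivity
  constructor
  · have h1 : n ^ 3 < 2 ^ (Nat.log 2 (n ^ 3)).succ := Nat.lt_pow_succ_log_self (by norm_num) _
    have h2 : (n:ℝ) ^ 3 < 2 ^ (Nat.log 2 (n ^ 3) + 1) := by exact_mod_cast h1
    calc 2 * (n:ℝ) ^ 3 ≤ 2 * 2 ^ (Nat.log 2 (n ^ 3) + 1) := by linarith
      _ = 2 ^ (Nat.log 2 (n ^ 3) + 2) := by ring
  · have h1 : 2 ^ Nat.log 2 (n ^ 3) ≤ n ^ 3 := Nat.pow_log_le_self 2 hn2
    have h2 : (2:ℝ) ^ Nat.log 2 (n ^ 3) ≤ (n:ℝ) ^ 3 := by exact_mod_cast h1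
    have h3 := Real.log_le_log (by positivity) h2
    rw [Real.log_pow, Real.log_pow] at h3
    have h4 : (0.5:ℝ) ≤ Real.log 2 := by
      have := Real.log_two_gt_d9
      linarith
    push_cast at h3 ⊢
    have h5 : (Nat.log 2 (n ^ 3) : ℝ) * 0.5 ≤ Nat.log 2 (n ^ 3) * Real.log 2 := by gcongr
    linarith

theorem levelX {d : ℕ} {α : ℝ} (hα : 1 ≤ α) (hα2 : α ≤ 2) (hd : 1 ≤ d) (h : Shp d d α) (K : ℕ)
    {ε : ℝ} (hε : 0 < ε) : ∃ C : ℝ, 1 ≤ C ∧ ∀ (N : ℝ), 1 ≤ N → ∀ (ι : Type) [Fintype ι]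
      (θ : ι → Cap d) (c : ι → Sp d),
      (∀ z : Fin d → ℤ, ∀ s : Finset ι, (∀ i ∈ s, cell N (θ i) = z) → s.card ≤ K) →
      ∀ (τ : ℝ) (E : Set (Sp d)), MeasurableSet E → 1 ≤ τ → (∀ x ∈ E, τ ≤ mult N θ c x) →
      ENNReal.ofReal (τ ^ (1 + α / d)) * volume E ≤
        ENNReal.ofReal (C * N ^ (ε + (2 * d + 1 + α))) := by
  classical
  obtain ⟨C₀, hC₀, hsh⟩ := h K (ε / 4) (by positivity)
  obtain ⟨D, hD⟩ : ∃ D : ℝ, D = ((K:ℝ) + 1) * 4 ^ d := ⟨_, rfl⟩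
  have hKn : (0:ℝ) ≤ K := Nat.cast_nonneg K
  have hD1 : 1 ≤ D := by
    rw [hD]
    have h1 : (1:ℝ) ≤ 4 ^ d := one_le_pow₀ (by norm_num)
    nlinarith
  have hD0 : 0 < D := by linarith
  have hlogD : 0 ≤ Real.log D := Real.log_nonneg hD1
  obtain ⟨A, hA⟩ : ∃ A : ℝ, A = 6 * (1 + Real.log D + d / (ε / 6)) := ⟨_, rfl⟩
  have hA1 : 1 ≤ A := by
    rw [hA]
    have : (0:ℝ) ≤ d / (ε / 6) := by positivity
    linarith
  have hA0 : 0 < A := by linarith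
  have hd1 : (1:ℝ) ≤ d := by exact_mod_cast hd
  have hd0 : (0:ℝ) < d := by linarith
  have hCC : (1:ℝ) ≤ 64 * A ^ 3 * C₀ ^ 2 * D ^ 2 := by
    have h1 : (1:ℝ) ≤ A ^ 3 := one_le_pow₀ hA1
    have h2 : (1:ℝ) ≤ C₀ ^ 2 := one_le_pow₀ hC₀
    have h3 : (1:ℝ) ≤ D ^ 2 := one_le_pow₀ hD1
    calc (1:ℝ) = 1 * 1 * 1 * 1 := by norm_num
      _ ≤ 64 * A ^ 3 * C₀ ^ 2 * D ^ 2 := by gcongr; norm_num
  refine ⟨64 * A ^ 3 * C₀ ^ 2 * D ^ 2, hCC, ?_⟩
  intro N hN ι _ θ c hK τ E hE hτ hEτ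
  have hN0 : 0 ≤ N := by linarith
  have hN1 : 0 < N := by linarith
  have hτ0 : 0 < τ := by linarith
  have hvt0 : ∀ i, volume (tube N (θ i) (c i)) = ENNReal.ofReal (N ^ (d + 2)) := fun i =>
    volume_tube hN0 _ _
  obtain ⟨V, hV⟩ : ∃ V, V = N ^ (d + 2) := ⟨_, rfl⟩
  have hV0 : 0 < V := by rw [hV]; positivity
  simp_rw [← hV] at hvt0
  by_cases hE0 : volume E = 0
  · rw [hE0, mul_zero]; exact bot_le
  have hEne : E.Nonempty := by
    rw [Set.nonempty_iff_ne_empty]; rintro rfl; exact hE0 measure_empty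
  have hτn' : τ ≤ (Fintype.card ι : ℝ) := by
    obtain ⟨x, hx⟩ := hEne
    exact (hEτ x hx).trans (mult_le_card N θ c x)
  have hsub : E ⊆ ⋃ i, tube N (θ i) (c i) := by
    intro x hx
    by_contra hcon
    have h0 : mult N θ c x = 0 := by
      unfold mult
      apply Finset.sum_eq_zero
      intro i _
      apply Set.indicator_of_notMem
      exact fun h => hcon (Set.mem_iUnion.2 ⟨i, h⟩)
    have := hEτ x hx
    linarith
  have hEtop : volume E ≠ ⊤ := by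
    apply ne_top_of_le_ne_top _ ((measure_mono hsub).trans (measure_iUnion_fintype_le _ _))
    simp_rw [hvt0]
    exact (ENNReal.sum_lt_top.2 fun i _ => ENNReal.ofReal_lt_top).ne
  obtain ⟨e, he⟩ : ∃ e, e = (volume E).toReal := ⟨_, rfl⟩
  have heV : volume E = ENNReal.ofReal e := by rw [he, ENNReal.ofReal_toReal hEtop]
  have he0 : 0 < e := by rw [he]; exact ENNReal.toReal_pos hE0 hEtop
  obtain ⟨t, ht⟩ : ∃ t : ι → ℝ, t = fun i => (volume (tube N (θ i) (c i) ∩ E)).toReal := ⟨_, rfl⟩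
  have htV : ∀ i, volume (tube N (θ i) (c i) ∩ E) = ENNReal.ofReal (t i) := by
    intro i
    rw [ht]
    exact (ENNReal.ofReal_toReal (ne_top_of_le_ne_top hEtop (measure_mono Set.inter_subset_right))).symm
  have ht0 : ∀ i, 0 ≤ t i := by intro i; rw [ht]; exact ENNReal.toReal_nonneg
  have htV' : ∀ i, t i ≤ V := by
    intro i
    rw [← ENNReal.ofReal_le_ofReal_iff hV0.le, ← htV, ← hvt0 i]
    exact measure_mono Set.inter_subset_left
  have hsum : τ * e ≤ ∑ i, t i := by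
    rw [← ENNReal.ofReal_le_ofReal_iff (Finset.sum_nonneg fun i _ => ht0 i),
      ENNReal.ofReal_mul (by linarith), ← heV, ENNReal.ofReal_sum_of_nonneg fun i _ => ht0 i]
    simp_rw [← htV]
    rw [← lvl_int, ← setLIntegral_const]
    exact setLIntegral_mono (measurable_mult N θ c).ennreal_ofReal
      fun x hx => ENNReal.ofReal_le_ofReal (hEτ x hx)
  rw [heV, ← ENNReal.ofReal_mul (by positivity)]
  apply ENNReal.ofReal_le_ofReal
  have hcard := lp_card hN K θ hK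
  obtain ⟨n, hn⟩ : ∃ n, n = Fintype.card ι := ⟨_, rfl⟩
  rw [← hn] at hτn' hcard
  have hn1' : (1:ℝ) ≤ n := by linarith
  have hn1 : 1 ≤ n := by exact_mod_cast hn1'
  have hnD : (n:ℝ) ≤ D * N ^ d := by
    refine hcard.trans ?_
    rw [mul_pow, ← mul_assoc, hD]
    gcongr
    linarith
  obtain ⟨L, hL⟩ : ∃ L, L = Nat.log 2 (n ^ 3) + 2 := ⟨_, rfl⟩
  obtain ⟨hL1, hL2⟩ := lvx_log n hn1
  rw [← hL] at hL1 hL2
  have hLpos : 1 ≤ L := by omega
  have hLL : (1:ℝ) ≤ (L:ℝ) := by exact_mod_cast hLpos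
  have hNp : ∀ s : ℝ, 0 ≤ s → (1:ℝ) ≤ N ^ s := fun s hs => Real.one_le_rpow hN hs
  -- the bound of `L`
  have hLb : (L:ℝ) ≤ A * N ^ (ε / 6) := by
    have h1 : Real.log n ≤ Real.log D + d * Real.log N := by
      have h2 := Real.log_le_log (by linarith) hnD
      rwa [Real.log_mul (by positivity) (by positivity), Real.log_pow] at h2
    have h2 : Real.log N ≤ N ^ (ε / 6) / (ε / 6) := Real.log_le_rpow_div hN0 (by positivity)
    have h3 := hNp (ε / 6) (by positivity)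
    calc (L:ℝ) ≤ 6 * (1 + Real.log n) := hL2
      _ ≤ 6 * (1 + (Real.log D + d * (N ^ (ε / 6) / (ε / 6)))) := by
          have := mul_le_mul_of_nonneg_left h2 hd0.le
          linarith
      _ = 6 * ((1 + Real.log D) * 1 + d / (ε / 6) * N ^ (ε / 6)) := by ring
      _ ≤ 6 * ((1 + Real.log D) * N ^ (ε / 6) + d / (ε / 6) * N ^ (ε / 6)) := by gcongr
      _ = A * N ^ (ε / 6) := by rw [hA]; ring
  have hL3 : (L:ℝ) ^ 3 ≤ A ^ 3 * N ^ (ε / 2) := by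
    calc (L:ℝ) ^ 3 ≤ (A * N ^ (ε / 6)) ^ 3 := by gcongr
      _ = A ^ 3 * N ^ (ε / 2) := by
          rw [mul_pow, ← Real.rpow_mul_natCast hN0]
          congr 2
          push_cast
          ring
  have hP1 : 0 ≤ (α - 1) / d := div_nonneg (by linarith) hd0.le
  have hP2 : (α - 1) / d ≤ 1 := by
    rw [div_le_one hd0]
    linarith
  have hDN : (D * N ^ d) ^ (1 + (α - 1) / d) ≤ D ^ 2 * N ^ ((d:ℝ) + (α - 1)) := by
    rw [Real.mul_rpow hD0.le (by positivity)]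
    have h1 : D ^ (1 + (α - 1) / d) ≤ D ^ 2 := by
      rw [← Real.rpow_natCast D 2]
      apply Real.rpow_le_rpow_of_exponent_le hD1
      push_cast
      linarith
    have h2 : (N ^ d) ^ (1 + (α - 1) / d) = N ^ ((d:ℝ) + (α - 1)) := by
      rw [← Real.rpow_natCast N d, ← Real.rpow_mul hN0]
      congr 1
      field_simp
    rw [h2]
    gcongr
  have hexp : N ^ (ε / 2) * (N ^ (ε / 4)) ^ 2 * N ^ ((d:ℝ) + (α - 1)) * V =
      N ^ (ε + (2 * d + 1 + α)) := by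
    rw [hV, ← Real.rpow_natCast N (d + 2), ← Real.rpow_mul_natCast hN0, ← Real.rpow_add hN1,
      ← Real.rpow_add hN1, ← Real.rpow_add hN1]
    congr 1
    push_cast
    ring
  have hs := lvl_sum hV0.le htV' L
  rw [← hn] at hs
  by_cases hA : τ * e ≤ 2 * ((n:ℝ) * ((2:ℝ)⁻¹ ^ L * V))
  · -- the small parts dominate
    have hP3 : 0 ≤ α / d := div_nonneg (by linarith) hd0.le
    have hP4 : α / d ≤ 2 := by
      rw [div_le_iff₀ hd0]
      nlinarith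
    have h3 : τ ^ (α / d) ≤ (n:ℝ) ^ 2 := by
      calc τ ^ (α / d) ≤ τ ^ (2:ℝ) := Real.rpow_le_rpow_of_exponent_le hτ hP4
        _ = τ ^ 2 := by
          rw [show (2:ℝ) = ((2:ℕ):ℝ) by norm_num, Real.rpow_natCast]
        _ ≤ (n:ℝ) ^ 2 := by gcongr
    have h4 : τ ^ (1 + α / d) = τ ^ (α / d) * τ := by
      rw [← Real.rpow_add_one hτ0.ne']
      congr 1
      ring
    have h2 : (2:ℝ)⁻¹ ^ L * (2 * (n:ℝ) ^ 3) ≤ 1 := by
      calc (2:ℝ)⁻¹ ^ L * (2 * (n:ℝ) ^ 3) ≤ (2:ℝ)⁻¹ ^ L * 2 ^ L := by gcongr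
        _ = 1 := by rw [← mul_pow]; norm_num
    calc τ ^ (1 + α / d) * e = τ ^ (α / d) * (τ * e) := by rw [h4]; ring
      _ ≤ (n:ℝ) ^ 2 * (2 * ((n:ℝ) * ((2:ℝ)⁻¹ ^ L * V))) := by gcongr
      _ = (2:ℝ)⁻¹ ^ L * (2 * (n:ℝ) ^ 3) * V := by ring
      _ ≤ 1 * V := by gcongr
      _ = 1 * N ^ ((d + 2 : ℕ) : ℝ) := by rw [hV, Real.rpow_natCast]
      _ ≤ (64 * A ^ 3 * C₀ ^ 2 * D ^ 2) * N ^ (ε + (2 * d + 1 + α)) := by
          gcongr
          push_cast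
          linarith
  · rw [not_le] at hA
    -- some class carries a large part
    have hB : ∃ l ∈ Finset.range L, τ * e / (2 * L) ≤ ((Finset.univ.filter fun i =>
        (2:ℝ)⁻¹ ^ (l + 1) * V < t i ∧ t i ≤ (2:ℝ)⁻¹ ^ l * V).card : ℝ) * ((2:ℝ)⁻¹ ^ l * V) := by
      by_contra hcon
      push Not at hcon
      have h1 : ∑ l ∈ Finset.range L, ((Finset.univ.filter fun i =>
          (2:ℝ)⁻¹ ^ (l + 1) * V < t i ∧ t i ≤ (2:ℝ)⁻¹ ^ l * V).card : ℝ) * ((2:ℝ)⁻¹ ^ l * V) ≤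
          ∑ l ∈ Finset.range L, τ * e / (2 * L) :=
        Finset.sum_le_sum fun l hl => (hcon l hl).le
      rw [Finset.sum_const, Finset.card_range, nsmul_eq_mul] at h1
      have h2 : (L:ℝ) * (τ * e / (2 * L)) = τ * e / 2 := by field_simp
      rw [h2] at h1
      linarith
    obtain ⟨l, hl, hB⟩ := hB
    obtain ⟨S, hS⟩ : ∃ S, S = (Finset.univ.filter fun i =>
        (2:ℝ)⁻¹ ^ (l + 1) * V < t i ∧ t i ≤ (2:ℝ)⁻¹ ^ l * V) := ⟨_, rfl⟩
    rw [← hS] at hB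
    have hSm : ∀ i ∈ S, (2:ℝ)⁻¹ ^ (l + 1) * V ≤ t i := by
      intro i hi
      rw [hS, Finset.mem_filter] at hi
      exact hi.2.1.le
    have hτe : 0 < τ * e := by positivity
    have hm : 1 ≤ S.card := by
      by_contra h0
      have h1 : S.card = 0 := by omega
      rw [h1, Nat.cast_zero, zero_mul] at hB
      have : 0 < τ * e / (2 * L) := by positivity
      linarith
    have hmn : S.card ≤ n := by rw [hn]; exact Finset.card_le_univ S
    have h1 : τ * e ≤ 2 * L * (S.card * ((2:ℝ)⁻¹ ^ l * V)) := by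
      rw [div_le_iff₀ (by positivity)] at hB
      linarith
    -- the shading theorem
    have h2 := hsh N ((2:ℝ)⁻¹ ^ (l + 1)) hN (by positivity)
      (pow_le_one₀ (by norm_num) (by norm_num)) S (fun i => θ i) (fun i => c i) E hE
      (by
        intro z s hs
        have h3 := hK z (s.map (Function.Embedding.subtype _)) (by
          intro i hi
          rw [Finset.mem_map] at hi
          obtain ⟨j, hj, rfl⟩ := hi
          exact hs j hj)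
        rwa [Finset.card_map] at h3)
      (by
        intro i
        rw [hvt0, htV, ← ENNReal.ofReal_mul (by positivity)]
        exact ENNReal.ofReal_le_ofReal (hSm _ i.2))
    rw [Fintype.card_coe, ← hV] at h2
    have hhalf : (2:ℝ)⁻¹ ^ l / 2 = (2:ℝ)⁻¹ ^ (l + 1) := by rw [pow_succ]; ring
    have hCN1 : (1:ℝ) ≤ C₀ * N ^ (ε / 4) := by
      have := hNp (ε / 4) (by positivity)
      nlinarith
    have h3 : (2:ℝ)⁻¹ ^ l / 2 * (((2:ℝ)⁻¹ ^ l / 2) ^ d * (S.card:ℝ)) ^ (1 / α) * V ≤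
        C₀ * N ^ (ε / 4) * e := by
      rw [hhalf, ← ENNReal.ofReal_le_ofReal_iff (by positivity),
        ENNReal.ofReal_mul (p := C₀ * N ^ (ε / 4)) (by positivity), ← heV]
      refine h2.trans ?_
      gcongr
      exact Set.inter_subset_left
    have h4 := lvR (n := D * N ^ d) hτ he0 hV0 hα hα2 hd hCN1 (by positivity) hm
      ((by exact_mod_cast hmn : (S.card:ℝ) ≤ n).trans hnD) hLpos h1 h3
    refine h4.trans ?_
    calc 64 * (L:ℝ) ^ 3 * (C₀ * N ^ (ε / 4)) ^ 2 * (D * N ^ d) ^ (1 + (α - 1) / d) * V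
        ≤ 64 * (A ^ 3 * N ^ (ε / 2)) * (C₀ * N ^ (ε / 4)) ^ 2 *
          (D ^ 2 * N ^ ((d:ℝ) + (α - 1))) * V := by gcongr
      _ = (64 * A ^ 3 * C₀ ^ 2 * D ^ 2) *
          (N ^ (ε / 2) * (N ^ (ε / 4)) ^ 2 * N ^ ((d:ℝ) + (α - 1)) * V) := by ring
      _ = _ := by rw [hexp]

end Pool.Agent.MPac5134.KX
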