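import Pool.Agent.Lib.MP_ac5134_an.KX.ShX

/-!
# KX-ShY: the sharp shading theorem

PROOF.  The proof of `shade` in `KH/Shade.lean` (copy the private lemmas), with `shadeX_win` instead of `shade_win` and
`D = 2 d + 4`: `(lam / D) ((lam / D) ^ d n) ^ (1 / α) ≥ D ^ (-(d + 1)) lam (lam ^ d n) ^ (1 / α)`, and
`∑_k (x n_k) ^ (1 / α) ≥ (x ∑_k n_k) ^ (1 / α)`.
-/

open MeasureTheory

namespace Pool.Agent.MPac5134.KX

open Pool.Agent.MPac5134.KH

private theorem shY_rpow_sum {κ : Type*} (S : Finset κ) (f : κ → ℝ) (hf : ∀ k, 0 ≤ f k) {p : ℝ}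
    (hp0 : 0 < p) (hp1 : p ≤ 1) : (∑ k ∈ S, f k) ^ p ≤ ∑ k ∈ S, f k ^ p := by
  classical
  induction S using Finset.induction_on with
  | empty => simp [Real.zero_rpow hp0.ne']
  | insert a S ha ih =>
    rw [Finset.sum_insert ha, Finset.sum_insert ha]
    have h1 : (f a + ∑ k ∈ S, f k) ^ p ≤ f a ^ p + (∑ k ∈ S, f k) ^ p :=
      Real.rpow_add_le_add_rpow (hf a) (Finset.sum_nonneg fun k _ => hf k) hp0.le hp1
    linarith

/-- the windows -/
private def shYW (d : ℕ) (N : ℝ) (m : ℤ) : Set (Sp d) :=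
  {x | (m : ℝ) * N ^ 2 ≤ x (Fin.last d) ∧ x (Fin.last d) < (m : ℝ) * N ^ 2 + N ^ 2}

private theorem shYW_meas (d : ℕ) (N : ℝ) (m : ℤ) : MeasurableSet (shYW d N m) := by
  have hc : Continuous fun x : Sp d => x (Fin.last d) := by fun_prop
  exact (isClosed_le continuous_const hc).measurableSet.inter
    (isOpen_lt hc continuous_const).measurableSet

private theorem shYW_mem {d : ℕ} {N : ℝ} (hN : 1 ≤ N) {m : ℤ} {x : Sp d} :
    x ∈ shYW d N m ↔ ⌊x (Fin.last d) / N ^ 2⌋ = m := by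
  have hN2 : 0 < N ^ 2 := by positivity
  rw [Int.floor_eq_iff, le_div_iff₀ hN2, div_lt_iff₀ hN2]
  constructor
  · rintro ⟨h1, h2⟩
    exact ⟨h1, by linarith⟩
  · rintro ⟨h1, h2⟩
    exact ⟨h1, by linarith⟩

private theorem shYW_pick {d : ℕ} {N lam : ℝ} (hN : 1 ≤ N) (hlam : 0 < lam) (θ : Cap d) (c : Sp d)
    (E : Set (Sp d))
    (h : ENNReal.ofReal lam * volume (tube N θ c) ≤ volume (tube N θ c ∩ E)) :
    ∃ m : ℤ, ENNReal.ofReal (lam / (2 * d + 4) * N ^ (d + 2)) ≤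
      volume (tube N θ c ∩ E ∩ shYW d N m) := by
  classical
  by_contra hcon
  push Not at hcon
  have hN2 : 0 < N ^ 2 := by positivity
  obtain ⟨a, ha⟩ : ∃ a : ℤ, a = ⌊c (Fin.last d) / N ^ 2⌋ := ⟨_, rfl⟩
  obtain ⟨S, hS⟩ : ∃ S : Finset ℤ, S = Finset.Icc (a - (d + 1)) (a + (d + 1)) := ⟨_, rfl⟩
  have hcard : S.card = 2 * d + 3 := by
    rw [hS, Int.card_Icc]
    omega
  have hsub : tube N θ c ∩ E ⊆ ⋃ m ∈ S, tube N θ c ∩ E ∩ shYW d N m := by
    intro x hx
    refine Set.mem_iUnion₂.2 ⟨⌊x (Fin.last d) / N ^ 2⌋, ?_, hx, (shYW_mem hN).2 rfl⟩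
    have h1 := tube_height hN θ c x hx.1
    rw [abs_le] at h1
    rw [hS, Finset.mem_Icc, ha]
    constructor
    · rw [Int.le_floor]
      have h2 := Int.floor_le (c (Fin.last d) / N ^ 2)
      push_cast
      have h3 : (c (Fin.last d) / N ^ 2) - (d + 1) ≤ x (Fin.last d) / N ^ 2 := by
        rw [le_div_iff₀ hN2, sub_mul, div_mul_cancel₀ _ hN2.ne']
        linarith [h1.1]
      linarith
    · rw [← Int.lt_add_one_iff, Int.floor_lt]
      have h2 := Int.lt_floor_add_one (c (Fin.last d) / N ^ 2)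
      push_cast
      have h3 : x (Fin.last d) / N ^ 2 ≤ (c (Fin.last d) / N ^ 2) + (d + 1) := by
        rw [div_le_iff₀ hN2, add_mul, div_mul_cancel₀ _ hN2.ne']
        linarith [h1.2]
      linarith
  have h1 : volume (tube N θ c ∩ E) ≤ ∑ m ∈ S, volume (tube N θ c ∩ E ∩ shYW d N m) :=
    (measure_mono hsub).trans (measure_biUnion_finset_le _ _)
  have h2 : ∑ m ∈ S, volume (tube N θ c ∩ E ∩ shYW d N m) ≤
      ENNReal.ofReal ((2 * d + 3) * (lam / (2 * d + 4) * N ^ (d + 2))) := by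
    refine (Finset.sum_le_card_nsmul _ _ _ fun m _ => (hcon m).le).trans (le_of_eq ?_)
    rw [hcard, nsmul_eq_mul, show (2 * (d : ℝ) + 3) = ((2 * d + 3 : ℕ) : ℝ) by push_cast; ring,
      ENNReal.ofReal_mul (by positivity : (0 : ℝ) ≤ ((2 * d + 3 : ℕ) : ℝ)),
      ENNReal.ofReal_natCast]
  rw [volume_tube (by linarith), ← ENNReal.ofReal_mul hlam.le] at h
  have h3 := h.trans (h1.trans h2)
  rw [ENNReal.ofReal_le_ofReal_iff (by positivity)] at h3
  have h4 : (2 * (d : ℝ) + 3) * (lam / (2 * d + 4) * N ^ (d + 2)) < lam * N ^ (d + 2) := by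
    have h5 : (0 : ℝ) < lam * N ^ (d + 2) := by positivity
    have h6 : (0 : ℝ) < 2 * d + 4 := by positivity
    rw [show (2 * (d : ℝ) + 3) * (lam / (2 * d + 4) * N ^ (d + 2)) =
      (2 * (d : ℝ) + 3) / (2 * d + 4) * (lam * N ^ (d + 2)) by ring]
    have h7 : (2 * (d : ℝ) + 3) / (2 * d + 4) < 1 := by
      rw [div_lt_one h6]
      linarith
    nlinarith
  linarith

private theorem shY_real {e : ℕ} {p lam D n : ℝ} (hp1 : p ≤ 1) (hD : 1 ≤ D)
    (hlam : 0 < lam) (hn : 0 ≤ n) :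
    lam * (lam ^ e * n) ^ p ≤ D ^ (e + 1) * (lam / D * ((lam / D) ^ e * n) ^ p) := by
  have hD0 : 0 < D := by linarith
  have h1 : (lam / D) ^ e * n = (lam ^ e * n) / D ^ e := by
    rw [div_pow]
    ring
  have h5 : 1 ≤ D ^ e := one_le_pow₀ hD
  have h6 : (D ^ e) ^ p ≤ D ^ e := by
    calc (D ^ e) ^ p ≤ (D ^ e) ^ (1 : ℝ) := Real.rpow_le_rpow_of_exponent_le h5 hp1
      _ = D ^ e := Real.rpow_one _
  have h7 : (lam ^ e * n) ^ p / D ^ e ≤ ((lam / D) ^ e * n) ^ p := by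
    rw [h1, Real.div_rpow (by positivity) (by positivity)]
    exact div_le_div_of_nonneg_left (by positivity) (by positivity) h6
  calc lam * (lam ^ e * n) ^ p
      = D ^ (e + 1) * (lam / D * ((lam ^ e * n) ^ p / D ^ e)) := by
        rw [pow_succ]
        field_simp
    _ ≤ _ := by gcongr

theorem shp {d e : ℕ} {α : ℝ} (hα : 1 ≤ α) (hde : d ≤ e) (h : DTp d e α) : Shp d e α := by
  classical
  intro K ε hε
  obtain ⟨C₁, hC₁, hwin⟩ := shadeX_win hα hde h K hε
  obtain ⟨D, hD⟩ : ∃ D : ℕ, D = 2 * d + 4 := ⟨_, rfl⟩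
  have hD1 : 1 ≤ D := by omega
  have hD0 : (0 : ℝ) < D := by exact_mod_cast hD1
  have hD1r : (1 : ℝ) ≤ D := by exact_mod_cast hD1
  have hDr : (D : ℝ) = 2 * d + 4 := by rw [hD]; push_cast; ring
  refine ⟨(D : ℝ) ^ (e + 1) * C₁, ?_, ?_⟩
  · have := one_le_pow₀ (n := e + 1) hD1r
    nlinarith
  intro N lam hN hlam hlam1 ι _ θ c E hE hK hvol
  have hN0 : 0 < N := by linarith
  have hp0 : 0 < 1 / α := by positivity
  have hp1 : 1 / α ≤ 1 := by
    rw [div_le_one (by linarith)]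
    exact hα
  choose m hm using fun i => shYW_pick hN hlam (θ i) (c i) E (hvol i)
  obtain ⟨U, hU⟩ : ∃ U : Set (Sp d), U = E ∩ ⋃ i, tube N (θ i) (c i) := ⟨_, rfl⟩
  have hUm : MeasurableSet U := by
    rw [hU]
    exact hE.inter (MeasurableSet.iUnion fun i => measurableSet_tube _ _ _)
  obtain ⟨S, hS⟩ : ∃ S : Finset ℤ, S = Finset.univ.image m := ⟨_, rfl⟩
  have hone : ∀ k : ℤ, ENNReal.ofReal (lam / D * ((lam / D) ^ e *
      ((Finset.univ.filter fun i => m i = k).card : ℝ)) ^ (1 / α) * N ^ (d + 2)) ≤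
      ENNReal.ofReal (C₁ * N ^ ε) * volume (U ∩ shYW d N k) := by
    intro k
    have h1 := hwin N (lam / D) hN (by positivity)
      ((div_le_one hD0).2 (hlam1.trans hD1r)) {i // m i = k}
      (fun i => θ i) (fun i => c i) E ((k : ℝ) * N ^ 2) hE
      (fun z s hs => by
        have := hK z (s.map (Function.Embedding.subtype _)) (by
          intro i hi
          obtain ⟨j, hj, rfl⟩ := Finset.mem_map.1 hi
          exact hs j hj)
        rwa [Finset.card_map] at this)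
      (fun i => by
        have h2 := hm i
        rw [i.2, ← hDr] at h2
        exact h2)
    rw [Fintype.card_subtype] at h1
    refine h1.trans ?_
    refine mul_le_mul_right (measure_mono ?_) _
    rintro x ⟨⟨hx1, hx2⟩, hx3⟩
    refine ⟨?_, hx3⟩
    rw [hU]
    refine ⟨hx1, ?_⟩
    obtain ⟨i, hi⟩ := Set.mem_iUnion.1 hx2
    exact Set.mem_iUnion.2 ⟨i, hi⟩
  have hcard : (Fintype.card ι : ℝ) =
      ∑ k ∈ S, ((Finset.univ.filter fun i => m i = k).card : ℝ) := by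
    rw [← Nat.cast_sum, hS, ← Finset.card_eq_sum_card_image, Finset.card_univ]
  have hsum : ENNReal.ofReal (lam / D * ((lam / D) ^ e * (Fintype.card ι : ℝ)) ^ (1 / α) *
      N ^ (d + 2)) ≤ ENNReal.ofReal (C₁ * N ^ ε) * volume U := by
    calc ENNReal.ofReal (lam / D * ((lam / D) ^ e * (Fintype.card ι : ℝ)) ^ (1 / α) * N ^ (d + 2))
        ≤ ENNReal.ofReal (∑ k ∈ S, lam / D * ((lam / D) ^ e *
            ((Finset.univ.filter fun i => m i = k).card : ℝ)) ^ (1 / α) * N ^ (d + 2)) := by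
          apply ENNReal.ofReal_le_ofReal
          rw [← Finset.sum_mul, ← Finset.mul_sum, hcard, Finset.mul_sum]
          gcongr
          exact shY_rpow_sum S _ (fun k => by positivity) hp0 hp1
      _ = ∑ k ∈ S, ENNReal.ofReal (lam / D * ((lam / D) ^ e *
            ((Finset.univ.filter fun i => m i = k).card : ℝ)) ^ (1 / α) * N ^ (d + 2)) :=
          ENNReal.ofReal_sum_of_nonneg fun k _ => by positivity
      _ ≤ ∑ k ∈ S, ENNReal.ofReal (C₁ * N ^ ε) * volume (U ∩ shYW d N k) :=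
          Finset.sum_le_sum fun k _ => hone k
      _ = ENNReal.ofReal (C₁ * N ^ ε) * volume (⋃ k ∈ S, U ∩ shYW d N k) := by
          rw [← Finset.mul_sum, measure_biUnion_finset]
          · intro a _ b _ hab
            refine Set.disjoint_left.2 fun x hx hx' => hab ?_
            rw [← (shYW_mem hN).1 hx.2, (shYW_mem hN).1 hx'.2]
          · exact fun k _ => hUm.inter (shYW_meas d N k)
      _ ≤ _ := by
          gcongr
          exact Set.iUnion₂_subset fun k _ => Set.inter_subset_left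
  rw [← hU]
  calc ENNReal.ofReal (lam * (lam ^ e * (Fintype.card ι : ℝ)) ^ (1 / α) * N ^ (d + 2))
      ≤ ENNReal.ofReal ((D : ℝ) ^ (e + 1) * (lam / D * ((lam / D) ^ e *
          (Fintype.card ι : ℝ)) ^ (1 / α) * N ^ (d + 2))) := by
        apply ENNReal.ofReal_le_ofReal
        rw [← mul_assoc]
        have h1 := shY_real (e := e) hp1 hD1r hlam (Nat.cast_nonneg (Fintype.card ι))
        gcongr
    _ = ENNReal.ofReal ((D : ℝ) ^ (e + 1)) * ENNReal.ofReal (lam / D * ((lam / D) ^ e *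
          (Fintype.card ι : ℝ)) ^ (1 / α) * N ^ (d + 2)) := ENNReal.ofReal_mul (by positivity)
    _ ≤ ENNReal.ofReal ((D : ℝ) ^ (e + 1)) * (ENNReal.ofReal (C₁ * N ^ ε) * volume U) := by gcongr
    _ = _ := by
        rw [← mul_assoc, ← ENNReal.ofReal_mul (by positivity)]
        congr 2
        ring

end Pool.Agent.MPac5134.KX
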