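import Pool.Agent.Lib.MP_ac5134_an.KX.Fix
import Pool.Agent.Lib.MP_ac5134_an.KX.DtE
import Pool.Agent.Lib.MP_ac5134_an.KX.ShY
import Pool.Agent.Lib.MP_ac5134_an.KX.LpX

/-!
# KX-Main: the theorem

PROOF.  `sel2_all` gives `k, C₀`; `d₀ = 10 C₀ + 1`; `dtp`, `shp`, `lpX`.
`lam ^ (1 + d / α) * n ^ (1 / α) = lam * (lam ^ d * n) ^ (1 / α)`.
-/

open MeasureTheory

namespace Pool.Agent.MPac5134.KX

open Pool.Agent.MPac5134.KH

theorem main {α : ℝ} (h1 : 1 < α) (h2 : α ≤ 2) (h : 0 < α ^ 3 - 4 * α + 2) :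
    ∃ d₀ : ℕ, 1 ≤ d₀ ∧ ∀ d : ℕ, d₀ ≤ d → ∀ (K : ℕ) (κ ε : ℝ), 0 < κ → 0 < ε →
      ∃ C : ℝ, ∀ (N : ℝ), 1 ≤ N → ∀ (ι : Type) [Fintype ι] (θ : ι → Cap d) (c : ι → Sp d),
        (∀ z : Fin d → ℤ, ∀ s : Finset ι, (∀ i ∈ s, cell N (θ i) = z) → s.card ≤ K) →
        (∀ (lam : ℝ) (E : Set (Sp d)), 0 < lam → lam ≤ 1 → MeasurableSet E →
          (∀ i, ENNReal.ofReal lam * volume (tube N (θ i) (c i)) ≤
            volume (tube N (θ i) (c i) ∩ E)) →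
          ENNReal.ofReal (lam ^ (1 + d / α) * (Fintype.card ι : ℝ) ^ (1 / α) * N ^ (d + 2)) ≤
            ENNReal.ofReal (C * N ^ ε) * volume (E ∩ ⋃ i, tube N (θ i) (c i))) ∧
        (κ * N ^ d ≤ Fintype.card ι → ∀ p : ENNReal, ENNReal.ofReal (1 + α / d) ≤ p →
          eLpNorm (mult N θ c) p volume ≤
            ENNReal.ofReal (C * N ^ ε) * eLpNorm (mult N θ (fun _ => 0)) p volume) := by
  obtain ⟨k, C₀, hsel⟩ := sel2_all h1 h
  refine ⟨10 * C₀ + 1, by omega, ?_⟩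
  intro d hd K κ ε hκ hε
  have hα : 1 ≤ α := h1.le
  have hd1 : 1 ≤ d := by omega
  have hsh : Shp d d α := shp hα le_rfl (dtp hα h2 hsel le_rfl (by omega))
  obtain ⟨C₁, hC₁, hS⟩ := hsh K ε hε
  obtain ⟨C₂, hC₂, hL⟩ := lpX hα h2 hd1 hsh K hκ hε
  refine ⟨max C₁ C₂, ?_⟩
  intro N hN ι _ θ c hK
  have hN0 : 0 < N := by linarith
  have hNε : 0 < N ^ ε := by positivity
  have hm1 : ENNReal.ofReal (C₁ * N ^ ε) ≤ ENNReal.ofReal (max C₁ C₂ * N ^ ε) :=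
    ENNReal.ofReal_le_ofReal (mul_le_mul_of_nonneg_right (le_max_left _ _) hNε.le)
  have hm2 : ENNReal.ofReal (C₂ * N ^ ε) ≤ ENNReal.ofReal (max C₁ C₂ * N ^ ε) :=
    ENNReal.ofReal_le_ofReal (mul_le_mul_of_nonneg_right (le_max_right _ _) hNε.le)
  refine ⟨?_, ?_⟩
  · intro lam E hl hl1 hE hlE
    have h3 := hS N lam hN hl hl1 ι θ c E hE hK hlE
    have e : lam ^ (1 + d / α) * (Fintype.card ι : ℝ) ^ (1 / α) =
        lam * (lam ^ d * Fintype.card ι) ^ (1 / α) := by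
      rw [Real.mul_rpow (by positivity) (by positivity), ← Real.rpow_natCast lam d,
        ← Real.rpow_mul hl.le, Real.rpow_add hl, Real.rpow_one, mul_one_div, mul_assoc]
    rw [e]
    exact h3.trans (by gcongr)
  · intro hκN p hp
    have h3 := hL N hN ι θ c ⟨hK, hκN⟩ p hp
    exact h3.trans (by gcongr)

end Pool.Agent.MPac5134.KX
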