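import Pool.Agent.Lib.MP_ac5134_an.KX.Fix
import Pool.Agent.Lib.MP_ac5134_an.KX.DtE
import Pool.Agent.Lib.MP_ac5134_an.KX.ShY
import Pool.Agent.Lib.MP_ac5134_an.KX.LpW
import Pool.Agent.Lib.MP_ac5134_an.KX.LpZ
import Pool.Agent.Lib.MP_ac5134_an.KX.FsKak

/-!
# KX-MainY: the theorem, all dimensions
-/

open MeasureTheory

namespace Pool.Agent.MPac5134.KX

open Pool.Agent.MPac5134.KH

theorem mainY {α : ℝ} (h1 : 1 < α) (h2 : α ≤ 2) (h : 0 < α ^ 3 - 4 * α + 2) :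
    ∃ d₀ : ℕ, ∀ d e : ℕ, 1 ≤ d → e = max d d₀ →
      (∀ (K : ℕ) (κ ε : ℝ), 0 < κ → 0 < ε → ∃ C : ℝ, ∀ (N : ℝ), 1 ≤ N →
        ∀ (ι : Type) [Fintype ι] (θ : ι → Cap d) (c : ι → Sp d),
        (∀ z : Fin d → ℤ, ∀ s : Finset ι, (∀ i ∈ s, cell N (θ i) = z) → s.card ≤ K) →
        (κ * N ^ d ≤ Fintype.card ι →
          (∀ p : ENNReal, ENNReal.ofReal (1 + α / e) ≤ p →
            eLpNorm (mult N θ c) p volume ≤
              ENNReal.ofReal (C * N ^ (ε + (1 - d / e) / p.toReal)) *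
                eLpNorm (mult N θ (fun _ => 0)) p volume) ∧
          (∀ p : ℝ, 1 ≤ p → p ≤ 1 + α / e →
            eLpNorm (mult N θ c) (ENNReal.ofReal p) volume ≤
              ENNReal.ofReal (C * N ^ (ε + (1 - (p - 1) * d / α) / p)) *
                eLpNorm (mult N θ (fun _ => 0)) (ENNReal.ofReal p) volume)) ∧
        (∀ p : ℝ, 1 ≤ p → p ≤ 1 + α / e →
          eLpNorm (mult N θ c) (ENNReal.ofReal p) volume ≤
            ENNReal.ofReal (C * N ^ (ε + d * (1 - 1 / α) * (1 - 1 / p))) *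
              eLpNorm (mult N θ (fun _ => 0)) (ENNReal.ofReal p) volume) ∧
        (∀ (lam : ℝ) (E : Set (Sp d)), 0 < lam → lam ≤ 1 → MeasurableSet E →
          (∀ i, ENNReal.ofReal lam * volume (tube N (θ i) (c i)) ≤
            volume (tube N (θ i) (c i) ∩ E)) →
          ENNReal.ofReal (lam ^ (1 + e / α) * (Fintype.card ι : ℝ) ^ (1 / α) * N ^ (d + 2)) ≤
            ENNReal.ofReal (C * N ^ ε) * volume (E ∩ ⋃ i, tube N (θ i) (c i)))) ∧
      (∀ (s β : ℝ) (D E : Set (Sp d)), 0 < s → s ≤ 1 → 0 ≤ β → D.Nonempty →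
        (∀ v ∈ D, ‖v‖ = 1) → ENNReal.ofReal β ≤ dimH D →
        (∀ v ∈ D, ∃ x : Sp d, ENNReal.ofReal s ≤ dimH {t : ℝ | x + t • v ∈ E}) →
        ENNReal.ofReal (s + (β - (1 - s) * e) / α) ≤ dimH E) ∧
      (∀ E : Set (Sp d), (∀ v : Sp d, ‖v‖ = 1 → ∃ x, ∀ t : ℝ, 0 ≤ t → t ≤ 1 → x + t • v ∈ E) →
        ENNReal.ofReal (1 + d / α) ≤ dimH E) := by
  obtain ⟨k, C₀, hsel⟩ := sel2_all h1 h
  refine ⟨10 * C₀, ?_⟩
  intro d e hd he
  have hα : 1 ≤ α := h1.le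
  have hde : d ≤ e := by rw [he]; exact le_max_left _ _
  have hCe : 10 * C₀ ≤ e := by rw [he]; exact le_max_right _ _
  have he1 : 1 ≤ e := hd.trans hde
  have hnum : 10 * C₀ + 9 * d ≤ 10 * e := by omega
  have hdt : DTp d e α := dtp hα h2 hsel hde hnum
  have hsh : Shp d e α := shp hα hde hdt
  refine ⟨?_, fun s β D E hs0 hs1 hβ hDn hD1 hD hE =>
    fs_dim hα hdt hs0 hs1 hβ D E hDn hD1 hD hE, fun E hE => fs_kakeya hα hdt E hE⟩
  intro K κ ε hκ hε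
  obtain ⟨C₁, hC₁, hS⟩ := hsh K ε hε
  obtain ⟨C₂, hC₂, hL⟩ := lpW hα h2 he1 hde hsh K hκ hε
  obtain ⟨C₃, hC₃, hZ⟩ := lpZ hα hd hde K hκ hε (lpY_int hα he1 K hε (lpV hα h2 he1 hsh K hε))
    (fun N hN ι _ θ hK => LpV_card hN K θ hK)
  refine ⟨max (max C₁ C₂) C₃, ?_⟩
  intro N hN ι _ θ c hK
  have hN0 : 0 < N := by linarith
  have m1 : C₁ ≤ max (max C₁ C₂) C₃ := (le_max_left _ _).trans (le_max_left _ _)
  have m2 : C₂ ≤ max (max C₁ C₂) C₃ := (le_max_right _ _).trans (le_max_left _ _)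
  have m3 : C₃ ≤ max (max C₁ C₂) C₃ := le_max_right _ _
  refine ⟨fun hκN => ⟨?_, ?_⟩, ?_, ?_⟩
  · intro p hp
    exact (hL N hN ι θ c hK hκN p hp).trans (by gcongr)
  · intro p hp1 hp2
    exact ((hZ N hN ι θ c hK p hp1 hp2).2 hκN).trans (by gcongr)
  · intro p hp1 hp2
    exact (hZ N hN ι θ c hK p hp1 hp2).1.trans (by gcongr)
  · intro lam E hl hl1 hE hlE
    have h3 := hS N lam hN hl hl1 ι θ c E hE hK hlE
    have e' : lam ^ (1 + e / α) * (Fintype.card ι : ℝ) ^ (1 / α) =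
        lam * (lam ^ e * Fintype.card ι) ^ (1 / α) := by
      rw [Real.mul_rpow (by positivity) (by positivity), ← Real.rpow_natCast lam e,
        ← Real.rpow_mul hl.le, Real.rpow_add hl, Real.rpow_one, mul_one_div, mul_assoc]
    rw [e']
    exact h3.trans (by gcongr)

end Pool.Agent.MPac5134.KX
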