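import Pool.Agent.Lib.MP_ac5134_an.KX.JCond

/-!
# KX-RjC: `RJ` and the counting of lines

PROOF.  As `dt_ri` in `KH/DT.lean`: choose one line for every direction in `J.image b`, the uniform law on it
(`ent_uni_inj`), `ent_le_log_card` at every `t ∈ F`, `RJ` with one system (`I = Unit`):
`log |J.image b| ≤ α log T + C`.  And `|J| ≤ K |J.image b|` (`card_le_mul_card_image`), `|J.image b| ≥ 1`, `K ≥ 1`.
-/

open RFold Finset

namespace Pool.Agent.MPac5134.KX

open Pool.Agent.MPac5134.KH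

/-- a set of lines with distinct directions -/
private theorem RjC_img {d N : ℕ} {α C T : ℝ} {F : Finset ℕ} (h : RJ d N α C F)
    {ι : Type} (a b : ι → Fin d → ℤ) (J : Finset ι) (hJ : J.Nonempty)
    (hb : ∀ i k, |(b i k : ℝ)| ≤ N)
    (Y : ℕ → Finset (Fin d → ℤ))
    (hY : ∀ t ∈ F, ∀ i ∈ J, fl (pt (a i) (b i) ((t : ℝ) / N)) ∈ Y t)
    (hT : ∀ t ∈ F, ((Y t).card : ℝ) ≤ T) [DecidableEq (Fin d → ℤ)] :
    Real.log ((J.image b).card) ≤ α * Real.log T + C := by
  classical
  have hsec : ∀ ω : {v // v ∈ J.image b}, ∃ i ∈ J, b i = ω.1 := fun ω => mem_image.mp ω.2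
  choose sec hsJ hsb using hsec
  have hne : Nonempty {v // v ∈ J.image b} := by
    obtain ⟨i, hi⟩ := hJ
    exact ⟨⟨b i, mem_image_of_mem b hi⟩⟩
  let S : LS d {v // v ∈ J.image b} :=
    { p := RFold.uni _
      A := fun ω => a (sec ω)
      B := fun ω => b (sec ω)
      hp := RFold.isPr_uni }
  have hinj : Function.Injective S.B := by
    intro ω ω' h
    have h' : b (sec ω) = b (sec ω') := h
    rw [hsb, hsb] at h'
    exact Subtype.ext h'
  have h1 := h.2 Unit {v // v ∈ J.image b} (fun _ => 1) (fun _ => S) (Real.log T)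
    (fun _ => zero_le_one) (by simp) (fun _ ω j => hb (sec ω) j)
    (by
      intro t ht
      have h2 : S.H ((t : ℝ) / N) ≤ Real.log T := by
        unfold LS.H
        have hm : ∀ ω, S.P ((t : ℝ) / N) ω ∈ Y t := fun ω => hY t ht (sec ω) (hsJ ω)
        have hpos : (0 : ℝ) < (Y t).card := by
          obtain ⟨ω⟩ := hne
          exact_mod_cast card_pos.mpr ⟨_, hm ω⟩
        exact (RFold.ent_le_log_card S.hp _ (Y t) (fun ω _ => hm ω)).trans
          (Real.log_le_log hpos (hT t ht))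
      simpa using h2)
  have h3 : RFold.ent S.p S.B = Real.log ((J.image b).card) := by
    have h4 : RFold.ent (RFold.uni {v // v ∈ J.image b}) S.B =
        Real.log (Fintype.card {v // v ∈ J.image b}) := RFold.ent_uni_inj hinj
    rw [Fintype.card_coe] at h4
    exact h4
  simp only [univ_unique, sum_const, card_singleton, one_smul, one_mul] at h1
  rw [h3] at h1
  exact h1

theorem rj_count {d N K : ℕ} {α C T : ℝ} {F : Finset ℕ} (hα : 0 ≤ α) (h : RJ d N α C F)
    {ι : Type} (a b : ι → Fin d → ℤ) (J : Finset ι) (hJ : J.Nonempty)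
    (hb : ∀ i k, |(b i k : ℝ)| ≤ N)
    (hK : ∀ v : Fin d → ℤ, ∀ s : Finset ι, (∀ i ∈ s, b i = v) → s.card ≤ K)
    (Y : ℕ → Finset (Fin d → ℤ))
    (hY : ∀ t ∈ F, ∀ i ∈ J, fl (pt (a i) (b i) ((t : ℝ) / N)) ∈ Y t)
    (hT : ∀ t ∈ F, ((Y t).card : ℝ) ≤ T) :
    Real.log J.card ≤ α * Real.log T + C + Real.log K := by
  classical
  have h1 := RjC_img h a b J hJ hb Y hY hT
  have h2 : J.card ≤ K * (J.image b).card :=
    card_le_mul_card_image J K fun v _ => hK v _ fun i hi => (mem_filter.mp hi).2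
  have h3 : (J.card : ℝ) ≤ K * ((J.image b).card : ℝ) := by exact_mod_cast h2
  have h4 : (0 : ℝ) < (J.image b).card := by
    exact_mod_cast card_pos.mpr (hJ.image b)
  have h5 : (0 : ℝ) < J.card := by
    exact_mod_cast card_pos.mpr hJ
  have h6 : (0 : ℝ) < K := by
    obtain ⟨i, hi⟩ := hJ
    have h7 : 1 ≤ K := by
      have := hK (b i) {i} (fun j hj => by rw [mem_singleton.mp hj])
      rwa [card_singleton] at this
    exact_mod_cast h7
  have h8 := Real.log_le_log h5 h3
  rw [Real.log_mul h6.ne' h4.ne'] at h8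
  linarith

end Pool.Agent.MPac5134.KX
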