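import Pool.Agent.Lib.MP_ac5134_an.KX.SelP

/-!
# KX-SelJ: selection of a common tree of heights

PROOF (compare `select` in `KH/Sel.lean`, this is simpler: every separated triple is good).  Induction on `n`.
`n = 0`: `k = 3`, `C = 0`, `Γ = 1`: `H = {t₀, u, t₁}`, `J = I`, `ls ≤ 1` (`ls_le_one`).
`n + 1`: `k' = 3 + k₀ + k₀ (k₀ (k + 2))`, `C' = 1 + 2 C₀ + (2 C₀ + C k₀) k₀`.  Let `d` be given, `Γ` from the induction hypothesis,
`Γ₁` from `selP`, `Γ₀` from `h d`.  `η = et q`.  `pop_cX` gives `c`, `J₁` (loss `η ^ 5 lam / 60 = lam / (1920 q ^ 5) ≥ ls 1920 m q 1 lam`)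
with `XC N η (th q lam) (A i) t₀ u t₁ c` for `i ∈ J₁`.  `Sel1` with the density `th q lam` for the sets
`(A i).filter (XP N η (th q lam) (A i) t₀ u t₁ c)`, `i ∈ J₁`, gives `P`, `J₂` (loss and `RJ` as in `SelP`: `ls_dens`, `log_dens`, `th_le`).
`seq_sel` (KH/Seq) over `p ∈ P` with `δ = ls Γ₁ m q (2 C₀ + C k₀) lam` and
`Φ p J = ∃ Q Hp, (∀ i ∈ J, Hp ⊆ A i) ∧ Hp.card ≤ k₀ (k + 2) ∧ Q ⊆ Hp ∧ RJ Q ∧ ∀ q' ∈ Q, ∃ z ∈ Hp, sep .. ∧ Rel .. ∧ TreeJ .. Hp n t₁ z q'`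
(`selP`; it is enough to require `Φ` for `J` a subset of `J₂`): `J`.  `H = {t₀, u, t₁} ∪ P ∪ ⋃ Hp`, `TreeJ.mono`, `RJ.mono`, and from `η`
to `η ^ 4 ≤ η` for `sep` (`sep.mono` in KH/RelA) and `Rel` (`Rel.mono`); `η ^ 4 N ≤ |c|` is in `XC`.  Losses: `ls_mul`, `ls_pow`,
`ls_anti`.
-/

open RFold Finset

namespace Pool.Agent.MPac5134.KX

open Pool.Agent.MPac5134.KH

private theorem selJ_pos {ι : Type} {J J' : Finset ι} {δ : ℝ} (hδ : 0 < δ) (hJ : J.Nonempty)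
    (h : δ * J.card ≤ J'.card) : J'.Nonempty := by
  rw [← Finset.card_pos]
  have h1 : (0 : ℝ) < J.card := by exact_mod_cast hJ.card_pos
  have h2 : (0 : ℝ) < J'.card := (mul_pos hδ h1).trans_le h
  exact_mod_cast h2

private theorem selJ_loss1 {m q : ℕ} {lam : ℝ} (hq : 1 ≤ q) (hl : 0 < lam) :
    ls 1920 m q 1 lam ≤ et q ^ 5 * lam / 60 := by
  have hq0 : (0 : ℝ) < q := by exact_mod_cast hq
  have hq1 : (1 : ℝ) ≤ q := by exact_mod_cast hq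
  have e1 : et q ^ 5 * lam / 60 = lam / (1920 * (q : ℝ) ^ 5) := by
    unfold et
    field_simp
    norm_num
  rw [e1]
  unfold ls
  rw [pow_one]
  refine div_le_div_of_nonneg_left hl.le (by positivity) ?_
  have h1 : (1920 : ℝ) ≤ ((1920 : ℕ) : ℝ) ^ (m + 1) := by
    have := pow_le_pow_right₀ (a := ((1920 : ℕ) : ℝ)) (by norm_num) (show 1 ≤ m + 1 by omega)
    rw [pow_one] at this
    exact_mod_cast this
  have h2 : (q : ℝ) ^ 5 ≤ (q : ℝ) ^ 1920 := pow_le_pow_right₀ hq1 (by norm_num)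
  exact mul_le_mul h1 h2 (by positivity) (by positivity)

private theorem th_pos {q : ℕ} {lam : ℝ} (hq : 1 ≤ q) (hl : 0 < lam) : 0 < th q lam := by
  unfold th
  have := et_pos hq
  positivity

private theorem th_le_one {q : ℕ} {lam : ℝ} (hq : 2 ≤ q) (hl : 0 < lam) (hl1 : lam ≤ 1) :
    th q lam ≤ 1 := by
  unfold th
  have h0 := et_pos (q := q) (by omega)
  have h1 : et q ≤ 1 := (et_le hq).trans (by norm_num)
  have h2 : et q ^ 5 ≤ 1 := pow_le_one₀ h0.le h1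
  have h3 : lam ^ 2 ≤ 1 := pow_le_one₀ hl.le hl1
  have h4 : et q ^ 5 * lam ^ 2 ≤ 1 := mul_le_one₀ h2 (by positivity) h3
  linarith

open Classical in
private theorem selJ_step {α : ℝ} {k₀ C₀ : ℕ} (h : Sel1 α k₀ C₀) {n k C : ℕ}
    (ih : ∀ d : ℕ, ∃ Γ : ℕ, 1 ≤ Γ ∧ TS d α n k C Γ) (d : ℕ) :
    ∃ Γ : ℕ, 1 ≤ Γ ∧ TS d α (n + 1) (3 + k₀ + k₀ * (k₀ * (k + 2)))
      (1 + 2 * C₀ + (2 * C₀ + C * k₀) * k₀) Γ := by
  obtain ⟨Γ, hΓ, hT⟩ := ih d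
  obtain ⟨Γ₁, hΓ₁, hP⟩ := selP h hΓ hT
  obtain ⟨Γ₀, hΓ₀, h0⟩ := h d
  obtain ⟨D, hD⟩ : ∃ D : ℕ, D = 2 * C₀ + C * k₀ := ⟨_, rfl⟩
  obtain ⟨G2, hG2⟩ : ∃ G : ℕ, G = Γ₀ * 3840 ^ C₀ + Γ₀ + 5 * C₀ := ⟨_, rfl⟩
  obtain ⟨G12, hG12⟩ : ∃ G : ℕ, G = 1920 * G2 + 1920 + G2 := ⟨_, rfl⟩
  obtain ⟨G3, hG3⟩ : ∃ G : ℕ, G = Γ₁ ^ k₀ + Γ₁ * k₀ := ⟨_, rfl⟩
  obtain ⟨G4, hG4⟩ : ∃ G : ℕ, G = G12 * G3 + G12 + G3 := ⟨_, rfl⟩
  have hG2' : 1 ≤ G2 := by rw [hG2]; omega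
  have hG12' : 1 ≤ G12 := by omega
  have hG3' : 1 ≤ G3 := by
    have : 1 ≤ Γ₁ ^ k₀ := Nat.one_le_pow _ _ hΓ₁
    omega
  have hG4' : 1 ≤ G4 := by omega
  obtain ⟨Γ', hΓ'⟩ : ∃ G : ℕ, G = G4 + (d * 3845 + Γ₀) + Γ₁ := ⟨_, rfl⟩
  rw [← hD] at hP ⊢
  refine ⟨Γ', by omega, ?_⟩
  intro N m q lam ι I A t₀ u t₁ hF hmem b1 b2
  have hq1 : 1 ≤ q := le_trans (by norm_num) hF.hq
  have hη0 : 0 < et q := et_pos hq1
  have hη4 : et q ≤ 1 / 4 := et_le hF.hq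
  have hη1 : et q ≤ 1 := hη4.trans (by norm_num)
  have hη : et q ^ 4 ≤ et q := by
    have := pow_le_pow_of_le_one hη0.le hη1 (show 1 ≤ 4 by norm_num)
    rwa [pow_one] at this
  have hη40 : 0 < et q ^ 4 := by positivity
  have hth0 : 0 < th q lam := th_pos hq1 hF.l0
  have hth1 : th q lam ≤ 1 := th_le_one hF.hq hF.l0 hF.l1
  obtain ⟨i0, hi0⟩ := hF.ne
  obtain ⟨m1, m2, m3⟩ := hmem i0 hi0
  have a0 : t₀ < N := Finset.mem_range.1 (hF.sub i0 hi0 m1)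
  have a1 : u < N := Finset.mem_range.1 (hF.sub i0 hi0 m2)
  have a2 : t₁ < N := Finset.mem_range.1 (hF.sub i0 hi0 m3)
  obtain ⟨c, J1, hJ1, hc1, hX1⟩ := pop_cX hη0 hη4 hF.big hF.l0 I hF.ne A hF.sub hF.dens hF.nc
    a0 a1 a2 b1
  have hJ1n : J1.Nonempty :=
    selJ_pos (by have := hF.l0; positivity) hF.ne hc1
  have hcN : et q ^ 4 * N ≤ |(c : ℝ)| := by
    obtain ⟨i, hi⟩ := hJ1n
    exact (hX1 i hi).1
  obtain ⟨P, J2, hJ2, hc2, hPk, hPA, hRP⟩ := h0 N m q (th q lam) ι J1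
    (fun i => (A i).filter fun x : ℕ => XP N (et q) (th q lam) (A i) t₀ u t₁ c x) hF.hN hF.hq hF.hm
    hth0 hth1 hJ1n (fun i hi => (Finset.filter_subset _ _).trans (hF.sub i (hJ1 hi)))
    (fun i hi => (hX1 i hi).2)
  have hJ2n : J2.Nonempty := selJ_pos (ls_pos hΓ₀ hq1 hth0) hJ1n hc2
  -- the constants
  have hlog : Real.log (1 / th q lam) ≤ (2 : ℕ) * Real.log (1 / lam) + er (3840 + 5) m q :=
    log_dens (by norm_num) hq1 hF.l0 (th_le hq1)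
  have hRP' : RJ d N α (2 * d * Real.log (1 / lam) + er Γ' m q) P := by
    refine hRP.mono le_rfl ?_
    have e1 : (d : ℝ) * Real.log (1 / th q lam) ≤
        d * ((2 : ℕ) * Real.log (1 / lam) + er (3840 + 5) m q) :=
      mul_le_mul_of_nonneg_left hlog (Nat.cast_nonneg _)
    have e2 : (d : ℝ) * er (3840 + 5) m q = er (d * 3845) m q := er_mul d
    have e3 : er (d * 3845) m q + er Γ₀ m q = er (d * 3845 + Γ₀) m q := er_add
    have e4 : er (d * 3845 + Γ₀) m q ≤ er Γ' m q := er_mono hq1 (by omega)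
    calc (d : ℝ) * Real.log (1 / th q lam) + er Γ₀ m q
        ≤ d * ((2 : ℕ) * Real.log (1 / lam) + er (3840 + 5) m q) + er Γ₀ m q := by gcongr
      _ = 2 * d * Real.log (1 / lam) + (er (d * 3845) m q + er Γ₀ m q) := by
          rw [mul_add, e2]; push_cast; ring
      _ ≤ _ := by rw [e3]; gcongr
  have hC1 : 2 * (d : ℝ) * Real.log (1 / lam) + er Γ₁ m q ≤
      2 * d * Real.log (1 / lam) + er Γ' m q := by
    have : er Γ₁ m q ≤ er Γ' m q := er_mono hq1 (by omega)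
    linarith
  -- the selection over `P`
  obtain ⟨J3, hJ3, hc3, hP3⟩ := seq_sel (X := ℕ) (fun p J' =>
      ∃ (Q Hp : Finset ℕ), Hp.card ≤ k₀ * (k + 2) ∧ (∀ i ∈ J', Hp ⊆ A i) ∧ Q ⊆ Hp ∧
        RJ d N α (2 * d * Real.log (1 / lam) + er Γ₁ m q) Q ∧
        ∀ q' ∈ Q, ∃ z ∈ Hp, sep N (et q) q' t₁ ∧ sep N (et q) z t₁ ∧ sep N (et q) z t₀ ∧
          Rel (et q) t₀ u t₁ (c : ℝ) p q' z ∧
          TreeJ d N α (2 * d * Real.log (1 / lam) + er Γ₁ m q) (et q ^ 4) Hp n t₁ z q')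
    (by
      rintro p J J' hJJ - ⟨Q, Hp, hk, hH, hr⟩
      exact ⟨Q, Hp, hk, fun i hi => hH i (hJJ hi), hr⟩)
    (δ := ls Γ₁ m q D lam) (ls_pos hΓ₁ hq1 hF.l0) (ls_le_one hΓ₁ hq1 hF.l0.le hF.l1) P J2 hJ2n
    (by
      intro p hp J hJ hJn
      have hJI : J ⊆ I := hJ.trans (hJ2.trans hJ1)
      obtain ⟨Q, Hp, J', hJ', hcJ, hk, hH, hQ, hR, hr⟩ := hP N m q lam ι J A t₀ u t₁ c p
        (hF.sub_fam hJI hJn) b1 (fun i hi => (hmem i (hJI hi)).2.2)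
        (fun i hi => (Finset.mem_filter.1 (hPA i (hJ hi) hp)).2)
      exact ⟨J', hJ', hcJ, Q, Hp, hk, hH, hQ, hR, hr⟩)
  have hex : ∀ p : ℕ, ∃ Hp : Finset ℕ, p ∈ P → ∃ Q : Finset ℕ, Hp.card ≤ k₀ * (k + 2) ∧
      (∀ i ∈ J3, Hp ⊆ A i) ∧ Q ⊆ Hp ∧
        RJ d N α (2 * d * Real.log (1 / lam) + er Γ₁ m q) Q ∧
        ∀ q' ∈ Q, ∃ z ∈ Hp, sep N (et q) q' t₁ ∧ sep N (et q) z t₁ ∧ sep N (et q) z t₀ ∧
          Rel (et q) t₀ u t₁ (c : ℝ) p q' z ∧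
          TreeJ d N α (2 * d * Real.log (1 / lam) + er Γ₁ m q) (et q ^ 4) Hp n t₁ z q' := by
    intro p
    by_cases hp : p ∈ P
    · obtain ⟨Q, Hp, hr⟩ := hP3 p hp
      exact ⟨Hp, fun _ => ⟨Q, hr⟩⟩
    · exact ⟨∅, fun h => absurd h hp⟩
  choose Hf hHf using hex
  have hsub3 : P ⊆ {t₀, u, t₁} ∪ P ∪ P.biUnion Hf :=
    Finset.subset_union_right.trans Finset.subset_union_left
  refine ⟨{t₀, u, t₁} ∪ P ∪ P.biUnion Hf, J3, hJ3.trans (hJ2.trans hJ1), ?_, ?_, ?_, ?_⟩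
  · -- the loss
    have hlam := hF.l0
    have l1 : ls 1920 m q 1 lam * (I.card : ℝ) ≤ J1.card :=
      (mul_le_mul_of_nonneg_right (selJ_loss1 hq1 hF.l0) (Nat.cast_nonneg _)).trans hc1
    have l2 : ls G2 m q (2 * C₀) lam ≤ ls Γ₀ m q C₀ (th q lam) := by
      rw [hG2]
      exact ls_dens hΓ₀ (by norm_num) hq1 hF.l0 (th_le hq1)
    have p2 : 0 < ls G2 m q (2 * C₀) lam := ls_pos hG2' hq1 hF.l0
    have p3 : 0 < ls Γ₁ m q D lam := ls_pos hΓ₁ hq1 hF.l0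
    have l3 : ls G3 m q (D * k₀) lam ≤ ls Γ₁ m q D lam ^ P.card := by
      rw [hG3]
      refine (ls_pow hΓ₁ hq1 hF.l0 k₀).trans ?_
      exact pow_le_pow_of_le_one p3.le (ls_le_one hΓ₁ hq1 hF.l0.le hF.l1) hPk
    have l12 : ls G12 m q (1 + 2 * C₀) lam ≤ ls 1920 m q 1 lam * ls G2 m q (2 * C₀) lam := by
      rw [hG12]
      exact ls_mul (by norm_num) hG2' hq1 hF.l0
    have l4 : ls G4 m q (1 + 2 * C₀ + D * k₀) lam ≤
        ls G12 m q (1 + 2 * C₀) lam * ls G3 m q (D * k₀) lam := by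
      rw [hG4]
      exact ls_mul hG12' hG3' hq1 hF.l0
    have l5 : ls Γ' m q (1 + 2 * C₀ + D * k₀) lam ≤ ls G4 m q (1 + 2 * C₀ + D * k₀) lam :=
      ls_anti hG4' (by omega) le_rfl hq1 hF.l0 hF.l1
    have p1 : 0 < ls 1920 m q 1 lam := ls_pos (by norm_num) hq1 hF.l0
    have p4 : 0 < ls G3 m q (D * k₀) lam := ls_pos hG3' hq1 hF.l0
    calc ls Γ' m q (1 + 2 * C₀ + D * k₀) lam * (I.card : ℝ)
        ≤ (ls 1920 m q 1 lam * ls G2 m q (2 * C₀) lam * ls G3 m q (D * k₀) lam) * I.card := by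
          refine mul_le_mul_of_nonneg_right ?_ (Nat.cast_nonneg _)
          refine l5.trans (l4.trans ?_)
          exact mul_le_mul_of_nonneg_right l12 p4.le
      _ = ls G3 m q (D * k₀) lam * (ls G2 m q (2 * C₀) lam * (ls 1920 m q 1 lam * I.card)) := by
          ring
      _ ≤ ls G3 m q (D * k₀) lam * (ls G2 m q (2 * C₀) lam * J1.card) := by gcongr
      _ ≤ ls G3 m q (D * k₀) lam * (ls Γ₀ m q C₀ (th q lam) * J1.card) := by gcongr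
      _ ≤ ls G3 m q (D * k₀) lam * J2.card := by gcongr
      _ ≤ ls Γ₁ m q D lam ^ P.card * J2.card := by gcongr
      _ ≤ J3.card := hc3
  · refine (Finset.card_union_le _ _).trans (Nat.add_le_add
      ((Finset.card_union_le _ _).trans (Nat.add_le_add Finset.card_le_three hPk)) ?_)
    refine (Finset.card_biUnion_le_card_mul P Hf (k₀ * (k + 2)) fun p hp => ?_).trans
      (Nat.mul_le_mul_right _ hPk)
    obtain ⟨Q, hr⟩ := hHf p hp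
    exact hr.1
  · intro i hi
    have hi1 := hJ3 hi
    have hi2 := hJ2 hi1
    obtain ⟨m1, m2, m3⟩ := hmem i (hJ1 hi2)
    refine Finset.union_subset (Finset.union_subset ?_ ?_) ?_
    · intro x hx
      simp only [Finset.mem_insert, Finset.mem_singleton] at hx
      rcases hx with rfl | rfl | rfl
      · exact m1
      · exact m2
      · exact m3
    · intro p hp
      exact (Finset.mem_filter.1 (hPA i hi1 hp)).1
    · refine Finset.biUnion_subset.2 fun p hp => ?_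
      obtain ⟨Q, hr⟩ := hHf p hp
      exact hr.2.1 i hi
  · refine ⟨⟨by simp, by simp, by simp⟩, b1.mono hη, b2.mono hη, (c : ℝ), P, hcN, hsub3, hRP', ?_⟩
    intro p hp
    obtain ⟨i, hi⟩ := hJ2n
    have hXP := (Finset.mem_filter.1 (hPA i hi hp)).2
    refine ⟨hXP.1.mono hη, hXP.2.1.mono hη, ?_⟩
    obtain ⟨Q, hr1, hr2, hQ, hRQ, hr⟩ := hHf p hp
    have hsub : Hf p ⊆ {t₀, u, t₁} ∪ P ∪ P.biUnion Hf :=
      (Finset.subset_biUnion_of_mem Hf hp).trans Finset.subset_union_right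
    refine ⟨Q, hQ.trans hsub, hRQ.mono le_rfl hC1, ?_⟩
    intro q' hq'
    obtain ⟨z, hz, s1, s2, s3, hrel, hT⟩ := hr q' hq'
    exact ⟨z, hsub hz, s1.mono hη, s2.mono hη, s3.mono hη, hrel.mono hη40 hη,
      TreeJ.mono hsub (fun _ h => h.mono le_rfl hC1) hT⟩

theorem selectJ {α : ℝ} {k₀ C₀ : ℕ} (h : Sel1 α k₀ C₀) (n : ℕ) : ∃ k C : ℕ, ∀ d : ℕ,
    ∃ Γ : ℕ, 1 ≤ Γ ∧ TS d α n k C Γ := by
  induction n with
  | zero =>
    refine ⟨3, 0, fun d => ⟨1, le_rfl, ?_⟩⟩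
    intro N m q lam ι I A t₀ u t₁ hF hmem b1 b2
    have hq1 : 1 ≤ q := le_trans (by norm_num) hF.hq
    refine ⟨{t₀, u, t₁}, I, Subset.rfl, ?_, Finset.card_le_three, ?_, ?_⟩
    · have := ls_le_one (Γ := 1) (m := m) (C := 0) le_rfl hq1 hF.l0.le hF.l1
      exact mul_le_of_le_one_left (Nat.cast_nonneg _) this
    · intro i hi x hx
      obtain ⟨a, b, c⟩ := hmem i hi
      simp only [Finset.mem_insert, Finset.mem_singleton] at hx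
      rcases hx with rfl | rfl | rfl
      · exact a
      · exact b
      · exact c
    · refine ⟨?_, ?_, ?_⟩ <;> simp
  | succ n ih =>
    obtain ⟨k, C, ih⟩ := ih
    exact ⟨_, _, fun d => selJ_step h ih d⟩

end Pool.Agent.MPac5134.KX
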