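import Pool.Agent.Lib.MP_ac5134_an.KX.SelQ
import Pool.Agent.Lib.MP_ac5134_an.KX.JCond

/-!
# KX-SelP: selection of a tree below one height `p`

PROOF of `th_le`: `th q lam = lam ^ 2 / (3840 q ^ 5)`, and `3840 ≤ 3840 ^ (m + 1)`.
PROOF of `selP`.  `Γ₀` from `h1 d`.  `Sel1` with the density `th q lam` for the sets
`(A i).filter (fun x => XQ N (et q) (A i) t₀ u t₁ c p x)` (`XP` says that they are dense) gives `Q` (`|Q| ≤ k₀`), `J₁`, with loss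
`ls Γ₀ m q C₀ (th q lam) ≥ ls (Γ₀ * 3840 ^ C₀ + Γ₀ + 5 * C₀) m q (2 * C₀) lam` (`ls_dens`) and `RJ` with the constant
`d log (1 / th) + er Γ₀ m q ≤ 2 d log (1 / lam) + er (3845 d + Γ₀) m q` (`log_dens`).
`seq_sel` (KH/Seq) over `Q` with `δ = ls (24 Γ + 24 + Γ) m q C lam`,
`Φ q' J = ∃ z Hq, Hq.card ≤ k + 2 ∧ (∀ i ∈ J, Hq ⊆ A i) ∧ z ∈ Hq ∧ q' ∈ Hq ∧ sep .. ∧ Rel .. ∧ TreeJ ..` (`selQ`): `J'`.
`Hp` = the union of the sets `Hq`, `q' ∈ Q` (`choose`, `Finset.biUnion` over `Q.attach`), at most `k₀ (k + 2)` elements;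
`TreeJ.mono`, `RJ.mono`, `er_mono`.  The loss `δ ^ |Q| ≥ δ ^ k₀ ≥ ls (..) m q (C * k₀) lam` (`ls_pow`), `ls_mul`.
-/

open RFold Finset

namespace Pool.Agent.MPac5134.KX

open Pool.Agent.MPac5134.KH

theorem th_le {m q : ℕ} {lam : ℝ} (hq : 1 ≤ q) :
    lam ^ 2 / (((3840 : ℕ) : ℝ) ^ (m + 1) * (q : ℝ) ^ 5) ≤ th q lam := by
  have hq0 : (0 : ℝ) < q := by exact_mod_cast hq
  have h1 : th q lam = lam ^ 2 / (3840 * (q : ℝ) ^ 5) := by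
    unfold th et
    field_simp
    ring
  rw [h1]
  have h2 : ((3840 : ℕ) : ℝ) ≤ ((3840 : ℕ) : ℝ) ^ (m + 1) :=
    le_self_pow₀ (by norm_num) (Nat.succ_ne_zero m)
  have h3 : (3840 : ℝ) * (q : ℝ) ^ 5 ≤ ((3840 : ℕ) : ℝ) ^ (m + 1) * (q : ℝ) ^ 5 := by
    refine mul_le_mul_of_nonneg_right ?_ (by positivity)
    exact le_trans (by norm_num) h2
  exact div_le_div_of_nonneg_left (by positivity) (by positivity) h3

theorem selP {α : ℝ} {k₀ C₀ : ℕ} (h1 : Sel1 α k₀ C₀) {d n k C Γ : ℕ} (hΓ : 1 ≤ Γ)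
    (h : TS d α n k C Γ) : ∃ Γ' : ℕ, 1 ≤ Γ' ∧ ∀ (N m q : ℕ) (lam : ℝ) (ι : Type) (J : Finset ι)
      (A : ι → Finset ℕ) (t₀ u t₁ : ℕ) (c : ℤ) (p : ℕ), Fam N m q lam J A →
      sep N (et q) t₀ t₁ → (∀ i ∈ J, t₁ ∈ A i) →
      (∀ i ∈ J, XP N (et q) (th q lam) (A i) t₀ u t₁ c p) →
      ∃ (Q Hp : Finset ℕ) (J' : Finset ι), J' ⊆ J ∧
        ls Γ' m q (2 * C₀ + C * k₀) lam * J.card ≤ J'.card ∧ Hp.card ≤ k₀ * (k + 2) ∧
        (∀ i ∈ J', Hp ⊆ A i) ∧ Q ⊆ Hp ∧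
        RJ d N α (2 * d * Real.log (1 / lam) + er Γ' m q) Q ∧
        ∀ q' ∈ Q, ∃ z ∈ Hp, sep N (et q) q' t₁ ∧ sep N (et q) z t₁ ∧ sep N (et q) z t₀ ∧
          Rel (et q) t₀ u t₁ (c : ℝ) p q' z ∧
          TreeJ d N α (2 * d * Real.log (1 / lam) + er Γ' m q) (et q ^ 4) Hp n t₁ z q' := by
  classical
  obtain ⟨Γ₀, hΓ₀, hS⟩ := h1 d
  obtain ⟨Γa, hΓa⟩ : ∃ Γa : ℕ, Γa = Γ₀ * 3840 ^ C₀ + Γ₀ + 5 * C₀ := ⟨_, rfl⟩
  obtain ⟨Γb, hΓb⟩ : ∃ Γb : ℕ, Γb = 24 * Γ + 24 + Γ := ⟨_, rfl⟩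
  obtain ⟨Γc, hΓc⟩ : ∃ Γc : ℕ, Γc = Γb ^ k₀ + Γb * k₀ := ⟨_, rfl⟩
  obtain ⟨Γd, hΓd⟩ : ∃ Γd : ℕ, Γd = Γa * Γc + Γa + Γc := ⟨_, rfl⟩
  have ha1 : 1 ≤ Γa := by rw [hΓa]; omega
  have hb1 : 1 ≤ Γb := by rw [hΓb]; omega
  have hc1 : 1 ≤ Γc := by
    rw [hΓc]
    have := Nat.one_le_pow k₀ Γb hb1
    omega
  have hd1 : 1 ≤ Γd := by rw [hΓd]; omega
  refine ⟨Γd + (d * 3845 + Γ₀) + Γ, by omega, ?_⟩
  intro N m q lam ι J A t₀ u t₁ c p hF b2 ht₁ hXP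
  obtain ⟨Γ', hΓ'⟩ : ∃ Γ' : ℕ, Γ' = Γd + (d * 3845 + Γ₀) + Γ := ⟨_, rfl⟩
  rw [← hΓ']
  have hq1 : 1 ≤ q := le_trans (by norm_num) hF.hq
  have hl0 := hF.l0
  have hl1 := hF.l1
  have hth := th_le (m := m) (lam := lam) hq1
  have het := et_pos hq1
  have het4 := et_le hF.hq
  have hth0 : 0 < th q lam := by
    unfold th
    positivity
  have hth1 : th q lam ≤ 1 := by
    unfold th
    have e1 : et q ^ 5 ≤ 1 := pow_le_one₀ het.le (by linarith)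
    have e2 : lam ^ 2 ≤ 1 := pow_le_one₀ hl0.le hl1
    have e3 : et q ^ 5 * lam ^ 2 ≤ 1 := mul_le_one₀ e1 (by positivity) e2
    linarith
  have hCJ : (d : ℝ) * Real.log (1 / th q lam) + er Γ₀ m q ≤
      2 * d * Real.log (1 / lam) + er Γ' m q := by
    have e1 := log_dens (m := m) (D := 3840) (a := 2) (b := 5) (θ := th q lam) (by norm_num) hq1 hl0
      hth
    have e2 : (d : ℝ) * Real.log (1 / th q lam) ≤
        d * (((2 : ℕ) : ℝ) * Real.log (1 / lam) + er (3840 + 5) m q) :=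
      mul_le_mul_of_nonneg_left e1 (Nat.cast_nonneg d)
    have e3 : (d : ℝ) * er (3840 + 5) m q = er (d * (3840 + 5)) m q := er_mul (m := m) (q := q) d
    have e4 : er (d * (3840 + 5)) m q + er Γ₀ m q = er (d * (3840 + 5) + Γ₀) m q := er_add
    have e5 : er (d * (3840 + 5) + Γ₀) m q ≤ er Γ' m q := er_mono hq1 (by omega)
    rw [mul_add, e3] at e2
    push_cast at e2
    linarith
  have hCT : 2 * (d : ℝ) * Real.log (1 / lam) + er Γ m q ≤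
      2 * d * Real.log (1 / lam) + er Γ' m q := by
    have : er Γ m q ≤ er Γ' m q := er_mono hq1 (by omega)
    linarith
  obtain ⟨Q, J1, hJ1, hc1', hQk, hQ, hRJ⟩ := hS N m q (th q lam) ι J
    (fun i => (A i).filter fun x => XQ N (et q) (A i) t₀ u t₁ c p x) hF.hN hF.hq hF.hm hth0 hth1
    hF.ne (fun i hi => (Finset.filter_subset _ _).trans (hF.sub i hi)) (fun i hi => (hXP i hi).2.2)
  have hpos1 : 0 < ls Γ₀ m q C₀ (th q lam) := ls_pos hΓ₀ hq1 hth0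
  have hJ1n : J1.Nonempty := by
    rw [← Finset.card_pos]
    have e1 : (0 : ℝ) < J.card := by exact_mod_cast hF.ne.card_pos
    have e2 : (0 : ℝ) < J1.card := (mul_pos hpos1 e1).trans_le hc1'
    exact_mod_cast e2
  have hposb : 0 < ls Γb m q C lam := ls_pos hb1 hq1 hl0
  have hleb : ls Γb m q C lam ≤ 1 := ls_le_one hb1 hq1 hl0.le hl1
  obtain ⟨J2, hJ2, hc2, hP2⟩ := seq_sel (X := ℕ) (fun q' J' => ∃ (z : ℕ) (Hq : Finset ℕ),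
      (∀ i ∈ J', Hq ⊆ A i) ∧ Hq.card ≤ k + 2 ∧ z ∈ Hq ∧ q' ∈ Hq ∧
        sep N (et q) q' t₁ ∧ sep N (et q) z t₁ ∧ sep N (et q) z t₀ ∧
        Rel (et q) t₀ u t₁ (c : ℝ) p q' z ∧
        TreeJ d N α (2 * d * Real.log (1 / lam) + er Γ m q) (et q ^ 4) Hq n t₁ z q')
    (by
      rintro q' J J' hJJ - ⟨z, Hq, hH, hr⟩
      exact ⟨z, Hq, fun i hi => hH i (hJJ hi), hr⟩)
    (δ := ls Γb m q C lam) hposb hleb Q J1 hJ1n
    (by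
      intro q' hq' J' hJ' hJ'n
      obtain ⟨z, Hq, J'', g1, g2, g3, g4, g5, g6, g7, g8, g9, g10, g11⟩ :=
        selQ hΓ h (hF.sub_fam (hJ'.trans hJ1) hJ'n) (q' := q') b2
          (fun i hi => (Finset.mem_filter.1 (hQ i (hJ' hi) hq')).2)
          (fun i hi => (Finset.mem_filter.1 (hQ i (hJ' hi) hq')).1)
          (fun i hi => ht₁ i (hJ1 (hJ' hi)))
      rw [← hΓb] at g2
      exact ⟨J'', g1, g2, z, Hq, g4, g3, g5, g6, g7, g8, g9, g10, g11⟩)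
  have hex : ∀ q' : ℕ, ∃ Hq : Finset ℕ, q' ∈ Q → ∃ z : ℕ, (∀ i ∈ J2, Hq ⊆ A i) ∧
      Hq.card ≤ k + 2 ∧ z ∈ Hq ∧ q' ∈ Hq ∧
        sep N (et q) q' t₁ ∧ sep N (et q) z t₁ ∧ sep N (et q) z t₀ ∧
        Rel (et q) t₀ u t₁ (c : ℝ) p q' z ∧
        TreeJ d N α (2 * d * Real.log (1 / lam) + er Γ m q) (et q ^ 4) Hq n t₁ z q' := by
    intro q'
    by_cases hq' : q' ∈ Q
    · obtain ⟨z, Hq, hr⟩ := hP2 q' hq'
      exact ⟨Hq, fun _ => ⟨z, hr⟩⟩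
    · exact ⟨∅, fun h => absurd h hq'⟩
  choose Hf hHf using hex
  refine ⟨Q, Q.biUnion Hf, J2, hJ2.trans hJ1, ?_, ?_, ?_, ?_, hRJ.mono le_rfl hCJ, ?_⟩
  · have k1 : ls Γa m q (2 * C₀) lam ≤ ls Γ₀ m q C₀ (th q lam) := by
      rw [hΓa]
      exact ls_dens hΓ₀ (by norm_num) hq1 hl0 hth
    have k2 : ls Γc m q (C * k₀) lam ≤ ls Γb m q C lam ^ k₀ := by
      rw [hΓc]
      exact ls_pow hb1 hq1 hl0 k₀
    have k3 : ls Γb m q C lam ^ k₀ ≤ ls Γb m q C lam ^ Q.card :=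
      pow_le_pow_of_le_one hposb.le hleb hQk
    have k4 : ls Γd m q (2 * C₀ + C * k₀) lam ≤ ls Γa m q (2 * C₀) lam * ls Γc m q (C * k₀) lam := by
      rw [hΓd]
      exact ls_mul ha1 hc1 hq1 hl0
    have k5 : ls Γ' m q (2 * C₀ + C * k₀) lam ≤ ls Γd m q (2 * C₀ + C * k₀) lam :=
      ls_anti hd1 (by omega) le_rfl hq1 hl0 hl1
    have k6 : ls Γa m q (2 * C₀) lam * ls Γc m q (C * k₀) lam ≤
        ls Γ₀ m q C₀ (th q lam) * ls Γb m q C lam ^ Q.card :=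
      mul_le_mul k1 (k2.trans k3) (ls_pos hc1 hq1 hl0).le hpos1.le
    have k7 : (0 : ℝ) ≤ J.card := Nat.cast_nonneg _
    calc ls Γ' m q (2 * C₀ + C * k₀) lam * (J.card : ℝ)
        ≤ ls Γ₀ m q C₀ (th q lam) * ls Γb m q C lam ^ Q.card * J.card :=
          mul_le_mul_of_nonneg_right ((k5.trans k4).trans k6) k7
      _ = ls Γb m q C lam ^ Q.card * (ls Γ₀ m q C₀ (th q lam) * J.card) := by ring
      _ ≤ ls Γb m q C lam ^ Q.card * J1.card :=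
          mul_le_mul_of_nonneg_left hc1' (pow_nonneg hposb.le _)
      _ ≤ J2.card := hc2
  · refine (Finset.card_biUnion_le_card_mul Q Hf (k + 2) fun q' hq' => ?_).trans
      (Nat.mul_le_mul_right _ hQk)
    obtain ⟨z, hr⟩ := hHf q' hq'
    exact hr.2.1
  · intro i hi
    refine Finset.biUnion_subset.2 fun q' hq' => ?_
    obtain ⟨z, hr⟩ := hHf q' hq'
    exact hr.1 i hi
  · intro q' hq'
    obtain ⟨z, hr⟩ := hHf q' hq'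
    exact Finset.mem_biUnion.2 ⟨q', hq', hr.2.2.2.1⟩
  · intro q' hq'
    obtain ⟨z, hr1, hr2, hz, hq'', hs1, hs2, hs3, hrel, hT⟩ := hHf q' hq'
    have hsub : Hf q' ⊆ Q.biUnion Hf := Finset.subset_biUnion_of_mem Hf hq'
    exact ⟨z, hsub hz, hs1, hs2, hs3, hrel,
      TreeJ.mono hsub (fun _ h => h.mono le_rfl hCT) hT⟩

end Pool.Agent.MPac5134.KX
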