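import Pool.Agent.Lib.MP_ac5134_an.KX.Pop
import Pool.Agent.Lib.MP_ac5134_an.KX.Loss
import Pool.Agent.Lib.MP_ac5134_an.KX.JLad

/-!
# KX-SelQ: selection of a tree below one height `q'`

`Fam.sub_fam`: a nonempty subfamily.
PROOF of `selQ`.  `t₁ < N` and `q' < N` from `A i ⊆ range N`.  `pop_zX` gives `z` and `J₁ ⊆ J`, `|J₁| ≥ η ^ 3 / 3 |J|`
(so `J₁` is nonempty), `η = et q`, `η ^ 3 / 3 = 1 / (24 q ^ 3) ≥ ls 24 m q 0 lam`.  `sep N η q' t₁` is in `XQ`.  `h` for the triple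
`(t₁, z, q')` (`sep_comm`) and `J₁` gives `H`, `J'`; `Hq = insert z (insert q' H)`; `TreeJ.mono`.  The losses: `ls_mul`.
-/

open RFold Finset

namespace Pool.Agent.MPac5134.KX

open Pool.Agent.MPac5134.KH

theorem Fam.sub_fam {N m q : ℕ} {lam : ℝ} {ι : Type} {I J : Finset ι} {A : ι → Finset ℕ}
    (h : Fam N m q lam I A) (hJ : J ⊆ I) (hne : J.Nonempty) : Fam N m q lam J A :=
  ⟨h.hN, h.hq, h.hm, h.l0, h.l1, h.big, hne, fun i hi => h.sub i (hJ hi),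
    fun i hi => h.dens i (hJ hi), fun i hi => h.nc i (hJ hi)⟩

private theorem SelQ_ls {m q : ℕ} {lam : ℝ} (hq : 2 ≤ q) : ls 24 m q 0 lam ≤ et q ^ 3 / 3 := by
  have hqr : (2 : ℝ) ≤ q := by exact_mod_cast hq
  unfold ls et
  have h1 : (1 / (2 * (q : ℝ))) ^ 3 / 3 = 1 / (24 * (q : ℝ) ^ 3) := by
    field_simp
    norm_num
  rw [h1, pow_zero]
  apply one_div_le_one_div_of_le (by positivity)
  have h2 : (24 : ℝ) ≤ ((24 : ℕ) : ℝ) ^ (m + 1) := by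
    have h3 : (24 : ℝ) ^ 1 ≤ (24 : ℝ) ^ (m + 1) := pow_le_pow_right₀ (by norm_num) (by omega)
    push_cast
    linarith
  have h4 : (q : ℝ) ^ 3 ≤ (q : ℝ) ^ 24 := pow_le_pow_right₀ (by linarith) (by norm_num)
  exact mul_le_mul h2 h4 (by positivity) (by positivity)

theorem selQ {d : ℕ} {α : ℝ} {n k C Γ : ℕ} (hΓ : 1 ≤ Γ) (h : TS d α n k C Γ) {N m q : ℕ}
    {lam : ℝ} {ι : Type} {J : Finset ι} {A : ι → Finset ℕ} (hF : Fam N m q lam J A)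
    {t₀ u t₁ : ℕ} {c : ℤ} {p q' : ℕ} (b2 : sep N (et q) t₀ t₁)
    (hX : ∀ i ∈ J, XQ N (et q) (A i) t₀ u t₁ c p q') (hq' : ∀ i ∈ J, q' ∈ A i)
    (h1 : ∀ i ∈ J, t₁ ∈ A i) :
    ∃ (z : ℕ) (Hq : Finset ℕ) (J' : Finset ι), J' ⊆ J ∧
      ls (24 * Γ + 24 + Γ) m q C lam * J.card ≤ J'.card ∧ Hq.card ≤ k + 2 ∧
      (∀ i ∈ J', Hq ⊆ A i) ∧ z ∈ Hq ∧ q' ∈ Hq ∧ sep N (et q) q' t₁ ∧ sep N (et q) z t₁ ∧
      sep N (et q) z t₀ ∧ Rel (et q) t₀ u t₁ (c : ℝ) p q' z ∧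
      TreeJ d N α (2 * d * Real.log (1 / lam) + er Γ m q) (et q ^ 4) Hq n t₁ z q' := by
  classical
  have hq1 : 1 ≤ q := by have := hF.hq; omega
  have he0 : 0 < et q := et_pos hq1
  have he1 : et q ≤ 1 / 4 := et_le hF.hq
  obtain ⟨i0, hi0⟩ := hF.ne
  have a2 : t₁ < N := Finset.mem_range.1 (hF.sub i0 hi0 (h1 i0 hi0))
  obtain ⟨z, J₁, hJ₁, hc₁, k1, k2, k3, k4⟩ := pop_zX he0 (by linarith) J ⟨i0, hi0⟩ A hF.sub a2 b2 hX
  have hJc : (0 : ℝ) < J.card := by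
    have : 0 < J.card := Finset.card_pos.2 ⟨i0, hi0⟩
    exact_mod_cast this
  have hJ₁pos : (0 : ℝ) < J₁.card := lt_of_lt_of_le (by positivity) hc₁
  have hJ₁ne : J₁.Nonempty := by
    rw [← Finset.card_pos]
    exact_mod_cast hJ₁pos
  have hb1 : sep N (et q) q' t₁ := (hX i0 hi0).1
  obtain ⟨H, J', hJ', hc', hHk, hHA, hT⟩ := h N m q lam ι J₁ A t₁ z q' (hF.sub_fam hJ₁ hJ₁ne)
    (fun i hi => ⟨h1 i (hJ₁ hi), k4 i hi, hq' i (hJ₁ hi)⟩) (sep_comm hb1) (sep_comm k1)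
  refine ⟨z, insert z (insert q' H), J', hJ'.trans hJ₁, ?_, ?_, ?_, Finset.mem_insert_self _ _,
    Finset.mem_insert_of_mem (Finset.mem_insert_self _ _), hb1, k1, k2, k3, ?_⟩
  · have h2 := ls_mul (Γ₁ := 24) (Γ₂ := Γ) (m := m) (q := q) (C₁ := 0) (C₂ := C) (lam := lam)
      (by norm_num) hΓ hq1 hF.l0
    rw [Nat.zero_add] at h2
    have h3 : 0 < ls Γ m q C lam := ls_pos hΓ hq1 hF.l0
    calc ls (24 * Γ + 24 + Γ) m q C lam * J.card ≤ (ls 24 m q 0 lam * ls Γ m q C lam) * J.card :=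
          mul_le_mul_of_nonneg_right h2 hJc.le
      _ ≤ (et q ^ 3 / 3 * ls Γ m q C lam) * J.card := by
          apply mul_le_mul_of_nonneg_right _ hJc.le
          exact mul_le_mul_of_nonneg_right (SelQ_ls hF.hq) h3.le
      _ = ls Γ m q C lam * (et q ^ 3 / 3 * J.card) := by ring
      _ ≤ ls Γ m q C lam * J₁.card := mul_le_mul_of_nonneg_left hc₁ h3.le
      _ ≤ J'.card := hc'
  · have h2 := Finset.card_insert_le z (insert q' H)
    have h3 := Finset.card_insert_le q' H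
    omega
  · intro i hi x hx
    rw [Finset.mem_insert, Finset.mem_insert] at hx
    rcases hx with rfl | rfl | hx
    · exact k4 i (hJ' hi)
    · exact hq' i (hJ₁ (hJ' hi))
    · exact hHA i hi hx
  · refine TreeJ.mono ?_ (fun F hF => hF) hT
    intro x hx
    exact Finset.mem_insert_of_mem (Finset.mem_insert_of_mem hx)

end Pool.Agent.MPac5134.KX
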