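import Pool.Agent.Lib.MP_ac5134_an.KX.Defs
import Pool.Agent.Lib.MP_ac5134_an.KH.ShB

/-!
# KX-ShL: a tube has many slabs of one level

`shB_A N lam' h₀ n E θ c` (KH/ShB) is the set of the slabs `j < n` in which the part of the tube in `E` has volume at least
`(lam' / 2) N^(d+2) / n`.

PROOF.  Let `t j` be the volume of `tube ∩ E ∩ slab j`, `V = C₁ N^(d+2) / n`; `t j ≤ V` (`hslab`, see `shB_dense`).
`lvl_sum` in `KH/Lp.lean` (private, copy it with `lvl_pt`) for `Fin n` and `L + 1`: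
`∑ t j ≤ n 2^-(L+1) V + ∑_{l ≤ L} #{j | 2^-(l+1) V < t j} 2^-l V`, and these `j` are in `shB_A N (2⁻¹ ^ l * C₁) ..`
(`2^-(l+1) V = (2^-l C₁ / 2) N^(d+2) / n`).  The first term is `2^-(L+1) C₁ N^(d+2) ≤ (lam / 2) N^(d+2)`, the sum of the `t j`
is at least `lam N^(d+2)` (`window_eq`).  So some `l ≤ L` has
`#(..) 2^-l C₁ / n ≥ lam / (2 (L + 1))`.
-/

open MeasureTheory

namespace Pool.Agent.MPac5134.KX

open Pool.Agent.MPac5134.KH

private theorem lvl_ptL {t V : ℝ} (ht : t ≤ V) (L : ℕ) :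
    t ≤ (2:ℝ)⁻¹ ^ L * V ∨
      ∃ l < L, (2:ℝ)⁻¹ ^ (l + 1) * V < t ∧ t ≤ (2:ℝ)⁻¹ ^ l * V := by
  induction L with
  | zero => left; simpa using ht
  | succ L ih =>
    rcases ih with h | ⟨l, hl, h⟩
    · by_cases h2 : t ≤ (2:ℝ)⁻¹ ^ (L + 1) * V
      · left; exact h2
      · right
        exact ⟨L, Nat.lt_succ_self L, not_le.1 h2, h⟩
    · right; exact ⟨l, Nat.lt_succ_of_lt hl, h⟩

open Classical in
private theorem lvl_sumL {ι : Type} [Fintype ι] {t : ι → ℝ} {V : ℝ} (hV : 0 ≤ V)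
    (ht : ∀ i, t i ≤ V) (L : ℕ) :
    ∑ i, t i ≤ Fintype.card ι * ((2:ℝ)⁻¹ ^ L * V) +
      ∑ l ∈ Finset.range L, ((Finset.univ.filter fun i =>
        (2:ℝ)⁻¹ ^ (l + 1) * V < t i ∧ t i ≤ (2:ℝ)⁻¹ ^ l * V).card : ℝ) * ((2:ℝ)⁻¹ ^ l * V) := by
  have key : ∀ i, t i ≤ (2:ℝ)⁻¹ ^ L * V + ∑ l ∈ Finset.range L,
      (if (2:ℝ)⁻¹ ^ (l + 1) * V < t i ∧ t i ≤ (2:ℝ)⁻¹ ^ l * V then (2:ℝ)⁻¹ ^ l * V else 0) := by
    intro i
    have hnn : ∀ l ∈ Finset.range L, (0:ℝ) ≤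
        (if (2:ℝ)⁻¹ ^ (l + 1) * V < t i ∧ t i ≤ (2:ℝ)⁻¹ ^ l * V then (2:ℝ)⁻¹ ^ l * V else 0) := by
      intro l _
      split_ifs
      · positivity
      · exact le_rfl
    rcases lvl_ptL (ht i) L with h | ⟨l, hl, h⟩
    · have := Finset.sum_nonneg hnn
      linarith
    · have h1 := Finset.single_le_sum hnn (Finset.mem_range.2 hl)
      rw [if_pos h] at h1
      have : 0 ≤ (2:ℝ)⁻¹ ^ L * V := by positivity
      linarith [h.2]
  calc ∑ i, t i ≤ ∑ i, ((2:ℝ)⁻¹ ^ L * V + ∑ l ∈ Finset.range L,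
      (if (2:ℝ)⁻¹ ^ (l + 1) * V < t i ∧ t i ≤ (2:ℝ)⁻¹ ^ l * V then (2:ℝ)⁻¹ ^ l * V else 0)) :=
        Finset.sum_le_sum fun i _ => key i
    _ = _ := by
        rw [Finset.sum_add_distrib, Finset.sum_comm]
        congr 1
        · rw [Finset.sum_const, Finset.card_univ, nsmul_eq_mul]
        · apply Finset.sum_congr rfl
          intro l _
          rw [← Finset.sum_filter, Finset.sum_const, nsmul_eq_mul]

theorem shL {d : ℕ} {C₁ : ℝ} (hC₁ : 1 ≤ C₁)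
    (hslab : ∀ (N : ℝ), 1 ≤ N → ∀ (θ : Cap d) (c : Sp d) (lo hi : ℝ), lo ≤ hi →
      volume (tube N θ c ∩ {x | lo ≤ x (Fin.last d) ∧ x (Fin.last d) < hi}) ≤
        ENNReal.ofReal (C₁ * N ^ d * (hi - lo)))
    {N lam : ℝ} (hN : 1 ≤ N) (hlam : 0 < lam) {n : ℕ} (hn : N ≤ n) (E : Set (Sp d)) (θ : Cap d)
    (c : Sp d) (h₀ : ℝ) (L : ℕ) (hL : C₁ ≤ 2 ^ L * lam)
    (hv : ENNReal.ofReal (lam * N ^ (d + 2)) ≤ volume (tube N θ c ∩ E ∩
        {x | h₀ ≤ x (Fin.last d) ∧ x (Fin.last d) < h₀ + N ^ 2})) :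
    ∃ l ≤ L, lam * 2 ^ l / (2 * (L + 1) * C₁) * n ≤
      ((shB_A N ((2 : ℝ)⁻¹ ^ l * C₁) h₀ n E θ c).card : ℝ) := by
  classical
  have hN0 : 0 < N := by linarith
  have hn0 : (0:ℝ) < n := by linarith
  have hnn : 0 < n := by exact_mod_cast hn0
  have hC0 : 0 < C₁ := by linarith
  set s : ℝ := N ^ 2 / n with hs
  have hs0 : 0 < s := by positivity
  set P : ℝ := N ^ (d + 2) with hP
  have hP0 : 0 < P := by positivity
  set V : ℝ := C₁ * P / n with hV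
  have hV0 : 0 < V := by positivity
  -- the volume of one slab
  have hb : ∀ j : ℕ, volume (tube N θ c ∩ E ∩ slab d h₀ s j) ≤ ENNReal.ofReal V := by
    intro j
    have h3 := hslab N hN θ c (h₀ + j * s) (h₀ + (j + 1) * s) (by nlinarith)
    refine (measure_mono ?_).trans (h3.trans ?_)
    · rintro x ⟨⟨h4, h5⟩, h6⟩
      exact ⟨h4, h6⟩
    · apply ENNReal.ofReal_le_ofReal
      have h4 : C₁ * N ^ d * (h₀ + (j + 1) * s - (h₀ + j * s)) = V := by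
        rw [hV, hP, hs]
        field_simp
        ring
      rw [h4]
  have hfin : ∀ j : ℕ, volume (tube N θ c ∩ E ∩ slab d h₀ s j) ≠ ⊤ := fun j =>
    ne_top_of_le_ne_top ENNReal.ofReal_ne_top (hb j)
  set t : Fin n → ℝ := fun j => (volume (tube N θ c ∩ E ∩ slab d h₀ s (j : ℕ))).toReal with ht
  have htV : ∀ j, t j ≤ V := fun j => ENNReal.toReal_le_of_le_ofReal hV0.le (hb j)
  have h1 : volume (tube N θ c ∩ E ∩
        {x | h₀ ≤ x (Fin.last d) ∧ x (Fin.last d) < h₀ + N ^ 2}) ≤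
      ∑ j ∈ Finset.range n, volume (tube N θ c ∩ E ∩ slab d h₀ s j) := by
    rw [window_eq hN0 hnn, Set.inter_iUnion₂]
    exact measure_biUnion_finset_le _ _
  have h2 : ∑ j ∈ Finset.range n, volume (tube N θ c ∩ E ∩ slab d h₀ s j) =
      ENNReal.ofReal (∑ j, t j) := by
    rw [ENNReal.ofReal_sum_of_nonneg (fun j _ => ENNReal.toReal_nonneg), Finset.sum_range]
    refine Finset.sum_congr rfl fun j _ => ?_
    exact (ENNReal.ofReal_toReal (hfin j)).symm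
  have ht0 : 0 ≤ ∑ j, t j := Finset.sum_nonneg fun j _ => ENNReal.toReal_nonneg
  have h3 : lam * P ≤ ∑ j, t j := by
    have h4 := hv.trans h1
    rw [h2] at h4
    exact (ENNReal.ofReal_le_ofReal_iff ht0).1 h4
  have h4 := lvl_sumL hV0.le htV (L + 1)
  rw [Fintype.card_fin] at h4
  have h5 : (n : ℝ) * ((2:ℝ)⁻¹ ^ (L + 1) * V) ≤ lam / 2 * P := by
    have e : (n : ℝ) * ((2:ℝ)⁻¹ ^ (L + 1) * V) = (2:ℝ)⁻¹ ^ L * C₁ / 2 * P := by
      rw [hV, pow_succ]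
      field_simp
    have e2 : (2:ℝ)⁻¹ ^ L * C₁ ≤ lam := by
      calc (2:ℝ)⁻¹ ^ L * C₁ ≤ (2:ℝ)⁻¹ ^ L * (2 ^ L * lam) := by gcongr
        _ = lam := by rw [← mul_assoc, ← mul_pow]; norm_num
    rw [e]
    gcongr
  set K : ℕ → ℝ := fun l => ((Finset.univ.filter fun i =>
        (2:ℝ)⁻¹ ^ (l + 1) * V < t i ∧ t i ≤ (2:ℝ)⁻¹ ^ l * V).card : ℝ) with hK
  have h6 : ∑ _l ∈ Finset.range (L + 1), lam / 2 * P / ((L : ℝ) + 1) ≤
      ∑ l ∈ Finset.range (L + 1), K l * ((2:ℝ)⁻¹ ^ l * V) := by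
    rw [Finset.sum_const, Finset.card_range, nsmul_eq_mul]
    have e : ((L + 1 : ℕ) : ℝ) * (lam / 2 * P / ((L : ℝ) + 1)) = lam / 2 * P := by
      push_cast
      field_simp
    rw [e]
    have h7 : ∑ i, t i ≤ (n : ℝ) * ((2:ℝ)⁻¹ ^ (L + 1) * V) +
      ∑ l ∈ Finset.range (L + 1), K l * ((2:ℝ)⁻¹ ^ l * V) := h4
    linarith
  obtain ⟨l, hl, h7⟩ := Finset.exists_le_of_sum_le (by simp) h6
  refine ⟨l, Nat.lt_succ_iff.1 (Finset.mem_range.1 hl), ?_⟩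
  have h8 : K l ≤ ((shB_A N ((2 : ℝ)⁻¹ ^ l * C₁) h₀ n E θ c).card : ℝ) := by
    rw [hK]
    simp only
    rw [← Finset.card_image_of_injective _ (Fin.val_injective (n := n))]
    have hsub : Finset.image (fun i : Fin n => (i : ℕ)) (Finset.univ.filter fun i =>
        (2:ℝ)⁻¹ ^ (l + 1) * V < t i ∧ t i ≤ (2:ℝ)⁻¹ ^ l * V) ⊆
        shB_A N ((2 : ℝ)⁻¹ ^ l * C₁) h₀ n E θ c := by
      intro j hj
      obtain ⟨i, hi, rfl⟩ := Finset.mem_image.1 hj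
      have hi1 := (Finset.mem_filter.1 hi).2.1
      unfold shB_A
      rw [Finset.mem_filter]
      refine ⟨Finset.mem_range.2 i.2, ?_⟩
      rw [ENNReal.ofReal_le_iff_le_toReal (hfin i)]
      refine le_trans (le_of_eq ?_) hi1.le
      rw [hV, hP, pow_succ]
      ring
    exact_mod_cast Finset.card_le_card hsub
  have h9 : lam * 2 ^ l / (2 * (L + 1) * C₁) * n =
      lam / 2 * P / ((L : ℝ) + 1) * (2 ^ l * n / (C₁ * P)) := by
    field_simp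
  have h10 : K l * ((2:ℝ)⁻¹ ^ l * V) * (2 ^ l * n / (C₁ * P)) = K l := by
    rw [hV, inv_pow]
    field_simp
  rw [h9]
  calc lam / 2 * P / ((L : ℝ) + 1) * (2 ^ l * n / (C₁ * P))
      ≤ K l * ((2:ℝ)⁻¹ ^ l * V) * (2 ^ l * n / (C₁ * P)) := by gcongr
    _ = K l := h10
    _ ≤ _ := h8

end Pool.Agent.MPac5134.KX
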