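import Pool.Agent.Lib.MP_ac5134_an.KX.Defs
import Pool.Agent.Lib.MP_ac5134_an.KH.ShB

/-!
# KX-ShW: shading in one window, slabs of one level

PROOF.  The proof of `shade_win` in `KH/ShB.lean`, with `DTp` instead of `DT`.  `n = ⌈N⌉₊`, `N ≤ n ≤ 2 N`,
`A i = shB_A N lam' h₀ n E (θ i) (c i)`, lines `(shA0 .., cell ..)`, `|b| ≤ n`.  `DTp` (density `mu`):
`mu n (mu ^ d |ι|) ^ (1 / α) ≤ C₀ n ^ ε ∑ cells`.  `shB_row` for every `j < n` and the sum over the disjoint slabs: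
`∑ cells * (lam' / 2) N^(d+2) / n ≤ M * volume (..)`, `M = (2 (d + 4) + 1) ^ d`.  So
`mu lam' (mu ^ d |ι|) ^ (1/α) N^(d+2) ≤ 2 C₀ M n ^ ε * volume ≤ 2 C₀ M 2 ^ ε N ^ ε * volume`.
-/

open MeasureTheory

namespace Pool.Agent.MPac5134.KX

open Pool.Agent.MPac5134.KH

theorem shW {d e : ℕ} {α : ℝ} (hα : 1 ≤ α) (h : DTp d e α) (K : ℕ) {ε : ℝ} (hε : 0 < ε) :
    ∃ C : ℝ, 1 ≤ C ∧ ∀ (N mu lam' : ℝ), 1 ≤ N → 0 < mu → mu ≤ 1 → 0 < lam' →
      ∀ (ι : Type) [Fintype ι] (θ : ι → Cap d) (c : ι → Sp d) (E : Set (Sp d)) (h₀ : ℝ),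
      MeasurableSet E →
      (∀ z : Fin d → ℤ, ∀ s : Finset ι, (∀ i ∈ s, cell N (θ i) = z) → s.card ≤ K) →
      (∀ i, mu * (⌈N⌉₊ : ℝ) ≤ ((shB_A N lam' h₀ ⌈N⌉₊ E (θ i) (c i)).card : ℝ)) →
      ENNReal.ofReal (mu * lam' * (mu ^ e * Fintype.card ι) ^ (1 / α) * N ^ (d + 2)) ≤
        ENNReal.ofReal (C * N ^ ε) * volume (E ∩ (⋃ i, tube N (θ i) (c i)) ∩
          {x | h₀ ≤ x (Fin.last d) ∧ x (Fin.last d) < h₀ + N ^ 2}) := by
  classical
  obtain ⟨C₀, hC₀, hDT⟩ := h K ε hε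
  have hC00 : 0 < C₀ := by linarith
  set M : ℕ := (2 * (d + 4) + 1) ^ d with hM
  have hM1 : (1:ℝ) ≤ M := by
    have h1 : 1 ≤ (2 * (d + 4) + 1) ^ d := Nat.one_le_pow _ _ (by omega)
    rw [hM]
    exact_mod_cast h1
  have h2e : (1:ℝ) ≤ 2 ^ ε := Real.one_le_rpow (by norm_num) hε.le
  refine ⟨2 * C₀ * M * 2 ^ ε, ?_, ?_⟩
  · have h1 : (1:ℝ) ≤ C₀ * M := by nlinarith
    have h3 : (1:ℝ) ≤ C₀ * M * 2 ^ ε := by nlinarith
    nlinarith
  intro N mu lam' hN hmu hmu1 hlam ι _ θ c E h₀ hE hK hdens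
  have hN0 : 0 < N := by linarith
  set n : ℕ := ⌈N⌉₊ with hn
  have hNn : N ≤ n := Nat.le_ceil N
  have hn2 : (n:ℝ) ≤ 2 * N := by
    have h1 := (Nat.ceil_lt_add_one hN0.le).le
    rw [← hn] at h1
    linarith
  have hn0 : (0:ℝ) < n := by linarith
  have hnn : 0 < n := by exact_mod_cast hn0
  set A : ι → Finset ℕ := fun i => shB_A N lam' h₀ n E (θ i) (c i) with hA
  set s : ℝ := N ^ 2 / n with hs
  have hs0 : 0 < s := by positivity
  have hb : ∀ i k, |((cell N (θ i) k : ℤ) : ℝ)| ≤ n := by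
    intro i k
    have hf := abs_le.1 (shB_foot (θ i) k)
    unfold cell
    rw [← Int.cast_abs]
    have h1 : |⌊N * (θ i).foot k⌋| ≤ (n : ℤ) := by
      rw [abs_le]
      constructor
      · rw [Int.le_floor]
        push_cast
        nlinarith [hf.1]
      · have h2 : (⌊N * (θ i).foot k⌋ : ℝ) ≤ N * (θ i).foot k := Int.floor_le _
        have h3 : (⌊N * (θ i).foot k⌋ : ℝ) ≤ (n : ℝ) := by nlinarith [hf.2]
        exact_mod_cast h3
    exact_mod_cast h1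
  have hdt := hDT n mu ι (fun i => shA0 N h₀ (θ i) (c i)) (fun i => cell N (θ i))
    A hnn hmu hmu1 hb (fun v t ht => hK v t ht) (fun i => Finset.filter_subset _ _) hdens
  set Zc : ℕ → ℕ := fun j => cells n (fun i => shA0 N h₀ (θ i) (c i)) (fun i => cell N (θ i)) A j with hZc
  set U : Set (Sp d) := ⋃ i, tube N (θ i) (c i) with hU
  have hmeasU : MeasurableSet U :=
    MeasurableSet.iUnion fun i => measurableSet_tube N (θ i) (c i)
  set q : ℝ := lam' / 2 * N ^ (d + 2) / n with hq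
  have hq0 : 0 < q := by positivity
  have hrow : ∀ j ∈ Finset.range n, (Zc j : ENNReal) * ENNReal.ofReal q ≤
      (M : ENNReal) * volume (E ∩ U ∩ slab d h₀ s j) := by
    intro j hj
    exact shB_row hN hNn θ c E hE h₀ j (Finset.mem_range.1 hj) A (fun i => rfl)
  have hsumV : ∑ j ∈ Finset.range n, volume (E ∩ U ∩ slab d h₀ s j) =
      volume (E ∩ U ∩ {x | h₀ ≤ x (Fin.last d) ∧ x (Fin.last d) < h₀ + N ^ 2}) := by
    rw [window_eq hN0 hnn, Set.inter_iUnion₂, measure_biUnion_finset]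
    · intro i _ j _ hij
      exact (slab_disjoint hs0 hij).mono Set.inter_subset_right Set.inter_subset_right
    · intro j _
      exact (hE.inter hmeasU).inter (measurableSet_slab _ _ _ _)
  set V := volume (E ∩ U ∩ {x | h₀ ≤ x (Fin.last d) ∧ x (Fin.last d) < h₀ + N ^ 2}) with hV
  have htot : ENNReal.ofReal ((∑ j ∈ Finset.range n, (Zc j : ℝ)) * q) ≤ (M : ENNReal) * V := by
    rw [← hsumV, Finset.mul_sum]
    refine le_trans (le_of_eq ?_) (Finset.sum_le_sum hrow)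
    rw [← Finset.sum_mul, ENNReal.ofReal_mul (Finset.sum_nonneg fun j _ => Nat.cast_nonneg _),
      ENNReal.ofReal_sum_of_nonneg (fun j _ => Nat.cast_nonneg _)]
    simp
  set D : ℝ := 2 * C₀ * (n:ℝ) ^ ε with hD
  have hD0 : 0 < D := by positivity
  have hreal : mu * lam' * (mu ^ e * Fintype.card ι) ^ (1 / α) * N ^ (d + 2) ≤
      D * ((∑ j ∈ Finset.range n, (Zc j : ℝ)) * q) := by
    set m : ℝ := (mu ^ e * Fintype.card ι) ^ (1 / α) with hm
    have h1 : mu * n * m ≤ C₀ * (n:ℝ) ^ ε * ∑ j ∈ Finset.range n, (Zc j : ℝ) := hdt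
    have h2 : mu * lam' * m * N ^ (d + 2) = 2 * ((mu * n * m) * q) := by
      rw [hq]
      field_simp
    rw [h2, hD]
    calc 2 * ((mu * n * m) * q) ≤ 2 * ((C₀ * (n:ℝ) ^ ε * ∑ j ∈ Finset.range n, (Zc j : ℝ)) * q) := by
          apply mul_le_mul_of_nonneg_left _ (by norm_num)
          exact mul_le_mul_of_nonneg_right h1 hq0.le
      _ = 2 * C₀ * (n:ℝ) ^ ε * ((∑ j ∈ Finset.range n, (Zc j : ℝ)) * q) := by ring
  calc ENNReal.ofReal (mu * lam' * (mu ^ e * Fintype.card ι) ^ (1 / α) * N ^ (d + 2)) ≤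
      ENNReal.ofReal (D * ((∑ j ∈ Finset.range n, (Zc j : ℝ)) * q)) :=
        ENNReal.ofReal_le_ofReal hreal
    _ = ENNReal.ofReal D * ENNReal.ofReal ((∑ j ∈ Finset.range n, (Zc j : ℝ)) * q) :=
        ENNReal.ofReal_mul hD0.le
    _ ≤ ENNReal.ofReal D * ((M : ENNReal) * V) := by gcongr
    _ = ENNReal.ofReal (D * M) * V := by
        rw [← mul_assoc, ENNReal.ofReal_mul hD0.le, ENNReal.ofReal_natCast]
    _ ≤ ENNReal.ofReal (2 * C₀ * M * 2 ^ ε * N ^ ε) * V := by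
        refine mul_le_mul' (ENNReal.ofReal_le_ofReal ?_) le_rfl
        have h1 : (n:ℝ) ^ ε ≤ 2 ^ ε * N ^ ε := by
          rw [← Real.mul_rpow (by norm_num) hN0.le]
          exact Real.rpow_le_rpow hn0.le hn2 hε.le
        rw [hD]
        have h3 : (0:ℝ) ≤ 2 * C₀ * M := by positivity
        calc 2 * C₀ * (n:ℝ) ^ ε * M = 2 * C₀ * M * (n:ℝ) ^ ε := by ring
          _ ≤ 2 * C₀ * M * (2 ^ ε * N ^ ε) := mul_le_mul_of_nonneg_left h1 h3
          _ = 2 * C₀ * M * 2 ^ ε * N ^ ε := by ring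

end Pool.Agent.MPac5134.KX
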