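import Pool.Agent.Lib.MP_ac5134_an.KX.ShL
import Pool.Agent.Lib.MP_ac5134_an.KX.ShW

/-!
# KX-ShX: the sharp shading theorem in one window

PROOF.  `C₁` from `tube_slab`.  `ι` empty: the left side is `0`.
If `lam N ≤ 1`: `|ι| ≤ K (4 N) ^ d` (`lp_card` in `KH/Lp.lean`, private, copy it), so `lam ^ d |ι| ≤ K 4 ^ d` and the left side is
at most `K 4 ^ d lam N^(d+2) ≤ K 4 ^ d * volume (..)` (one tube).
Otherwise `L = ⌈Real.logb 2 (C₁ * N)⌉₊`, so `2 ^ L lam ≥ C₁ N lam ≥ C₁` and `shL` gives for every `i` a level `l i ≤ L`; some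
level `l` is taken for at least `|ι| / (L + 1)` of the `i`.  `shW` with `ε / 2` for this subtype,
`mu = lam 2 ^ l / (2 (L + 1) C₁)` (`≤ 1`, as `mu n ≤ card ≤ n`), `lam' = 2⁻¹ ^ l * C₁`: `mu lam' = lam / (2 (L + 1))`,
`mu ≥ lam / (2 (L + 1) C₁)`, so
`lam (lam ^ d |ι|) ^ (1/α) N^(d+2) ≤ (2 (L + 1) C₁) ^ (d + 2) * C N ^ (ε/2) * volume`, and
`L + 1 ≤ C' N ^ (ε / (2 (d + 2)))` (`Real.log_le_rpow_div` or `Real.add_one_le_exp`).
-/

open MeasureTheory

namespace Pool.Agent.MPac5134.KX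

open Pool.Agent.MPac5134.KH

/-- the number of tubes -/
private theorem ShX_card {d : ℕ} {N : ℝ} (hN : 1 ≤ N) (K : ℕ) {ι : Type} [Fintype ι]
    (θ : ι → Cap d)
    (hK : ∀ z : Fin d → ℤ, ∀ s : Finset ι, (∀ i ∈ s, cell N (θ i) = z) → s.card ≤ K) :
    (Fintype.card ι : ℝ) ≤ K * (4 * N) ^ d := by
  classical
  have hN0 : 0 < N := by linarith
  have h1 : (Finset.univ : Finset ι).card ≤
      K * ((Finset.univ : Finset ι).image fun i => cell N (θ i)).card := by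
    apply Finset.card_le_mul_card_image
    intro a _
    exact hK a _ fun i hi => (Finset.mem_filter.1 hi).2
  have h2 : ((Finset.univ : Finset ι).image fun i => cell N (θ i)) ⊆
      Fintype.piFinset fun _ : Fin d => Finset.Icc ⌊-N⌋ ⌊N⌋ := by
    intro z hz
    rw [Finset.mem_image] at hz
    obtain ⟨i, -, rfl⟩ := hz
    rw [Fintype.mem_piFinset]
    intro k
    have h3 : |(θ i).foot k| ≤ 1 := by
      have h4 := (θ i).foot_mem
      have h5 : (θ i).foot k ^ 2 ≤ ∑ j, (θ i).foot j ^ 2 :=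
        Finset.single_le_sum (f := fun j => (θ i).foot j ^ 2) (fun j _ => sq_nonneg _)
          (Finset.mem_univ k)
      rw [← sq_le_one_iff_abs_le_one]
      linarith
    rw [abs_le] at h3
    rw [Finset.mem_Icc]
    constructor
    · apply Int.floor_le_floor
      nlinarith [h3.1]
    · apply Int.floor_le_floor
      nlinarith [h3.2]
  have h3 := Finset.card_le_card h2
  rw [Fintype.card_piFinset_const, Int.card_Icc] at h3
  have h4 : (((⌊N⌋ + 1 - ⌊-N⌋).toNat : ℕ) : ℝ) ≤ 4 * N := by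
    have h5 : (0 : ℤ) ≤ ⌊N⌋ + 1 - ⌊-N⌋ := by
      have : ⌊-N⌋ ≤ ⌊N⌋ := Int.floor_le_floor (by linarith)
      omega
    have h6 : (((⌊N⌋ + 1 - ⌊-N⌋).toNat : ℕ) : ℝ) = ((⌊N⌋ + 1 - ⌊-N⌋ : ℤ) : ℝ) := by
      have : (((⌊N⌋ + 1 - ⌊-N⌋).toNat : ℕ) : ℤ) = ⌊N⌋ + 1 - ⌊-N⌋ := Int.toNat_of_nonneg h5
      exact_mod_cast this
    rw [h6]
    push_cast
    have h7 := Int.floor_le N
    have h8 := Int.lt_floor_add_one (-N)
    linarith
  have h5 : (((Finset.univ : Finset ι).image fun i => cell N (θ i)).card : ℝ) ≤ (4 * N) ^ d := by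
    calc (((Finset.univ : Finset ι).image fun i => cell N (θ i)).card : ℝ)
        ≤ (((⌊N⌋ + 1 - ⌊-N⌋).toNat ^ d : ℕ) : ℝ) := by exact_mod_cast h3
      _ ≤ _ := by
          push_cast
          gcongr
  rw [Finset.card_univ] at h1
  calc (Fintype.card ι : ℝ)
      ≤ ((K * ((Finset.univ : Finset ι).image fun i => cell N (θ i)).card : ℕ) : ℝ) := by
        exact_mod_cast h1
    _ ≤ _ := by
        push_cast
        gcongr

private theorem ShX_real {e : ℕ} {a lam mu lam' Q c c' P X : ℝ} (ha0 : 0 ≤ a) (ha1 : a ≤ 1) (hQ : 1 ≤ Q)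
    (hlam : 0 < lam) (hmu : lam / Q ≤ mu) (hml : lam / Q ≤ mu * lam') (hc : 0 ≤ c) (hc' : c / Q ≤ c')
    (hP : P = mu * lam' * (mu ^ e * c') ^ a) (hX : X = lam * (lam ^ e * c) ^ a) :
    X ≤ Q ^ (e + 2) * P := by
  have hQ0 : 0 < Q := by linarith
  have h1 : (lam / Q) ^ e * (c / Q) ≤ mu ^ e * c' := by
    apply mul_le_mul (pow_le_pow_left₀ (by positivity) hmu e) hc' (by positivity)
    exact pow_nonneg (le_trans (by positivity) hmu) e
  have h2 : (lam / Q) ^ e * (c / Q) = (lam ^ e * c) / Q ^ (e + 1) := by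
    rw [div_pow, div_mul_div_comm, pow_succ]
  have h3 : (lam ^ e * c) ^ a / Q ^ (e + 1) ≤ (mu ^ e * c') ^ a := by
    have h4 : ((lam ^ e * c) / Q ^ (e + 1)) ^ a ≤ (mu ^ e * c') ^ a := by
      rw [← h2]
      exact Real.rpow_le_rpow (by positivity) h1 ha0
    refine le_trans ?_ h4
    rw [Real.div_rpow (by positivity) (by positivity)]
    have h5 : 1 ≤ Q ^ (e + 1) := one_le_pow₀ hQ
    have h6 : (Q ^ (e + 1)) ^ a ≤ Q ^ (e + 1) := by
      calc (Q ^ (e + 1)) ^ a ≤ (Q ^ (e + 1)) ^ (1 : ℝ) := Real.rpow_le_rpow_of_exponent_le h5 ha1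
        _ = Q ^ (e + 1) := Real.rpow_one _
    exact div_le_div_of_nonneg_left (by positivity) (by positivity) h6
  rw [hX, hP]
  have h7 : (lam / Q) * ((lam ^ e * c) ^ a / Q ^ (e + 1)) ≤ mu * lam' * (mu ^ e * c') ^ a :=
    mul_le_mul hml h3 (by positivity) (le_trans (by positivity) hml)
  calc lam * (lam ^ e * c) ^ a = Q ^ (e + 2) * ((lam / Q) * ((lam ^ e * c) ^ a / Q ^ (e + 1))) := by
        have h8 : Q ^ (e + 2) = Q * Q ^ (e + 1) := by rw [← pow_succ']
        rw [h8, div_mul_div_comm, mul_div_cancel₀ _ (by positivity)]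
    _ ≤ Q ^ (e + 2) * (mu * lam' * (mu ^ e * c') ^ a) := mul_le_mul_of_nonneg_left h7 (by positivity)

private theorem ShX_log {C₁ δ N : ℝ} (hC₁ : 1 ≤ C₁) (hδ : 0 < δ) (hN : 1 ≤ N) :
    ((⌈Real.logb 2 (C₁ * N)⌉₊ : ℕ) : ℝ) + 1 ≤ ((Real.log C₁ + 1 / δ) / Real.log 2 + 2) * N ^ δ := by
  have hl2 : 0 < Real.log 2 := Real.log_pos (by norm_num)
  have h0 : 0 ≤ Real.logb 2 (C₁ * N) := Real.logb_nonneg (by norm_num) (by nlinarith)
  have h1 := (Nat.ceil_lt_add_one h0).le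
  have h2 : Real.logb 2 (C₁ * N) = (Real.log C₁ + Real.log N) / Real.log 2 := by
    rw [Real.logb, Real.log_mul (by linarith) (by linarith)]
  have h3 : Real.log N ≤ N ^ δ / δ := Real.log_le_rpow_div (by linarith) hδ
  have h4 : 1 ≤ N ^ δ := Real.one_le_rpow hN hδ.le
  have h5 : 0 ≤ Real.log C₁ := Real.log_nonneg hC₁
  have h6 : (Real.log C₁ + Real.log N) / Real.log 2 ≤ (Real.log C₁ + 1 / δ) / Real.log 2 * N ^ δ := by
    rw [div_mul_eq_mul_div]
    apply div_le_div_of_nonneg_right _ hl2.le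
    have h7 : Real.log C₁ ≤ Real.log C₁ * N ^ δ := le_mul_of_one_le_right h5 h4
    have h8 : N ^ δ / δ = 1 / δ * N ^ δ := by ring
    linarith
  rw [← h2] at h6
  calc ((⌈Real.logb 2 (C₁ * N)⌉₊ : ℕ) : ℝ) + 1 ≤ Real.logb 2 (C₁ * N) + 2 := by linarith
    _ ≤ (Real.log C₁ + 1 / δ) / Real.log 2 * N ^ δ + 2 * N ^ δ := by linarith
    _ = _ := by ring

private theorem ShX_pow {C₁ N : ℝ} (hC₁ : 1 ≤ C₁) (hN : 1 ≤ N) : C₁ * N ≤ 2 ^ (⌈Real.logb 2 (C₁ * N)⌉₊) := by
  have h0 : 0 < C₁ * N := by positivity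
  have h1 := Nat.le_ceil (Real.logb 2 (C₁ * N))
  calc C₁ * N = (2 : ℝ) ^ (Real.logb 2 (C₁ * N)) := (Real.rpow_logb (by norm_num) (by norm_num) h0).symm
    _ ≤ (2 : ℝ) ^ ((⌈Real.logb 2 (C₁ * N)⌉₊ : ℕ) : ℝ) :=
        Real.rpow_le_rpow_of_exponent_le (by norm_num) h1
    _ = _ := Real.rpow_natCast _ _

theorem shadeX_win {d e : ℕ} {α : ℝ} (hα : 1 ≤ α) (hde : d ≤ e) (h : DTp d e α) (K : ℕ) {ε : ℝ} (hε : 0 < ε) :
    ∃ C : ℝ, 1 ≤ C ∧ ∀ (N lam : ℝ), 1 ≤ N → 0 < lam → lam ≤ 1 →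
      ∀ (ι : Type) [Fintype ι] (θ : ι → Cap d) (c : ι → Sp d) (E : Set (Sp d)) (h₀ : ℝ),
      MeasurableSet E →
      (∀ z : Fin d → ℤ, ∀ s : Finset ι, (∀ i ∈ s, cell N (θ i) = z) → s.card ≤ K) →
      (∀ i, ENNReal.ofReal (lam * N ^ (d + 2)) ≤ volume (tube N (θ i) (c i) ∩ E ∩
        {x | h₀ ≤ x (Fin.last d) ∧ x (Fin.last d) < h₀ + N ^ 2})) →
      ENNReal.ofReal (lam * (lam ^ e * Fintype.card ι) ^ (1 / α) * N ^ (d + 2)) ≤
        ENNReal.ofReal (C * N ^ ε) * volume (E ∩ (⋃ i, tube N (θ i) (c i)) ∩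
          {x | h₀ ≤ x (Fin.last d) ∧ x (Fin.last d) < h₀ + N ^ 2}) := by
  classical
  obtain ⟨C₁, hC₁, hslab⟩ := tube_slab (d := d)
  have hε2 : 0 < ε / 2 := by linarith
  obtain ⟨CW, hCW, hW⟩ := shW hα h K hε2
  set δ : ℝ := ε / (2 * (e + 2)) with hδdef
  have hδ : 0 < δ := by positivity
  have hα0 : 0 < α := by linarith
  have ha0 : 0 < 1 / α := by positivity
  have ha1 : 1 / α ≤ 1 := by rw [div_le_one hα0]; exact hα
  set C' : ℝ := (Real.log C₁ + 1 / δ) / Real.log 2 + 2 with hC'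
  have hC'0 : 0 < C' := by
    have h1 : 0 ≤ Real.log C₁ := Real.log_nonneg hC₁
    have h2 : 0 < Real.log 2 := Real.log_pos (by norm_num)
    positivity
  refine ⟨(2 * C₁ * C') ^ (e + 2) * CW + (K * 4 ^ d + 1), ?_, ?_⟩
  · have h1 : 0 ≤ (2 * C₁ * C') ^ (e + 2) * CW := by positivity
    have h2 : (0 : ℝ) ≤ K * 4 ^ d := by positivity
    linarith
  intro N lam hN hlam hlam1 ι _ θ c E h₀ hE hK hvol
  have hN0 : 0 < N := by linarith
  have hNε : 1 ≤ N ^ ε := Real.one_le_rpow hN hε.le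
  rcases isEmpty_or_nonempty ι with hι | hι
  · have h1 : (Fintype.card ι : ℝ) = 0 := by
      rw [Fintype.card_eq_zero]
      norm_num
    rw [h1, mul_zero, Real.zero_rpow ha0.ne', mul_zero, zero_mul, ENNReal.ofReal_zero]
    exact bot_le
  set U : Set (Sp d) := ⋃ i, tube N (θ i) (c i) with hU
  set W : Set (Sp d) := {x | h₀ ≤ x (Fin.last d) ∧ x (Fin.last d) < h₀ + N ^ 2} with hWdef
  have hcard0 : (0 : ℝ) ≤ Fintype.card ι := Nat.cast_nonneg _
  rcases le_or_gt (lam * N) 1 with hlN | hlN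
  · -- one tube
    obtain ⟨i⟩ := hι
    have h1 : ENNReal.ofReal (lam * N ^ (d + 2)) ≤ volume (E ∩ U ∩ W) := by
      refine (hvol i).trans (measure_mono ?_)
      rintro x ⟨⟨hx1, hx2⟩, hx3⟩
      exact ⟨⟨hx2, Set.mem_iUnion.2 ⟨i, hx1⟩⟩, hx3⟩
    have hc1 : (Fintype.card ι : ℝ) ≤ K * (4 * N) ^ d := ShX_card hN K θ hK
    have h2 : lam ^ e * Fintype.card ι ≤ K * 4 ^ d := by
      calc lam ^ e * Fintype.card ι ≤ lam ^ d * (K * (4 * N) ^ d) :=
            mul_le_mul (pow_le_pow_of_le_one hlam.le hlam1 hde) hc1 (by positivity)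
              (by positivity)
        _ = K * 4 ^ d * (lam * N) ^ d := by rw [mul_pow, mul_pow]; ring
        _ ≤ K * 4 ^ d * 1 := mul_le_mul_of_nonneg_left (pow_le_one₀ (by positivity) hlN) (by positivity)
        _ = _ := mul_one _
    have h3 : (lam ^ e * Fintype.card ι) ^ (1 / α) ≤ K * 4 ^ d + 1 := by
      calc (lam ^ e * Fintype.card ι) ^ (1 / α) ≤ (K * 4 ^ d + 1 : ℝ) ^ (1 / α) :=
            Real.rpow_le_rpow (by positivity) (by linarith) ha0.le
        _ ≤ (K * 4 ^ d + 1 : ℝ) ^ (1 : ℝ) :=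
            Real.rpow_le_rpow_of_exponent_le (by
              have : (0 : ℝ) ≤ K * 4 ^ d := by positivity
              linarith) ha1
        _ = _ := Real.rpow_one _
    have h4 : lam * (lam ^ e * Fintype.card ι) ^ (1 / α) * N ^ (d + 2) ≤
        (((2 * C₁ * C') ^ (e + 2) * CW + (K * 4 ^ d + 1)) * N ^ ε) * (lam * N ^ (d + 2)) := by
      have h5 : (K * 4 ^ d + 1 : ℝ) ≤ ((2 * C₁ * C') ^ (e + 2) * CW + (K * 4 ^ d + 1)) * N ^ ε := by
        have h6 : 0 ≤ (2 * C₁ * C') ^ (e + 2) * CW := by positivity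
        have h7 : (0 : ℝ) ≤ K * 4 ^ d := by positivity
        calc (K * 4 ^ d + 1 : ℝ) ≤ (2 * C₁ * C') ^ (e + 2) * CW + (K * 4 ^ d + 1) := by linarith
          _ ≤ _ := le_mul_of_one_le_right (by linarith) hNε
      calc lam * (lam ^ e * Fintype.card ι) ^ (1 / α) * N ^ (d + 2)
          = (lam ^ e * Fintype.card ι) ^ (1 / α) * (lam * N ^ (d + 2)) := by ring
        _ ≤ _ := mul_le_mul_of_nonneg_right (h3.trans h5) (by positivity)
    refine (ENNReal.ofReal_le_ofReal h4).trans ?_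
    rw [ENNReal.ofReal_mul (by positivity)]
    exact mul_le_mul_right h1 _
  · -- many slabs
    set L : ℕ := ⌈Real.logb 2 (C₁ * N)⌉₊ with hL
    have hLpow : C₁ * N ≤ 2 ^ L := ShX_pow hC₁ hN
    have hLlog : (L : ℝ) + 1 ≤ C' * N ^ δ := ShX_log hC₁ hδ hN
    have hL2 : C₁ ≤ 2 ^ L * lam := by
      calc C₁ ≤ C₁ * (lam * N) := le_mul_of_one_le_right (by linarith) hlN.le
        _ = C₁ * N * lam := by ring
        _ ≤ 2 ^ L * lam := mul_le_mul_of_nonneg_right hLpow hlam.le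
    have hlev : ∀ i, ∃ l ≤ L, lam * 2 ^ l / (2 * (L + 1) * C₁) * (⌈N⌉₊ : ℝ) ≤
        ((shB_A N ((2 : ℝ)⁻¹ ^ l * C₁) h₀ ⌈N⌉₊ E (θ i) (c i)).card : ℝ) := fun i =>
      shL hC₁ hslab hN hlam (Nat.le_ceil N) E (θ i) (c i) h₀ L hL2 (hvol i)
    choose l hlL hl using hlev
    obtain ⟨l₀, hl₀, hfib⟩ : ∃ l₀ ∈ Finset.range (L + 1), Fintype.card ι ≤
        (L + 1) * ((Finset.univ : Finset ι).filter fun i => l i = l₀).card := by
      by_contra hcon
      push Not at hcon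
      have h1 : (Finset.univ : Finset ι).card =
          ∑ l₀ ∈ Finset.range (L + 1), ((Finset.univ : Finset ι).filter fun i => l i = l₀).card :=
        Finset.card_eq_sum_card_fiberwise fun i _ => by
          rw [Finset.mem_coe, Finset.mem_range]
          have := hlL i
          omega
      have h2 : (L + 1) * (Finset.univ : Finset ι).card < (L + 1) * (Finset.univ : Finset ι).card := by
        conv_lhs => rw [h1, Finset.mul_sum]
        calc ∑ l₀ ∈ Finset.range (L + 1), (L + 1) * ((Finset.univ : Finset ι).filter fun i => l i = l₀).card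
            < ∑ _l₀ ∈ Finset.range (L + 1), Fintype.card ι :=
              Finset.sum_lt_sum_of_nonempty ⟨0, by simp⟩ hcon
          _ = (L + 1) * (Finset.univ : Finset ι).card := by
              rw [Finset.sum_const, Finset.card_range, smul_eq_mul, Finset.card_univ]
      exact lt_irrefl _ h2
    have hcι : 0 < Fintype.card ι := Fintype.card_pos
    set ι' : Type := {i : ι // l i = l₀} with hι'
    have hcard' : Fintype.card ι' = ((Finset.univ : Finset ι).filter fun i => l i = l₀).card :=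
      Fintype.card_subtype _
    have hne : Nonempty ι' := by
      rw [← Fintype.card_pos_iff, hcard']
      rcases Nat.eq_zero_or_pos ((Finset.univ : Finset ι).filter fun i => l i = l₀).card with h0 | h0
      · rw [h0, mul_zero] at hfib
        omega
      · exact h0
    have hLp : (0 : ℝ) < (L : ℝ) + 1 := by positivity
    set Q : ℝ := 2 * ((L : ℝ) + 1) * C₁ with hQ
    have hQ0 : 0 < Q := by positivity
    have hQ1 : (L : ℝ) + 1 ≤ Q := by
      rw [hQ]
      nlinarith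
    have hQ2 : 1 ≤ Q := by
      have : (0 : ℝ) ≤ L := Nat.cast_nonneg L
      linarith
    set mu : ℝ := lam * 2 ^ l₀ / Q with hmu
    have hmu0 : 0 < mu := by positivity
    set lam' : ℝ := (2 : ℝ)⁻¹ ^ l₀ * C₁ with hlam'
    have hlam'0 : 0 < lam' := by positivity
    have hn0 : (0 : ℝ) < (⌈N⌉₊ : ℝ) := lt_of_lt_of_le hN0 (Nat.le_ceil N)
    have hmu1 : mu ≤ 1 := by
      obtain ⟨⟨i, hi⟩⟩ := hne
      have h1 := hl i
      rw [hi] at h1
      have h2 : (shB_A N ((2 : ℝ)⁻¹ ^ l₀ * C₁) h₀ ⌈N⌉₊ E (θ i) (c i)).card ≤ ⌈N⌉₊ := by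
        have h3 : shB_A N ((2 : ℝ)⁻¹ ^ l₀ * C₁) h₀ ⌈N⌉₊ E (θ i) (c i) ⊆ Finset.range ⌈N⌉₊ :=
          Finset.filter_subset _ _
        simpa using Finset.card_le_card h3
      have h3 : mu * (⌈N⌉₊ : ℝ) ≤ 1 * (⌈N⌉₊ : ℝ) := by
        rw [one_mul]
        exact h1.trans (by exact_mod_cast h2)
      exact le_of_mul_le_mul_right h3 hn0
    have hfin := hW N mu lam' hN hmu0 hmu1 hlam'0 ι' (fun i => θ i.1) (fun i => c i.1) E h₀ hE
      (by
        intro z s hs
        have h1 := hK z (s.map (Function.Embedding.subtype _)) (by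
          intro i hi
          rw [Finset.mem_map] at hi
          obtain ⟨j, hj, rfl⟩ := hi
          exact hs j hj)
        rwa [Finset.card_map] at h1)
      (by
        rintro ⟨i, hi⟩
        have h1 := hl i
        rw [hi] at h1
        exact h1)
    have hsub : volume (E ∩ (⋃ i : ι', tube N (θ i.1) (c i.1)) ∩ W) ≤ volume (E ∩ U ∩ W) := by
      apply measure_mono
      rintro x ⟨⟨hx1, hx2⟩, hx3⟩
      rw [Set.mem_iUnion] at hx2
      obtain ⟨i, hi⟩ := hx2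
      exact ⟨⟨hx1, Set.mem_iUnion.2 ⟨i.1, hi⟩⟩, hx3⟩
    have hreal : lam * (lam ^ e * Fintype.card ι) ^ (1 / α) ≤
        Q ^ (e + 2) * (mu * lam' * (mu ^ e * Fintype.card ι') ^ (1 / α)) := by
      refine ShX_real (a := 1 / α) (lam := lam) (mu := mu) (lam' := lam') (Q := Q)
        (c := (Fintype.card ι : ℝ)) (c' := (Fintype.card ι' : ℝ)) ha0.le ha1 hQ2 hlam ?_ ?_ hcard0 ?_ rfl rfl
      · rw [hmu]
        apply div_le_div_of_nonneg_right _ hQ0.le
        exact le_mul_of_one_le_right hlam.le (one_le_pow₀ (by norm_num))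
      · have h1 : mu * lam' = lam * C₁ / Q := by
          rw [hmu, hlam']
          have h2 : (2 : ℝ) ^ l₀ * (2 : ℝ)⁻¹ ^ l₀ = 1 := by
            rw [← mul_pow]
            norm_num
          calc lam * 2 ^ l₀ / Q * ((2 : ℝ)⁻¹ ^ l₀ * C₁) = lam * C₁ / Q * ((2 : ℝ) ^ l₀ * (2 : ℝ)⁻¹ ^ l₀) := by ring
            _ = _ := by rw [h2, mul_one]
        rw [h1]
        apply div_le_div_of_nonneg_right _ hQ0.le
        exact le_mul_of_one_le_right hlam.le hC₁
      · rw [div_le_iff₀ hQ0]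
        have h1 : (Fintype.card ι : ℝ) ≤ ((L : ℝ) + 1) * Fintype.card ι' := by
          rw [hcard']
          exact_mod_cast hfib
        calc (Fintype.card ι : ℝ) ≤ ((L : ℝ) + 1) * Fintype.card ι' := h1
          _ ≤ Q * Fintype.card ι' := mul_le_mul_of_nonneg_right hQ1 (Nat.cast_nonneg _)
          _ = _ := mul_comm _ _
    have hQN : Q ^ (e + 2) * (CW * N ^ (ε / 2)) ≤
        ((2 * C₁ * C') ^ (e + 2) * CW + (K * 4 ^ d + 1)) * N ^ ε := by
      have h1 : Q ≤ 2 * C₁ * C' * N ^ δ := by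
        calc Q = 2 * C₁ * ((L : ℝ) + 1) := by rw [hQ]; ring
          _ ≤ 2 * C₁ * (C' * N ^ δ) := mul_le_mul_of_nonneg_left hLlog (by positivity)
          _ = _ := by ring
      have h2 : (N ^ δ) ^ (e + 2) = N ^ (ε / 2) := by
        rw [← Real.rpow_natCast, ← Real.rpow_mul hN0.le, hδdef]
        congr 1
        push_cast
        field_simp
      have h3 : N ^ (ε / 2) * N ^ (ε / 2) = N ^ ε := by
        rw [← Real.rpow_add hN0]
        congr 1
        ring
      calc Q ^ (e + 2) * (CW * N ^ (ε / 2)) ≤ (2 * C₁ * C' * N ^ δ) ^ (e + 2) * (CW * N ^ (ε / 2)) := by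
            apply mul_le_mul_of_nonneg_right (pow_le_pow_left₀ hQ0.le h1 _) (by positivity)
        _ = (2 * C₁ * C') ^ (e + 2) * CW * (N ^ (ε / 2) * N ^ (ε / 2)) := by
            rw [mul_pow _ (N ^ δ), h2]
            ring
        _ = (2 * C₁ * C') ^ (e + 2) * CW * N ^ ε := by rw [h3]
        _ ≤ _ := by
            apply mul_le_mul_of_nonneg_right _ (by positivity)
            have h4 : (0 : ℝ) ≤ K * 4 ^ d := by positivity
            linarith
    calc ENNReal.ofReal (lam * (lam ^ e * Fintype.card ι) ^ (1 / α) * N ^ (d + 2))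
        ≤ ENNReal.ofReal (Q ^ (e + 2) * (mu * lam' * (mu ^ e * Fintype.card ι') ^ (1 / α) * N ^ (d + 2))) := by
          apply ENNReal.ofReal_le_ofReal
          calc lam * (lam ^ e * Fintype.card ι) ^ (1 / α) * N ^ (d + 2)
              ≤ Q ^ (e + 2) * (mu * lam' * (mu ^ e * Fintype.card ι') ^ (1 / α)) * N ^ (d + 2) :=
                mul_le_mul_of_nonneg_right hreal (by positivity)
            _ = _ := by ring
      _ = ENNReal.ofReal (Q ^ (e + 2)) *
          ENNReal.ofReal (mu * lam' * (mu ^ e * Fintype.card ι') ^ (1 / α) * N ^ (d + 2)) :=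
          ENNReal.ofReal_mul (by positivity)
      _ ≤ ENNReal.ofReal (Q ^ (e + 2)) * (ENNReal.ofReal (CW * N ^ (ε / 2)) * volume (E ∩ U ∩ W)) := by
          refine mul_le_mul_right (hfin.trans ?_) _
          exact mul_le_mul_right hsub _
      _ = ENNReal.ofReal (Q ^ (e + 2) * (CW * N ^ (ε / 2))) * volume (E ∩ U ∩ W) := by
          rw [ENNReal.ofReal_mul (by positivity : (0 : ℝ) ≤ Q ^ (e + 2)), mul_assoc]
      _ ≤ _ := by
          exact mul_le_mul_left (ENNReal.ofReal_le_ofReal hQN) _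

end Pool.Agent.MPac5134.KX
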