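import Pool.Agent.Lib.MP_ac5134_an.Defs

/-!
# KX-Stm: the notions of the statement of the theorem
-/

open MeasureTheory

namespace Pool.Agent.MPac5134.KX

/-- At most `K` of the feet are in one cell of the grid `(1/N) Z^d`. -/
def FewFeet {d : ℕ} (K : ℕ) (N : ℝ) {ι : Type} (θ : ι → Cap d) : Prop :=
  ∀ z : Fin d → ℤ, ∀ s : Finset ι, (∀ i ∈ s, cell N (θ i) = z) → s.card ≤ K

/-- `‖∑ T_θ‖_p ≤ B ‖∑ T_{θ,0}‖_p` -/
def NormIneq {d : ℕ} (N : ℝ) {ι : Type} [Fintype ι] (θ : ι → Cap d) (c : ι → Sp d) (p : ENNReal)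
    (B : ℝ) : Prop :=
  eLpNorm (mult N θ c) p volume ≤
    ENNReal.ofReal B * eLpNorm (mult N θ (fun _ => 0)) p volume

/-- If `E` is measurable and contains at least the proportion `lam` of every tube then
`lam ^ q * |ι| ^ r * N ^ (n + 1) ≤ B * |E ∩ ⋃ T_θ|`. -/
def MaximalIneq {d : ℕ} (N : ℝ) {ι : Type} [Fintype ι] (θ : ι → Cap d) (c : ι → Sp d)
    (q r B : ℝ) : Prop :=
  ∀ (lam : ℝ) (E : Set (Sp d)), 0 < lam → lam ≤ 1 → MeasurableSet E →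
    (∀ i, ENNReal.ofReal lam * volume (tube N (θ i) (c i)) ≤ volume (tube N (θ i) (c i) ∩ E)) →
    ENNReal.ofReal (lam ^ q * (Fintype.card ι : ℝ) ^ r * N ^ (d + 2)) ≤
      ENNReal.ofReal B * volume (E ∩ ⋃ i, tube N (θ i) (c i))

/-- Every `v ∈ D` is a unit vector and the direction of a line which meets `E` in a set of Hausdorff
dimension at least `s`. -/
def MeetsLines {d : ℕ} (E D : Set (Sp d)) (s : ℝ) : Prop :=
  ∀ v ∈ D, ‖v‖ = 1 ∧ ∃ x : Sp d, ENNReal.ofReal s ≤ dimH {t : ℝ | x + t • v ∈ E}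

/-- `E` contains a unit segment in every direction. -/
def KakeyaSet {d : ℕ} (E : Set (Sp d)) : Prop :=
  ∀ v : Sp d, ‖v‖ = 1 → ∃ x : Sp d, ∀ t : ℝ, 0 ≤ t → t ≤ 1 → x + t • v ∈ E

end Pool.Agent.MPac5134.KX
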