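import Pool.Agent.Lib.MP_ac5134_an.KX.Defs

/-!
# KX-WinA: windows

`ell N q j = ⌈N / q ^ j⌉`, `win N q j a A = {x ∈ A | x / ell N q j = a}` (natural division).

PROOF of `window`.  Let `f (j, a) = 40 ^ j * |win N q j a A|` and take a maximiser over `j ≤ m`, `a < N + 1`
(`Finset.exists_max_image` on `range (m + 1) ×ˢ range (N + 1)`).  `x / ell ≤ x < N`, so every `x ∈ A` is in a window with
`a < N + 1`, all other windows are empty.  `f (0, 0) = |A|` (`ell N q 0 = N`).  So `|A| ≤ f (j, a)`.  If `j = m`: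
`ell N q m = 1` (`ell_last`), a window of level `m` has at most one element, `|A| ≤ 40 ^ m`, contradiction.  So `j < m` and
`f (j + 1, b) ≤ f (j, a)`, i.e. `40 |win N q (j + 1) b A| ≤ |win N q j a A|`.
-/

open RFold Finset

namespace Pool.Agent.MPac5134.KX

open Pool.Agent.MPac5134.KH

variable {N q j m : ℕ}

theorem ell_zero (N q : ℕ) : ell N q 0 = N := by
  unfold ell
  simp

theorem ell_pos (hN : 1 ≤ N) (hq : 1 ≤ q) (j : ℕ) : 1 ≤ ell N q j := by
  have hQ : 1 ≤ q ^ j := Nat.one_le_pow _ _ hq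
  unfold ell
  exact Nat.div_pos (by omega) (by omega)

theorem ell_le (hN : 1 ≤ N) (hq : 1 ≤ q) (j : ℕ) : ell N q j ≤ N := by
  have hQ : 1 ≤ q ^ j := Nat.one_le_pow _ _ hq
  unfold ell
  refine Nat.div_le_of_le_mul ?_
  obtain ⟨n, rfl⟩ : ∃ n, N = n + 1 := ⟨N - 1, by omega⟩
  obtain ⟨Q, hQ'⟩ : ∃ Q, q ^ j = Q + 1 := ⟨q ^ j - 1, by omega⟩
  rw [hQ', Nat.add_sub_cancel]
  nlinarith

theorem ell_last (hN : 1 ≤ N) (hq : 1 ≤ q) (h : N ≤ q ^ m) : ell N q m = 1 := by
  have hQ : 1 ≤ q ^ m := Nat.one_le_pow _ _ hq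
  unfold ell
  refine Nat.div_eq_of_lt_le ?_ ?_
  · omega
  · omega

private theorem WinA_ge (hq : 1 ≤ q) (j : ℕ) : N ≤ q ^ j * ell N q j := by
  have hQ : 1 ≤ q ^ j := Nat.one_le_pow _ _ hq
  unfold ell
  have h1 := Nat.div_add_mod (N + (q ^ j - 1)) (q ^ j)
  have h2 := Nat.mod_lt (N + (q ^ j - 1)) (show q ^ j > 0 by omega)
  omega

/-- `⌈N / q ^ j⌉ ≤ q ⌈N / q ^ (j + 1)⌉` -/
theorem ell_succ (hq : 1 ≤ q) (j : ℕ) : ell N q j ≤ q * ell N q (j + 1) := by
  have hQ : 1 ≤ q ^ j := Nat.one_le_pow _ _ hq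
  have h1 := WinA_ge (N := N) hq (j + 1)
  have h2 : ell N q j = (N + (q ^ j - 1)) / q ^ j := rfl
  rw [h2]
  have h3 : (N + (q ^ j - 1)) / q ^ j < q * ell N q (j + 1) + 1 := by
    rw [Nat.div_lt_iff_lt_mul (by omega)]
    have h4 : q ^ (j + 1) * ell N q (j + 1) = q * ell N q (j + 1) * q ^ j := by ring
    rw [h4] at h1
    rw [add_mul, one_mul]
    omega
  omega

/-- a window has at most `ell` elements -/
theorem win_card (hN : 1 ≤ N) (hq : 1 ≤ q) (j a : ℕ) (A : Finset ℕ) :
    (win N q j a A).card ≤ ell N q j := by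
  have h0 := ell_pos hN hq j
  have h1 : win N q j a A ⊆ Finset.Ico (a * ell N q j) ((a + 1) * ell N q j) := by
    intro x hx
    unfold win at hx
    rw [Finset.mem_filter] at hx
    have h2 := hx.2
    rw [Finset.mem_Ico]
    constructor
    · rw [← h2]
      exact Nat.div_mul_le_self _ _
    · rw [← Nat.div_lt_iff_lt_mul (by omega), h2]
      exact Nat.lt_succ_self a
  refine (Finset.card_le_card h1).trans ?_
  rw [Nat.card_Ico, add_mul, one_mul, Nat.add_sub_cancel_left]

private theorem WinA_empty {A : Finset ℕ} (hA : A ⊆ range N) {a : ℕ} (ha : N ≤ a) :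
    (win N q j a A).card = 0 := by
  rw [Finset.card_eq_zero]
  unfold win
  refine Finset.filter_eq_empty_iff.2 fun x hx h => ?_
  have h1 := Finset.mem_range.1 (hA hx)
  have h2 := Nat.div_le_self x (ell N q j)
  omega

theorem window (hN : 1 ≤ N) (hq : 2 ≤ q) (h : N ≤ q ^ m) {A : Finset ℕ} (hA : A ⊆ range N)
    (hbig : 40 ^ m < A.card) :
    ∃ j a : ℕ, j < m ∧ a * ell N q j ≤ N ∧ A.card ≤ 40 ^ j * (win N q j a A).card ∧
      ∀ b, 40 * (win N q (j + 1) b A).card ≤ (win N q j a A).card := by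
  have hq1 : 1 ≤ q := by omega
  obtain ⟨⟨j, a⟩, hja, hmax⟩ := Finset.exists_max_image (range (m + 1) ×ˢ range (N + 1))
    (fun x : ℕ × ℕ => 40 ^ x.1 * (win N q x.1 x.2 A).card)
    ⟨(0, 0), by simp⟩
  rw [Finset.mem_product, Finset.mem_range, Finset.mem_range] at hja
  have hmax' : ∀ i b : ℕ, i ≤ m → 40 ^ i * (win N q i b A).card ≤ 40 ^ j * (win N q j a A).card := by
    intro i b hi
    by_cases hb : b < N + 1
    · exact hmax (i, b) (by
        rw [Finset.mem_product, Finset.mem_range, Finset.mem_range]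
        exact ⟨by show i < m + 1; omega, hb⟩)
    · rw [WinA_empty hA (by omega), mul_zero]
      exact Nat.zero_le _
  have h00 : (win N q 0 0 A).card = A.card := by
    congr 1
    unfold win
    refine Finset.filter_true_of_mem fun x hx => ?_
    rw [ell_zero]
    exact Nat.div_eq_of_lt (Finset.mem_range.1 (hA hx))
  have hbase : A.card ≤ 40 ^ j * (win N q j a A).card := by
    have h1 := hmax' 0 0 (Nat.zero_le _)
    rwa [pow_zero, one_mul, h00] at h1
  have hjm : j < m := by
    rcases Nat.lt_or_ge j m with h1 | h1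
    · exact h1
    · exfalso
      have h2 : j = m := by
        have := hja.1
        simp only at this
        omega
      subst h2
      have h3 := win_card hN hq1 j a A
      rw [ell_last hN hq1 h] at h3
      have h4 : 40 ^ j * (win N q j a A).card ≤ 40 ^ j * 1 := Nat.mul_le_mul_left _ h3
      omega
  refine ⟨j, a, hjm, ?_, hbase, fun b => ?_⟩
  · have hpos : 0 < (win N q j a A).card := by
      rcases Nat.eq_zero_or_pos (win N q j a A).card with h1 | h1
      · rw [h1, mul_zero] at hbase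
        rw [Nat.le_zero.1 hbase] at hbig
        exact absurd hbig (Nat.not_lt_zero _)
      · exact h1
    obtain ⟨x, hx⟩ := Finset.card_pos.1 hpos
    unfold win at hx
    rw [Finset.mem_filter] at hx
    have h2 := Finset.mem_range.1 (hA hx.1)
    have h3 := Nat.div_mul_le_self x (ell N q j)
    rw [hx.2] at h3
    omega
  · have h1 := hmax' (j + 1) b (by omega)
    have h2 : 40 ^ (j + 1) * (win N q (j + 1) b A).card =
        40 ^ j * (40 * (win N q (j + 1) b A).card) := by ring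
    rw [h2] at h1
    exact Nat.le_of_mul_le_mul_left h1 (by positivity)

end Pool.Agent.MPac5134.KX
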